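import Pool.Agent.Helper42.IR.Defs

/-! The relation between a character of `K` and its partner (project IR). -/

namespace Pool.Agent.Helper42.IR

open Pool.Agent.Helper42.INC

/-- types of partners: either `ψ` is induced from `l0 × φ`, or `Q` is in the kernel of `ψ` -/
def Typ {G : Type} [Group G] (K Q H : Subgroup G) (χ ψ φ : G → ℂ) : Prop :=
  (∃ l0 ∈ IrrS Q, l0 ≠ oneS Q ∧ EX K Q H ψ φ l0 1 ∧ aa Q H χ l0 φ ≠ 0) ∨
  ((∀ x ∈ Q, ∀ n ∈ NN K Q, ψ (x * n) = ψ n) ∧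
    ∀ lam ∈ IrrS Q, lam ≠ oneS Q → aa Q H χ lam φ ≠ 0)

/-- the output of section 4 -/
structure Sec4 {G : Type} [Group G] (p : ℕ) (K Q H : Subgroup G) (F : (G → ℂ) → (G → ℂ)) :
    Prop where
  bij : Set.BijOn F (IrrSP p K) (IrrSP p (NN K Q))
  equivariant : ∀ n ∈ Subgroup.normalizer (Q : Set G), ∀ χ ∈ IrrSP p K,
    F (cnj n χ) = cnj n (F χ)
  degree : ∀ χ ∈ IrrSP p K, (deg (F χ) : ZMod p) ^ 2 = (deg χ : ZMod p) ^ 2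
  block : ∀ χ ∈ IrrSP p K, ∀ φ ∈ IrrS H, Bl Q H χ φ ↔ Bl Q H (F χ) φ
  typ : ∀ χ ∈ IrrSP p K, ∀ φ ∈ IrrS H, Bl Q H χ φ → Typ K Q H χ (F χ) φ

end Pool.Agent.Helper42.IR
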