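import Pool.Agent.Helper42.IR.RankLe

/-!
# IR-04 (project IR): ranks of idempotent matrices

`rank_idem_map`: `rank (g E) ≤ rank (f E)` and `rank (g (1 - E)) ≤ rank (f (1 - E))` by
`rank_map_le`; for an idempotent matrix `P` over a field `rank P + rank (1 - P) = n` (the range of
`1 - P` is the kernel of `P`), so both inequalities are equalities.
`trace_idem`: the trace of an idempotent matrix over a field is its rank
(Mathlib: `LinearMap.IsProj.trace` / `IsIdempotentElem` and trace, or use a basis adapted to
`V = range ⊕ ker`).
-/

namespace Pool.Agent.Helper42.IR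

theorem rank_add_rank_idem {F : Type*} [Field F] {n : ℕ} (P : Matrix (Fin n) (Fin n) F)
    (hP : P * P = P) : P.rank + (1 - P).rank = n := by
  have h1 : P.rank + (1 - P).rank ≤ n := by
    have h := Matrix.rank_add_rank_le_card_of_mul_eq_zero (A := P) (B := 1 - P)
      (by rw [mul_sub, mul_one, hP, sub_self])
    simpa using h
  have h2 : n ≤ P.rank + (1 - P).rank := by
    have h3 : (P + (1 - P)).rank ≤ P.rank + (1 - P).rank := by
      unfold Matrix.rank
      rw [Matrix.mulVecLin_add]
      refine le_trans (Submodule.finrank_mono (LinearMap.range_add_le _ _)) ?_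
      exact Submodule.finrank_add_le_finrank_add_finrank _ _
    rw [add_sub_cancel, Matrix.rank_one, Fintype.card_fin] at h3
    exact h3
  omega

theorem rank_idem_map {R F k : Type*} [CommRing R] [Field F] [Field k] (f : R →+* F) (g : R →+* k)
    (hf : Function.Injective f) {n : ℕ} (E : Matrix (Fin n) (Fin n) R) (hE : E * E = E) :
    (E.map g).rank = (E.map f).rank := by
  have hg : (E.map g) * (E.map g) = E.map g := by
    rw [← Matrix.map_mul, hE]
  have hf' : (E.map f) * (E.map f) = E.map f := by
    rw [← Matrix.map_mul, hE]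
  have e1 := rank_add_rank_idem _ hg
  have e2 := rank_add_rank_idem _ hf'
  have l1 := rank_map_le f g hf E
  have l2 := rank_map_le f g hf (1 - E)
  have m1 : (1 - E).map g = 1 - E.map g := by
    rw [Matrix.map_sub _ (map_sub g), Matrix.map_one _ (map_zero g) (map_one g)]
  have m2 : (1 - E).map f = 1 - E.map f := by
    rw [Matrix.map_sub _ (map_sub f), Matrix.map_one _ (map_zero f) (map_one f)]
  rw [m1, m2] at l2
  omega

theorem trace_idem {F : Type*} [Field F] {n : ℕ} (P : Matrix (Fin n) (Fin n) F)
    (hP : P * P = P) : P.trace = (P.rank : F) := by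
  have hi : IsIdempotentElem (Matrix.toLin' P) := by
    unfold IsIdempotentElem
    rw [Module.End.mul_eq_comp, ← Matrix.toLin'_mul, hP]
  have h := (LinearMap.IsIdempotentElem.isProj_range _ hi).trace
  rw [Matrix.trace_toLin'_eq] at h
  rw [h]
  rfl

end Pool.Agent.Helper42.IR
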