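import Mathlib

/-!
# IR-03 (project IR): the rank of a reduction is at most the rank over the fraction field

`R` a commutative ring, `f : R → F` an injective ring homomorphism into a field, `g : R → k` any
ring homomorphism into a field. For a matrix `A` over `R`: `rank (g A) ≤ rank (f A)`.

Proof: let `r` be the rank of `g A`. Choose `r` linearly independent columns of `g A` and then `r`
linearly independent rows of the resulting matrix, so that some `r × r` submatrix
`(A.submatrix a b)` has `det (g (A.submatrix a b)) = g (det (A.submatrix a b)) ≠ 0`. So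
`det (A.submatrix a b) ≠ 0` and, `f` being injective, `det (f (A.submatrix a b)) ≠ 0`. Hence the
submatrix of `f A` is invertible of rank `r` and `rank (f A) ≥ r` (`Matrix.rank_submatrix_le`).
-/

namespace Pool.Agent.Helper42.IR

open Matrix in
private theorem ir_rows {k : Type*} [Field k] {m n : ℕ} (B : Matrix (Fin m) (Fin n) k) :
    ∃ a : Fin B.rank → Fin m, LinearIndependent k (B.submatrix a id).row := by
  have h := Submodule.exists_fun_fin_finrank_span_eq k (Set.range B.row)
  have hr := B.rank_eq_finrank_span_row
  rw [← hr] at h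
  obtain ⟨f, hf, -, hi⟩ := h
  choose a ha using hf
  refine ⟨a, ?_⟩
  have he : (B.submatrix a id).row = f := by
    funext i
    exact ha i
  rw [he]
  exact hi

open Matrix in
private theorem ir_sub {k : Type*} [Field k] {m n : ℕ} (B : Matrix (Fin m) (Fin n) k) :
    ∃ (a : Fin B.rank → Fin m) (b : Fin B.rank → Fin n), (B.submatrix a b).det ≠ 0 := by
  obtain ⟨a, ha⟩ := ir_rows B
  have h1 : (B.submatrix a id).rank = B.rank := by
    rw [ha.rank_matrix, Fintype.card_fin]
  have h2 : (B.submatrix a id)ᵀ.rank = B.rank := by rw [rank_transpose, h1]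
  obtain ⟨b, hb⟩ := ir_rows (B.submatrix a id)ᵀ
  have hc : LinearIndependent k (((B.submatrix a id)ᵀ).submatrix (b ∘ Fin.cast h2.symm) id).row := by
    have h3 := hb.comp (Fin.cast h2.symm) (Fin.cast_injective h2.symm)
    exact h3
  refine ⟨a, b ∘ Fin.cast h2.symm, ?_⟩
  have h4 := linearIndependent_rows_iff_isUnit.1 hc
  have h5 : ((B.submatrix a id)ᵀ).submatrix (b ∘ Fin.cast h2.symm) id =
      (B.submatrix a (b ∘ Fin.cast h2.symm))ᵀ := by
    ext i j
    rfl
  rw [h5] at h4
  have h6 := (Matrix.isUnit_iff_isUnit_det _).1 h4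
  rw [det_transpose] at h6
  exact h6.ne_zero

theorem rank_map_le {R F k : Type*} [CommRing R] [Field F] [Field k] (f : R →+* F) (g : R →+* k)
    (hf : Function.Injective f) {m n : ℕ} (A : Matrix (Fin m) (Fin n) R) :
    (A.map g).rank ≤ (A.map f).rank := by
  obtain ⟨a, b, hab⟩ := ir_sub (A.map g)
  have h1 : g ((A.submatrix a b).det) ≠ 0 := by
    rw [RingHom.map_det]
    exact hab
  have h2 : (A.submatrix a b).det ≠ 0 := fun h => h1 (by rw [h, map_zero])
  have h3 : ((A.map f).submatrix a b).det ≠ 0 := by
    have h4 : f ((A.submatrix a b).det) ≠ 0 := by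
      intro h
      exact h2 (hf (by rw [h, map_zero]))
    rw [RingHom.map_det] at h4
    exact h4
  have h5 := Matrix.rank_of_det_ne_zero h3
  rw [Fintype.card_fin] at h5
  rw [← h5]
  exact Matrix.rank_submatrix_le _ _ _

end Pool.Agent.Helper42.IR
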