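import Pool.Agent.Helper42.IR.Defs

/-!
# IR-01 (project IR, section 3.0): a valuation ring of `ℂ` above `p`

Proof of `exists_val`: apply `Ideal.image_subset_nonunits_valuationSubring` (Mathlib,
RingTheory/Valuation/LocalSubring) to `A = (Int.castRingHom ℂ).range` and the ideal generated by
`p`; it is proper since `p` is not a unit of `ℤ` and `ℤ → A` is an isomorphism.
`integral_mem`: a `ValuationSubring` is integrally closed (instance), `ℂ` is its fraction field.
`inv_nat_mem`: write `1 = a m + b p` in `ℤ`; `p` is in the maximal ideal, so `a m = 1 - b p` is a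
unit of the local ring, hence so is `m`. `charP_kk`: `p = 0` in the residue field.
-/

namespace Pool.Agent.Helper42.IR

open Pool.Agent.Helper42.INC

/-- existence of a valuation ring above `p` -/
theorem exists_val (p : ℕ) [Fact p.Prime] :
    ∃ O : ValuationSubring ℂ, ((p : ℕ) : O) ∈ IsLocalRing.maximalIdeal O := by
  have hp : p.Prime := Fact.out
  have hpA : (p : ℂ) ∈ (Int.castRingHom ℂ).range := ⟨(p : ℤ), by simp⟩
  have hI : Ideal.span {(⟨(p : ℂ), hpA⟩ : (Int.castRingHom ℂ).range)} ≠ ⊤ := by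
    intro h
    have h1 : (1 : (Int.castRingHom ℂ).range) ∈
        Ideal.span {(⟨(p : ℂ), hpA⟩ : (Int.castRingHom ℂ).range)} := by
      rw [h]
      exact Submodule.mem_top
    obtain ⟨⟨a, z, hz⟩, ha⟩ := Ideal.mem_span_singleton'.1 h1
    have h2 : a * (p : ℂ) = 1 := congrArg Subtype.val ha
    rw [← hz] at h2
    have h3 : z * (p : ℤ) = 1 := by
      have h4 : ((z * (p : ℤ) : ℤ) : ℂ) = ((1 : ℤ) : ℂ) := by
        push_cast
        exact h2
      exact_mod_cast h4
    have h5 : (p : ℤ) ∣ 1 := ⟨z, by rw [mul_comm]; exact h3.symm⟩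
    have h6 : p ∣ 1 := by exact_mod_cast h5
    exact hp.one_lt.ne' (Nat.dvd_one.1 h6)
  obtain ⟨B, -, hB⟩ := Ideal.image_subset_nonunits_valuationSubring _ hI
  refine ⟨B, ?_⟩
  have h1 : (p : ℂ) ∈ B.nonunits := hB ⟨⟨(p : ℂ), hpA⟩, Ideal.mem_span_singleton_self _, rfl⟩
  obtain ⟨h2, h3⟩ := ValuationSubring.mem_nonunits_iff_exists_mem_maximalIdeal.1 h1
  have h4 : ((p : ℕ) : B) = ⟨(p : ℂ), h2⟩ := Subtype.ext (by simp)
  rw [h4]
  exact h3

/-- the valuation ring -/
noncomputable def OO (p : ℕ) [Fact p.Prime] : ValuationSubring ℂ := (exists_val p).choose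

lemma p_mem (p : ℕ) [Fact p.Prime] : ((p : ℕ) : OO p) ∈ IsLocalRing.maximalIdeal (OO p) :=
  (exists_val p).choose_spec

/-- its residue field -/
noncomputable abbrev kk (p : ℕ) [Fact p.Prime] : Type := IsLocalRing.ResidueField (OO p)

variable {p : ℕ} [Fact p.Prime]

lemma integral_mem {z : ℂ} (hz : IsIntegral ℤ z) : z ∈ OO p := by
  have h1 : IsIntegral (OO p) z := hz.tower_top
  obtain ⟨y, hy⟩ := IsIntegrallyClosed.isIntegral_iff.1 h1
  rw [← hy]
  exact y.2

lemma isUnit_nat {m : ℕ} (hm : ¬ p ∣ m) : IsUnit ((m : ℕ) : OO p) := by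
  by_contra hnu
  have hmem : ((m : ℕ) : OO p) ∈ IsLocalRing.maximalIdeal (OO p) := hnu
  have hp : p.Prime := Fact.out
  have hco : Nat.Coprime p m := (Nat.Prime.coprime_iff_not_dvd hp).2 hm
  obtain ⟨a, b, hab⟩ := Nat.isCoprime_iff_coprime.2 hco
  have h1 : (1 : OO p) ∈ IsLocalRing.maximalIdeal (OO p) := by
    have h2 : (1 : OO p) = ((a * (p : ℤ) + b * (m : ℤ) : ℤ) : OO p) := by
      rw [hab, Int.cast_one]
    rw [h2]
    push_cast
    exact Ideal.add_mem _ (Ideal.mul_mem_left _ _ (p_mem p)) (Ideal.mul_mem_left _ _ hmem)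
  exact (Ideal.ne_top_iff_one _).1 (IsLocalRing.maximalIdeal.isMaximal (OO p)).ne_top h1

lemma inv_nat_mem {m : ℕ} (hm : ¬ p ∣ m) : ((m : ℂ))⁻¹ ∈ OO p := by
  obtain ⟨u, hu⟩ := (isUnit_nat (p := p) hm).exists_right_inv
  have h1 : (m : ℂ) * (u : ℂ) = 1 := by
    have h2 := congrArg (Subtype.val : OO p → ℂ) hu
    simpa using h2
  have h3 : (m : ℂ)⁻¹ = (u : ℂ) := inv_eq_of_mul_eq_one_right h1
  rw [h3]
  exact u.2

/-- a natural number in the maximal ideal is divisible by `p` -/
lemma dvd_of_mem {m : ℕ} (hm : ((m : ℕ) : OO p) ∈ IsLocalRing.maximalIdeal (OO p)) : p ∣ m := by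
  by_contra h
  exact hm (isUnit_nat h)

instance charP_kk : CharP (kk p) p := by
  refine ⟨fun x => ?_⟩
  have h1 : ((x : ℕ) : kk p) = IsLocalRing.residue (OO p) ((x : ℕ) : OO p) := by
    rw [map_natCast]
  rw [h1, IsLocalRing.residue_eq_zero_iff]
  constructor
  · exact dvd_of_mem
  · rintro ⟨y, rfl⟩
    rw [Nat.cast_mul]
    exact Ideal.mul_mem_right _ _ (p_mem p)

/-- reduction of matrices to `ℂ` -/
noncomputable def toC {n : ℕ} (A : Matrix (Fin n) (Fin n) (OO p)) : Matrix (Fin n) (Fin n) ℂ :=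
  A.map (algebraMap (OO p) ℂ)

/-- reduction of matrices to the residue field -/
noncomputable def toK {n : ℕ} (A : Matrix (Fin n) (Fin n) (OO p)) :
    Matrix (Fin n) (Fin n) (kk p) :=
  A.map (IsLocalRing.residue (OO p))

/-- the character of an integral matrix representation -/
noncomputable def chR {K : Type} [Group K] {n : ℕ} (R : K →* Matrix (Fin n) (Fin n) (OO p)) :
    K → ℂ := fun g => ((R g).trace : ℂ)

/-- the matrix representation is absolutely irreducible over `ℂ` (only scalars commute) -/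
def SchurR {K : Type} [Group K] {n : ℕ} (R : K →* Matrix (Fin n) (Fin n) (OO p)) : Prop :=
  0 < n ∧ ∀ A : Matrix (Fin n) (Fin n) ℂ, (∀ g, A * toC (R g) = toC (R g) * A) →
    ∃ c : ℂ, A = c • (1 : Matrix (Fin n) (Fin n) ℂ)

/-- the reduction is indecomposable, in the form: commuting matrices are nilpotent or units -/
def LocalR {K : Type} [Group K] {n : ℕ} (R : K →* Matrix (Fin n) (Fin n) (OO p)) : Prop :=
  ∀ A : Matrix (Fin n) (Fin n) (kk p), (∀ g, A * toK (R g) = toK (R g) * A) →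
    IsNilpotent A ∨ IsUnit A

end Pool.Agent.Helper42.IR
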