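import Pool.Agent.Helper42.IR.Defs

/-!
# IR-14 (project IR): multiplicities of `lam × φ` in the restriction to `Q × H`

`cm Q H χ lam φ` is the multiplicity of `lam × φ` in the restriction of `χ` to `Q H ≅ Q × H`
(`Q`, `H` commuting elementwise, `Q ∩ H = 1`).

* `aa_eq`: by definition `aa lam = cm lam - cm (oneS Q)` (`oneS Q x⁻¹ = 1` for `x ∈ Q`).
* `cm_nat`: `(x, h) ↦ x h` is a homomorphism `Q × H → K`; `χ` composed with it is the character of
  a representation, and `(x, h) ↦ lam x φ h` is the character of the tensor product of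
  representations of `Q` and `H` inflated to `Q × H`; so `cm = B (..) (..)` on `Q × H` is a natural
  number (`B_char`).
* `sum_cm`: `∑_{lam ∈ IrrS Q} cm lam φ = ip H χ φ` since `∑_lam lam(x⁻¹) = |Q| δ_{x,1}` (`Q` has
  prime order, so it is abelian and all its irreducible characters are linear; or use the regular
  character: `∑ deg(lam) lam(x⁻¹) = |Q| δ` with `deg lam = 1`).
* `cm_conj`: for `t` normalizing `Q` and `H`: `cm (cnj t χ) (cnj t lam) (cnj t φ) = cm χ lam φ`
  (reindex); the same for `aa`.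
* `card_irrS_Q`: a group of prime order `p` has `p` irreducible characters, all linear.
-/

namespace Pool.Agent.Helper42.IR

open Pool.Agent.Helper42.INC

variable {K : Type} [Group K] [Finite K]

/-- the multiplicity of `lam × φ` in `χ` restricted to `Q × H` -/
noncomputable def cm (Q H : Subgroup K) (χ lam φ : K → ℂ) : ℂ :=
  ((Nat.card Q : ℂ) * (Nat.card H : ℂ))⁻¹ *
    ∑ᶠ x : Q, ∑ᶠ h : H, χ ((x : K) * (h : K)) * lam (x : K)⁻¹ * φ (h : K)⁻¹

section aux

variable {A : Type} [Group A] [Finite A]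

/-- irreducible characters of commutative groups are linear -/
lemma cmx_comm_lin (hc : ∀ x y : A, x * y = y * x) {χ : A → ℂ} (h : χ ∈ Irr A) :
    χ 1 = 1 ∧ ∀ x y, χ (x * y) = χ x * χ y := by
  classical
  have hA := Fintype.ofFinite A
  obtain ⟨n, hn, hn1⟩ := irr_one h
  have hBself := B_irr_self h
  obtain ⟨V, _, _, _, ρ, hρ, rfl⟩ := h
  have hfr : (Module.finrank ℂ V : ℂ) = n := by rw [← hn1, Representation.char_one]
  have hfr' : Module.finrank ℂ V = n := by exact_mod_cast hfr
  have hV : Nontrivial V := by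
    apply Module.nontrivial_of_finrank_pos (R := ℂ)
    rw [hfr']; exact hn
  have hsc : ∀ g : A, ∃ c : ℂ, ρ g = c • (LinearMap.id : V →ₗ[ℂ] V) := by
    intro g
    let F : Representation.IntertwiningMap ρ ρ := ⟨ρ g, fun h => by
      have h1 : ρ (g * h) = ρ (h * g) := by rw [hc]
      rw [map_mul, map_mul] at h1
      exact h1⟩
    obtain ⟨c, hcc⟩ :=
      (Representation.IsIrreducible.algebraMap_intertwiningMap_bijective_of_isAlgClosed
        (ρ := ρ)).2 F
    refine ⟨c, ?_⟩
    have : F.toLinearMap = c • LinearMap.id := by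
      rw [← hcc]; rfl
    exact this
  choose c hcc using hsc
  have hid : (LinearMap.id : V →ₗ[ℂ] V) ≠ 0 := by
    obtain ⟨v, hv⟩ := exists_ne (0 : V)
    intro h0
    exact hv (by simpa using LinearMap.congr_fun h0 v)
  have hinj : ∀ a b : ℂ, a • (LinearMap.id : V →ₗ[ℂ] V) = b • (LinearMap.id : V →ₗ[ℂ] V) →
      a = b := fun a b hab => smul_left_injective ℂ hid hab
  have hmul : ∀ x y, c (x * y) = c x * c y := by
    intro x y
    apply hinj
    rw [← hcc, map_mul, hcc x, hcc y]
    ext v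
    simp only [Module.End.mul_apply, LinearMap.smul_apply, LinearMap.id_coe, id_eq, smul_smul]
  have hone : c 1 = 1 := by
    apply hinj
    rw [← hcc, map_one, one_smul]
    rfl
  have hchar : ∀ x, ρ.character x = c x * n := by
    intro x
    unfold Representation.character
    rw [hcc x, map_smul, LinearMap.trace_id, smul_eq_mul, hfr]
  have hn2 : (n : ℂ) * n = 1 := by
    rw [B_eq] at hBself
    have h1 : ∀ x ∈ (Finset.univ : Finset A), ρ.character x * ρ.character x⁻¹ = (n : ℂ) * n := by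
      intro x _
      rw [hchar, hchar]
      have h2 : c x * c x⁻¹ = 1 := by rw [← hmul, mul_inv_cancel, hone]
      calc c x * (n : ℂ) * (c x⁻¹ * n) = (c x * c x⁻¹) * (n * n) := by ring
        _ = n * n := by rw [h2, one_mul]
    rw [Finset.sum_congr rfl h1, Finset.sum_const, Finset.card_univ, nsmul_eq_mul, ← mul_assoc,
      Nat.card_eq_fintype_card, inv_mul_cancel₀, one_mul] at hBself
    · exact hBself
    · exact_mod_cast Fintype.card_ne_zero
  have hn3 : n = 1 := by
    have : n * n = 1 := by exact_mod_cast hn2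
    exact Nat.eq_one_of_mul_eq_one_right this
  subst hn3
  constructor
  · rw [hn1]; simp
  · intro x y
    rw [hchar, hchar, hchar, hmul]
    simp

/-- the sum of the irreducible characters of a commutative group -/
lemma cmx_sum_irr (hc : ∀ x y : A, x * y = y * x) [Fintype (Irr A)] [DecidableEq A] (x : A) :
    ∑ χ : Irr A, χ.1 x = if x = 1 then (Nat.card A : ℂ) else 0 := by
  classical
  have := Fintype.ofFinite A
  set δ : A → ℂ := fun x => if x = 1 then (Nat.card A : ℂ) else 0 with hδ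
  have hδc : IsClass δ := by
    intro g x
    simp only [hδ, conj_eq_one_iff]
  have hB : ∀ χ ∈ Irr A, B δ χ = χ 1 := by
    intro χ _
    rw [B_eq, Finset.sum_eq_single 1]
    · simp only [hδ, if_true, inv_one]
      rw [← mul_assoc, inv_mul_cancel₀, one_mul]
      exact_mod_cast Nat.card_pos.ne'
    · intro x _ hx; simp only [hδ, if_neg hx]; simp
    · intro h; exact absurd (Finset.mem_univ _) h
  have h := congrFun (expand δ hδc) x
  simp only [Finset.sum_apply, Pi.smul_apply, smul_eq_mul] at h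
  change _ = δ x
  rw [h]
  apply Finset.sum_congr rfl
  intro χ _
  rw [hB χ.1 χ.2, (cmx_comm_lin hc χ.2).1, one_mul]

/-- the trivial character is irreducible -/
lemma cmx_triv : (fun _ : A => (1 : ℂ)) ∈ Irr A := by
  classical
  have := Fintype.ofFinite A
  have htr : (fun _ : A => (1 : ℂ)) = (Representation.trivial ℂ A ℂ).character := by
    funext x
    unfold Representation.character
    have : (Representation.trivial ℂ A ℂ) x = LinearMap.id := by
      ext; simp
    rw [this, LinearMap.trace_id]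
    simp
  apply irr_of_norm_one
  · intro g x; rfl
  · intro χ hχ
    obtain ⟨V, _, _, _, ρ, hρ, rfl⟩ := hχ
    rw [htr]
    exact B_char _ _
  · rw [B_eq]
    simp only [mul_one, Finset.sum_const, Finset.card_univ, nsmul_eq_mul]
    rw [Nat.card_eq_fintype_card, inv_mul_cancel₀]
    exact_mod_cast Fintype.card_ne_zero

end aux

/-- characters of `H` as functions on `K` and as functions on `H` -/
noncomputable def cmx_equiv (H : Subgroup K) : IrrS H ≃ Irr H := by
  classical
  exact
  { toFun := fun f => ⟨fun h => f.1 h, f.2.1⟩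
    invFun := fun f => ⟨fun x => if h : x ∈ H then f.1 ⟨x, h⟩ else 0, by
      constructor
      · have : (fun h : H => (fun x => if h : x ∈ H then f.1 ⟨x, h⟩ else 0) (h : K)) = f.1 := by
          funext h
          simp
        rw [this]
        exact f.2
      · intro x hx
        exact dif_neg hx⟩
    left_inv := by
      intro f
      apply Subtype.ext
      funext x
      by_cases hx : x ∈ H
      · simp [hx]
      · simp only [hx, dif_neg, not_false_eq_true]
        exact (f.2.2 x hx).symm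
    right_inv := by
      intro f
      apply Subtype.ext
      funext x
      simp }

omit [Finite K] in
lemma cmx_equiv_apply (H : Subgroup K) (f : IrrS H) (h : H) : (cmx_equiv H f).1 h = f.1 h := rfl

omit [Finite K] in
/-- groups of prime order are commutative -/
private lemma comm_of_prime {p : ℕ} [Fact p.Prime] {Q : Subgroup K} (hQ : Nat.card Q = p) :
    ∀ x y : Q, x * y = y * x := by
  have hcyc : IsCyclic Q := isCyclic_of_prime_card hQ
  obtain ⟨g, hg⟩ := hcyc.exists_generator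
  intro x y
  obtain ⟨a, rfl⟩ := Subgroup.mem_zpowers_iff.1 (hg x)
  obtain ⟨b, rfl⟩ := Subgroup.mem_zpowers_iff.1 (hg y)
  rw [← zpow_add, ← zpow_add, add_comm]

theorem aa_eq (Q H : Subgroup K) (χ lam φ : K → ℂ) :
    aa Q H χ lam φ = cm Q H χ lam φ - cm Q H χ (oneS Q) φ := by
  classical
  have := Fintype.ofFinite Q
  have := Fintype.ofFinite H
  unfold aa cm
  rw [← mul_sub]
  congr 1
  simp only [finsum_eq_sum_of_fintype]
  rw [← Finset.sum_sub_distrib]
  apply Finset.sum_congr rfl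
  intro x _
  rw [← Finset.sum_sub_distrib]
  apply Finset.sum_congr rfl
  intro h _
  have h1 : oneS Q (x : K)⁻¹ = 1 := by
    unfold oneS
    rw [if_pos (Q.inv_mem x.2)]
  rw [h1]
  ring

/-- all irreducible characters of a group of prime order are linear -/
theorem deg_irrS_Q {p : ℕ} [Fact p.Prime] {Q : Subgroup K} (hQ : Nat.card Q = p) {lam : K → ℂ}
    (hl : lam ∈ IrrS Q) : lam 1 = 1 ∧ (∀ x ∈ Q, ∀ y ∈ Q, lam (x * y) = lam x * lam y) ∧
      ∀ x ∈ Q, lam x ^ p = 1 := by
  have h := cmx_comm_lin (comm_of_prime hQ) hl.1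
  have h1 : lam 1 = 1 := h.1
  have hm : ∀ x ∈ Q, ∀ y ∈ Q, lam (x * y) = lam x * lam y := by
    intro x hx y hy
    exact h.2 ⟨x, hx⟩ ⟨y, hy⟩
  refine ⟨h1, hm, ?_⟩
  intro x hx
  have hp : ∀ k : ℕ, lam (x ^ k) = lam x ^ k := by
    intro k
    induction k with
    | zero => rw [pow_zero, pow_zero, h1]
    | succ k ih => rw [pow_succ, pow_succ, hm _ (Q.pow_mem hx k) _ hx, ih]
  rw [← hp]
  have h2 : (⟨x, hx⟩ : Q) ^ p = 1 := by
    rw [← hQ]; exact pow_card_eq_one'
  have h3 : x ^ p = 1 := by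
    have := congrArg (Subtype.val) h2
    simpa using this
  rw [h3, h1]

theorem oneS_mem (Q : Subgroup K) : oneS Q ∈ IrrS Q := by
  classical
  constructor
  · have : (fun h : Q => oneS Q (h : K)) = fun _ => (1 : ℂ) := by
      funext h
      unfold oneS
      rw [if_pos h.2]
    rw [this]
    exact cmx_triv
  · intro x hx
    unfold oneS
    rw [if_neg hx]

theorem card_irrS_Q {p : ℕ} [Fact p.Prime] {Q : Subgroup K} (hQ : Nat.card Q = p) :
    Nat.card (IrrS Q) = p := by
  classical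
  rw [Nat.card_congr (cmx_equiv Q)]
  have : Fintype (Irr Q) := Fintype.ofFinite _
  have h := sum_deg_sq (G := Q)
  have h1 : ∀ χ ∈ (Finset.univ : Finset (Irr Q)), (deg χ.1) ^ 2 = 1 := by
    intro χ _
    have h2 := (cmx_comm_lin (comm_of_prime hQ) χ.2).1
    have h3 : deg χ.1 = 1 := deg_eq (by rw [h2]; simp)
    rw [h3, one_pow]
  rw [Finset.sum_congr rfl h1, Finset.sum_const, Finset.card_univ, smul_eq_mul, mul_one, hQ] at h
  rw [Nat.card_eq_fintype_card]
  exact h

theorem cm_nat {p : ℕ} [Fact p.Prime] {Q H : Subgroup K} (hQ : Nat.card Q = p)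
    (hQH : ∀ x ∈ Q, ∀ h ∈ H, x * h = h * x) {χ : K → ℂ}
    (hχ : χ ∈ CharS (⊤ : Subgroup K)) {lam φ : K → ℂ}
    (hl : lam ∈ IrrS Q) (hφ : φ ∈ IrrS H) : ∃ m : ℕ, cm Q H χ lam φ = m := by
  classical
  have := Fintype.ofFinite Q
  have := Fintype.ofFinite H
  obtain ⟨⟨V, _, _, _, ρ, hρ⟩, -⟩ := hχ
  obtain ⟨⟨V1, _, _, _, ρ1, -, hρ1⟩, -⟩ := hl
  obtain ⟨⟨V2, _, _, _, ρ2, -, hρ2⟩, -⟩ := hφ
  let e : Q × H →* (⊤ : Subgroup K) :=
    { toFun := fun z => ⟨(z.1 : K) * (z.2 : K), Subgroup.mem_top _⟩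
      map_one' := by
        apply Subtype.ext
        simp
      map_mul' := by
        intro z w
        apply Subtype.ext
        change ((z.1 * w.1 : Q) : K) * ((z.2 * w.2 : H) : K) = (z.1 : K) * z.2 * ((w.1 : K) * w.2)
        rw [Subgroup.coe_mul, Subgroup.coe_mul]
        have h1 := hQH w.1 w.1.2 z.2 z.2.2
        calc (z.1 : K) * w.1 * (z.2 * w.2) = z.1 * (w.1 * z.2) * w.2 := by group
          _ = z.1 * (z.2 * w.1) * w.2 := by rw [h1]
          _ = _ := by group }
  let ρ' : Representation ℂ (Q × H) V := ρ.comp e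
  let σ1 : Representation ℂ (Q × H) V1 := ρ1.comp (MonoidHom.fst Q H)
  let σ2 : Representation ℂ (Q × H) V2 := ρ2.comp (MonoidHom.snd Q H)
  obtain ⟨m, hm⟩ := B_char ρ' (Representation.tprod σ1 σ2)
  refine ⟨m, ?_⟩
  rw [← hm, B_eq, Representation.char_tensor]
  unfold cm
  simp only [finsum_eq_sum_of_fintype]
  rw [Fintype.sum_prod_type, Nat.card_prod]
  push_cast
  congr 1
  apply Finset.sum_congr rfl
  intro x _
  apply Finset.sum_congr rfl
  intro h _
  have e1 : χ ((x : K) * (h : K)) = ρ'.character (x, h) := by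
    have := congrFun hρ ⟨(x : K) * (h : K), Subgroup.mem_top _⟩
    exact this
  have e2 : lam (x : K)⁻¹ = σ1.character (x, h)⁻¹ := by
    have := congrFun hρ1 x⁻¹
    exact this
  have e3 : φ (h : K)⁻¹ = σ2.character (x, h)⁻¹ := by
    have := congrFun hρ2 h⁻¹
    exact this
  rw [e1, e2, e3, Pi.mul_apply, mul_assoc]

theorem sum_cm {p : ℕ} [Fact p.Prime] {Q H : Subgroup K} (hQ : Nat.card Q = p)
    (χ φ : K → ℂ) : ∑ᶠ lam : IrrS Q, cm Q H χ lam.1 φ = ip H χ φ := by
  classical
  have := Fintype.ofFinite Q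
  have := Fintype.ofFinite H
  have : Fintype (Irr Q) := Fintype.ofFinite _
  have hs := cmx_sum_irr (comm_of_prime hQ)
  rw [← finsum_comp_equiv (cmx_equiv Q).symm, finsum_eq_sum_of_fintype]
  have hval : ∀ (l : Irr Q) (x : Q), ((cmx_equiv Q).symm l).1 (x : K)⁻¹ = l.1 x⁻¹ := by
    intro l x
    have h1 := cmx_equiv_apply Q ((cmx_equiv Q).symm l) x⁻¹
    rw [Equiv.apply_symm_apply] at h1
    exact h1.symm
  have hQ0 : (Nat.card Q : ℂ) ≠ 0 := by exact_mod_cast Nat.card_pos.ne'
  unfold cm ip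
  rw [← Finset.mul_sum, B_eq]
  simp only [finsum_eq_sum_of_fintype]
  rw [Finset.sum_comm]
  have h2 : ∀ x ∈ (Finset.univ : Finset Q), ∑ l : Irr Q, ∑ h : H,
      χ ((x : K) * (h : K)) * ((cmx_equiv Q).symm l).1 (x : K)⁻¹ * φ (h : K)⁻¹ =
      if x = 1 then (Nat.card Q : ℂ) * ∑ h : H, χ (h : K) * φ (h : K)⁻¹ else 0 := by
    intro x _
    rw [Finset.sum_comm]
    have h3 : ∀ h ∈ (Finset.univ : Finset H), ∑ l : Irr Q,
        χ ((x : K) * (h : K)) * ((cmx_equiv Q).symm l).1 (x : K)⁻¹ * φ (h : K)⁻¹ =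
        χ ((x : K) * (h : K)) * φ (h : K)⁻¹ * ∑ l : Irr Q, l.1 x⁻¹ := by
      intro h _
      rw [Finset.mul_sum]
      apply Finset.sum_congr rfl
      intro l _
      rw [hval]
      ring
    rw [Finset.sum_congr rfl h3, hs x⁻¹]
    by_cases hx : x = 1
    · subst hx
      rw [if_pos inv_one, if_pos rfl, Finset.mul_sum]
      apply Finset.sum_congr rfl
      intro h _
      rw [Subgroup.coe_one, one_mul]
      ring
    · rw [if_neg (by simpa using hx), if_neg hx]
      simp
  rw [Finset.sum_congr rfl h2, Finset.sum_ite_eq' Finset.univ (1 : Q)]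
  rw [if_pos (Finset.mem_univ _), ← mul_assoc, mul_inv, mul_comm (Nat.card Q : ℂ)⁻¹, mul_assoc (Nat.card H : ℂ)⁻¹,
    inv_mul_cancel₀ hQ0, mul_one]
  rfl

/-- conjugation as a permutation of a subgroup -/
private def cjE {Q : Subgroup K} {t : K} (hQ : t ∈ Subgroup.normalizer (Q : Set K)) : Q ≃ Q where
  toFun x := ⟨t⁻¹ * x * t, (Subgroup.mem_normalizer_iff''.1 hQ x).1 x.2⟩
  invFun x := ⟨t * x * t⁻¹, (Subgroup.mem_normalizer_iff.1 hQ x).1 x.2⟩
  left_inv := by
    intro x
    apply Subtype.ext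
    change t * (t⁻¹ * x * t) * t⁻¹ = x
    group
  right_inv := by
    intro x
    apply Subtype.ext
    change t⁻¹ * (t * x * t⁻¹) * t = x
    group

theorem cm_conj {Q H : Subgroup K} {t : K} (hQ : t ∈ Subgroup.normalizer (Q : Set K))
    (hH : t ∈ Subgroup.normalizer (H : Set K)) (χ lam φ : K → ℂ) :
    cm Q H (cnj t χ) (cnj t lam) (cnj t φ) = cm Q H χ lam φ := by
  unfold cm
  congr 1
  symm
  rw [← finsum_comp_equiv (cjE hQ)]
  apply finsum_congr
  intro x
  rw [← finsum_comp_equiv (cjE hH)]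
  apply finsum_congr
  intro h
  symm
  change χ (t⁻¹ * (x * h) * t) * lam (t⁻¹ * (x : K)⁻¹ * t) * φ (t⁻¹ * (h : K)⁻¹ * t) =
    χ ((t⁻¹ * x * t) * (t⁻¹ * h * t)) * lam (t⁻¹ * x * t)⁻¹ * φ (t⁻¹ * h * t)⁻¹
  have e1 : (t⁻¹ * (x : K) * t) * (t⁻¹ * h * t) = t⁻¹ * (x * h) * t := by group
  have e2 : (t⁻¹ * (x : K) * t)⁻¹ = t⁻¹ * (x : K)⁻¹ * t := by group
  have e3 : (t⁻¹ * (h : K) * t)⁻¹ = t⁻¹ * (h : K)⁻¹ * t := by group
  rw [e1, e2, e3]

theorem aa_conj {Q H : Subgroup K} {t : K} (hQ : t ∈ Subgroup.normalizer (Q : Set K))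
    (hH : t ∈ Subgroup.normalizer (H : Set K)) (χ lam φ : K → ℂ) :
    aa Q H (cnj t χ) (cnj t lam) (cnj t φ) = aa Q H χ lam φ := by
  have h1 : cnj t (oneS Q) = oneS Q := by
    funext x
    unfold cnj oneS
    have h2 := (Subgroup.mem_normalizer_iff''.1 hQ x)
    by_cases hx : x ∈ Q
    · rw [if_pos hx, if_pos (h2.1 hx)]
    · rw [if_neg hx, if_neg (fun h3 => hx (h2.2 h3))]
  rw [aa_eq, aa_eq, cm_conj hQ hH]
  congr 1
  have h3 := cm_conj hQ hH χ (oneS Q) φ
  rw [h1] at h3
  exact h3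

end Pool.Agent.Helper42.IR
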