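import Pool.Agent.Helper42.IR.LocFacts
import Pool.Agent.Helper42.IR.Cm

/-!
# IR-39 (project IR, section 3.7): orthogonality relations for the multiplicities

* `second_orth`: for fixed `g'` the function `f g = #{k | k g k⁻¹ = g'⁻¹}` is a class function and
  `B f χ = (1/|K|) ∑_k χ(k⁻¹ g' k) = χ(g')`; expand (`expand` in INC/Basic).
* `regular_top`: `∑_χ χ(1) χ(g) = |K| δ_{g,1}` (case `g' = 1` of `second_orth`), so
  `∑_χ aa χ lam φ χ(1)` is a sum over the pairs `x ∈ Q`, `h ∈ H` with `x h = 1`, i.e. `x = h = 1`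
  (`Q ∩ H = 1`), where the factor `lam 1 - 1 = 0` (`deg_irrS_Q`).
* `norm_top`: `∑_χ aa χ lam φ aa χ lam' φ = |QH|^(-2) ∑_{x,h,x',h'} (lam(x⁻¹) - 1) φ(h⁻¹)
  (lam'(x'⁻¹) - 1) φ(h'⁻¹) #{k | k x h k⁻¹ = (x' h')⁻¹}`. The terms with `x = 1` or `x' = 1` vanish. If
  `x ≠ 1` and `k x h k⁻¹ = (x' h')⁻¹ = x'⁻¹ h'⁻¹` then, taking a suitable power (an exponent which is
  `1` modulo `p` and divisible by the order prime to `p`), `k x k⁻¹ = x'⁻¹ ∈ Q` and
  `k h k⁻¹ = h'⁻¹`; so `k⁻¹ ∈ N(Q)` by `Loc.ti`, and `N(Q)` normalizes `H`. Hence the sum is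
  `|QH|^(-2) ∑_{k ∈ N} ∑_{x,h} (lam(x⁻¹) - 1) φ(h⁻¹) (lam'(k x k⁻¹) - 1) φ(k h k⁻¹)
   = |QH|^(-1) ∑_{k ∈ N} B_Q(lam' (k · k⁻¹) - 1, lam - 1) B_H(φ(k · k⁻¹), φ)`, where
  `φ(k · k⁻¹) = cnj k⁻¹ φ` is in `IrrS H`: the second factor is `1` if `k ∈ T = stab φ` and `0` otherwise;
  the first factor is `[cnj k⁻¹ lam' = lam] + 1` (`lam`, `lam'` are not `oneS Q`). So we get
  `|T : QH| + |QH|^(-1) #{k ∈ T | cnj k⁻¹ lam' = lam}`, and the last set is empty or a coset of the
  stabilizer of `lam` in `T`, which is `Q H` (`lam` is faithful on `Q`, see IR-38).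
-/

namespace Pool.Agent.Helper42.IR

open Pool.Agent.Helper42.INC

variable {p : ℕ} [Fact p.Prime] {K : Type} [Group K] [Finite K]

private noncomputable def nfE : IrrS (⊤ : Subgroup K) ≃ Irr K :=
  (cmx_equiv (⊤ : Subgroup K)).trans (irrEquiv Subgroup.topEquiv).symm

private lemma nf_orth (g g' : K) [Fintype (Irr K)] :
    ∑ χ : Irr K, χ.1 g * χ.1 g' = (Nat.card {k : K // k * g * k⁻¹ = g'⁻¹} : ℂ) := by
  classical
  have := Fintype.ofFinite K
  have hcard : ∀ g : K, (Nat.card {k : K // k * g * k⁻¹ = g'⁻¹} : ℂ) =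
      ∑ k : K, if k * g * k⁻¹ = g'⁻¹ then (1 : ℂ) else 0 := by
    intro g
    rw [Nat.card_eq_fintype_card, Fintype.card_subtype, Finset.sum_boole]
  set f : K → ℂ := fun g => ∑ k : K, if k * g * k⁻¹ = g'⁻¹ then (1 : ℂ) else 0 with hf
  have hfc : IsClass f := by
    intro a b
    simp only [hf]
    rw [← Equiv.sum_comp (Equiv.mulRight a) (fun k => if k * b * k⁻¹ = g'⁻¹ then (1 : ℂ) else 0)]
    apply Finset.sum_congr rfl
    intro k _
    have e : k * (a * b * a⁻¹) * k⁻¹ = (Equiv.mulRight a k) * b * (Equiv.mulRight a k)⁻¹ := by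
      simp only [Equiv.coe_mulRight]
      group
    rw [e]
  have hB : ∀ χ ∈ Irr K, B f χ = χ g' := by
    intro χ hχ
    have h1 : ∑ x : K, f x * χ x⁻¹ = ∑ k : K, χ g' := by
      simp only [hf]
      rw [Finset.sum_congr rfl fun x _ => Finset.sum_mul _ _ _, Finset.sum_comm]
      apply Finset.sum_congr rfl
      intro k _
      rw [Finset.sum_eq_single (k⁻¹ * g'⁻¹ * k)]
      · rw [if_pos (by group), one_mul]
        have e : (k⁻¹ * g'⁻¹ * k)⁻¹ = k⁻¹ * g' * k⁻¹⁻¹ := by group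
        rw [e]
        exact Irr.isClass hχ k⁻¹ g'
      · intro x _ hx
        rw [if_neg, zero_mul]
        intro he
        apply hx
        rw [← he]
        group
      · intro h; exact absurd (Finset.mem_univ _) h
    rw [B_eq, h1, Finset.sum_const, Finset.card_univ, nsmul_eq_mul, ← mul_assoc,
      Nat.card_eq_fintype_card, inv_mul_cancel₀, one_mul]
    exact_mod_cast Fintype.card_ne_zero
  have h := congrFun (expand f hfc) g
  simp only [Finset.sum_apply, Pi.smul_apply, smul_eq_mul] at h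
  rw [hcard]
  change _ = f g
  rw [h]
  apply Finset.sum_congr rfl
  intro χ _
  rw [hB χ.1 χ.2, mul_comm]

theorem second_orth (g g' : K) :
    ∑ᶠ χ : IrrS (⊤ : Subgroup K), χ.1 g * χ.1 g' = (Nat.card {k : K // k * g * k⁻¹ = g'⁻¹} : ℂ) := by
  classical
  have : Fintype (Irr K) := Fintype.ofFinite _
  rw [← nf_orth g g', ← finsum_eq_sum_of_fintype, ← finsum_comp_equiv nfE]
  rfl

variable {Q H : Subgroup K} (hL : Loc p (⊤ : Subgroup K) Q H)
include hL

theorem regular_top {φ lam : K → ℂ} (hφ : φ ∈ IrrS H) (hl : lam ∈ IrrS Q) :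
    ∑ᶠ χ : IrrS (⊤ : Subgroup K), aa Q H χ.1 lam φ * χ.1 1 = 0 := by
  classical
  have : Fintype (IrrS (⊤ : Subgroup K)) := by
    have : Finite (IrrS (⊤ : Subgroup K)) := Finite.of_equiv _ (nfE (K := K)).symm
    exact Fintype.ofFinite _
  have := Fintype.ofFinite Q
  have := Fintype.ofFinite H
  rw [finsum_eq_sum_of_fintype]
  unfold aa
  simp only [finsum_eq_sum_of_fintype]
  have h1 : ∀ x : Q, ∀ h : H, ∑ χ : IrrS (⊤ : Subgroup K),
      χ.1 ((x : K) * (h : K)) * (lam (x : K)⁻¹ - 1) * φ (h : K)⁻¹ * χ.1 1 = 0 := by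
    intro x h
    have h2 : ∑ χ : IrrS (⊤ : Subgroup K),
        χ.1 ((x : K) * (h : K)) * (lam (x : K)⁻¹ - 1) * φ (h : K)⁻¹ * χ.1 1 =
        (lam (x : K)⁻¹ - 1) * φ (h : K)⁻¹ *
          ∑ χ : IrrS (⊤ : Subgroup K), χ.1 ((x : K) * (h : K)) * χ.1 1 := by
      rw [Finset.mul_sum]
      apply Finset.sum_congr rfl
      intro χ _
      ring
    rw [h2]
    by_cases hx : x = 1
    · subst hx
      rw [Subgroup.coe_one, inv_one, (deg_irrS_Q hL.cQ hl).1, sub_self, zero_mul, zero_mul]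
    · have h3 := second_orth ((x : K) * (h : K)) 1
      rw [finsum_eq_sum_of_fintype] at h3
      rw [h3]
      have h4 : IsEmpty {k : K // k * ((x : K) * (h : K)) * k⁻¹ = 1⁻¹} := by
        refine ⟨fun k => hx ?_⟩
        have h5 : (k : K) * ((x : K) * (h : K)) * (k : K)⁻¹ = 1 := k.2.trans inv_one
        rw [conj_eq_one_iff] at h5
        have h6 : (x : K) ∈ Q ⊓ H := by
          refine ⟨x.2, ?_⟩
          have : (x : K) = (h : K)⁻¹ := eq_inv_of_mul_eq_one_left h5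
          change (x : K) ∈ H
          rw [this]
          exact H.inv_mem h.2
        rw [hL.inf_eq, Subgroup.mem_bot] at h6
        exact Subtype.ext h6
      rw [Nat.card_of_isEmpty]
      simp
  have h2 : ∀ χ : IrrS (⊤ : Subgroup K), ((Nat.card Q : ℂ) * (Nat.card H : ℂ))⁻¹ *
      (∑ x : Q, ∑ h : H, χ.1 ((x : K) * (h : K)) * (lam (x : K)⁻¹ - 1) * φ (h : K)⁻¹) * χ.1 1 =
      ((Nat.card Q : ℂ) * (Nat.card H : ℂ))⁻¹ *
      (∑ x : Q, ∑ h : H, χ.1 ((x : K) * (h : K)) * (lam (x : K)⁻¹ - 1) * φ (h : K)⁻¹ * χ.1 1) := by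
    intro χ
    rw [mul_assoc, Finset.sum_mul]
    congr 1
    apply Finset.sum_congr rfl
    intro x _
    rw [Finset.sum_mul]
  rw [Finset.sum_congr rfl fun χ _ => h2 χ, ← Finset.mul_sum, Finset.sum_comm]
  rw [Finset.sum_congr rfl fun x _ => Finset.sum_comm]
  rw [Finset.sum_congr rfl fun x _ => Finset.sum_congr rfl fun h _ => h1 x h]
  simp

private lemma nf_pow {lam : K → ℂ} (hl : lam ∈ IrrS Q) {x : K} (hx : x ∈ Q) (n : ℕ) :
    lam (x ^ n) = lam x ^ n := by
  obtain ⟨h1, h2, -⟩ := deg_irrS_Q hL.cQ hl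
  induction n with
  | zero => rw [pow_zero, pow_zero, h1]
  | succ n ih => rw [pow_succ, pow_succ, h2 _ (Q.pow_mem hx n) _ hx, ih]

private lemma nf_ker {lam : K → ℂ} (hl : lam ∈ IrrS Q) (hl1 : lam ≠ oneS Q) {x : K} (hx : x ∈ Q)
    (h1 : lam x = 1) : x = 1 := by
  classical
  by_contra hx1
  apply hl1
  have hp : p.Prime := Fact.out
  have hxp : x ^ p = 1 := by
    have h := pow_card_eq_one' (G := Q) (x := ⟨x, hx⟩)
    rw [hL.cQ] at h
    simpa using congrArg (Subtype.val) h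
  have ho : orderOf x = p := by
    rcases (Nat.dvd_prime hp).mp (orderOf_dvd_of_pow_eq_one hxp) with h | h
    · exact absurd (orderOf_eq_one_iff.mp h) hx1
    · exact h
  have hz : Subgroup.zpowers x = Q := by
    apply Subgroup.eq_of_le_of_card_ge
    · rw [Subgroup.zpowers_le]; exact hx
    · rw [Nat.card_zpowers, ho, hL.cQ]
  funext y
  unfold oneS
  by_cases hy : y ∈ Q
  · rw [if_pos hy]
    rw [← hz] at hy
    have hy2 := (mem_powers_iff_mem_zpowers).2 hy
    obtain ⟨n, rfl⟩ := Submonoid.mem_powers_iff _ _ |>.1 hy2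
    rw [nf_pow hL hl hx, h1, one_pow]
  · rw [if_neg hy]
    exact hl.2 y hy

/-- the stabilizer of a nontrivial character of `Q` -/
theorem stab_lam {lam : K → ℂ} (hl : lam ∈ IrrS Q) (hl1 : lam ≠ oneS Q) {t : K}
    (ht : t ∈ Subgroup.normalizer (Q : Set K)) : cnj t lam = lam ↔ t ∈ Q ⊔ H := by
  rw [hL.sup]
  have hn : ∀ x, x ∈ Q ↔ t⁻¹ * x * t ∈ Q := fun x => Subgroup.mem_normalizer_iff''.1 ht x
  constructor
  · intro h
    refine ⟨Subgroup.mem_top _, ?_⟩
    change t ∈ Subgroup.centralizer (Q : Set K)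
    rw [Subgroup.mem_centralizer_iff]
    intro x hx
    have hx' : x ∈ Q := hx
    have h1 : lam (t⁻¹ * x * t) = lam x := congrFun h x
    have h2 : lam (x⁻¹ * (t⁻¹ * x * t)) = 1 := by
      obtain ⟨h3, h4, -⟩ := deg_irrS_Q hL.cQ hl
      rw [h4 _ (Q.inv_mem hx') _ ((hn x).1 hx'), h1, ← h4 _ (Q.inv_mem hx') _ hx',
        inv_mul_cancel, h3]
    have h3 := nf_ker hL hl hl1 (Q.mul_mem (Q.inv_mem hx') ((hn x).1 hx')) h2
    calc x * t = t * (x * (x⁻¹ * (t⁻¹ * x * t))) := by group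
      _ = t * x := by rw [h3, mul_one]
  · rintro ⟨-, h⟩
    change t ∈ Subgroup.centralizer (Q : Set K) at h
    rw [Subgroup.mem_centralizer_iff] at h
    funext x
    change lam (t⁻¹ * x * t) = lam x
    by_cases hx : x ∈ Q
    · have h1 := h x hx
      rw [mul_assoc, h1]
      congr 1
      group
    · rw [hl.2 x hx, hl.2 _ (fun h2 => hx ((hn x).2 h2))]

omit hL [Finite K] in
private lemma nf_cnj_S {H : Subgroup K} {φ : K → ℂ} (hφ : φ ∈ IrrS H) {t : K}
    (ht : t ∈ Subgroup.normalizer (H : Set K)) : cnj t φ ∈ IrrS H := by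
  have h1 : ∀ x, t⁻¹ * x * t ∈ H ↔ x ∈ H := fun x => by
    have := (Subgroup.mem_normalizer_iff''.1 ht) x
    exact this.symm
  refine ⟨?_, ?_⟩
  · let e : H ≃* H :=
      { toFun := fun h => ⟨t⁻¹ * h * t, (h1 h).2 h.2⟩
        invFun := fun h => ⟨t * h * t⁻¹, (h1 _).1 (by
          have : t⁻¹ * (t * (h : K) * t⁻¹) * t = h := by group
          rw [this]
          exact h.2)⟩
        left_inv := fun h => by
          apply Subtype.ext
          change t * (t⁻¹ * (h : K) * t) * t⁻¹ = h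
          group
        right_inv := fun h => by
          apply Subtype.ext
          change t⁻¹ * (t * (h : K) * t⁻¹) * t = h
          group
        map_mul' := fun a b => by
          apply Subtype.ext
          change t⁻¹ * ((a : K) * b) * t = (t⁻¹ * a * t) * (t⁻¹ * b * t)
          group }
    exact irr_comp e hφ.1
  · intro x hx
    exact hφ.2 _ (fun h => hx ((h1 x).1 h))

omit hL [Finite K] in
private lemma nf_cnj_oneS {t : K} (hQ : t ∈ Subgroup.normalizer (Q : Set K)) :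
    cnj t (oneS Q) = oneS Q := by
  funext x
  unfold cnj oneS
  have h2 := (Subgroup.mem_normalizer_iff''.1 hQ x)
  by_cases hx : x ∈ Q
  · rw [if_pos hx, if_pos (h2.1 hx)]
  · rw [if_neg hx, if_neg (fun h3 => hx (h2.2 h3))]

omit hL in
open Classical in
private lemma nf_B (H : Subgroup K) [Fintype H] {f g : K → ℂ} (hf : f ∈ IrrS H) (hg : g ∈ IrrS H) :
    ∑ h : H, f (h : K) * g (h : K)⁻¹ = if f = g then (Nat.card H : ℂ) else 0 := by
  have h1 := B_irr hf.1 hg.1
  rw [B_eq] at h1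
  have hc : (Nat.card H : ℂ) ≠ 0 := by exact_mod_cast Nat.card_pos.ne'
  have h2 : ∑ h : H, f (h : K) * g (h : K)⁻¹ =
      (Nat.card H : ℂ) * ((Nat.card H : ℂ)⁻¹ * ∑ h : H, f (h : K) * g ((h⁻¹ : H) : K)) := by
    rw [← mul_assoc, mul_inv_cancel₀ hc, one_mul]
    rfl
  rw [h2, h1]
  have h3 : ((fun h : H => f (h : K)) = fun h : H => g (h : K)) ↔ f = g := by
    constructor
    · intro h
      funext x
      by_cases hx : x ∈ H
      · exact congrFun h ⟨x, hx⟩
      · rw [hf.2 x hx, hg.2 x hx]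
    · intro h; rw [h]
  by_cases h4 : f = g
  · rw [if_pos (h3.2 h4), if_pos h4, mul_one]
  · rw [if_neg (fun h => h4 (h3.1 h)), if_neg h4, mul_zero]

/-- uniqueness of the decomposition in `Q H` -/
private lemma nf_uniq {x y h k : K} (hx : x ∈ Q) (hy : y ∈ Q) (hh : h ∈ H) (hk : k ∈ H)
    (e : x * h = y * k) : x = y ∧ h = k := by
  have h1 : y⁻¹ * x = k * h⁻¹ := by
    rw [inv_mul_eq_iff_eq_mul, ← mul_assoc, ← e]
    group
  have h2 : y⁻¹ * x ∈ Q ⊓ H := by
    refine ⟨Q.mul_mem (Q.inv_mem hy) hx, ?_⟩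
    change y⁻¹ * x ∈ H
    rw [h1]
    exact H.mul_mem hk (H.inv_mem hh)
  rw [hL.inf_eq, Subgroup.mem_bot] at h2
  rw [h2] at h1
  exact ⟨(inv_mul_eq_one.mp h2).symm, (mul_inv_eq_one.mp h1.symm).symm⟩

/-- the contribution of a single element of `K` -/
private lemma nf_one [Fintype Q] [Fintype H] {φ lam lam' : K → ℂ} (hφ : φ ∈ IrrS H)
    (hl : lam ∈ IrrS Q) (hl' : lam' ∈ IrrS Q) (h1 : lam ≠ oneS Q) (h1' : lam' ≠ oneS Q)
    (k : K) : (by classical exact
    ∑ s : Q × H, ∑ s' : Q × H, ((lam (s.1 : K)⁻¹ - 1) * φ (s.2 : K)⁻¹) *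
      ((lam' (s'.1 : K)⁻¹ - 1) * φ (s'.2 : K)⁻¹) *
      (if k * ((s.1 : K) * s.2) * k⁻¹ = ((s'.1 : K) * s'.2)⁻¹ then (1 : ℂ) else 0) =
    ((Nat.card Q : ℂ) * (Nat.card H : ℂ)) *
      ((if k ∈ NN (⊤ : Subgroup K) Q ⊓ stab φ then 1 else 0) +
       (if k ∈ NN (⊤ : Subgroup K) Q ⊓ stab φ ∧ cnj k lam = lam' then 1 else 0))) := by
  classical
  by_cases hk : k ∈ Subgroup.normalizer (Q : Set K)
  · have hkH : k ∈ Subgroup.normalizer (H : Set K) := by
      refine hL.norm_H ?_ hk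
      rw [Subgroup.mem_normalizer_iff]
      intro x
      simp
    have hki : k⁻¹ ∈ Subgroup.normalizer (Q : Set K) := inv_mem hk
    have hkHi : k⁻¹ ∈ Subgroup.normalizer (H : Set K) := inv_mem hkH
    have hA : ∀ s : Q × H, ∑ s' : Q × H, ((lam (s.1 : K)⁻¹ - 1) * φ (s.2 : K)⁻¹) *
        ((lam' (s'.1 : K)⁻¹ - 1) * φ (s'.2 : K)⁻¹) *
        (if k * ((s.1 : K) * s.2) * k⁻¹ = ((s'.1 : K) * s'.2)⁻¹ then (1 : ℂ) else 0) =
        ((cnj k⁻¹ lam' (s.1 : K) - 1) * (lam (s.1 : K)⁻¹ - 1)) *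
          (cnj k⁻¹ φ (s.2 : K) * φ (s.2 : K)⁻¹) := by
      intro s
      have m1 : k * (s.1 : K)⁻¹ * k⁻¹ ∈ Q :=
        (Subgroup.mem_normalizer_iff.1 hk _).1 (Q.inv_mem s.1.2)
      have m2 : k * (s.2 : K)⁻¹ * k⁻¹ ∈ H :=
        (Subgroup.mem_normalizer_iff.1 hkH _).1 (H.inv_mem s.2.2)
      have e1 : (k * (s.1 : K)⁻¹ * k⁻¹)⁻¹ = k⁻¹⁻¹ * (s.1 : K) * k⁻¹ := by group
      have e2 : (k * (s.2 : K)⁻¹ * k⁻¹)⁻¹ = k⁻¹⁻¹ * (s.2 : K) * k⁻¹ := by group
      have hcm := hL.comm _ m1 _ m2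
      rw [Finset.sum_eq_single (⟨k * (s.1 : K)⁻¹ * k⁻¹, m1⟩, ⟨k * (s.2 : K)⁻¹ * k⁻¹, m2⟩)]
      · rw [if_pos, mul_one]
        · simp only [cnj_apply]
          rw [e1, e2]
          ring
        · change k * ((s.1 : K) * s.2) * k⁻¹ =
            (k * (s.1 : K)⁻¹ * k⁻¹ * (k * (s.2 : K)⁻¹ * k⁻¹))⁻¹
          rw [hcm]
          group
      · intro s' _ hs'
        rw [if_neg, mul_zero]
        intro he
        apply hs'
        have he2 : (s'.1 : K) * s'.2 = (k * (s.1 : K)⁻¹ * k⁻¹) * (k * (s.2 : K)⁻¹ * k⁻¹) := by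
          rw [hcm, ← inv_inj, ← he]
          group
        obtain ⟨h3, h4⟩ := nf_uniq hL s'.1.2 m1 s'.2.2 m2 he2
        exact Prod.ext (Subtype.ext h3) (Subtype.ext h4)
      · intro h; exact absurd (Finset.mem_univ _) h
    rw [Finset.sum_congr rfl fun s _ => hA s, Fintype.sum_prod_type]
    simp only
    rw [← Finset.sum_mul_sum]
    have hH := nf_B H (nf_cnj_S hφ hkHi) hφ
    have hQ : ∑ x : Q, (cnj k⁻¹ lam' (x : K) - 1) * (lam (x : K)⁻¹ - 1) =
        (if cnj k⁻¹ lam' = lam then (Nat.card Q : ℂ) else 0) + (Nat.card Q : ℂ) := by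
      have q1 := nf_B Q (nf_cnj_S hl' hki) hl
      have q2 := nf_B Q (nf_cnj_S hl' hki) (oneS_mem Q)
      have q3 := nf_B Q (oneS_mem Q) hl
      have q4 := nf_B Q (oneS_mem Q) (oneS_mem Q)
      rw [if_neg] at q2
      · rw [if_neg (Ne.symm h1)] at q3
        rw [if_pos rfl] at q4
        have q5 : ∀ x : Q, (cnj k⁻¹ lam' (x : K) - 1) * (lam (x : K)⁻¹ - 1) =
            cnj k⁻¹ lam' (x : K) * lam (x : K)⁻¹ - cnj k⁻¹ lam' (x : K) * oneS Q (x : K)⁻¹ -
            oneS Q (x : K) * lam (x : K)⁻¹ + oneS Q (x : K) * oneS Q (x : K)⁻¹ := by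
          intro x
          have r1 : oneS Q (x : K) = 1 := by
            unfold oneS
            rw [if_pos x.2]
          have r2 : oneS Q (x : K)⁻¹ = 1 := by
            unfold oneS
            rw [if_pos (Q.inv_mem x.2)]
          rw [r1, r2]
          ring
        rw [Finset.sum_congr rfl fun x _ => q5 x, Finset.sum_add_distrib, Finset.sum_sub_distrib,
          Finset.sum_sub_distrib, q1, q2, q3, q4]
        ring
      · intro h
        apply h1'
        have := congrArg (cnj k) h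
        rw [cnj_cnj, mul_inv_cancel, cnj_one, nf_cnj_oneS hk] at this
        exact this
    rw [hQ, hH]
    have hT : k ∈ NN (⊤ : Subgroup K) Q ⊓ stab φ ↔ cnj k⁻¹ φ = φ := by
      constructor
      · rintro ⟨-, h⟩
        have h2 : cnj k φ = φ := h
        nth_rewrite 1 [← h2]
        exact cnj_inv_cnj k φ
      · intro h
        refine ⟨⟨Subgroup.mem_top _, hk⟩, ?_⟩
        change cnj k φ = φ
        nth_rewrite 1 [← h]
        rw [cnj_cnj, mul_inv_cancel, cnj_one]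
    have hT2 : cnj k lam = lam' ↔ cnj k⁻¹ lam' = lam := by
      constructor
      · rintro rfl
        exact cnj_inv_cnj k lam
      · rintro rfl
        rw [cnj_cnj, mul_inv_cancel, cnj_one]
    simp only [hT, hT2]
    by_cases c1 : cnj k⁻¹ φ = φ
    · by_cases c2 : cnj k⁻¹ lam' = lam
      · simp only [c1, c2, and_self, if_true]
        ring
      · simp only [c1, c2, and_false, if_true, if_false]
        ring
    · simp only [c1, false_and, if_false]
      ring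
  · have hkT : ¬ k ∈ NN (⊤ : Subgroup K) Q ⊓ stab φ := fun h => hk h.1.2
    rw [if_neg hkT, if_neg (fun h => hkT h.1), add_zero, mul_zero]
    apply Finset.sum_eq_zero
    intro s _
    apply Finset.sum_eq_zero
    intro s' _
    by_cases hx : (s.1 : K) = 1
    · rw [hx, inv_one, (deg_irrS_Q hL.cQ hl).1]
      ring
    · rw [if_neg, mul_zero]
      intro he
      apply hk
      have hp : p.Prime := Fact.out
      have hxp : (s.1 : K) ^ p = 1 := by
        have h := pow_card_eq_one' (G := Q) (x := s.1)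
        rw [hL.cQ] at h
        simpa using congrArg (Subtype.val) h
      have ho : orderOf (s.1 : K) = p := by
        rcases (Nat.dvd_prime hp).mp (orderOf_dvd_of_pow_eq_one hxp) with h | h
        · exact absurd (orderOf_eq_one_iff.mp h) hx
        · exact h
      have hpw : ∀ h : H, (h : K) ^ Nat.card H = 1 := by
        intro h
        have h2 := congrArg (Subtype.val) (pow_card_eq_one' (G := H) (x := h))
        rwa [Subgroup.coe_pow, Subgroup.coe_one] at h2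
      have hy1 : (s.1 : K) ^ Nat.card H ≠ 1 := by
        intro h
        apply hL.pH
        rw [← ho]
        exact orderOf_dvd_of_pow_eq_one h
      have he2 : (k * ((s.1 : K) * s.2) * k⁻¹) ^ Nat.card H =
        (((s'.1 : K) * s'.2)⁻¹) ^ Nat.card H := by rw [he]
      rw [conj_pow, (show Commute (s.1 : K) (s.2 : K) from hL.comm _ s.1.2 _ s.2.2).mul_pow,
        inv_pow, (show Commute (s'.1 : K) (s'.2 : K) from hL.comm _ s'.1.2 _ s'.2.2).mul_pow,
        hpw, hpw, mul_one, mul_one] at he2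
      have h3 := hL.ti (k := k⁻¹) (Subgroup.mem_top _) (Q.pow_mem s.1.2 (Nat.card H)) hy1 (by
        rw [inv_inv, he2]
        exact Subgroup.le_normalizer (Q.inv_mem (Q.pow_mem s'.1.2 _)))
      simpa using inv_mem h3

open Classical in
theorem norm_top {φ lam lam' : K → ℂ} (hφ : φ ∈ IrrS H) (hl : lam ∈ IrrS Q)
    (hl' : lam' ∈ IrrS Q) (h1 : lam ≠ oneS Q) (h1' : lam' ≠ oneS Q) :
    ∑ᶠ χ : IrrS (⊤ : Subgroup K), aa Q H χ.1 lam φ * aa Q H χ.1 lam' φ =
      ((Q ⊔ H).relIndex (NN (⊤ : Subgroup K) Q ⊓ stab φ) : ℂ) +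
        (if ∃ n ∈ NN (⊤ : Subgroup K) Q, cnj n φ = φ ∧ cnj n lam = lam' then 1 else 0) := by
  have : Fintype (IrrS (⊤ : Subgroup K)) := by
    have : Finite (IrrS (⊤ : Subgroup K)) := Finite.of_equiv _ (nfE (K := K)).symm
    exact Fintype.ofFinite _
  have := Fintype.ofFinite Q
  have := Fintype.ofFinite H
  have := Fintype.ofFinite K
  set c : ℂ := (Nat.card Q : ℂ) * (Nat.card H : ℂ) with hc
  have hc0 : c ≠ 0 := by
    rw [hc]
    exact mul_ne_zero (by exact_mod_cast Nat.card_pos.ne') (by exact_mod_cast Nat.card_pos.ne')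
  have hcC : c = (Nat.card (Q ⊔ H : Subgroup K) : ℂ) := by
    rw [hc, hL.card_C, hL.cQ]
    push_cast
    ring
  have haa : ∀ (χ l : K → ℂ), aa Q H χ l φ =
      c⁻¹ * ∑ s : Q × H, χ ((s.1 : K) * s.2) * ((l (s.1 : K)⁻¹ - 1) * φ (s.2 : K)⁻¹) := by
    intro χ l
    unfold aa
    simp only [finsum_eq_sum_of_fintype]
    rw [Fintype.sum_prod_type]
    congr 1
    apply Finset.sum_congr rfl
    intro x _
    apply Finset.sum_congr rfl
    intro h _
    ring
  have hso : ∀ g g' : K, ∑ χ : IrrS (⊤ : Subgroup K), χ.1 g * χ.1 g' =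
      ∑ k : K, if k * g * k⁻¹ = g'⁻¹ then (1 : ℂ) else 0 := by
    intro g g'
    rw [← finsum_eq_sum_of_fintype, second_orth, Nat.card_eq_fintype_card, Fintype.card_subtype,
      Finset.sum_boole]
  rw [finsum_eq_sum_of_fintype]
  have step1 : ∑ χ : IrrS (⊤ : Subgroup K), aa Q H χ.1 lam φ * aa Q H χ.1 lam' φ =
      c⁻¹ * c⁻¹ * ∑ k : K, ∑ s : Q × H, ∑ s' : Q × H,
      ((lam (s.1 : K)⁻¹ - 1) * φ (s.2 : K)⁻¹) * ((lam' (s'.1 : K)⁻¹ - 1) * φ (s'.2 : K)⁻¹) *
      (if k * ((s.1 : K) * s.2) * k⁻¹ = ((s'.1 : K) * s'.2)⁻¹ then (1 : ℂ) else 0) := by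
    have e1 : ∀ χ : IrrS (⊤ : Subgroup K), aa Q H χ.1 lam φ * aa Q H χ.1 lam' φ =
        c⁻¹ * c⁻¹ * ∑ s : Q × H, ∑ s' : Q × H,
        ((lam (s.1 : K)⁻¹ - 1) * φ (s.2 : K)⁻¹) * ((lam' (s'.1 : K)⁻¹ - 1) * φ (s'.2 : K)⁻¹) *
        (χ.1 ((s.1 : K) * s.2) * χ.1 ((s'.1 : K) * s'.2)) := by
      intro χ
      rw [haa, haa, mul_mul_mul_comm, Finset.sum_mul_sum]
      congr 1
      apply Finset.sum_congr rfl
      intro s _
      apply Finset.sum_congr rfl
      intro s' _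
      ring
    rw [Finset.sum_congr rfl fun χ _ => e1 χ, ← Finset.mul_sum]
    congr 1
    rw [Finset.sum_comm, Finset.sum_comm (s := (Finset.univ : Finset K))]
    apply Finset.sum_congr rfl
    intro s _
    rw [Finset.sum_comm, Finset.sum_comm (s := (Finset.univ : Finset K))]
    apply Finset.sum_congr rfl
    intro s' _
    rw [← Finset.mul_sum, ← Finset.mul_sum, hso]
  rw [step1, Finset.sum_congr rfl fun k _ => nf_one hL hφ hl hl' h1 h1' k, ← Finset.mul_sum,
    Finset.sum_add_distrib]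
  set T := NN (⊤ : Subgroup K) Q ⊓ stab φ with hT
  have hCT : Q ⊔ H ≤ T := by
    refine le_inf hL.C_le_N (sup_le ?_ ?_)
    · intro t ht
      change cnj t φ = φ
      funext x
      change φ (t⁻¹ * x * t) = φ x
      by_cases hx : x ∈ H
      · rw [mul_assoc, ← hL.comm t ht x hx]
        congr 1
        group
      · rw [hφ.2 x hx, hφ.2]
        intro h
        apply hx
        have h2 := hL.comm t ht _ h
        have h3 : x = t⁻¹ * x * t := by
          have : x * t = t⁻¹ * x * t * t := by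
            rw [← h2]
            group
          exact mul_right_cancel this
        rw [h3]
        exact h
    · intro t ht
      change cnj t φ = φ
      funext x
      change φ (t⁻¹ * x * t) = φ x
      by_cases hx : x ∈ H
      · have h2 := Irr.isClass hφ.1 (⟨t, ht⟩⁻¹ : H) ⟨x, hx⟩
        have h3 : (((⟨t, ht⟩⁻¹ : H) * ⟨x, hx⟩ * (⟨t, ht⟩⁻¹ : H)⁻¹ : H) : K) = t⁻¹ * x * t := by
          simp
        rw [← h3]
        exact h2
      · rw [hφ.2 x hx, hφ.2]
        intro h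
        apply hx
        have h2 := H.mul_mem (H.mul_mem ht h) (H.inv_mem ht)
        have h3 : t * (t⁻¹ * x * t) * t⁻¹ = x := by group
        rwa [h3] at h2
  have s1 : (∑ k : K, if k ∈ T then (1 : ℂ) else 0) = c * ((Q ⊔ H).relIndex T : ℂ) := by
    rw [Finset.sum_boole, hcC]
    have h2 : Nat.card (Q ⊔ H : Subgroup K) * (Q ⊔ H).relIndex T = Nat.card T := by
      rw [mul_comm]
      have h4 := Subgroup.relIndex_mul_relIndex ⊥ (Q ⊔ H) T bot_le hCT
      rw [Subgroup.relIndex_bot_left, Subgroup.relIndex_bot_left] at h4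
      rw [mul_comm]
      exact h4
    have h3 : (Finset.univ.filter fun k : K => k ∈ T).card = Nat.card T := by
      rw [← Fintype.card_subtype, Nat.card_eq_fintype_card]
    rw [h3, ← h2, Nat.cast_mul]
  have s2 : (∑ k : K, if k ∈ T ∧ cnj k lam = lam' then (1 : ℂ) else 0) =
      c * (if ∃ n ∈ NN (⊤ : Subgroup K) Q, cnj n φ = φ ∧ cnj n lam = lam' then 1 else 0) := by
    rw [Finset.sum_boole]
    by_cases hex : ∃ n ∈ NN (⊤ : Subgroup K) Q, cnj n φ = φ ∧ cnj n lam = lam'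
    · rw [if_pos hex, mul_one, hcC]
      obtain ⟨n, hn, hn1, hn2⟩ := hex
      have hnT : n ∈ T := ⟨hn, hn1⟩
      congr 1
      rw [← Fintype.card_subtype, ← Nat.card_eq_fintype_card]
      refine Nat.card_congr ⟨fun k => ⟨n⁻¹ * k.1, ?_⟩, fun k => ⟨n * k.1, ?_⟩, ?_, ?_⟩
      · have hkT : n⁻¹ * k.1 ∈ T := T.mul_mem (T.inv_mem hnT) k.2.1
        refine (stab_lam hL hl h1 hkT.1.2).1 ?_
        rw [← cnj_cnj, k.2.2, ← hn2]
        exact cnj_inv_cnj n lam
      · have hkT : k.1 ∈ T := hCT k.2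
        refine ⟨T.mul_mem hnT hkT, ?_⟩
        rw [← cnj_cnj, (stab_lam hL hl h1 hkT.1.2).2 k.2, hn2]
      · intro k
        apply Subtype.ext
        simp
      · intro k
        apply Subtype.ext
        simp
    · rw [if_neg hex, mul_zero]
      rw [Finset.filter_false_of_mem]
      · simp
      · rintro k - ⟨hk, hk2⟩
        exact hex ⟨k, hk.1, hk.2, hk2⟩
  rw [s1, ← hc]
  have hfin : ∀ A B : ℂ, c⁻¹ * c⁻¹ * (c * (c * A + c * B)) = A + B := by
    intro A B
    rw [← mul_add, ← mul_assoc c c, ← mul_assoc, mul_assoc c⁻¹, ← mul_assoc c⁻¹ c c,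
      inv_mul_cancel₀ hc0, one_mul, inv_mul_cancel₀ hc0, one_mul]
  rw [← hfin ((Q ⊔ H).relIndex T : ℂ)]
  congr 3
  convert s2

end Pool.Agent.Helper42.IR
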