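import Pool.Agent.Helper42.IR.BSepD

/-!
# IR-38 (project IR, section 3.6): degrees modulo `p` and shapes

`NE` or `EX` with `ε = ±1` implies `Bl` (there is `lam ∈ IrrS Q`, `lam ≠ oneS Q`, as `|IrrS Q| = p ≥ 2`; for
`EX` take `lam = l0`, with `n = 1`). Let `m` be the natural number `ip H χ φ` (`ip_nat`), `c0 = cm (oneS Q)`
(`cm_nat`). By `sum_cm` and `aa_eq`: `m = p c0 + ∑_{lam} aa lam` (in `ℂ`, so in `ℤ`).
* `deg_NE`: `∑ aa = (p - 1) ε`, so `m = -ε` modulo `p`, `m ^ 2 = 1`; `deg_mod`.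
* `deg_EX`: `∑ aa = ε |orbit|` where the orbit of `l0` under `T = NN ⊤ Q ⊓ stab φ` has `|T : Q H|` elements:
  the stabilizer of `l0 ≠ oneS Q` in `T` is `Q H` (`l0` is faithful on `Q`: if `cnj n l0 = l0` then
  `l0(n⁻¹ x n) = l0(x)` gives `n⁻¹ x n = x`, so `n` centralizes `Q`, `n ∈ C(Q) = Q H`; conversely elements
  of `Q H` centralize `Q`, and they fix `φ`). Now `deg_mod` and `|N : T| |T : Q H| = |N : Q H|`
  (`Subgroup.relIndex_mul_relIndex`), `N = NN ⊤ Q = normalizer Q`.
-/

namespace Pool.Agent.Helper42.IR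

open Pool.Agent.Helper42.INC

variable {p : ℕ} [Fact p.Prime] {K : Type} [Group K] [Finite K] {n : ℕ}
  (R : K →* Matrix (Fin n) (Fin n) (OO p)) {Q H : Subgroup K} (hL : Loc p (⊤ : Subgroup K) Q H)
include hL

omit hL in
private lemma ds_chR_mem : chR R ∈ CharS (⊤ : Subgroup K) := by
  constructor
  · let τ : K →* Matrix (Fin n) (Fin n) ℂ := ((algebraMap (OO p) ℂ).mapMatrix : _ →+* _).toMonoidHom.comp R
    let σ : Representation ℂ (⊤ : Subgroup K) (Fin n → ℂ) :=
      ((Matrix.toLinAlgEquiv' (R := ℂ) (n := Fin n)).toAlgHom.toMonoidHom.comp τ).comp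
        (Subgroup.subtype ⊤)
    refine ⟨Fin n → ℂ, inferInstance, inferInstance, inferInstance, σ, ?_⟩
    funext h
    unfold Representation.character
    have h1 : σ h = Matrix.toLin' (toC (R (h : K))) := rfl
    rw [h1, Matrix.trace_toLin'_eq, trace_toC]
    rfl
  · intro x hx
    exact absurd (Subgroup.mem_top x) hx

omit hL in
private lemma ds_top : NN (⊤ : Subgroup K) Q = Subgroup.normalizer (Q : Set K) := by
  unfold NN
  rw [top_inf_eq]

private theorem deg_gen (hR : SchurR R) (hn : ¬ p ∣ n) {φ : K → ℂ} (hφ : φ ∈ IrrS H) {ε : ℂ}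
    (hε : ε = 1 ∨ ε = -1) [Fintype (IrrS Q)] (S : Finset (IrrS Q))
    (hP1 : ∀ lam ∈ S, aa Q H (chR R) lam.1 φ = ε)
    (hP0 : ∀ lam, lam ∉ S → aa Q H (chR R) lam.1 φ = 0) (hne : S.Nonempty) :
    (n : ZMod p) ^ 2 = (((Subgroup.normalizer (Q : Set K) ⊓ stab φ).relIndex
      (Subgroup.normalizer (Q : Set K)) * deg φ * S.card : ℕ) : ZMod p) ^ 2 := by
  obtain ⟨m, hm⟩ := ip_nat R hφ
  obtain ⟨c0, hc0⟩ := cm_nat hL.cQ hL.comm (ds_chR_mem R) (oneS_mem Q) hφ
  have hε0 : ε ≠ 0 := by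
    rcases hε with h | h <;> rw [h] <;> norm_num
  have hB : Bl Q H (chR R) φ := by
    obtain ⟨lam, hlam⟩ := hne
    refine ⟨lam.1, lam.2, ?_⟩
    rw [hP1 lam hlam]
    exact hε0
  have h1 := deg_mod R hL hR hn hφ hm hB
  have h2 := sum_cm (H := H) hL.cQ (chR R) φ
  rw [finsum_eq_sum_of_fintype, hm] at h2
  have h3 : ∀ lam ∈ (Finset.univ : Finset (IrrS Q)), cm Q H (chR R) lam.1 φ =
      (c0 : ℂ) + aa Q H (chR R) lam.1 φ := by
    intro lam _
    rw [aa_eq, hc0]
    ring
  have h3' : ∑ lam : IrrS Q, aa Q H (chR R) lam.1 φ = ∑ lam ∈ S, aa Q H (chR R) lam.1 φ := by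
    symm
    apply Finset.sum_subset (Finset.subset_univ _)
    intro lam _ hlam
    exact hP0 lam hlam
  rw [Finset.sum_congr rfl h3, Finset.sum_add_distrib, Finset.sum_const, Finset.card_univ,
    ← Nat.card_eq_fintype_card, card_irrS_Q hL.cQ, h3', Finset.sum_congr rfl hP1, Finset.sum_const,
    nsmul_eq_mul, nsmul_eq_mul] at h2
  set N : ℕ := S.card with hN
  have h4 : (m : ZMod p) ^ 2 = (N : ZMod p) ^ 2 := by
    rcases hε with h | h
    · rw [h, mul_one] at h2
      have h5 : m = p * c0 + N := by exact_mod_cast h2.symm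
      rw [h5]
      push_cast
      rw [ZMod.natCast_self]
      ring
    · rw [h] at h2
      have h5 : m + N = p * c0 := by
        have h6 : ((m : ℂ) + N) = p * c0 := by rw [← h2]; ring
        exact_mod_cast h6
      have h7 : ((m + N : ℕ) : ZMod p) = 0 := by
        rw [h5]
        push_cast
        rw [ZMod.natCast_self, zero_mul]
      push_cast at h7
      have h8 : (m : ZMod p) = -(N : ZMod p) := eq_neg_of_add_eq_zero_left h7
      rw [h8, neg_sq]
  rw [h1]
  push_cast
  rw [mul_pow, h4, ← mul_pow]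

theorem deg_NE (hR : SchurR R) (hn : ¬ p ∣ n) {φ : K → ℂ} (hφ : φ ∈ IrrS H) {ε : ℂ}
    (hε : ε = 1 ∨ ε = -1) (h : NE Q H (chR R) φ ε) :
    (n : ZMod p) ^ 2 = (((NN (⊤ : Subgroup K) Q ⊓ stab φ).relIndex (NN (⊤ : Subgroup K) Q) *
      deg φ : ℕ) : ZMod p) ^ 2 := by
  classical
  have hfin : Finite (IrrS Q) := Finite.of_equiv _ (cmx_equiv Q).symm
  have := Fintype.ofFinite (IrrS Q)
  have hp2 : 2 ≤ p := (Fact.out : p.Prime).two_le
  have hcard : Fintype.card (IrrS Q) = p := by
    rw [← Nat.card_eq_fintype_card, card_irrS_Q hL.cQ]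
  have hfil : (Finset.univ.filter (fun lam : IrrS Q => lam.1 ≠ oneS Q)).card = p - 1 := by
    have e : Finset.univ.filter (fun lam : IrrS Q => lam.1 ≠ oneS Q) =
        Finset.univ.erase (⟨oneS Q, oneS_mem Q⟩ : IrrS Q) := by
      ext lam
      rw [Finset.mem_filter, Finset.mem_erase]
      constructor
      · rintro ⟨-, h1⟩
        exact ⟨fun h2 => h1 (congrArg Subtype.val h2), Finset.mem_univ _⟩
      · rintro ⟨h1, -⟩
        exact ⟨Finset.mem_univ _, fun h2 => h1 (Subtype.ext h2)⟩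
    rw [e, Finset.card_erase_of_mem (Finset.mem_univ _), Finset.card_univ, hcard]
  have hne : ∃ lam : IrrS Q, lam.1 ≠ oneS Q := by
    have h1 : 0 < (Finset.univ.filter (fun lam : IrrS Q => lam.1 ≠ oneS Q)).card := by
      rw [hfil]; omega
    obtain ⟨lam, hlam⟩ := Finset.card_pos.1 h1
    exact ⟨lam, (Finset.mem_filter.1 hlam).2⟩
  have h1 := deg_gen R hL hR hn hφ hε (Finset.univ.filter (fun lam : IrrS Q => lam.1 ≠ oneS Q))
    (by
      intro lam hlam
      exact h lam.1 lam.2 (Finset.mem_filter.1 hlam).2)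
    (by
      intro lam hlam
      have h2 : lam.1 = oneS Q := by
        by_contra h3
        exact hlam (Finset.mem_filter.2 ⟨Finset.mem_univ _, h3⟩)
      rw [h2, aa_eq, sub_self])
    (by
      obtain ⟨lam, hlam⟩ := hne
      exact ⟨lam, Finset.mem_filter.2 ⟨Finset.mem_univ _, hlam⟩⟩)
  rw [h1, hfil, ds_top]
  have h2 : ((p - 1 : ℕ) : ZMod p) = -1 := by
    have h3 : ((p - 1 + 1 : ℕ) : ZMod p) = 0 := by
      rw [Nat.sub_add_cancel (by omega), ZMod.natCast_self]
    push_cast at h3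
    exact eq_neg_of_add_eq_zero_left h3
  rw [Nat.cast_mul, h2]
  ring

/-- the stabilizer of a nontrivial character of `Q` -/
private lemma ds_stab {l0 : K → ℂ} (hl : l0 ∈ IrrS Q) (hl1 : l0 ≠ oneS Q) {t : K}
    (ht : t ∈ Subgroup.normalizer (Q : Set K)) : cnj t l0 = l0 ↔ t ∈ Q ⊔ H := by
  classical
  obtain ⟨h1, h2, -⟩ := deg_irrS_Q hL.cQ hl
  have hC : (Q ⊔ H : Subgroup K) = (⊤ : Subgroup K) ⊓ Subgroup.centralizer (Q : Set K) := hL.sup
  rw [hC, top_inf_eq, Subgroup.mem_centralizer_iff]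
  constructor
  · intro h x hx
    have hmem : t⁻¹ * x * t ∈ Q := (Subgroup.mem_normalizer_iff''.1 ht x).1 hx
    have e1 : l0 (t⁻¹ * x * t) = l0 x := congrFun h x
    -- the quotient lies in the kernel
    have e2 : l0 (x⁻¹ * (t⁻¹ * x * t)) = 1 := by
      rw [h2 _ (Q.inv_mem hx) _ hmem, e1, ← h2 _ (Q.inv_mem hx) _ hx, inv_mul_cancel, h1]
    have e3 : x⁻¹ * (t⁻¹ * x * t) = 1 := by
      by_contra hne
      apply hl1
      have hzQ : x⁻¹ * (t⁻¹ * x * t) ∈ Q := Q.mul_mem (Q.inv_mem hx) hmem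
      have hz : (⟨x⁻¹ * (t⁻¹ * x * t), hzQ⟩ : Q) ≠ 1 := fun h0 => hne (congrArg Subtype.val h0)
      funext w
      by_cases hw : w ∈ Q
      · obtain ⟨k, hk⟩ := (Submonoid.mem_powers_iff _ _).1
          (mem_powers_of_prime_card (g' := (⟨w, hw⟩ : Q)) hL.cQ hz)
        have hk' : (x⁻¹ * (t⁻¹ * x * t)) ^ k = w := by simpa using congrArg Subtype.val hk
        have e4 : ∀ j : ℕ, l0 ((x⁻¹ * (t⁻¹ * x * t)) ^ j) = 1 := by
          intro j
          induction j with
          | zero => rw [pow_zero, h1]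
          | succ j ih => rw [pow_succ, h2 _ (Q.pow_mem hzQ j) _ hzQ, ih, e2, one_mul]
        rw [← hk', e4]
        unfold oneS
        rw [if_pos (Q.pow_mem hzQ k)]
      · rw [hl.2 w hw]
        unfold oneS
        rw [if_neg hw]
    -- x⁻¹ t⁻¹ x t = 1 gives x t = t x
    have e5 : t * x * (x⁻¹ * (t⁻¹ * x * t)) = x * t := by group
    rw [← e5, e3, mul_one]
  · intro h
    funext x
    rw [cnj_apply]
    by_cases hx : x ∈ Q
    · have e1 := h x hx
      have e2 : t⁻¹ * x * t = x := by rw [mul_assoc, e1, ← mul_assoc, inv_mul_cancel, one_mul]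
      rw [e2]
    · rw [hl.2 x hx]
      apply hl.2
      intro h3
      exact hx ((Subgroup.mem_normalizer_iff''.1 ht x).2 h3)

/-- `Q H` fixes `φ` -/
private lemma ds_le {φ : K → ℂ} (hφ : φ ∈ IrrS H) : Q ⊔ H ≤ stab φ := by
  apply sup_le
  · intro x hx
    rw [mem_stab]
    funext y
    rw [cnj_apply]
    by_cases hy : y ∈ H
    · have h1 := hL.comm x hx y hy
      congr 1
      rw [mul_assoc, ← h1, ← mul_assoc, inv_mul_cancel, one_mul]
    · rw [hφ.2 y hy]
      apply hφ.2
      intro h1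
      apply hy
      have h2 := hL.comm x hx _ h1
      have h3 : y = x⁻¹ * y * x := by
        have h4 : x * (x⁻¹ * y * x) = y * x := by group
        rw [h4] at h2
        exact mul_right_cancel h2
      rw [h3]
      exact h1
  · intro x hx
    rw [mem_stab]
    funext y
    rw [cnj_apply]
    by_cases hy : y ∈ H
    · have h1 := (Irr.isClass hφ.1) ⟨x⁻¹, H.inv_mem hx⟩ ⟨y, hy⟩
      have h2 : φ (x⁻¹ * y * (x⁻¹)⁻¹) = φ y := h1
      rw [inv_inv] at h2
      exact h2
    · rw [hφ.2 y hy]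
      apply hφ.2
      intro h1
      apply hy
      have h3 : y = x * (x⁻¹ * y * x) * x⁻¹ := by group
      rw [h3]
      exact H.mul_mem (H.mul_mem hx h1) (H.inv_mem hx)

theorem deg_EX (hR : SchurR R) (hn : ¬ p ∣ n) {φ : K → ℂ} (hφ : φ ∈ IrrS H) {l0 : K → ℂ}
    (hl : l0 ∈ IrrS Q) (hl1 : l0 ≠ oneS Q) {ε : ℂ} (hε : ε = 1 ∨ ε = -1)
    (h : EX (⊤ : Subgroup K) Q H (chR R) φ l0 ε) :
    (n : ZMod p) ^ 2 = (((Q ⊔ H).relIndex (NN (⊤ : Subgroup K) Q) * deg φ : ℕ) : ZMod p) ^ 2 := by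
  classical
  have hfin : Finite (IrrS Q) := Finite.of_equiv _ (cmx_equiv Q).symm
  have := Fintype.ofFinite (IrrS Q)
  set T : Subgroup K := Subgroup.normalizer (Q : Set K) ⊓ stab φ with hT
  have hCT : Q ⊔ H ≤ T := by
    apply le_inf
    · have h1 := Loc.C_le_N hL
      rw [ds_top] at h1
      exact h1
    · exact ds_le hL hφ
  set P : IrrS Q → Prop := fun lam => ∃ t ∈ NN (⊤ : Subgroup K) Q, cnj t φ = φ ∧
    cnj t l0 = lam.1 with hPdef
  have hPne : ∀ lam : IrrS Q, P lam → lam.1 ≠ oneS Q := by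
    rintro lam ⟨t, ht, -, h2⟩ h3
    rw [ds_top] at ht
    apply hl1
    rw [← cnj_inv_cnj t l0, h2, h3]
    funext x
    unfold cnj oneS
    have h4 := Subgroup.mem_normalizer_iff''.1 ((Subgroup.normalizer (Q : Set K)).inv_mem ht) x
    by_cases hx : x ∈ Q
    · rw [if_pos hx, if_pos (h4.1 hx)]
    · rw [if_neg hx, if_neg (fun h5 => hx (h4.2 h5))]
  have h1 := deg_gen R hL hR hn hφ hε (Finset.univ.filter P)
    (by
      intro lam hlam
      have h3 := (Finset.mem_filter.1 hlam).2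
      exact (h lam.1 lam.2 (hPne lam h3)).1 h3)
    (by
      intro lam hlam
      have h3 : ¬ P lam := fun h4 => hlam (Finset.mem_filter.2 ⟨Finset.mem_univ _, h4⟩)
      by_cases h2 : lam.1 = oneS Q
      · rw [h2, aa_eq, sub_self]
      · exact (h lam.1 lam.2 h2).2 h3)
    ⟨⟨l0, hl⟩, Finset.mem_filter.2 ⟨Finset.mem_univ _, 1, Subgroup.one_mem _, cnj_one φ,
      cnj_one l0⟩⟩
  -- the orbit
  have hcard : (Finset.univ.filter P).card = (Q ⊔ H).relIndex T := by
    let act : MulAction T (K → ℂ) :=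
      { smul := fun t f => cnj (t : K) f
        one_smul := fun f => cnj_one f
        mul_smul := fun a b f => (cnj_cnj (a : K) (b : K) f).symm }
    have hs : MulAction.stabilizer T l0 = (Q ⊔ H).subgroupOf T := by
      ext x
      rw [MulAction.mem_stabilizer_iff, Subgroup.mem_subgroupOf]
      exact ds_stab hL hl hl1 x.2.1
    have ho : MulAction.orbit T l0 =
        (((Finset.univ.filter P).map (Function.Embedding.subtype _) : Finset (K → ℂ)) :
          Set (K → ℂ)) := by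
      ext f
      rw [MulAction.mem_orbit_iff, Finset.mem_coe, Finset.mem_map]
      constructor
      · rintro ⟨x, hx⟩
        have hx' : cnj (x : K) l0 = f := hx
        have hmem : cnj (x : K) l0 ∈ IrrS Q := by
          have hN := x.2.1
          constructor
          · let e : Q ≃* Q :=
              { toFun := fun z => ⟨(x : K)⁻¹ * z * x, (Subgroup.mem_normalizer_iff''.1 hN z).1 z.2⟩
                invFun := fun z => ⟨x * z * (x : K)⁻¹, (Subgroup.mem_normalizer_iff.1 hN z).1 z.2⟩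
                left_inv := fun z => by
                  apply Subtype.ext
                  change (x : K) * ((x : K)⁻¹ * z * x) * (x : K)⁻¹ = z
                  group
                right_inv := fun z => by
                  apply Subtype.ext
                  change (x : K)⁻¹ * (x * z * (x : K)⁻¹) * x = z
                  group
                map_mul' := fun z w => by
                  apply Subtype.ext
                  change (x : K)⁻¹ * (z * w) * x = ((x : K)⁻¹ * z * x) * ((x : K)⁻¹ * w * x)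
                  group }
            exact irr_comp e hl.1
          · intro z hz
            exact hl.2 _ (fun h5 => hz ((Subgroup.mem_normalizer_iff''.1 hN z).2 h5))
        refine ⟨⟨f, by rw [← hx']; exact hmem⟩, ?_, rfl⟩
        rw [Finset.mem_filter]
        refine ⟨Finset.mem_univ _, x, ?_, x.2.2, hx'⟩
        rw [ds_top]
        exact x.2.1
      · rintro ⟨lam, hlam, rfl⟩
        obtain ⟨-, t, ht, h5, h6⟩ := Finset.mem_filter.1 hlam
        rw [ds_top] at ht
        exact ⟨⟨t, ht, h5⟩, h6⟩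
    unfold Subgroup.relIndex
    rw [← hs, MulAction.index_stabilizer, ho, Set.ncard_coe_finset, Finset.card_map]
  have hmul : (Q ⊔ H).relIndex T * T.relIndex (Subgroup.normalizer (Q : Set K)) =
      (Q ⊔ H).relIndex (Subgroup.normalizer (Q : Set K)) :=
    Subgroup.relIndex_mul_relIndex _ _ _ hCT inf_le_left
  rw [h1, hcard, ds_top, ← hmul]
  congr 2
  ring

end Pool.Agent.Helper42.IR
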