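import Pool.Agent.Helper42.IR.LatBasis

/-!
# IR-07 (project IR): integral matrix form of an irreducible representation

For an irreducible complex representation `ρ` of the finite group `K` on `V` and a nonzero vector
`w` there are a basis `b` of `V`, all of whose members are of the form `ρ g w`, such that all
matrices of `ρ` in this basis have entries in `OO p` and `w` has coordinates in `OO p`.

Proof: `exists_lattice_basis` for the family `g ↦ ρ g w` (it spans `V`: its span is a nonzero
invariant subspace). The matrix of `ρ g` has the `j`-th column `b.repr (ρ g (b j))` and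
`b j = ρ g' w`, so `ρ g (b j) = ρ (g g') w` is a member of the family. Multiplicativity of `R`: the
map `toC` is injective and multiplicative. `SchurR`: irreducible representations over `ℂ` have only
scalar endomorphisms (see `INC/Schur.lean`, `INC/Inflate.lean` for the use of
`Representation.IsIrreducible.algebraMap_intertwiningMap_bijective_of_isAlgClosed`).
-/

namespace Pool.Agent.Helper42.IR

open Pool.Agent.Helper42.INC

variable {p : ℕ} [Fact p.Prime]

lemma toC_injective_aux {n : ℕ} :
    Function.Injective (toC : Matrix (Fin n) (Fin n) (OO p) → Matrix (Fin n) (Fin n) ℂ) := by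
  intro A B h
  ext i j
  have h1 := congrFun (congrFun h i) j
  exact h1

lemma toC_mul_aux {n : ℕ} (A B : Matrix (Fin n) (Fin n) (OO p)) : toC (A * B) = toC A * toC B := by
  unfold toC
  exact Matrix.map_mul

lemma toC_one_aux {n : ℕ} : toC (1 : Matrix (Fin n) (Fin n) (OO p)) = 1 := by
  unfold toC
  exact Matrix.map_one _ (map_zero _) (map_one _)

lemma trace_toC_aux {n : ℕ} (A : Matrix (Fin n) (Fin n) (OO p)) :
    ((A.trace : OO p) : ℂ) = (toC A).trace := by
  unfold toC
  exact AddMonoidHom.map_trace (algebraMap (OO p) ℂ) A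

theorem exists_mat_form {K : Type} [Group K] [Finite K] {V : Type} [AddCommGroup V] [Module ℂ V]
    [FiniteDimensional ℂ V] (ρ : Representation ℂ K V) (hρ : ρ.IsIrreducible) (w : V)
    (hw : w ≠ 0) :
    ∃ (n : ℕ) (b : Module.Basis (Fin n) ℂ V) (R : K →* Matrix (Fin n) (Fin n) (OO p)),
      (∀ g, LinearMap.toMatrix b b (ρ g) = toC (R g)) ∧ SchurR R ∧
      (∀ j, ∃ g, b j = ρ g w) ∧ (∀ j, b.repr w j ∈ OO p) ∧
      (∀ g, chR R g = ρ.character g) := by
  classical
  have hnt := ((isIrreducible_iff ρ).1 hρ).1
  have hmulw : ∀ g h : K, ρ g (ρ h w) = ρ (g * h) w := by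
    intro g h; rw [map_mul]; rfl
  have hspan : Submodule.span ℂ (Set.range (fun g => ρ g w)) = ⊤ := by
    have hinv : ∀ g, ∀ v ∈ Submodule.span ℂ (Set.range (fun g => ρ g w)),
        ρ g v ∈ Submodule.span ℂ (Set.range (fun g => ρ g w)) := by
      intro g v hv
      have h1 : Submodule.span ℂ (Set.range (fun g => ρ g w)) ≤
          (Submodule.span ℂ (Set.range (fun g => ρ g w))).comap (ρ g) := by
        rw [Submodule.span_le]
        rintro _ ⟨h, rfl⟩
        change ρ g (ρ h w) ∈ Submodule.span ℂ (Set.range (fun g => ρ g w))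
        rw [hmulw]
        exact Submodule.subset_span ⟨g * h, rfl⟩
      exact h1 hv
    rcases ((isIrreducible_iff ρ).1 hρ).2 _ hinv with h | h
    · exfalso
      apply hw
      have h1 : w ∈ Submodule.span ℂ (Set.range (fun g => ρ g w)) := by
        refine Submodule.subset_span ⟨1, ?_⟩
        change ρ 1 w = w
        rw [map_one]; rfl
      rw [h] at h1
      exact (Submodule.mem_bot ℂ).1 h1
    · exact h
  obtain ⟨n, b, hb, hmem⟩ := exists_lattice_basis (p := p) (fun g => ρ g w) hspan
  have hent : ∀ g i j, LinearMap.toMatrix b b (ρ g) i j ∈ OO p := by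
    intro g i j
    rw [LinearMap.toMatrix_apply]
    obtain ⟨g', hg'⟩ := hb j
    rw [hg']
    change b.repr (ρ g (ρ g' w)) i ∈ OO p
    rw [hmulw]
    exact hmem (g * g') i
  have hR0 : ∃ R0 : K → Matrix (Fin n) (Fin n) (OO p),
      ∀ g, LinearMap.toMatrix b b (ρ g) = toC (R0 g) := by
    refine ⟨fun g => Matrix.of (fun i j => ⟨_, hent g i j⟩), ?_⟩
    intro g
    ext i j
    rfl
  obtain ⟨R0, hR0⟩ := hR0
  let R : K →* Matrix (Fin n) (Fin n) (OO p) :=
    { toFun := R0
      map_one' := by
        apply toC_injective_aux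
        rw [← hR0, toC_one_aux, map_one]
        exact LinearMap.toMatrix_one b
      map_mul' := by
        intro g h
        apply toC_injective_aux
        rw [← hR0, toC_mul_aux, ← hR0, ← hR0, map_mul]
        exact LinearMap.toMatrix_mul b _ _ }
  have hR : ∀ g, LinearMap.toMatrix b b (ρ g) = toC (R g) := hR0
  refine ⟨n, b, R, hR, ⟨?_, ?_⟩, hb, ?_, ?_⟩
  · -- positivity
    rcases Nat.eq_zero_or_pos n with h | h
    · exfalso
      subst h
      have h1 : Module.finrank ℂ V = 0 := by
        rw [Module.finrank_eq_card_basis b]; simp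
      have h2 : 0 < Module.finrank ℂ V := Module.finrank_pos
      omega
    · exact h
  · -- Schur
    intro A hA
    have hcomm : ∀ g, (Matrix.toLin b b A) ∘ₗ ρ g = ρ g ∘ₗ (Matrix.toLin b b A) := by
      intro g
      apply (LinearMap.toMatrix b b).injective
      rw [LinearMap.toMatrix_comp b b b, LinearMap.toMatrix_comp b b b, LinearMap.toMatrix_toLin,
        hR]
      exact hA g
    let F : Representation.IntertwiningMap ρ ρ := ⟨Matrix.toLin b b A, hcomm⟩
    obtain ⟨c, hc⟩ :=
      (Representation.IsIrreducible.algebraMap_intertwiningMap_bijective_of_isAlgClosed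
        (ρ := ρ)).2 F
    refine ⟨c, ?_⟩
    have h1 : Matrix.toLin b b A = c • LinearMap.id := by
      have : F.toLinearMap = c • LinearMap.id := by
        rw [← hc]; rfl
      exact this
    have h2 := congrArg (LinearMap.toMatrix b b) h1
    rw [LinearMap.toMatrix_toLin, map_smul, LinearMap.toMatrix_id] at h2
    exact h2
  · -- coordinates of w
    intro j
    have h1 := hmem 1 j
    have h2 : ρ 1 w = w := by
      rw [map_one]; rfl
    rw [h2] at h1
    exact h1
  · intro g
    change ((R g).trace : ℂ) = LinearMap.trace ℂ V (ρ g)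
    rw [trace_toC_aux, ← hR, LinearMap.trace_eq_matrix_trace ℂ b]

end Pool.Agent.Helper42.IR
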