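import Pool.Agent.Helper42.IR.SpecialStep
import Pool.Agent.Helper42.IR.MatForm
import Pool.Agent.Helper42.IR.RankIdem

/-!
# IR-09 (project IR, section 3.4): the special integral form

Every irreducible character has an integral matrix form `R` over `OO p` whose reduction is
indecomposable: matrices over the residue field commuting with the reduction are nilpotent or units.

Proof. Let `ρ` on `V` afford `χ`. For a function `c : K → OO p` put `e_c = ∑ c g • ρ g`. Among the
`c` with `e_c` idempotent and nonzero (`c = δ_1` is one) choose one with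
`finrank (range e_c)` minimal, `0 ≠ w ∈ range e_c`, so `e_c w = w`. Let `b`, `R` be the matrix form
of `exists_mat_form` for `w`. `E = ∑ c g • R g` satisfies `toC E = toMatrix b b e_c`, so it is
idempotent (`toC` is injective), and the coordinate vector `u` of `w` (in `OO p`) satisfies
`E u = u`. Its reduction `wbar` generates `k ^ n`: `b j = ρ g w` says that the basis vector `e_j` is
`R g u`, so `e_j = toK (R g) wbar`. If `LocalR R` fails take `A` and apply `special_step`: `ε` is a
combination `∑ c' g • R g`, `ε` and `E - ε` are nonzero idempotents, so over `ℂ`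
`rank ε + rank (E - ε) = rank E` (traces, `trace_idem`) and `0 < rank (E - ε)`, so
`rank ε < rank E`; `e_{c'}` is a nonzero idempotent with smaller range than `e_c`, a contradiction.
-/

namespace Pool.Agent.Helper42.IR

open Pool.Agent.Helper42.INC Matrix

variable {p : ℕ} [Fact p.Prime]

private lemma spaux_inj : Function.Injective (algebraMap (OO p) ℂ) :=
  fun _ _ h => Subtype.ext h

private lemma spaux_toC_inj {n : ℕ} {A B : Matrix (Fin n) (Fin n) (OO p)} (h : toC A = toC B) :
    A = B :=
  Matrix.map_injective spaux_inj h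

private lemma spaux_toC_mul {n : ℕ} (A B : Matrix (Fin n) (Fin n) (OO p)) :
    toC (A * B) = toC A * toC B := by
  unfold toC
  exact Matrix.map_mul

private lemma spaux_toC_sub {n : ℕ} (A B : Matrix (Fin n) (Fin n) (OO p)) :
    toC (A - B) = toC A - toC B := by
  unfold toC
  ext i j
  simp

private lemma spaux_toC_zero {n : ℕ} : toC (0 : Matrix (Fin n) (Fin n) (OO p)) = 0 := by
  unfold toC
  ext i j
  simp

private lemma spaux_toK_zero {n : ℕ} : toK (0 : Matrix (Fin n) (Fin n) (OO p)) = 0 := by
  unfold toK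
  ext i j
  simp

private lemma spaux_toC_sum {K : Type} [Fintype K] {n : ℕ}
    (c : K → OO p) (M : K → Matrix (Fin n) (Fin n) (OO p)) :
    toC (∑ g, c g • M g) = ∑ g, (c g : ℂ) • toC (M g) := by
  unfold toC
  ext i j
  simp only [Matrix.map_apply, Matrix.sum_apply, Matrix.smul_apply, smul_eq_mul, map_sum, map_mul]
  rfl

private lemma spaux_rank_pos {n : ℕ} (P : Matrix (Fin n) (Fin n) ℂ) (hP : P ≠ 0) : 0 < P.rank := by
  rcases Nat.eq_zero_or_pos P.rank with h | h
  · exfalso
    apply hP
    unfold Matrix.rank at h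
    have h1 : LinearMap.range P.mulVecLin = ⊥ := Submodule.finrank_eq_zero.1 h
    have h2 : P.mulVecLin = 0 := LinearMap.range_eq_bot.1 h1
    ext i j
    have h3 := congrFun (LinearMap.congr_fun h2 (Pi.single j 1)) i
    simpa using h3
  · exact h

theorem exists_special {K : Type} [Group K] [Finite K] {χ : K → ℂ} (hχ : χ ∈ Irr K) :
    ∃ (n : ℕ) (R : K →* Matrix (Fin n) (Fin n) (OO p)), chR R = χ ∧ SchurR R ∧ LocalR R := by
  classical
  have := Fintype.ofFinite K
  obtain ⟨V, _, _, _, ρ, hρ, rfl⟩ := hχ
  let e : (K → OO p) → Module.End ℂ V := fun c => ∑ g, (c g : ℂ) • ρ g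
  have hedef : ∀ c, e c = ∑ g, (c g : ℂ) • ρ g := fun _ => rfl
  have hnt : (1 : Module.End ℂ V) ≠ 0 := by
    have hV : Nontrivial V := ((isIrreducible_iff ρ).1 hρ).1
    exact one_ne_zero
  have hex : ∃ m : ℕ, ∃ c : K → OO p, e c * e c = e c ∧ e c ≠ 0 ∧
      Module.finrank ℂ (LinearMap.range (e c)) = m := by
    have h1 : e (Pi.single 1 1) = 1 := by
      rw [hedef, Finset.sum_eq_single (1 : K)]
      · simp
      · intro g _ hg
        simp [Pi.single_eq_of_ne hg]
      · intro h
        exact absurd (Finset.mem_univ _) h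
    refine ⟨_, Pi.single 1 1, ?_, ?_, rfl⟩
    · rw [h1, one_mul]
    · rw [h1]; exact hnt
  obtain ⟨c, hc1, hc2, hcm⟩ := Nat.find_spec hex
  have hmin : ∀ c' : K → OO p, e c' * e c' = e c' → e c' ≠ 0 →
      Module.finrank ℂ (LinearMap.range (e c)) ≤ Module.finrank ℂ (LinearMap.range (e c')) := by
    intro c' h1 h2
    rw [hcm]
    exact Nat.find_min' hex ⟨c', h1, h2, rfl⟩
  obtain ⟨v, hv⟩ : ∃ v, e c v ≠ 0 := by
    by_contra hcon
    push Not at hcon
    exact hc2 (LinearMap.ext hcon)
  have hw : e c (e c v) = e c v := by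
    have := LinearMap.congr_fun hc1 v
    simpa using this
  obtain ⟨n, b, R, hR1, hS, hbj, hwO, hch⟩ := exists_mat_form (p := p) ρ hρ (e c v) hv
  refine ⟨n, R, funext hch, hS, ?_⟩
  by_contra hL
  unfold LocalR at hL
  push Not at hL
  obtain ⟨A, hA, hnil, hunit⟩ := hL
  -- matrices
  have hmat : ∀ c' : K → OO p, toC (∑ g, c' g • R g) = LinearMap.toMatrix b b (e c') := by
    intro c'
    rw [spaux_toC_sum, hedef, map_sum]
    refine Finset.sum_congr rfl fun g _ => ?_
    rw [map_smul, hR1]
  have hrank : ∀ c' : K → OO p, (toC (∑ g, c' g • R g)).rank =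
      Module.finrank ℂ (LinearMap.range (e c')) := by
    intro c'
    rw [Matrix.rank_eq_finrank_range_toLin _ b b, hmat, Matrix.toLin_toMatrix]
  set E : Matrix (Fin n) (Fin n) (OO p) := ∑ g, c g • R g with hEdef
  have hEC : toC E = LinearMap.toMatrix b b (e c) := hmat c
  have hE : E * E = E := by
    apply spaux_toC_inj
    rw [spaux_toC_mul, hEC, ← LinearMap.toMatrix_mul, hc1]
  have hEs : E ∈ Submodule.span (OO p) (Set.range R) := by
    rw [hEdef]
    exact Submodule.sum_mem _ fun g _ =>
      Submodule.smul_mem _ _ (Submodule.subset_span (Set.mem_range_self g))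
  -- the vector
  set w := e c v with hwdef
  let u : Fin n → OO p := fun j => ⟨b.repr w j, hwO j⟩
  have hu : ∀ j, algebraMap (OO p) ℂ (u j) = b.repr w j := fun _ => rfl
  let wb : Fin n → kk p := fun j => IsLocalRing.residue (OO p) (u j)
  have hcoord : ∀ (M : Matrix (Fin n) (Fin n) (OO p)) (f : Module.End ℂ V),
      toC M = LinearMap.toMatrix b b f → ∀ x : Fin n → OO p,
      (∀ j, algebraMap (OO p) ℂ (x j) = b.repr (f w) j) →
      (toK M).mulVec wb = fun j => IsLocalRing.residue (OO p) (x j) := by
    intro M f hM x hx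
    have h1 : M.mulVec u = x := by
      funext j
      apply spaux_inj
      rw [hx]
      have h2 := congrFun (LinearMap.toMatrix_mulVec_repr b b f w) j
      rw [← hM] at h2
      rw [← h2, RingHom.map_mulVec]
      rfl
    funext j
    rw [← h1, RingHom.map_mulVec]
    rfl
  have hwfix : (toK E).mulVec wb = wb := by
    refine hcoord E (e c) hEC u ?_
    intro j
    rw [hw, hu]
  have hgen : Submodule.span (kk p) (Set.range fun g : K => (toK (R g)).mulVec wb) = ⊤ := by
    rw [eq_top_iff]
    rw [← (Pi.basisFun (kk p) (Fin n)).span_eq, Submodule.span_le]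
    rintro _ ⟨j, rfl⟩
    obtain ⟨g, hg⟩ := hbj j
    apply Submodule.subset_span
    refine ⟨g, ?_⟩
    have h1 := hcoord (R g) (ρ g) (hR1 g).symm (Pi.single j 1) (by
      intro i
      rw [← hg, Module.Basis.repr_self, Finsupp.single_apply]
      by_cases hij : j = i
      · subst hij
        simp
      · rw [if_neg hij, Pi.single_eq_of_ne (Ne.symm hij), map_zero])
    simp only at h1 ⊢
    rw [h1, Pi.basisFun_apply]
    funext i
    by_cases hij : i = j
    · subst hij
      simp
    · rw [Pi.single_eq_of_ne hij, Pi.single_eq_of_ne hij, map_zero]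
  obtain ⟨ε, hεs, hεε, hEε, hεE, hε0, hEε0⟩ :=
    special_step R E hE hEs wb hwfix hgen A hA hnil hunit
  obtain ⟨c', hc'⟩ := (Submodule.mem_span_range_iff_exists_fun (OO p)).1 hεs
  -- over the complex numbers
  set P := toC ε with hP
  set Q := toC E with hQ
  have hPP : P * P = P := by rw [hP, ← spaux_toC_mul, hεε]
  have hQQ : Q * Q = Q := by rw [hQ, ← spaux_toC_mul, hE]
  have hQP : Q * P = P := by rw [hP, hQ, ← spaux_toC_mul, hEε]
  have hPQ : P * Q = P := by rw [hP, hQ, ← spaux_toC_mul, hεE]
  have hdd : (Q - P) * (Q - P) = Q - P := by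
    rw [mul_sub, sub_mul, sub_mul, hQQ, hPP, hQP, hPQ]
    abel
  have hsum : P.rank + (Q - P).rank = Q.rank := by
    have h1 := trace_idem P hPP
    have h2 := trace_idem (Q - P) hdd
    have h3 := trace_idem Q hQQ
    rw [Matrix.trace_sub] at h2
    have h4 : ((P.rank + (Q - P).rank : ℕ) : ℂ) = (Q.rank : ℂ) := by
      push_cast
      rw [← h1, ← h2, ← h3]
      ring
    exact_mod_cast h4
  have hpos : 0 < (Q - P).rank := by
    apply spaux_rank_pos
    intro h0
    rw [hQ, hP, ← spaux_toC_sub] at h0
    have : E - ε = 0 := spaux_toC_inj (h0.trans spaux_toC_zero.symm)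
    exact hEε0 (by rw [this, spaux_toK_zero])
  have hεc : e c' * e c' = e c' := by
    apply (LinearMap.toMatrix b b).injective
    rw [LinearMap.toMatrix_mul, ← hmat, hc']
    exact hPP
  have hεn : e c' ≠ 0 := by
    intro h0
    apply hε0
    have h1 := hmat c'
    rw [hc', h0, map_zero] at h1
    rw [spaux_toC_inj (h1.trans spaux_toC_zero.symm), spaux_toK_zero]
  have hfin := hmin c' hεc hεn
  rw [← hrank, ← hrank, hc', ← hEdef] at hfin
  change Q.rank ≤ P.rank at hfin
  omega

end Pool.Agent.Helper42.IR
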