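import Pool.Agent.Helper42.IR.ShapeR
import Pool.Agent.Helper42.IR.DegShape
import Pool.Agent.Helper42.IR.NormF
import Pool.Agent.Helper42.IR.Special

/-!
# IR-40 (project IR, section 3): the package for the whole group

`K` finite, `Loc p ⊤ Q H`, `p ≠ 2`. A function `χ ∈ IrrS ⊤` is in `Irr K` (`Subgroup.topEquiv`,
`irr_comp`), and conversely. `exists_special` gives `R` with `chR R = χ`, `SchurR R`, `LocalR R`;
`n = deg χ` (`chR_one`).
`exb`: `bs_exists`, `bl_of_ndvd`. `unb`: `bs_conj` with `ndvd_of_bl` (`NN ⊤ Q = normalizer Q`).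
`def0`: `aa_zero_of_dvd`. `shape`: `shape_R`. `norm`, `regular`: `norm_top`, `regular_top`.
`degNE`, `degEX`: `deg_NE`, `deg_EX`.
-/

namespace Pool.Agent.Helper42.IR

open Pool.Agent.Helper42.INC

variable {p : ℕ} [Fact p.Prime] {K : Type} [Group K] [Finite K]

theorem mem_irrS_top {χ : K → ℂ} : χ ∈ IrrS (⊤ : Subgroup K) ↔ χ ∈ Irr K := by
  constructor
  · intro h
    exact irr_comp (Subgroup.topEquiv (G := K)).symm h.1
  · intro h
    refine ⟨irr_comp (Subgroup.topEquiv (G := K)) h, fun x hx => absurd (Subgroup.mem_top x) hx⟩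


private lemma deg_chR {n : ℕ} (R : K →* Matrix (Fin n) (Fin n) (OO p)) : deg (chR R) = n :=
  deg_eq (chR_one R)

theorem pkg_top {Q H : Subgroup K} (hL : Loc p (⊤ : Subgroup K) Q H) (hp2 : p ≠ 2) :
    Pkg p (⊤ : Subgroup K) Q H where
  exb := by
    rintro χ ⟨hχ, hd⟩
    obtain ⟨n, R, rfl, hR, hLoc⟩ := exists_special (p := p) (mem_irrS_top.1 hχ)
    rw [deg_chR] at hd
    obtain ⟨φ, hφ, m, hm, hpm⟩ := bs_exists (H := H) R hd
    exact ⟨φ, hφ, bl_of_ndvd R hL hφ hm hpm⟩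
  unb := by
    rintro χ ⟨hχ, hd⟩ φ hφ ρ hρ h1 h2
    obtain ⟨n, R, rfl, hR, hLoc⟩ := exists_special (p := p) (mem_irrS_top.1 hχ)
    rw [deg_chR] at hd
    obtain ⟨m, hm⟩ := ip_nat R hφ
    obtain ⟨m', hm'⟩ := ip_nat R hρ
    obtain ⟨t, ht, h3⟩ := bs_conj R hL hR hd hφ hρ hm hm' (ndvd_of_bl R hL hR hd hφ hm h1)
      (ndvd_of_bl R hL hR hd hρ hm' h2)
    exact ⟨t, ⟨Subgroup.mem_top t, ht⟩, h3⟩
  def0 := by
    rintro χ hχ hd φ hφ ⟨lam, hl, h⟩
    obtain ⟨n, R, rfl, hR, hLoc⟩ := exists_special (p := p) (mem_irrS_top.1 hχ)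
    rw [deg_chR] at hd
    exact h (aa_zero_of_dvd R hL hR hd hφ hl)
  shape := by
    rintro χ ⟨hχ, hd⟩ φ hφ hB
    obtain ⟨n, R, rfl, hR, hLoc⟩ := exists_special (p := p) (mem_irrS_top.1 hχ)
    rw [deg_chR] at hd
    exact shape_R R hL hp2 hR hLoc hd hφ hB
  norm := by
    intro φ hφ lam hl lam' hl' h1 h1'
    exact norm_top hL hφ hl hl' h1 h1'
  regular := by
    intro φ hφ lam hl
    exact regular_top hL hφ hl
  degNE := by
    rintro χ ⟨hχ, hd⟩ φ hφ ε hε h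
    obtain ⟨n, R, rfl, hR, hLoc⟩ := exists_special (p := p) (mem_irrS_top.1 hχ)
    rw [deg_chR] at hd ⊢
    exact deg_NE R hL hR hd hφ hε h
  degEX := by
    rintro χ ⟨hχ, hd⟩ φ hφ l0 hl0 hl1 ε hε h
    obtain ⟨n, R, rfl, hR, hLoc⟩ := exists_special (p := p) (mem_irrS_top.1 hχ)
    rw [deg_chR] at hd ⊢
    exact deg_EX R hL hR hd hφ hl0 hl1 hε h

end Pool.Agent.Helper42.IR
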