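import Pool.Agent.Helper42.IR.ScalarR

/-!
# IR-27 (project IR): `SchurR` and irreducible characters

`chR R` is the character of the representation `g ↦ toLin' (toC (R g))` on `Fin n → ℂ`.
`schurR_of_mem`: if it is in `Irr K` this representation is irreducible (its character has norm one:
`isIrreducible_iff` in INC/Basic) so by Schur's lemma only scalars commute, and `n = χ(1) > 0`.
`mem_of_schurR`: if only scalars commute and `n > 0`, the representation is irreducible: by Maschke an
invariant subspace has an invariant complement and the projection commutes with the action, so it is a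
scalar, hence `0` or `1`.
-/

namespace Pool.Agent.Helper42.IR

open Pool.Agent.Helper42.INC

variable {p : ℕ} [Fact p.Prime] {n : ℕ} {K : Type} [Group K] [Finite K]

/-- the representation on `Fin n → ℂ` -/
private noncomputable def repS (R : K →* Matrix (Fin n) (Fin n) (OO p)) :
    Representation ℂ K (Fin n → ℂ) :=
  { toFun := fun g => Matrix.toLin' (toC (R g))
    map_one' := by
      rw [map_one, toC_one, Matrix.toLin'_one]
      rfl
    map_mul' := fun a b => by
      rw [map_mul, toC_mul, Matrix.toLin'_mul]
      rfl }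

private lemma repS_char (R : K →* Matrix (Fin n) (Fin n) (OO p)) :
    (repS R).character = chR R := by
  funext g
  change LinearMap.trace ℂ (Fin n → ℂ) (Matrix.toLin' (toC (R g))) = ((R g).trace : ℂ)
  rw [Matrix.trace_toLin'_eq, trace_toC]

private lemma B_repS (R : K →* Matrix (Fin n) (Fin n) (OO p)) :
    B (chR R) (chR R) =
      (Module.finrank ℂ (Representation.IntertwiningMap (repS R) (repS R)) : ℂ) := by
  have := Fintype.ofFinite K
  rw [← repS_char, ← Representation.card_inv_mul_sum_char_mul_char_eq_finrank, B_eq]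

private noncomputable def toI (R : K →* Matrix (Fin n) (Fin n) (OO p))
    (A : Matrix (Fin n) (Fin n) ℂ)
    (hA : ∀ g, A * toC (R g) = toC (R g) * A) :
    Representation.IntertwiningMap (repS R) (repS R) :=
  ⟨Matrix.toLin' A, fun g => by
    change Matrix.toLin' A ∘ₗ Matrix.toLin' (toC (R g)) = Matrix.toLin' (toC (R g)) ∘ₗ Matrix.toLin' A
    rw [← Matrix.toLin'_mul, ← Matrix.toLin'_mul, hA]⟩

theorem schurR_of_mem (R : K →* Matrix (Fin n) (Fin n) (OO p)) (h : chR R ∈ Irr K) :
    SchurR R := by
  have hn : 0 < n := by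
    obtain ⟨m, hm, h1⟩ := irr_one h
    have h2 : chR R 1 = n := by
      change (((R 1).trace : OO p) : ℂ) = n
      rw [map_one, Matrix.trace_one]
      simp
    rw [h2] at h1
    have : n = m := by exact_mod_cast h1
    omega
  refine ⟨hn, fun A hA => ?_⟩
  have hB := B_irr_self h
  rw [B_repS] at hB
  have hfin : Module.finrank ℂ (Representation.IntertwiningMap (repS R) (repS R)) = 1 := by
    exact_mod_cast hB
  have hne : toI R 1 (fun g => by rw [one_mul, mul_one]) ≠ 0 := by
    intro h0
    have h1 : (toI R 1 (fun g => by rw [one_mul, mul_one])).toLinearMap = 0 := by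
      rw [h0]
      rfl
    have h2 : Matrix.toLin' (1 : Matrix (Fin n) (Fin n) ℂ) = 0 := h1
    have h3 : (1 : Matrix (Fin n) (Fin n) ℂ) = 0 := by
      have := congrArg LinearMap.toMatrix' h2
      rwa [LinearMap.toMatrix'_toLin', map_zero] at this
    have h4 := congrFun (congrFun h3 ⟨0, hn⟩) ⟨0, hn⟩
    simp at h4
  obtain ⟨c, hc⟩ := (finrank_eq_one_iff_of_nonzero' _ hne).1 hfin (toI R A hA)
  refine ⟨c, ?_⟩
  have h1 : (c • toI R 1 (fun g => by rw [one_mul, mul_one])).toLinearMap =
      (toI R A hA).toLinearMap := by rw [hc]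
  have h2 : c • Matrix.toLin' (1 : Matrix (Fin n) (Fin n) ℂ) = Matrix.toLin' A := h1
  have := congrArg LinearMap.toMatrix' h2
  rw [map_smul, LinearMap.toMatrix'_toLin', LinearMap.toMatrix'_toLin'] at this
  exact this.symm

theorem mem_of_schurR (R : K →* Matrix (Fin n) (Fin n) (OO p)) (h : SchurR R) :
    chR R ∈ Irr K := by
  obtain ⟨hn, hs⟩ := h
  refine irr_of_norm_one _ ?_ ?_ ?_
  · rw [← repS_char]
    exact char_isClass _
  · rintro χ ⟨V, _, _, _, ρ, hρ, rfl⟩
    rw [← repS_char]
    exact B_char _ _
  · rw [B_repS]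
    have hne : toI R 1 (fun g => by rw [one_mul, mul_one]) ≠ 0 := by
      intro h0
      have h1 : (toI R 1 (fun g => by rw [one_mul, mul_one])).toLinearMap = 0 := by
        rw [h0]
        rfl
      have h2 : Matrix.toLin' (1 : Matrix (Fin n) (Fin n) ℂ) = 0 := h1
      have h3 : (1 : Matrix (Fin n) (Fin n) ℂ) = 0 := by
        have := congrArg LinearMap.toMatrix' h2
        rwa [LinearMap.toMatrix'_toLin', map_zero] at this
      have h4 := congrFun (congrFun h3 ⟨0, hn⟩) ⟨0, hn⟩
      simp at h4
    have hfin : Module.finrank ℂ (Representation.IntertwiningMap (repS R) (repS R)) = 1 := by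
      rw [finrank_eq_one_iff_of_nonzero' _ hne]
      intro w
      obtain ⟨c, hc⟩ := hs (LinearMap.toMatrix' w.toLinearMap) (fun g => by
        have h1 := w.isIntertwining' g
        have h2 : w.toLinearMap ∘ₗ Matrix.toLin' (toC (R g)) =
          Matrix.toLin' (toC (R g)) ∘ₗ w.toLinearMap := h1
        have h3 := congrArg LinearMap.toMatrix' h2
        rwa [LinearMap.toMatrix'_comp, LinearMap.toMatrix'_comp,
          LinearMap.toMatrix'_toLin'] at h3)
      refine ⟨c, ?_⟩
      apply Representation.IntertwiningMap.toLinearMap_injective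
      change c • Matrix.toLin' (1 : Matrix (Fin n) (Fin n) ℂ) = w.toLinearMap
      have h4 := congrArg Matrix.toLin' hc
      rw [Matrix.toLin'_toMatrix', map_smul] at h4
      exact h4.symm
    rw [hfin, Nat.cast_one]

end Pool.Agent.Helper42.IR
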