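import Mathlib

/-!
# IR-11 (project IR, section 3.2): the key lemma

`ρ : K → M_n(A)` a homomorphism, `A` a commutative ring, `K` finite, `Q ≤ T ≤ N` subgroups of `K`
with `Q` normalized by `N` and such that no nontrivial element of `Q` is conjugate by an element
outside `N` into `T`. `e` an idempotent commuting with `ρ T` and orthogonal to its conjugates by
`N \ T`. For `f = e f e` commuting with `ρ T` there are `g` commuting with `ρ K` and `b = e b e`
with `f = e g e - ∑_{x ∈ Q} ρ x b ρ x⁻¹` and `trace g = |K : T| trace f` (`key_lemma0`). If `e`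
commutes with the commutant of `ρ K` then `e g e = e g` (`key_lemma`).

Proof. Choose a finite set of representatives (e.g. sum over the quotient `K ⧸ T`): the matrix
`c k = ρ k * f * ρ k⁻¹` only depends on the coset `k T` (`f` commutes with `ρ T`). Put
`g = ∑_{q : K ⧸ T} c q`. Left multiplication by `k` permutes the cosets and
`ρ k * c q * ρ k⁻¹ = c (k • q)`, so `g` commutes with `ρ K`; `trace (c q) = trace f`.
`e * g` : as `f = e f e`, `e * c k = e * (ρ k * e * ρ k⁻¹) * c k`, which is `0` for `k ∈ N \ T`;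
the coset `T` contributes `e f = f`. The
cosets `k T`, `k ∉ N`, form a `Q`-stable subset of `K ⧸ T` (if `x k ∈ N T = N` then `k ∈ N`) on
which `Q` acts freely: `x k T = k T` iff `k⁻¹ x k ∈ T`, iff `x = 1`. Choose a set `Y` of
representatives of the `Q`-orbits; then `∑_{q, q ⊄ N} e c(q) e = ∑_{y ∈ Y} ∑_{x ∈ Q}
e ρ x c(y) ρ x⁻¹ e = ∑_{x ∈ Q} ρ x (∑_{y ∈ Y} e c(y) e) ρ x⁻¹` because `e` commutes with `ρ x`,
`x ∈ Q ≤ T`. So `b = ∑_{y ∈ Y} e c(y) e` works.
-/

namespace Pool.Agent.Helper42.IR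

/-- sum over a subset on which a finite group acts freely -/
lemma sum_free_orbits {H X M : Type} [Group H] [Finite H] [Finite X] [MulAction H X]
    [AddCommMonoid M] (S : Set X) (hS : ∀ (h : H) (x : X), x ∈ S → h • x ∈ S)
    (hfree : ∀ (h : H) (x : X), x ∈ S → h • x = x → h = 1) :
    ∃ Y : Set X, Y ⊆ S ∧ ∀ F : X → M, ∑ᶠ x ∈ S, F x = ∑ᶠ y ∈ Y, ∑ᶠ h : H, F (h • y) := by
  classical
  haveI := Fintype.ofFinite H
  haveI := Fintype.ofFinite X
  let r : MulAction.orbitRel.Quotient H X → X := Quotient.out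
  have hr : ∀ ω, (Quotient.mk (MulAction.orbitRel H X) (r ω)) = ω := fun ω => Quotient.out_eq ω
  refine ⟨{y | y ∈ S ∧ r (Quotient.mk (MulAction.orbitRel H X) y) = y}, fun y hy => hy.1, ?_⟩
  intro F
  rw [finsum_mem_eq_finite_toFinset_sum F (Set.toFinite S),
    finsum_mem_eq_finite_toFinset_sum _ (Set.toFinite _)]
  simp only [finsum_eq_sum_of_fintype]
  rw [← Finset.sum_product']
  symm
  refine Finset.sum_bij (fun p _ => p.2 • p.1) ?_ ?_ ?_ ?_
  · rintro ⟨y, h⟩ hp
    simp only [Finset.mem_product, Set.Finite.mem_toFinset, Set.mem_setOf_eq] at hp ⊢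
    exact hS h y hp.1.1
  · rintro ⟨y, h⟩ hp ⟨y', h'⟩ hp' heq
    simp only [Finset.mem_product, Set.Finite.mem_toFinset, Set.mem_setOf_eq] at hp hp'
    simp only at heq
    have h1 : (Quotient.mk (MulAction.orbitRel H X) y) =
        Quotient.mk (MulAction.orbitRel H X) y' := by
      apply Quotient.sound
      change y ∈ MulAction.orbit H y'
      refine ⟨h⁻¹ * h', ?_⟩
      change (h⁻¹ * h') • y' = y
      rw [mul_smul, ← heq, inv_smul_smul]
    have h2 : y = y' := by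
      rw [← hp.1.2, ← hp'.1.2, h1]
    subst h2
    have h3 : (h'⁻¹ * h) • y = y := by
      rw [mul_smul, heq, inv_smul_smul]
    have h4 := hfree _ _ hp.1.1 h3
    have h5 : h = h' := by
      have := congrArg (fun z => h' * z) h4
      simpa using this
    rw [h5]
  · intro x hx
    simp only [Set.Finite.mem_toFinset] at hx
    have h1 : r (Quotient.mk (MulAction.orbitRel H X) x) ∈ MulAction.orbit H x := by
      have := Quotient.exact (hr (Quotient.mk (MulAction.orbitRel H X) x))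
      exact this
    obtain ⟨h, hh⟩ := h1
    change h • x = _ at hh
    refine ⟨(h • x, h⁻¹), ?_, ?_⟩
    · simp only [Finset.mem_product, Set.Finite.mem_toFinset, Set.mem_setOf_eq, Finset.mem_univ,
        and_true]
      refine ⟨hS h x hx, ?_⟩
      rw [hh, hr]
    · simp
  · intro p _
    rfl

theorem key_lemma0 {A : Type} [CommRing A] {K : Type} [Group K] [Finite K] {n : ℕ}
    (ρ : K →* Matrix (Fin n) (Fin n) A) (Q T N : Subgroup K) (hQT : Q ≤ T) (hTN : T ≤ N)
    (hQN : ∀ k ∈ N, ∀ x ∈ Q, k⁻¹ * x * k ∈ Q)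
    (hfree : ∀ k, k ∉ N → ∀ x ∈ Q, k⁻¹ * x * k ∈ T → x = 1)
    (e : Matrix (Fin n) (Fin n) A) (he : e * e = e) (heT : ∀ t ∈ T, ρ t * e = e * ρ t)
    (hort : ∀ k ∈ N, k ∉ T → e * (ρ k * e * ρ k⁻¹) = 0)
    (f : Matrix (Fin n) (Fin n) A) (hef : e * f = f) (hfe : f * e = f)
    (hfT : ∀ t ∈ T, ρ t * f = f * ρ t) :
    ∃ g b : Matrix (Fin n) (Fin n) A, (∀ k, ρ k * g = g * ρ k) ∧ e * b = b ∧ b * e = b ∧
      f = e * g * e - ∑ᶠ x : Q, ρ (x : K) * b * ρ (x : K)⁻¹ ∧
      g.trace = (T.index : A) * f.trace := by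
  classical
  haveI := Fintype.ofFinite K
  haveI := Fintype.ofFinite Q
  haveI := Fintype.ofFinite (K ⧸ T)
  have hinv : ∀ k : K, ρ k * ρ k⁻¹ = 1 := fun k => by
    rw [← map_mul, mul_inv_cancel, map_one]
  have hinv' : ∀ k : K, ρ k⁻¹ * ρ k = 1 := fun k => by
    rw [← map_mul, inv_mul_cancel, map_one]
  -- the conjugates of `f`
  have hc : ∀ a b : K, (QuotientGroup.leftRel T) a b →
      ρ a * f * ρ a⁻¹ = ρ b * f * ρ b⁻¹ := by
    intro a b hab
    rw [QuotientGroup.leftRel_apply] at hab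
    obtain ⟨t, ht⟩ : ∃ t, t = a⁻¹ * b := ⟨_, rfl⟩
    rw [← ht] at hab
    have hb : b = a * t := by rw [ht]; group
    have h1 := hfT _ hab
    rw [hb, map_mul, mul_inv_rev, map_mul ρ t⁻¹]
    calc ρ a * f * ρ a⁻¹ = ρ a * (f * (ρ t * ρ t⁻¹)) * ρ a⁻¹ := by rw [hinv, mul_one]
      _ = ρ a * ((f * ρ t) * ρ t⁻¹) * ρ a⁻¹ := by rw [mul_assoc f]
      _ = ρ a * ((ρ t * f) * ρ t⁻¹) * ρ a⁻¹ := by rw [h1]
      _ = ρ a * ρ t * f * (ρ t⁻¹ * ρ a⁻¹) := by simp only [mul_assoc]
  let C : K ⧸ T → Matrix (Fin n) (Fin n) A := Quotient.lift (fun k => ρ k * f * ρ k⁻¹) hc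
  have hC : ∀ k : K, C (k : K ⧸ T) = ρ k * f * ρ k⁻¹ := fun k => rfl
  have hCs : ∀ (k : K) (q : K ⧸ T), C (k • q) = ρ k * C q * ρ k⁻¹ := by
    intro k q
    obtain ⟨a, rfl⟩ := QuotientGroup.mk_surjective q
    change C ((k * a : K) : K ⧸ T) = _
    rw [hC, hC, map_mul, mul_inv_rev, map_mul]
    simp only [mul_assoc]
  -- cosets outside `N`
  let S : Set (K ⧸ T) := {q | ∀ a : K, (a : K ⧸ T) = q → a ∉ N}
  have hSmem : ∀ a : K, a ∉ N → (a : K ⧸ T) ∈ S := by
    intro a ha a' ha' ha'N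
    rw [QuotientGroup.eq] at ha'
    apply ha
    have : a = a' * (a'⁻¹ * a) := by group
    rw [this]
    exact N.mul_mem ha'N (hTN ha')
  have hSs : ∀ (h : Q) (x : K ⧸ T), x ∈ S → h • x ∈ S := by
    intro h x hx
    obtain ⟨a, rfl⟩ := QuotientGroup.mk_surjective x
    have ha : a ∉ N := hx a rfl
    change (((h : K) * a : K) : K ⧸ T) ∈ S
    apply hSmem
    intro h1
    apply ha
    have : a = (h : K)⁻¹ * ((h : K) * a) := by group
    rw [this]
    exact N.mul_mem (N.inv_mem (hTN (hQT h.2))) h1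
  have hSf : ∀ (h : Q) (x : K ⧸ T), x ∈ S → h • x = x → h = 1 := by
    intro h x hx hh
    obtain ⟨a, rfl⟩ := QuotientGroup.mk_surjective x
    have ha : a ∉ N := hx a rfl
    change (((h : K) * a : K) : K ⧸ T) = (a : K ⧸ T) at hh
    rw [eq_comm, QuotientGroup.eq] at hh
    have h1 := hfree a ha (h : K) h.2 (by rwa [← mul_assoc] at hh)
    exact Subtype.ext h1
  obtain ⟨Y, hYS, hY⟩ := sum_free_orbits (M := Matrix (Fin n) (Fin n) A) S hSs hSf
  refine ⟨∑ q : K ⧸ T, C q, ∑ᶠ y ∈ Y, e * C y * e, ?_, ?_, ?_, ?_, ?_⟩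
  · intro k
    rw [Finset.mul_sum, Finset.sum_mul]
    have h1 : ∀ q : K ⧸ T, ρ k * C q = C (k • q) * ρ k := by
      intro q
      rw [hCs, mul_assoc, hinv', mul_one]
    rw [Finset.sum_congr rfl (fun q _ => h1 q)]
    exact Equiv.sum_comp (MulAction.toPerm k : Equiv.Perm (K ⧸ T)) (fun q => C q * ρ k)
  · rw [finsum_mem_eq_finite_toFinset_sum _ (Set.toFinite Y), Finset.mul_sum]
    refine Finset.sum_congr rfl fun y _ => ?_
    rw [← mul_assoc, ← mul_assoc, he]
  · rw [finsum_mem_eq_finite_toFinset_sum _ (Set.toFinite Y), Finset.sum_mul]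
    refine Finset.sum_congr rfl fun y _ => ?_
    rw [mul_assoc, he]
  · -- the main identity
    have hx : ∀ x : Q, ρ (x : K) * e = e * ρ (x : K) := fun x => heT _ (hQT x.2)
    have hx' : ∀ x : Q, e * ρ (x : K)⁻¹ = ρ (x : K)⁻¹ * e :=
      fun x => (heT _ (T.inv_mem (hQT x.2))).symm
    have h1 : ∑ᶠ x : Q, ρ (x : K) * (∑ᶠ y ∈ Y, e * C y * e) * ρ (x : K)⁻¹ =
        ∑ᶠ q ∈ S, e * C q * e := by
      rw [hY (fun q => e * C q * e), finsum_mem_eq_finite_toFinset_sum _ (Set.toFinite Y),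
        finsum_mem_eq_finite_toFinset_sum _ (Set.toFinite Y), finsum_eq_sum_of_fintype]
      simp only [finsum_eq_sum_of_fintype]
      rw [Finset.sum_comm]
      refine Finset.sum_congr rfl fun x _ => ?_
      rw [Finset.mul_sum, Finset.sum_mul]
      refine Finset.sum_congr rfl fun y _ => ?_
      change _ = e * C ((x : K) • y) * e
      rw [hCs]
      calc ρ (x : K) * (e * C y * e) * ρ (x : K)⁻¹
          = (ρ (x : K) * e) * C y * (e * ρ (x : K)⁻¹) := by simp only [mul_assoc]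
        _ = e * (ρ (x : K) * C y * ρ (x : K)⁻¹) * e := by
            rw [hx, hx']; simp only [mul_assoc]
    rw [h1, finsum_mem_eq_finite_toFinset_sum _ (Set.toFinite S)]
    have h2 : e * (∑ q : K ⧸ T, C q) * e = ∑ q : K ⧸ T, e * C q * e := by
      rw [Finset.mul_sum, Finset.sum_mul]
    rw [h2]
    have hSd : (Set.toFinite S).toFinset = Finset.univ.filter (fun q => q ∈ S) := by
      ext q; rw [Set.Finite.mem_toFinset, Finset.mem_filter]; simp
    rw [hSd, ← Finset.sum_filter_add_sum_filter_not Finset.univ (fun q => q ∈ S)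
      (fun q => e * C q * e), add_sub_cancel_left]
    rw [Finset.sum_eq_single ((1 : K) : K ⧸ T)]
    · rw [hC, inv_one, map_one, one_mul, mul_one, hef, hfe]
    · intro q hq hq1
      simp only [Finset.mem_filter, Finset.mem_univ, true_and] at hq
      obtain ⟨a, rfl⟩ := QuotientGroup.mk_surjective q
      have haN : a ∈ N := by
        by_contra hcon
        exact hq (hSmem a hcon)
      have haT : a ∉ T := by
        intro hcon
        apply hq1
        rw [QuotientGroup.eq]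
        simpa using T.inv_mem hcon
      rw [hC]
      have h3 := hort a haN haT
      calc e * (ρ a * f * ρ a⁻¹) * e
          = e * (ρ a * (e * f) * ρ a⁻¹) * e := by rw [hef]
        _ = e * (ρ a * e * (ρ a⁻¹ * ρ a) * f * ρ a⁻¹) * e := by
            rw [hinv', mul_one]; simp only [mul_assoc]
        _ = (e * (ρ a * e * ρ a⁻¹)) * (ρ a * f * ρ a⁻¹) * e := by simp only [mul_assoc]
        _ = 0 := by rw [h3, zero_mul, zero_mul]
    · intro hcon
      exfalso
      apply hcon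
      simp only [Finset.mem_filter, Finset.mem_univ, true_and]
      intro h4
      exact h4 1 rfl N.one_mem
  · rw [Matrix.trace_sum]
    have h1 : ∀ q : K ⧸ T, (C q).trace = f.trace := by
      intro q
      obtain ⟨a, rfl⟩ := QuotientGroup.mk_surjective q
      rw [hC, Matrix.trace_mul_comm, ← mul_assoc, hinv', one_mul]
    rw [Finset.sum_congr rfl (fun q _ => h1 q), Finset.sum_const, nsmul_eq_mul, Finset.card_univ,
      ← Nat.card_eq_fintype_card]
    rfl

theorem key_lemma {A : Type} [CommRing A] {K : Type} [Group K] [Finite K] {n : ℕ}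
    (ρ : K →* Matrix (Fin n) (Fin n) A) (Q T N : Subgroup K) (hQT : Q ≤ T) (hTN : T ≤ N)
    (hQN : ∀ k ∈ N, ∀ x ∈ Q, k⁻¹ * x * k ∈ Q)
    (hfree : ∀ k, k ∉ N → ∀ x ∈ Q, k⁻¹ * x * k ∈ T → x = 1)
    (e : Matrix (Fin n) (Fin n) A) (he : e * e = e) (heT : ∀ t ∈ T, ρ t * e = e * ρ t)
    (hcen : ∀ g : Matrix (Fin n) (Fin n) A, (∀ k, ρ k * g = g * ρ k) → e * g = g * e)
    (hort : ∀ k ∈ N, k ∉ T → e * (ρ k * e * ρ k⁻¹) = 0)
    (f : Matrix (Fin n) (Fin n) A) (hef : e * f = f) (hfe : f * e = f)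
    (hfT : ∀ t ∈ T, ρ t * f = f * ρ t) :
    ∃ g b : Matrix (Fin n) (Fin n) A, (∀ k, ρ k * g = g * ρ k) ∧ e * b = b ∧ b * e = b ∧
      f = e * g - ∑ᶠ x : Q, ρ (x : K) * b * ρ (x : K)⁻¹ ∧
      g.trace = (T.index : A) * f.trace := by
  obtain ⟨g, b, hg, heb, hbe, hf, htr⟩ :=
    key_lemma0 ρ Q T N hQT hTN hQN hfree e he heT hort f hef hfe hfT
  refine ⟨g, b, hg, heb, hbe, ?_, htr⟩
  have h1 : e * g * e = e * g := by
    rw [mul_assoc, ← hcen g hg, ← mul_assoc, he]
  rw [h1] at hf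
  exact hf

end Pool.Agent.Helper42.IR
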