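import Pool.Agent.Helper42.IR.MultBds
import Pool.Agent.Helper42.IR.KeyLemma

/-!
# IR-17 (project IR, section 3.1, 3.3a): the relatively projective case

`rank_of_trQ`: let `E'` be an idempotent matrix over the residue field `k` commuting with the
`toK (R x)`, `x ∈ Q`, and suppose `E' = trQ (b)` for a matrix `b` over `k` with `E' b = b`. If `v` is in
the range of `E'` and fixed by `y` (hence by `Q`), then `v = E' v = trQ(b) v = nQ (b v)`
(`trQ_fix`), and `b v = E' b v`, so `v` is in the range of `nQ E'`. So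
`dim (ker (y - 1) ∩ range E') ≤ rank (nQ E')`, i.e. `rank E' ≤ rank ((y - 1) E') + rank (nQ E')`.

`aa_zero_of_trQ`: the hypothesis of `aa_zero` follows if `Eph R H φ = trQ R Q b` over `OO p` with
`E b = b` (apply `toK`).

`aa_zero_of_dvd` (defect zero): if `SchurR R` and `p ∣ n` then `aa = 0` for all `φ`: let `A` be any
integral matrix; `∑_{g ∈ K} R g A R g⁻¹` commutes with `R`, so it is a scalar `c` with
`c n = |K| trace A`. Write `n = p n'`, `|K| = p m'` with `p ∤ m'` (`Loc.pp`), and take for `A` the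
matrix with a single nonzero entry `n'/m' ∈ OO p` on the diagonal: `trace A = n / |K|`, `c = 1`. Sum
first over `Q`: with representatives `g` of `Q \ K`,
`1 = ∑_{x ∈ Q} R x (∑_g R g A R g⁻¹) R x⁻¹ = trQ (b0)`; and `E = E 1 = trQ (E b0)` (`mul_trQ`, `E`
commutes with `R x` for `x ∈ Q`).
-/

namespace Pool.Agent.Helper42.IR

open Pool.Agent.Helper42.INC

/-- linear algebra: an idempotent `E` which is a relative trace -/
private lemma rank_aux {F : Type} [Field F] {K : Type} [Group K] [Finite K] {n : ℕ}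
    (ρ : K →* Matrix (Fin n) (Fin n) F) (Q : Subgroup K) (y : K) (hyQ : y ∈ Q)
    (hgen : ∀ x ∈ Q, ∃ j : ℕ, y ^ j = x)
    (E b : Matrix (Fin n) (Fin n) F) (hE : E * E = E) (hb : E * b = b) (h : E = trQ ρ Q b) :
    E.rank ≤ ((ρ y - 1) * E).rank + (nQ ρ Q * E).rank := by
  classical
  let W : Submodule F (Fin n → F) := LinearMap.range E.mulVecLin
  let T : W →ₗ[F] (Fin n → F) := (ρ y - 1).mulVecLin.comp W.subtype
  have h1 : Module.finrank F (LinearMap.range T) + Module.finrank F (LinearMap.ker T) =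
      Module.finrank F W := LinearMap.finrank_range_add_finrank_ker T
  have h2 : LinearMap.range T = LinearMap.range ((ρ y - 1) * E).mulVecLin := by
    rw [Matrix.mulVecLin_mul, LinearMap.range_comp, LinearMap.range_comp, Submodule.range_subtype]
  have h3 : Module.finrank F (LinearMap.ker T) ≤
      Module.finrank F (LinearMap.range (nQ ρ Q * E).mulVecLin) := by
    have h4 : (LinearMap.ker T).map W.subtype ≤ LinearMap.range (nQ ρ Q * E).mulVecLin := by
      rintro _ ⟨⟨v, hv⟩, hvT, rfl⟩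
      change v ∈ LinearMap.range (nQ ρ Q * E).mulVecLin
      have hv1 : (ρ y - 1).mulVec v = 0 := hvT
      obtain ⟨w, hw⟩ := hv
      have hw' : E.mulVec w = v := hw
      have hEv : E.mulVec v = v := by
        rw [← hw', Matrix.mulVec_mulVec, hE]
      have hy : (ρ y).mulVec v = v := by
        rw [Matrix.sub_mulVec, Matrix.one_mulVec] at hv1
        exact sub_eq_zero.1 hv1
      have hfix : ∀ x ∈ Q, (ρ x).mulVec v = v := by
        intro x hx
        obtain ⟨j, rfl⟩ := hgen x hx
        induction j with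
        | zero => simp
        | succ j ih =>
          rw [pow_succ', map_mul, ← Matrix.mulVec_mulVec, ih (Q.pow_mem hyQ j), hy]
      have h5 : v = (nQ ρ Q).mulVec (b.mulVec v) := by
        rw [← trQ_fix ρ Q b v hfix, ← h, hEv]
      refine ⟨b.mulVec v, ?_⟩
      change (nQ ρ Q * E).mulVec (b.mulVec v) = v
      rw [← Matrix.mulVec_mulVec, Matrix.mulVec_mulVec v E b, hb]
      exact h5.symm
    have h5 : Module.finrank F (LinearMap.ker T) =
        Module.finrank F ((LinearMap.ker T).map W.subtype) :=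
      (LinearEquiv.finrank_eq
        (Submodule.equivMapOfInjective W.subtype W.injective_subtype (LinearMap.ker T)))
    rw [h5]
    exact Submodule.finrank_mono h4
  have e1 : E.rank = Module.finrank F W := rfl
  have e2 : ((ρ y - 1) * E).rank = Module.finrank F (LinearMap.range T) := by
    rw [h2]; rfl
  have e3 : (nQ ρ Q * E).rank =
      Module.finrank F (LinearMap.range (nQ ρ Q * E).mulVecLin) := rfl
  rw [e1, e2, e3]
  omega

variable {p : ℕ} [Fact p.Prime] {K : Type} [Group K] [Finite K] {n : ℕ}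
  (R : K →* Matrix (Fin n) (Fin n) (OO p)) {Q H : Subgroup K} (hL : Loc p (⊤ : Subgroup K) Q H)
include hL

theorem rank_of_trQ {φ : K → ℂ} (hφ : φ ∈ IrrS H) {y : K} (hy : y ∈ Q) (hy1 : y ≠ 1)
    (b : Matrix (Fin n) (Fin n) (OO p)) (hb : Eph R H φ * b = b)
    (h : Eph R H φ = trQ R Q b) :
    (toK (Eph R H φ)).rank ≤ (toK ((R y - 1) * Eph R H φ)).rank +
      (toK (nQ R Q * Eph R H φ)).rank := by
  classical
  letI : Fintype Q := Fintype.ofFinite Q
  let ρ : K →* Matrix (Fin n) (Fin n) (kk p) :=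
    ((IsLocalRing.residue (OO p)).mapMatrix (m := Fin n) : _ →* _).comp R
  have hρ : ∀ g, ρ g = toK (R g) := fun g => rfl
  have hgen : ∀ x ∈ Q, ∃ j : ℕ, y ^ j = x := by
    intro x hx
    have h1 : (⟨x, hx⟩ : Q) ∈ Submonoid.powers (⟨y, hy⟩ : Q) :=
      mem_powers_of_prime_card hL.cQ (by
        intro h2
        exact hy1 (congrArg Subtype.val h2))
    obtain ⟨j, hj⟩ := h1
    exact ⟨j, congrArg Subtype.val hj⟩
  have htr : toK (trQ R Q b) = trQ ρ Q (toK b) := by
    unfold trQ
    rw [finsum_eq_sum_of_fintype, finsum_eq_sum_of_fintype]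
    rw [show toK (∑ i : Q, R (i : K) * b * R (i : K)⁻¹) =
      ∑ i : Q, toK (R (i : K) * b * R (i : K)⁻¹) from
        map_sum ((IsLocalRing.residue (OO p)).mapMatrix) _ _]
    refine Finset.sum_congr rfl fun x _ => ?_
    rw [toK_mul, toK_mul, hρ, hρ]
  have hnq : toK (nQ R Q) = nQ ρ Q := by
    unfold nQ
    rw [finsum_eq_sum_of_fintype, finsum_eq_sum_of_fintype]
    exact map_sum ((IsLocalRing.residue (OO p)).mapMatrix) _ _
  have hE := Eph_mul_self R H hL.pH hφ
  have hE' : toK (Eph R H φ) * toK (Eph R H φ) = toK (Eph R H φ) := by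
    rw [← toK_mul, hE]
  have hb' : toK (Eph R H φ) * toK b = toK b := by
    rw [← toK_mul, hb]
  have h' : toK (Eph R H φ) = trQ ρ Q (toK b) := by
    rw [← htr, ← h]
  have key := rank_aux ρ Q y hy hgen _ _ hE' hb' h'
  rw [toK_mul, toK_sub, toK_one, toK_mul, hnq]
  exact key

theorem aa_zero_of_trQ {φ : K → ℂ} (hφ : φ ∈ IrrS H)
    (b : Matrix (Fin n) (Fin n) (OO p)) (hb : Eph R H φ * b = b)
    (h : Eph R H φ = trQ R Q b) {lam : K → ℂ} (hl : lam ∈ IrrS Q) :
    aa Q H (chR R) lam φ = 0 := by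
  have hp : p.Prime := Fact.out
  have hnt : ∃ y ∈ Q, y ≠ 1 := by
    by_contra hc
    push Not at hc
    have h1 : Nat.card Q = 1 := by
      rw [Subgroup.card_eq_one]
      exact (Subgroup.eq_bot_iff_forall Q).2 hc
    rw [hL.cQ] at h1
    exact hp.one_lt.ne' h1
  obtain ⟨y, hy, hy1⟩ := hnt
  exact aa_zero R hL hφ hy hy1 (rank_of_trQ R hL hφ hy hy1 b hb h) hl

theorem aa_zero_of_dvd (hR : SchurR R) (hn : p ∣ n) {φ : K → ℂ} (hφ : φ ∈ IrrS H)
    {lam : K → ℂ} (hl : lam ∈ IrrS Q) : aa Q H (chR R) lam φ = 0 := by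
  classical
  letI : Fintype Q := Fintype.ofFinite Q
  letI : Fintype K := Fintype.ofFinite K
  have hp : p.Prime := Fact.out
  obtain ⟨n', hn'⟩ := hn
  have hpK : p ∣ Nat.card K := by
    rw [← hL.cQ]
    exact Subgroup.card_subgroup_dvd_card Q
  obtain ⟨m', hm'⟩ := hpK
  have hpm' : ¬ p ∣ m' := by
    rintro ⟨c, rfl⟩
    apply hL.pp
    refine ⟨c, ?_⟩
    have h1 : Nat.card (⊤ : Subgroup K) = Nat.card K := Subgroup.card_top
    rw [h1, hm']
    ring
  have hn0 : 0 < n := hR.1
  let i0 : Fin n := ⟨0, hn0⟩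
  let minv : OO p := ⟨((m' : ℂ))⁻¹, inv_nat_mem hpm'⟩
  have hm0 : (m' : ℂ) ≠ 0 := by
    intro h
    have h1 : m' = 0 := by exact_mod_cast h
    exact hpm' (h1 ▸ dvd_zero p)
  let A : Matrix (Fin n) (Fin n) (OO p) := Matrix.single i0 i0 ((n' : OO p) * minv)
  let F : K → Matrix (Fin n) (Fin n) (OO p) := fun g => R g * A * R g⁻¹
  have hinv : ∀ g : K, R g⁻¹ * R g = 1 := fun g => by
    rw [← map_mul, inv_mul_cancel, map_one]
  have hinv' : ∀ g : K, R g * R g⁻¹ = 1 := fun g => by
    rw [← map_mul, mul_inv_cancel, map_one]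
  have hcomm : ∀ g, (∑ x : K, F x) * R g = R g * ∑ x : K, F x := by
    intro g
    rw [Finset.sum_mul, Finset.mul_sum]
    refine (Fintype.sum_equiv (Equiv.mulLeft g) _ _ ?_).symm
    intro x
    change R g * (R x * A * R x⁻¹) = R (g * x) * A * R (g * x)⁻¹ * R g
    rw [mul_inv_rev, map_mul, map_mul]
    calc R g * (R x * A * R x⁻¹) = R g * R x * A * R x⁻¹ * 1 := by
          simp only [mul_assoc, mul_one]
      _ = R g * R x * A * R x⁻¹ * (R g⁻¹ * R g) := by rw [hinv]
      _ = _ := by simp only [mul_assoc]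
  obtain ⟨c, hc⟩ := scalarR R hR _ hcomm
  have htr : (∑ x : K, F x).trace = (Nat.card K : OO p) * A.trace := by
    rw [Matrix.trace_sum]
    rw [Finset.sum_congr rfl (g := fun _ => A.trace) (fun x _ => by
      change (R x * A * R x⁻¹).trace = A.trace
      rw [Matrix.trace_mul_comm, ← Matrix.mul_assoc, hinv, Matrix.one_mul])]
    rw [Finset.sum_const, Finset.card_univ, Nat.card_eq_fintype_card, nsmul_eq_mul]
  have hAtr : A.trace = (n' : OO p) * minv := by
    simp [A, Matrix.trace_single_eq_same]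
  have hc1 : c = 1 := by
    rw [hc, hAtr, Matrix.trace_smul, Matrix.trace_one, Fintype.card_fin, hm', smul_eq_mul] at htr
    have h2 := congrArg (Subtype.val : OO p → ℂ) htr
    have h3 : (c : ℂ) * n = ((p * m' : ℕ) : ℂ) * ((n' : ℂ) * (m' : ℂ)⁻¹) := by
      simpa [minv] using h2
    have h4 : (n : ℂ) = p * n' := by rw [hn']; push_cast; ring
    have h5 : (c : ℂ) * n = n := by
      rw [h3, h4]
      push_cast
      field_simp
    have h6 : (n : ℂ) ≠ 0 := by exact_mod_cast hn0.ne'
    have h7 : (c : ℂ) = 1 := by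
      have := mul_right_cancel₀ h6 (h5.trans (one_mul _).symm)
      exact this
    exact Subtype.ext h7
  have hone : ∑ x : K, F x = 1 := by rw [hc, hc1, one_smul]
  obtain ⟨Y, -, hY⟩ := sum_free_orbits (H := Q) (X := K)
    (M := Matrix (Fin n) (Fin n) (OO p)) Set.univ (fun _ _ _ => Set.mem_univ _)
    (fun h x _ hx => by
      have h1 : (h : K) * x = x := hx
      exact Subtype.ext (mul_eq_right.1 h1))
  have hY1 := hY F
  have hYf : Y.Finite := Set.toFinite Y
  have h1 : ∑ᶠ x ∈ (Set.univ : Set K), F x = ∑ x : K, F x := by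
    rw [finsum_mem_univ, finsum_eq_sum_of_fintype]
  rw [h1, hone, finsum_mem_eq_finite_toFinset_sum _ hYf] at hY1
  have h2 : (1 : Matrix (Fin n) (Fin n) (OO p)) =
      trQ R Q (∑ y ∈ hYf.toFinset, F y) := by
    rw [hY1]
    unfold trQ
    rw [finsum_eq_sum_of_fintype]
    simp only [finsum_eq_sum_of_fintype]
    rw [Finset.sum_comm]
    refine Finset.sum_congr rfl fun x _ => ?_
    rw [Finset.mul_sum, Finset.sum_mul]
    refine Finset.sum_congr rfl fun y _ => ?_
    change R ((x : K) * y) * A * R ((x : K) * y)⁻¹ = R (x : K) * (R y * A * R y⁻¹) * R (x : K)⁻¹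
    rw [mul_inv_rev, map_mul, map_mul]
    simp only [mul_assoc]
  have hEc : ∀ y ∈ Q, R y * Eph R H φ = Eph R H φ * R y := by
    intro y hy
    refine Eph_comm_centralizer R H hL.pH hφ ?_
    rw [Subgroup.mem_centralizer_iff]
    intro h hh
    exact (hL.comm y hy h hh).symm
  refine aa_zero_of_trQ R hL hφ (Eph R H φ * ∑ y ∈ hYf.toFinset, F y) ?_ ?_ hl
  · rw [← mul_assoc, Eph_mul_self R H hL.pH hφ]
  · rw [← mul_trQ R Q _ _ hEc, ← h2, mul_one]

end Pool.Agent.Helper42.IR
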