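import Pool.Agent.Helper42.IR.KeyApp
import Pool.Agent.Helper42.IR.FreeCase
import Pool.Agent.Helper42.IR.MatForm

/-!
# IR-19 (project IR, section 3.3): elementary facts for the block separation

`χ = chR R` irreducible of degree `n` prime to `p`, `m_ρ = ip H χ ρ` (a natural number, `ip_nat`).
* `not_dvd_deg`: for `p ∤ |H|` and `φ ∈ IrrS H` the degree is prime to `p`. Use that `φ(1)` divides `|H|`
  (if available in INC), or: `φ` on `H` is the character of an integral matrix representation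
  (`INC`/`MatForm.exists_form` over `OO p` for the group `H`: `φ = chR σ`, `SchurR σ`); the matrix
  `A = ∑_h φ(h⁻¹) σ(h)` is central with trace `|H|` (`∑ φ(h⁻¹) φ(h) = |H|`), so it is a scalar
  `c ∈ OO p` (`scalarR`) with `c φ(1) = |H|`, a unit of `OO p`; so `φ(1)` is a unit, `p ∤ φ(1)`.
* `ip_nat`: `B_char` for the restriction to `H` of the representation `toC (R ·)` on `Fin n → ℂ`.
* `bs_exists`: `n = ∑_ρ ρ(1) m_ρ` (value at `1` of the expansion of the restriction), so some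
  `m_ρ` is prime to `p`.
* `bl_of_ndvd`: if all `aa (lam, φ) = 0` then `cm (lam, φ)` is constant, so `m_φ = p · cm` (`sum_cm`,
  `card_irrS_Q`) is divisible by `p`.
-/

namespace Pool.Agent.Helper42.IR

open Pool.Agent.Helper42.INC

variable {p : ℕ} [Fact p.Prime]

private lemma degS_eq {K : Type} [Group K] [Finite K] {H : Subgroup K} {φ : K → ℂ}
    (hφ : φ ∈ IrrS H) : (deg φ : ℂ) = φ 1 := by
  obtain ⟨m, _, hm⟩ := irr_one hφ.1
  have h1 : φ 1 = m := hm
  rw [deg_eq h1, h1]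

/-- degrees of characters of a `p'`-group are prime to `p` -/
theorem not_dvd_deg {K : Type} [Group K] [Finite K] {H : Subgroup K} (hH : ¬ p ∣ Nat.card H)
    {φ : K → ℂ} (hφ : φ ∈ IrrS H) : ¬ p ∣ deg φ := by
  classical
  intro hd
  letI : Fintype H := Fintype.ofFinite H
  have hself := B_irr_self hφ.1
  have hcl := Irr.isClass hφ.1
  have hdeg := degS_eq hφ
  obtain ⟨V, _, _, _, ρ, hρ, hch⟩ := hφ.1
  have hnt : Nontrivial V := ((isIrreducible_iff ρ).1 hρ).1
  obtain ⟨w, hw⟩ := exists_ne (0 : V)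
  obtain ⟨m, b, R, _, hS, _, _, hR⟩ := exists_mat_form (p := p) ρ hρ w hw
  have hRφ : ∀ h : H, chR R h = φ h := fun h => by
    rw [hR h]
    exact (congrFun hch h).symm
  have hmem : ∀ h : H, φ (h : K) ∈ OO p := fun h => by
    rw [← hRφ h]
    exact Subtype.mem _
  set A : Matrix (Fin m) (Fin m) (OO p) := ∑ h : H, (⟨φ ((h⁻¹ : H) : K), hmem _⟩ : OO p) • R h
    with hA
  have hcomm : ∀ g : H, A * R g = R g * A := by
    intro g
    rw [hA, Finset.sum_mul, Finset.mul_sum]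
    refine Fintype.sum_equiv (MulAut.conj g⁻¹).toEquiv _ _ ?_
    intro h
    have e1 : (MulAut.conj g⁻¹).toEquiv h = g⁻¹ * h * g := by
      simp [MulAut.conj_apply]
    have e2 : φ ((((MulAut.conj g⁻¹).toEquiv h)⁻¹ : H) : K) = φ ((h⁻¹ : H) : K) := by
      rw [e1]
      have h3 := hcl g⁻¹ h⁻¹
      have h4 : g⁻¹ * h⁻¹ * g⁻¹⁻¹ = (g⁻¹ * h * g)⁻¹ := by group
      rw [h4] at h3
      exact h3
    have e3 : (⟨φ ((((MulAut.conj g⁻¹).toEquiv h)⁻¹ : H) : K), hmem _⟩ : OO p) =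
        ⟨φ ((h⁻¹ : H) : K), hmem _⟩ := Subtype.ext e2
    rw [e3, Matrix.smul_mul, Matrix.mul_smul, ← map_mul, ← map_mul, e1]
    congr 2
    group
  obtain ⟨c, hc⟩ := scalarR R hS A hcomm
  have htr : ((A.trace : OO p) : ℂ) = (Nat.card H : ℂ) := by
    rw [← trace_toC, hA, toC_sum, Matrix.trace_sum]
    rw [B_eq] at hself
    have hcard : (Nat.card H : ℂ) ≠ 0 := by exact_mod_cast Nat.card_pos.ne'
    have h5 : ∑ x : H, φ (x : K) * φ ((x⁻¹ : H) : K) = (Nat.card H : ℂ) := by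
      have := congrArg (fun z => (Nat.card H : ℂ) * z) hself
      simp only [mul_one] at this
      rw [← mul_assoc, mul_inv_cancel₀ hcard, one_mul] at this
      exact this
    rw [← h5]
    refine Finset.sum_congr rfl fun h _ => ?_
    rw [toC_smul, Matrix.trace_smul, trace_toC, smul_eq_mul, mul_comm]
    congr 1
    exact hRφ h
  have hcm : c * (m : OO p) = ((Nat.card H : ℕ) : OO p) := by
    have h6 : A.trace = c * (m : OO p) := by
      rw [hc, Matrix.trace_smul, Matrix.trace_one, Fintype.card_fin, smul_eq_mul]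
    apply Subtype.ext
    rw [← h6, htr]
    simp
  have hm : deg φ = m := by
    have h7 : (m : ℂ) = φ 1 := by
      rw [← chR_one R]
      exact hRφ 1
    have h8 : (deg φ : ℂ) = m := by rw [hdeg, h7]
    exact_mod_cast h8
  rw [hm] at hd
  obtain ⟨k, rfl⟩ := hd
  apply hH
  apply dvd_of_mem (p := p)
  rw [← hcm]
  apply Ideal.mul_mem_left
  rw [Nat.cast_mul]
  exact Ideal.mul_mem_right _ _ (p_mem p)

variable {K : Type} [Group K] [Finite K] {n : ℕ}
  (R : K →* Matrix (Fin n) (Fin n) (OO p)) {Q H : Subgroup K}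

omit [Finite K] in
private lemma chR_char (H : Subgroup K) :
    ∃ σ : Representation ℂ H (Fin n → ℂ), (fun h : H => chR R h) = σ.character := by
  let σ : Representation ℂ H (Fin n → ℂ) :=
    (Matrix.toLinAlgEquiv' (R := ℂ) (n := Fin n)).toAlgHom.toRingHom.toMonoidHom.comp
      ((((algebraMap (OO p) ℂ).mapMatrix : Matrix (Fin n) (Fin n) (OO p) →+*
        Matrix (Fin n) (Fin n) ℂ).toMonoidHom).comp (R.comp H.subtype))
  refine ⟨σ, ?_⟩
  funext h
  change chR R h = LinearMap.trace ℂ _ (Matrix.toLin' (toC (R h)))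
  rw [Matrix.trace_toLin'_eq, trace_toC]
  rfl

private lemma chR_class (H : Subgroup K) : IsClass (fun h : H => chR R h) := by
  obtain ⟨σ, hσ⟩ := chR_char R H
  rw [hσ]
  exact char_isClass σ

theorem ip_nat {φ : K → ℂ} (hφ : φ ∈ IrrS H) : ∃ m : ℕ, ip H (chR R) φ = m := by
  obtain ⟨σ, hσ⟩ := chR_char R H
  obtain ⟨V, _, _, _, ρ, _, hch⟩ := hφ.1
  unfold ip
  rw [hσ, hch]
  exact B_char σ ρ

theorem bs_exists (hn : ¬ p ∣ n) :
    ∃ φ ∈ IrrS H, ∃ m : ℕ, ip H (chR R) φ = m ∧ ¬ p ∣ m := by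
  classical
  by_contra hcon
  push Not at hcon
  apply hn
  letI : Fintype (Irr H) := Fintype.ofFinite (Irr H)
  have hk : ∀ χ : Irr H, ∃ k : ℕ, B (fun h : H => chR R h) χ.1 * χ.1 1 = ((p * k : ℕ) : ℂ) := by
    intro χ
    have h1 : ((cmx_equiv H).symm χ).1 ∈ IrrS H := ((cmx_equiv H).symm χ).2
    have h2 : (fun h : H => ((cmx_equiv H).symm χ).1 (h : K)) = χ.1 := by
      funext h
      have := cmx_equiv_apply H ((cmx_equiv H).symm χ) h
      rw [Equiv.apply_symm_apply] at this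
      exact this.symm
    obtain ⟨m, hm⟩ := ip_nat R h1
    obtain ⟨k, rfl⟩ := hcon _ h1 m hm
    obtain ⟨d, _, hd⟩ := irr_one χ.2
    refine ⟨k * d, ?_⟩
    have h3 : B (fun h : H => chR R h) χ.1 = ((p * k : ℕ) : ℂ) := by
      rw [← hm]
      unfold ip
      rw [h2]
    rw [h3, hd]
    push_cast
    ring
  choose k hk using hk
  have h := congrFun (expand (fun h : H => chR R h) (chR_class R H)) 1
  simp only [Finset.sum_apply, Pi.smul_apply, smul_eq_mul] at h
  rw [Finset.sum_congr rfl fun χ _ => hk χ] at h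
  have h1 : chR R ((1 : H) : K) = n := chR_one R
  rw [h1] at h
  refine ⟨∑ χ, k χ, ?_⟩
  rw [Finset.mul_sum]
  exact_mod_cast h

variable (hL : Loc p (⊤ : Subgroup K) Q H)
include hL

theorem bl_of_ndvd {φ : K → ℂ} (hφ : φ ∈ IrrS H) {m : ℕ} (hm : ip H (chR R) φ = m)
    (hd : ¬ p ∣ m) : Bl Q H (chR R) φ := by
  classical
  by_contra hB
  unfold Bl at hB
  push Not at hB
  apply hd
  have hQ := hL.cQ
  have hfin : Finite (IrrS Q) := Finite.of_equiv _ (cmx_equiv Q).symm
  letI : Fintype (IrrS Q) := Fintype.ofFinite _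
  have hχ : chR R ∈ CharS (⊤ : Subgroup K) := by
    obtain ⟨σ, hσ⟩ := chR_char R (⊤ : Subgroup K)
    exact ⟨⟨_, _, _, inferInstance, σ, hσ⟩, fun x hx => absurd (Subgroup.mem_top x) hx⟩
  obtain ⟨k, hk⟩ := cm_nat hQ hL.comm hχ (oneS_mem Q) hφ
  have h1 : ∀ lam : IrrS Q, cm Q H (chR R) lam.1 φ = k := by
    intro lam
    have h2 := hB lam.1 lam.2
    rw [aa_eq, hk] at h2
    exact sub_eq_zero.1 h2
  have h3 := sum_cm (H := H) hQ (chR R) φ
  rw [finsum_eq_sum_of_fintype, Finset.sum_congr rfl fun lam _ => h1 lam, Finset.sum_const,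
    Finset.card_univ, ← Nat.card_eq_fintype_card, card_irrS_Q hQ, hm, nsmul_eq_mul] at h3
  refine ⟨k, ?_⟩
  exact_mod_cast h3.symm

end Pool.Agent.Helper42.IR
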