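import Pool.Agent.Helper42.IR.Defs

/-!
# IR-15 (project IR): group theory of `Loc p K Q H`

`G` an ambient finite group, `Loc p K Q H`: `|K|` is divisible by `p` (as `Q ≤ K`) but not by `p²`,
`Q` of order `p`, `C = K ∩ C(Q) = Q H`, `H` of order prime to `p`.

* `comm`: `H` centralizes `Q`.
* `mem_H_iff`: the elements of `H` are the elements of `K ∩ C(Q)` of order prime to `p`: an element
  `x h` (`x ∈ Q`, `h ∈ H`, commuting) has order divisible by `p` unless `x = 1`.
* `norm_H`: hence every `g ∈ G` normalizing `K` and `Q` normalizes `H`.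
* `ti`: if `k ∈ K`, `x ∈ Q`, `x ≠ 1` and `k⁻¹ x k` normalizes `Q`, then `k` normalizes `Q`: `N = N_K(Q)`
  has the normal subgroup `Q`, whose order is the full `p`-part of `|N|`, so every element of order
  `p` of `N` lies in `Q` (`Q⟨y⟩` would be a `p`-group of order `p²` in `K`); so `k⁻¹ x k ∈ Q` and,
  `Q` being generated by `x`, `k⁻¹ Q k = Q`.
* `sylow_conj`: any two subgroups of `K` of order `p` are conjugate in `K` (Sylow).
* `exists_loc`: if `p ∣ |K|`, `p² ∤ |K|`, `Q ≤ K`, `|Q| = p`, there is `H` with `Loc p K Q H`: `Q` is a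
  central Sylow `p`-subgroup of `C = K ∩ C(Q)`, so it has a normal complement (Schur-Zassenhaus
  `Subgroup.exists_right_complement'_of_coprime`; a complement `H` is normal because `Q` is central).
* `loc_N`: `Loc p (NN K Q) Q H`.
* `unique_H`: `H` is unique.
* `card_C`: `|Q H| = p |H|`, `Q ∩ H = 1`.
* `index_prime`: `p ∤ |N : T|` for `C ≤ T ≤ N`, and `|N : C|` divides `p - 1` (`N/C` embeds in the
  automorphism group of `Q`, which has order `p - 1`).
-/

namespace Pool.Agent.Helper42.IR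

open Pool.Agent.Helper42.INC

variable {G : Type} [Group G] [Finite G] {p : ℕ} [Fact p.Prime] {K Q H : Subgroup G}

private lemma lf_mem_sup {Q H : Subgroup G} (hc : ∀ x ∈ Q, ∀ h ∈ H, x * h = h * x) {g : G} :
    g ∈ Q ⊔ H ↔ ∃ x ∈ Q, ∃ h ∈ H, x * h = g := by
  constructor
  · let S : Subgroup G :=
      { carrier := {g | ∃ x ∈ Q, ∃ h ∈ H, x * h = g}
        one_mem' := ⟨1, Q.one_mem, 1, H.one_mem, by simp⟩
        mul_mem' := by
          rintro _ _ ⟨x, hx, h, hh, rfl⟩ ⟨y, hy, k, hk, rfl⟩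
          refine ⟨x * y, Q.mul_mem hx hy, h * k, H.mul_mem hh hk, ?_⟩
          calc x * y * (h * k) = x * (y * h) * k := by group
            _ = x * (h * y) * k := by rw [hc y hy h hh]
            _ = x * h * (y * k) := by group
        inv_mem' := by
          rintro _ ⟨x, hx, h, hh, rfl⟩
          refine ⟨x⁻¹, Q.inv_mem hx, h⁻¹, H.inv_mem hh, ?_⟩
          rw [hc _ (Q.inv_mem hx) _ (H.inv_mem hh), mul_inv_rev] }
    have hS : Q ⊔ H ≤ S := by
      refine sup_le ?_ ?_
      · intro x hx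
        exact ⟨x, hx, 1, H.one_mem, by simp⟩
      · intro h hh
        exact ⟨1, Q.one_mem, h, hh, by simp⟩
    intro hg
    exact hS hg
  · rintro ⟨x, hx, h, hh, rfl⟩
    exact (Q ⊔ H).mul_mem (Subgroup.mem_sup_left hx) (Subgroup.mem_sup_right hh)

/-- an element of order dividing `p` of a subgroup `L` normalizing `Q` lies in `Q` -/
private lemma lf_mem_Q {L Q : Subgroup G} (hpp : ¬ p ^ 2 ∣ Nat.card L) (hQL : Q ≤ L)
    (cQ : Nat.card Q = p) (hN : L ≤ Subgroup.normalizer (Q : Set G)) {y : G} (hy : y ∈ L)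
    (hyp : y ^ p = 1) : y ∈ Q := by
  have hnorm : (Q.subgroupOf L).Normal := by
    refine ⟨fun n hn g => ?_⟩
    rw [Subgroup.mem_subgroupOf] at hn ⊢
    have := (Subgroup.mem_normalizer_iff.mp (hN g.2) (n : G)).mp hn
    simpa using this
  have hcard : Nat.card (Q.subgroupOf L) = p := by
    rw [← cQ]
    exact Nat.card_congr (Subgroup.subgroupOfEquivOfLe hQL).toEquiv
  have hmul : p * (Q.subgroupOf L).index = Nat.card L := by
    rw [← hcard]
    exact (Q.subgroupOf L).card_mul_index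
  have hnd : ¬ p ∣ (Q.subgroupOf L).index := by
    intro h
    apply hpp
    rw [← hmul, pow_two]
    exact Nat.mul_dvd_mul_left p h
  have h1 : (QuotientGroup.mk (s := Q.subgroupOf L) (⟨y, hy⟩ : L)) ^ p = 1 := by
    rw [← QuotientGroup.mk_pow]
    have : (⟨y, hy⟩ : L) ^ p = 1 := by
      apply Subtype.ext
      simpa using hyp
    rw [this]
    rfl
  have h2 : orderOf (QuotientGroup.mk (s := Q.subgroupOf L) (⟨y, hy⟩ : L)) ∣ p :=
    orderOf_dvd_of_pow_eq_one h1
  have h3 : orderOf (QuotientGroup.mk (s := Q.subgroupOf L) (⟨y, hy⟩ : L)) ∣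
      (Q.subgroupOf L).index := by
    rw [Subgroup.index_eq_card]
    exact orderOf_dvd_natCard _
  have hp : p.Prime := Fact.out
  rcases (Nat.dvd_prime hp).mp h2 with h4 | h4
  · rw [orderOf_eq_one_iff, QuotientGroup.eq_one_iff, Subgroup.mem_subgroupOf] at h4
    exact h4
  · rw [h4] at h3
    exact absurd h3 hnd

private lemma lf_pow_p {Q : Subgroup G} (cQ : Nat.card Q = p) {x : G} (hx : x ∈ Q) : x ^ p = 1 := by
  have h := pow_card_eq_one' (G := Q) (x := ⟨x, hx⟩)
  rw [cQ] at h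
  simpa using congrArg (Subtype.val) h

private lemma lf_zpowers {Q : Subgroup G} (cQ : Nat.card Q = p) {x : G} (hx : x ∈ Q) (h1 : x ≠ 1) :
    Subgroup.zpowers x = Q := by
  have hp : p.Prime := Fact.out
  have hle : Subgroup.zpowers x ≤ Q := by
    rw [Subgroup.zpowers_le]; exact hx
  have ho : orderOf x = p := by
    rcases (Nat.dvd_prime hp).mp (orderOf_dvd_of_pow_eq_one (lf_pow_p cQ hx)) with h | h
    · exact absurd (orderOf_eq_one_iff.mp h) h1
    · exact h
  apply Subgroup.eq_of_le_of_card_ge hle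
  rw [Nat.card_zpowers, ho, cQ]

namespace Loc

theorem comm (hL : Loc p K Q H) : ∀ x ∈ Q, ∀ h ∈ H, x * h = h * x := by
  intro x hx h hh
  have h1 := (hL.HC hh).2
  exact Subgroup.mem_centralizer_iff.mp h1 x hx

private theorem inf_eq' (hL : Loc p K Q H) : Q ⊓ H = ⊥ := by
  have hp : p.Prime := Fact.out
  apply Subgroup.inf_eq_bot_of_coprime
  rw [hL.cQ]
  exact (Nat.Prime.coprime_iff_not_dvd hp).mpr hL.pH

theorem mem_H_iff (hL : Loc p K Q H) {h : G} :
    h ∈ H ↔ h ∈ K ⊓ Subgroup.centralizer (Q : Set G) ∧ ¬ p ∣ orderOf h := by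
  have hp : p.Prime := Fact.out
  constructor
  · intro hh
    refine ⟨hL.HC hh, fun hd => hL.pH (hd.trans ?_)⟩
    exact Subgroup.orderOf_dvd_natCard H hh
  · rintro ⟨h1, h2⟩
    rw [← hL.sup, lf_mem_sup (comm hL)] at h1
    obtain ⟨x, hx, k, hk, rfl⟩ := h1
    by_cases hx1 : x = 1
    · rw [hx1, one_mul]; exact hk
    · exfalso
      apply h2
      have hxo : orderOf x = p := by
        rcases (Nat.dvd_prime hp).mp (orderOf_dvd_of_pow_eq_one (lf_pow_p hL.cQ hx)) with h | h
        · exact absurd (orderOf_eq_one_iff.mp h) hx1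
        · exact h
      have hcomm : Commute x k := comm hL x hx k hk
      have h3 : (x * k) ^ orderOf (x * k) = 1 := pow_orderOf_eq_one _
      rw [hcomm.mul_pow] at h3
      have h4 : x ^ orderOf (x * k) ∈ Q ⊓ H := by
        refine ⟨Q.pow_mem hx _, ?_⟩
        have : x ^ orderOf (x * k) = (k ^ orderOf (x * k))⁻¹ := eq_inv_of_mul_eq_one_left h3
        change x ^ orderOf (x * k) ∈ H
        rw [this]
        exact H.inv_mem (H.pow_mem hk _)
      rw [inf_eq' hL, Subgroup.mem_bot] at h4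
      rw [← hxo]
      exact orderOf_dvd_of_pow_eq_one h4

theorem norm_H (hL : Loc p K Q H) {g : G} (hK : g ∈ Subgroup.normalizer (K : Set G))
    (hQ : g ∈ Subgroup.normalizer (Q : Set G)) : g ∈ Subgroup.normalizer (H : Set G) := by
  rw [Subgroup.mem_normalizer_iff]
  intro h
  rw [mem_H_iff hL, mem_H_iff hL]
  have ho : orderOf (g * h * g⁻¹) = orderOf h := by
    have := (MulAut.conj g).orderOf_eq h
    simpa [MulAut.conj_apply] using this
  rw [ho, Subgroup.mem_inf, Subgroup.mem_inf]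
  have h1 : h ∈ K ↔ g * h * g⁻¹ ∈ K := Subgroup.mem_normalizer_iff.mp hK h
  have h2 : h ∈ Subgroup.centralizer (Q : Set G) ↔
      g * h * g⁻¹ ∈ Subgroup.centralizer (Q : Set G) := by
    rw [Subgroup.mem_centralizer_iff, Subgroup.mem_centralizer_iff]
    constructor
    · intro hh x hx
      have hx' : g⁻¹ * x * g ∈ (Q : Set G) := by
        have := (Subgroup.mem_normalizer_iff''.mp hQ x).mp hx
        exact this
      have e := hh _ hx'
      calc x * (g * h * g⁻¹) = g * ((g⁻¹ * x * g) * h) * g⁻¹ := by group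
        _ = g * (h * (g⁻¹ * x * g)) * g⁻¹ := by rw [e]
        _ = g * h * g⁻¹ * x := by group
    · intro hh x hx
      have hx' : g * x * g⁻¹ ∈ (Q : Set G) := by
        have := (Subgroup.mem_normalizer_iff.mp hQ x).mp hx
        exact this
      have e := hh _ hx'
      calc x * h = g⁻¹ * ((g * x * g⁻¹) * (g * h * g⁻¹)) * g := by group
        _ = g⁻¹ * ((g * h * g⁻¹) * (g * x * g⁻¹)) * g := by rw [e]
        _ = h * x := by group
  rw [h1, h2]

theorem C_le_N (hL : Loc p K Q H) : Q ⊔ H ≤ NN K Q := by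
  rw [hL.sup]
  exact inf_le_inf_left K (Subgroup.centralizer_le_normalizer (Q : Set G))

theorem ti (hL : Loc p K Q H) {k x : G} (hk : k ∈ K) (hx : x ∈ Q) (hx1 : x ≠ 1)
    (h : k⁻¹ * x * k ∈ Subgroup.normalizer (Q : Set G)) :
    k ∈ Subgroup.normalizer (Q : Set G) := by
  have hyK : k⁻¹ * x * k ∈ NN K Q :=
    ⟨K.mul_mem (K.mul_mem (K.inv_mem hk) (hL.QK hx)) hk, h⟩
  have hpow : ∀ n : ℤ, (k⁻¹ * x * k) ^ n = k⁻¹ * x ^ n * k := by
    intro n
    have := (conj_zpow (i := n) (a := k⁻¹) (b := x))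
    simpa using this
  have hyp : (k⁻¹ * x * k) ^ p = 1 := by
    have := hpow p
    rw [zpow_natCast, zpow_natCast, lf_pow_p hL.cQ hx] at this
    rw [this]
    group
  have hNpp : ¬ p ^ 2 ∣ Nat.card (NN K Q) := by
    intro hd
    exact hL.pp (hd.trans (Subgroup.card_dvd_of_le inf_le_left))
  have hQN : Q ≤ NN K Q := le_trans le_sup_left (C_le_N hL)
  have hyQ : k⁻¹ * x * k ∈ Q := lf_mem_Q hNpp hQN hL.cQ inf_le_right hyK hyp
  have hy1 : k⁻¹ * x * k ≠ 1 := by
    intro he
    apply hx1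
    have : x = k * (k⁻¹ * x * k) * k⁻¹ := by group
    rw [this, he]
    group
  have hzy := lf_zpowers hL.cQ hyQ hy1
  have hzx := lf_zpowers hL.cQ hx hx1
  rw [Subgroup.mem_normalizer_iff]
  intro g
  constructor
  · intro hg
    change g ∈ Q at hg
    rw [← hzy, Subgroup.mem_zpowers_iff] at hg
    obtain ⟨n, rfl⟩ := hg
    rw [hpow]
    have : k * (k⁻¹ * x ^ n * k) * k⁻¹ = x ^ n := by group
    rw [this]
    exact Q.zpow_mem hx n
  · intro hg
    change k * g * k⁻¹ ∈ Q at hg
    rw [← hzx, Subgroup.mem_zpowers_iff] at hg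
    obtain ⟨n, hn⟩ := hg
    have : g = (k⁻¹ * x * k) ^ n := by
      rw [hpow, hn]
      group
    rw [this]
    exact Q.zpow_mem hyQ n

theorem sylow_conj (hL : Loc p K Q H) {Q' : Subgroup G} (hQ' : Q' ≤ K) (hc : Nat.card Q' = p) :
    ∃ k ∈ K, Q.map (MulAut.conj k).toMonoidHom = Q' := by
  have hp : p.Prime := Fact.out
  have hpK : p ∣ Nat.card K := by
    rw [← hL.cQ]
    exact Subgroup.card_dvd_of_le hL.QK
  have hfac : (Nat.card K).factorization p = 1 := by
    have h0 : Nat.card K ≠ 0 := Nat.card_pos.ne'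
    apply le_antisymm
    · by_contra hcon
      rw [not_le] at hcon
      apply hL.pp
      exact (hp.pow_dvd_iff_le_factorization h0).mpr hcon
    · exact (hp.dvd_iff_one_le_factorization h0).mp hpK
  have c1 : Nat.card (Q.subgroupOf K) = p ^ (Nat.card K).factorization p := by
    rw [hfac, pow_one]
    exact (Nat.card_congr (Subgroup.subgroupOfEquivOfLe hL.QK).toEquiv).trans hL.cQ
  have c2 : Nat.card (Q'.subgroupOf K) = p ^ (Nat.card K).factorization p := by
    rw [hfac, pow_one]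
    exact (Nat.card_congr (Subgroup.subgroupOfEquivOfLe hQ').toEquiv).trans hc
  obtain ⟨k, hk⟩ := MulAction.exists_smul_eq K (Sylow.ofCard _ c1) (Sylow.ofCard _ c2)
  refine ⟨k, k.2, ?_⟩
  have hk' : (((k : K) • (Sylow.ofCard _ c1) : Sylow p K) : Subgroup K) = Q'.subgroupOf K := by
    rw [hk]; rfl
  have hle : Q.map (MulAut.conj (k : G)).toMonoidHom ≤ Q' := by
    rintro _ ⟨x, hx, rfl⟩
    have hx2 : (⟨x, hL.QK hx⟩ : K) ∈ Q.subgroupOf K := by
      rw [Subgroup.mem_subgroupOf]; exact hx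
    have h3 : k * (⟨x, hL.QK hx⟩ : K) * k⁻¹ ∈ Q'.subgroupOf K := by
      rw [← hk', Sylow.coe_subgroup_smul]
      refine ⟨⟨x, hL.QK hx⟩, hx2, ?_⟩
      rfl
    rw [Subgroup.mem_subgroupOf] at h3
    simpa using h3
  apply Subgroup.eq_of_le_of_card_ge hle
  rw [hc]
  have : Nat.card (Q.map (MulAut.conj (k : G)).toMonoidHom) = Nat.card Q :=
    (Nat.card_congr (Q.equivMapOfInjective _ (MulAut.conj (k : G)).injective).toEquiv).symm
  rw [this, hL.cQ]

theorem loc_N (hL : Loc p K Q H) : Loc p (NN K Q) Q H := by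
  have hCN := Subgroup.centralizer_le_normalizer (Q : Set G)
  have hQN : Q ≤ NN K Q := le_trans le_sup_left (C_le_N hL)
  have he : NN K Q ⊓ Subgroup.centralizer (Q : Set G) = K ⊓ Subgroup.centralizer (Q : Set G) := by
    unfold NN
    rw [inf_assoc, inf_eq_right.mpr hCN]
  refine ⟨?_, hQN, hL.cQ, ?_, hL.pH, ?_⟩
  · intro hd
    exact hL.pp (hd.trans (Subgroup.card_dvd_of_le inf_le_left))
  · rw [he]; exact hL.HC
  · rw [he]; exact hL.sup

theorem unique_H {H' : Subgroup G} (hL : Loc p K Q H) (hL' : Loc p K Q H') : H = H' := by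
  ext h
  rw [mem_H_iff hL, mem_H_iff hL']

theorem inf_eq (hL : Loc p K Q H) : Q ⊓ H = ⊥ := inf_eq' hL

theorem card_C (hL : Loc p K Q H) : Nat.card (Q ⊔ H : Subgroup G) = p * Nat.card H := by
  let f : Q × H → (Q ⊔ H : Subgroup G) := fun z =>
    ⟨(z.1 : G) * (z.2 : G), (lf_mem_sup (comm hL)).mpr ⟨z.1, z.1.2, z.2, z.2.2, rfl⟩⟩
  have hf : Function.Bijective f := by
    constructor
    · rintro ⟨a, b⟩ ⟨c, d⟩ he
      have he' : (a : G) * (b : G) = (c : G) * (d : G) := congrArg Subtype.val he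
      have h1 : (c : G)⁻¹ * (a : G) = (d : G) * (b : G)⁻¹ := by
        rw [inv_mul_eq_iff_eq_mul, ← mul_assoc, ← he']
        group
      have h2 : (c : G)⁻¹ * (a : G) ∈ Q ⊓ H := by
        refine ⟨Q.mul_mem (Q.inv_mem c.2) a.2, ?_⟩
        change (c : G)⁻¹ * (a : G) ∈ H
        rw [h1]
        exact H.mul_mem d.2 (H.inv_mem b.2)
      rw [inf_eq' hL, Subgroup.mem_bot] at h2
      have h3 : (a : G) = c := (inv_mul_eq_one.mp h2).symm
      rw [h2] at h1
      have h4 : (b : G) = d := (mul_inv_eq_one.mp h1.symm).symm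
      exact Prod.ext (Subtype.ext h3) (Subtype.ext h4)
    · rintro ⟨g, hg⟩
      obtain ⟨x, hx, h, hh, rfl⟩ := (lf_mem_sup (comm hL)).mp hg
      exact ⟨(⟨x, hx⟩, ⟨h, hh⟩), rfl⟩
  rw [← Nat.card_congr (Equiv.ofBijective f hf), Nat.card_prod, hL.cQ]

theorem index_dvd (hL : Loc p K Q H) : (Q ⊔ H).relIndex (NN K Q) ∣ p - 1 := by
  have hp : p.Prime := Fact.out
  haveI : IsCyclic Q := isCyclic_of_prime_card hL.cQ
  let φ : NN K Q →* MulAut Q :=
    Q.normalizerMonoidHom.comp (Subgroup.inclusion (inf_le_right : NN K Q ≤ _))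
  have hker : φ.ker = (Q ⊔ H).subgroupOf (NN K Q) := by
    ext g
    rw [MonoidHom.mem_ker, Subgroup.mem_subgroupOf, hL.sup]
    have h1 : φ g = 1 ↔ Subgroup.inclusion (inf_le_right : NN K Q ≤ _) g ∈
        Q.normalizerMonoidHom.ker := by
      rw [MonoidHom.mem_ker]; rfl
    rw [h1, Subgroup.normalizerMonoidHom_ker, Subgroup.mem_subgroupOf]
    constructor
    · intro h
      exact ⟨g.2.1, h⟩
    · intro h
      exact h.2
  have h2 : (Q ⊔ H).relIndex (NN K Q) = φ.ker.index := by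
    rw [hker]; rfl
  rw [h2, Subgroup.index_ker]
  have h3 : Nat.card (MulAut Q) = p - 1 := by
    rw [IsCyclic.card_mulAut, hL.cQ, Nat.totient_prime hp]
  rw [← h3]
  exact Subgroup.card_subgroup_dvd_card _

theorem index_prime (hL : Loc p K Q H) {T : Subgroup G} (h1 : Q ⊔ H ≤ T) (h2 : T ≤ NN K Q) :
    ¬ p ∣ T.relIndex (NN K Q) := by
  intro hd
  apply (loc_N hL).pp
  have hpT : p ∣ Nat.card T := by
    rw [← hL.cQ]
    exact Subgroup.card_dvd_of_le (le_trans le_sup_left h1)
  have h3 : Nat.card T * T.relIndex (NN K Q) = Nat.card (NN K Q) := by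
    have h4 := (T.subgroupOf (NN K Q)).card_mul_index
    rw [Nat.card_congr (Subgroup.subgroupOfEquivOfLe h2).toEquiv] at h4
    exact h4
  rw [← h3, pow_two]
  exact Nat.mul_dvd_mul hpT hd

/-- the normalizer modulo the centralizer is abelian -/
theorem commutator_le (hL : Loc p K Q H) {a b : G} (ha : a ∈ Subgroup.normalizer (Q : Set G))
    (hb : b ∈ Subgroup.normalizer (Q : Set G)) :
    a * b * a⁻¹ * b⁻¹ ∈ Subgroup.centralizer (Q : Set G) := by
  haveI : IsCyclic Q := isCyclic_of_prime_card hL.cQ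
  let e := IsCyclic.mulAutMulEquiv Q
  let A : Subgroup.normalizer (Q : Set G) := ⟨a, ha⟩
  let B' : Subgroup.normalizer (Q : Set G) := ⟨b, hb⟩
  have h1 : A * B' * A⁻¹ * B'⁻¹ ∈ Q.normalizerMonoidHom.ker := by
    rw [MonoidHom.mem_ker]
    apply e.injective
    rw [map_mul, map_mul, map_mul, map_inv, map_inv, map_mul, map_mul, map_mul, map_inv, map_inv,
      map_one]
    rw [mul_comm (e _) (e _), mul_assoc _ (e _) (e _)⁻¹, mul_inv_cancel, mul_one, mul_inv_cancel]
  rw [Subgroup.normalizerMonoidHom_ker, Subgroup.mem_subgroupOf] at h1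
  exact h1

end Loc

theorem exists_loc (hp : p ∣ Nat.card K) (hpp : ¬ p ^ 2 ∣ Nat.card K) (hQK : Q ≤ K)
    (hQ : Nat.card Q = p) : ∃ H, Loc p K Q H := by
  have hpr : p.Prime := Fact.out
  haveI : IsCyclic Q := isCyclic_of_prime_card hQ
  have hQC : Q ≤ K ⊓ Subgroup.centralizer (Q : Set G) := by
    refine le_inf hQK ?_
    intro x hx
    rw [Subgroup.mem_centralizer_iff]
    intro y hy
    letI : CommGroup Q := IsCyclic.commGroup
    have := mul_comm (⟨y, hy⟩ : Q) ⟨x, hx⟩
    exact congrArg Subtype.val this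
  set C : Subgroup G := K ⊓ Subgroup.centralizer (Q : Set G) with hC
  haveI hnorm : (Q.subgroupOf C).Normal := by
    refine ⟨fun n hn g => ?_⟩
    rw [Subgroup.mem_subgroupOf] at hn ⊢
    have h1 : (g : G) ∈ Subgroup.centralizer (Q : Set G) := g.2.2
    have h2 := Subgroup.mem_centralizer_iff.mp h1 (n : G) hn
    have h3 : ((g * n * g⁻¹ : C) : G) = (n : G) := by
      push_cast
      rw [← h2]
      group
    rw [h3]
    exact hn
  have hcard : Nat.card (Q.subgroupOf C) = p :=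
    (Nat.card_congr (Subgroup.subgroupOfEquivOfLe hQC).toEquiv).trans hQ
  have hmul : p * (Q.subgroupOf C).index = Nat.card C := by
    rw [← hcard]
    exact (Q.subgroupOf C).card_mul_index
  have hnd : ¬ p ∣ (Q.subgroupOf C).index := by
    intro h
    apply hpp
    refine dvd_trans ?_ (Subgroup.card_dvd_of_le (inf_le_left : C ≤ K))
    rw [← hmul, pow_two]
    exact Nat.mul_dvd_mul_left p h
  have hcop : Nat.Coprime (Nat.card (Q.subgroupOf C)) (Q.subgroupOf C).index := by
    rw [hcard]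
    exact (Nat.Prime.coprime_iff_not_dvd hpr).mpr hnd
  obtain ⟨M, hM⟩ := Subgroup.exists_right_complement'_of_coprime hcop
  have hMcard : Nat.card M = (Q.subgroupOf C).index := by
    have h1 := hM.card_mul
    have h2 := (Q.subgroupOf C).card_mul_index
    have h3 : 0 < Nat.card (Q.subgroupOf C) := Nat.card_pos
    exact Nat.eq_of_mul_eq_mul_left h3 (h1.trans h2.symm)
  refine ⟨M.map C.subtype, hpp, hQK, hQ, ?_, ?_, ?_⟩
  · rintro _ ⟨x, _, rfl⟩
    exact x.2
  · rw [Subgroup.card_map_of_injective C.subtype_injective, hMcard]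
    exact hnd
  · have h1 := hM.sup_eq_top
    have h2 : (Q.subgroupOf C ⊔ M).map C.subtype = (⊤ : Subgroup C).map C.subtype := by rw [h1]
    rw [Subgroup.map_sup, Subgroup.map_subgroupOf_eq_of_le hQC] at h2
    rw [h2, ← MonoidHom.range_eq_map, Subgroup.range_subtype]

end Pool.Agent.Helper42.IR
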