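import Pool.Agent.Helper42.IR.SchurIrr
import Pool.Agent.Helper42.IR.LocFacts
import Pool.Agent.Helper42.IR.MatForm

/-!
# IR-28 (project IR, section 3.5): the complement `X` and the extension of `φ` to `X`

`Loc p ⊤ Q H`, `φ ∈ IrrS H`, `T = N(Q) ∩ stab φ`.

* `ext_cyclic` (classical): an invariant irreducible character of a normal subgroup with cyclic
  quotient extends. Proof: `ρ` on `V` affording `θ`; `g ∈ G` generating `G/N`, of order `m` mod `N`.
  As `θ` is invariant there is `Y` with `Y ρ(x) Y⁻¹ = ρ(g x g⁻¹)` for `x ∈ N` (two irreducible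
  representations with the same character are equivalent). `Y ^ m ρ(g ^ m)⁻¹` commutes with `ρ N`, so
  it is a scalar; rescale `Y` by an `m`-th root: `Y ^ m = ρ(g ^ m)`. Then `x g ^ i ↦ ρ(x) Y ^ i` is a
  well defined representation of `G` extending `ρ` (every element is `x g ^ i` with `i : ℤ`; if
  `x g ^ i = x' g ^ j` then `m ∣ i - j`). Irreducible since its restriction to `N` is. (Alternatively:
  any other proof, e.g. using `Representation` on the induced module.)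
* `exists_compl`: `Q ≤ T` (`Q` centralizes `H`, so it fixes `φ`), `H ≤ T` (`φ` is a class function on
  `H`), `Q` is normal in `T`, and `p ∤ |T : Q|` as `p² ∤ |K|`; Schur-Zassenhaus gives a complement `X`
  of `Q` in `T`. `H X` is a subgroup of `T` (`H` is normal in `T` by `Loc.norm_H`) of order dividing
  `|H| |X|`, prime to `p`, so its order divides `|T : Q| = |X|`: `H X = X`, `H ≤ X`.
* `X_cyclic`: `X ∩ C(Q) ≤ Q H` consists of elements of order prime to `p`, so it is `H`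
  (`Loc.mem_H_iff`); `X / H` embeds in the automorphism group of `Q`, cyclic of order `p - 1`.
* `exists_Phi`: `φ` (restricted to `X`: it is `X`-invariant) extends to `X` by `ext_cyclic`; the
  extension has an integral matrix form over `OO p` by `exists_mat_form`; its size is `deg φ`
  (`Φ 1 = 1` has trace the size).
-/

namespace Pool.Agent.Helper42.IR

open Pool.Agent.Helper42.INC

/-- gluing a homomorphism on a normal subgroup and an element -/
private lemma ex_glue {G L : Type} [Group G] [Group L] (N : Subgroup G) [N.Normal] (g : G)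
    (hg : ∀ x : G, ∃ n : N, ∃ i : ℤ, x = (n : G) * g ^ i) (f : N →* L) (y : L)
    (h1 : ∀ (n : N) (i : ℤ) (hn : g ^ i * n * (g ^ i)⁻¹ ∈ N),
      y ^ i * f n * (y ^ i)⁻¹ = f ⟨g ^ i * n * (g ^ i)⁻¹, hn⟩)
    (h2 : ∀ (i : ℤ) (hi : g ^ i ∈ N), y ^ i = f ⟨g ^ i, hi⟩) :
    ∃ F : G →* L, ∀ n : N, F n = f n := by
  choose a k hak using hg
  have wd : ∀ (n n' : N) (i j : ℤ), (n : G) * g ^ i = (n' : G) * g ^ j →
      f n * y ^ i = f n' * y ^ j := by
    intro n n' i j h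
    have e1 : g ^ (j - i) = (n' : G)⁻¹ * n := by
      rw [zpow_sub, eq_inv_mul_iff_mul_eq, ← mul_assoc, ← h]
      group
    have e2 : g ^ (j - i) ∈ N := by
      rw [e1]
      exact N.mul_mem (N.inv_mem n'.2) n.2
    have e3 := h2 (j - i) e2
    have e4 : (⟨g ^ (j - i), e2⟩ : N) = n'⁻¹ * n := Subtype.ext e1
    rw [e4, map_mul, map_inv, zpow_sub] at e3
    have e5 : y ^ j = (f n')⁻¹ * f n * y ^ i := by
      rw [← e3]
      group
    rw [e5]
    group
  have hF1 : f (a 1) * y ^ (k 1) = 1 := by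
    have h := wd (a 1) 1 (k 1) 0 (by rw [← hak]; simp)
    simpa using h
  have hFm : ∀ x x' : G, f (a (x * x')) * y ^ (k (x * x')) =
      (f (a x) * y ^ (k x)) * (f (a x') * y ^ (k x')) := by
    intro x x'
    have hn : g ^ (k x) * (a x' : G) * (g ^ (k x))⁻¹ ∈ N :=
      Subgroup.Normal.conj_mem inferInstance _ (a x').2 _
    have h3 := h1 (a x') (k x) hn
    have h4 := wd (a (x * x')) (a x * ⟨_, hn⟩) (k (x * x')) (k x + k x') (by
      rw [← hak]
      calc x * x' = ((a x : G) * g ^ (k x)) * ((a x' : G) * g ^ (k x')) := by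
            rw [← hak, ← hak]
        _ = (a x : G) * (g ^ (k x) * (a x' : G) * (g ^ (k x))⁻¹) * g ^ (k x + k x') := by
            rw [zpow_add]; group)
    rw [h4, map_mul, ← h3, zpow_add]
    group
  refine ⟨{ toFun := fun x => f (a x) * y ^ (k x), map_one' := hF1, map_mul' := hFm }, ?_⟩
  intro n
  have h := wd (a n) n (k n) 0 (by rw [← hak]; simp)
  change f (a n) * y ^ (k n) = f n
  rw [h]
  simp

/-- the second component of a pair -/
private noncomputable def ex_snd {M G : Type} [Group M] [Group G] [Finite M] (D : NP M G)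
    {V : Type} [AddCommGroup V] [Module ℂ V] [FiniteDimensional ℂ V]
    (ρ : Representation ℂ M V) : Gam D ρ →* (V →ₗ[ℂ] V)ˣ :=
  (MonoidHom.snd _ _).comp (Gam D ρ).subtype

theorem ext_cyclic {G : Type} [Group G] [Finite G] (N : Subgroup G) [N.Normal]
    (hcyc : IsCyclic (G ⧸ N)) {θ : G → ℂ} (hθ : θ ∈ IrrS N) (hinv : ∀ g, cnj g θ = θ) :
    ∃ χ ∈ Irr G, ∀ x ∈ N, χ x = θ x := by
  classical
  obtain ⟨⟨V, i1, i2, i3, ρ, hρ, hch⟩, hoff⟩ := hθ
  obtain ⟨gq, hgq⟩ := hcyc.exists_generator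
  obtain ⟨g, rfl⟩ := QuotientGroup.mk'_surjective N gq
  set m := orderOf (QuotientGroup.mk' N g) with hm
  have hm0 : 0 < m := orderOf_pos _
  have hgen : ∀ x : G, ∃ n : N, ∃ i : ℤ, x = (n : G) * g ^ i := by
    intro x
    obtain ⟨i, hi⟩ := hgq (QuotientGroup.mk' N x)
    have h1 : x * (g ^ i)⁻¹ ∈ N := by
      rw [← QuotientGroup.ker_mk' N, MonoidHom.mem_ker, map_mul, map_inv, map_zpow]
      have hi' : (QuotientGroup.mk' N g) ^ i = QuotientGroup.mk' N x := hi
      rw [hi', mul_inv_cancel]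
    exact ⟨⟨_, h1⟩, i, by simp⟩
  -- a lift of `g` to the group of pairs
  let D : NP N G := NP.ofNormal N
  have hgam : ∃ γ, gamProj D ρ γ = g := by
    rw [mem_range_gamProj]
    intro n
    rw [← hch]
    change θ ((D.α g n : N) : G) = θ (n : G)
    have h2 : ((D.α g n : N) : G) = g * n * g⁻¹ := by
      change ((MulAut.conjNormal g n : N) : G) = _
      rw [MulAut.conjNormal_apply]
    rw [h2]
    have h3 := congrFun (hinv g⁻¹) (n : G)
    rw [cnj_apply, inv_inv] at h3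
    exact h3
  obtain ⟨γ, hγ⟩ := hgam
  let f : N →* (V →ₗ[ℂ] V)ˣ := MonoidHom.toHomUnits ρ
  let S : Gam D ρ →* (V →ₗ[ℂ] V)ˣ := ex_snd D ρ
  have hSinc : ∀ n, S (gamInc D ρ n) = f n := fun n => rfl
  let sc : ℂˣ →* (V →ₗ[ℂ] V)ˣ := Units.map (algebraMap ℂ (V →ₗ[ℂ] V)).toMonoidHom
  have hSsc : ∀ c : Sc N V, S (gamSc D ρ c) = sc c.1 := fun c => rfl
  have hsccomm : ∀ (c : ℂˣ) (A : (V →ₗ[ℂ] V)ˣ), sc c * A = A * sc c := by
    intro c A
    apply Units.ext
    change algebraMap ℂ (V →ₗ[ℂ] V) (c : ℂ) * (A : V →ₗ[ℂ] V) =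
      (A : V →ₗ[ℂ] V) * algebraMap ℂ (V →ₗ[ℂ] V) (c : ℂ)
    exact Algebra.commutes _ _
  have hgm : g ^ m ∈ N := by
    rw [← QuotientGroup.ker_mk' N, MonoidHom.mem_ker, map_pow, hm, pow_orderOf_eq_one]
  have hker : gamProj D ρ (γ ^ m * (gamInc D ρ ⟨g ^ m, hgm⟩)⁻¹) = 1 := by
    rw [map_mul, map_pow, map_inv, gamProj_inc, hγ]
    exact mul_inv_cancel _
  obtain ⟨c, hc⟩ := gam_ker D ρ hker
  have hγm : (S γ) ^ m = sc c.1 * f ⟨g ^ m, hgm⟩ := by
    have h3 : γ ^ m = gamSc D ρ c * gamInc D ρ ⟨g ^ m, hgm⟩ := by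
      rw [← hc, inv_mul_cancel_right]
    rw [← map_pow, h3, map_mul, hSinc, hSsc]
  obtain ⟨d0, hd0⟩ := IsAlgClosed.exists_pow_nat_eq (((c.1)⁻¹ : ℂˣ) : ℂ) hm0
  have hd0ne : d0 ≠ 0 := by
    intro h
    rw [h, zero_pow hm0.ne'] at hd0
    exact Units.ne_zero _ hd0.symm
  let d : ℂˣ := Units.mk0 d0 hd0ne
  have hd : d ^ m = (c.1)⁻¹ := by
    apply Units.ext
    rw [Units.val_pow_eq_pow_val]
    exact hd0
  let y : (V →ₗ[ℂ] V)ˣ := sc d * S γ
  have hym : y ^ m = f ⟨g ^ m, hgm⟩ := by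
    have hcm : Commute (sc d) (S γ) := hsccomm d (S γ)
    change (sc d * S γ) ^ m = _
    rw [hcm.mul_pow, hγm, ← map_pow, hd, ← mul_assoc, ← map_mul, inv_mul_cancel, map_one, one_mul]
  have hyc : ∀ (A : (V →ₗ[ℂ] V)ˣ) (i : ℤ), y ^ i * A * (y ^ i)⁻¹ =
      (S γ) ^ i * A * ((S γ) ^ i)⁻¹ := by
    intro A i
    have hcm : Commute (sc d) (S γ) := hsccomm d (S γ)
    change (sc d * S γ) ^ i * A * ((sc d * S γ) ^ i)⁻¹ = _
    rw [hcm.mul_zpow, ← map_zpow]
    have h4 := hsccomm (d ^ i) ((S γ) ^ i * A * ((S γ) ^ i)⁻¹)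
    calc sc (d ^ i) * S γ ^ i * A * (sc (d ^ i) * S γ ^ i)⁻¹
        = (sc (d ^ i) * (S γ ^ i * A * (S γ ^ i)⁻¹)) * (sc (d ^ i))⁻¹ := by group
      _ = _ := by rw [h4, mul_inv_cancel_right]
  obtain ⟨F, hF⟩ := ex_glue N g hgen f y (by
    intro n i hn
    rw [hyc, ← map_zpow, ← hSinc, ← hSinc, ← map_inv, ← map_mul, ← map_mul, gam_conj, map_zpow, hγ]
    congr 2) (by
    intro i hi
    have h5 : (m : ℤ) ∣ i := by
      rw [hm, orderOf_dvd_iff_zpow_eq_one, ← map_zpow]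
      rw [← QuotientGroup.ker_mk' N, MonoidHom.mem_ker] at hi
      exact hi
    obtain ⟨j, rfl⟩ := h5
    rw [zpow_mul, zpow_natCast, hym, ← map_zpow]
    congr 1
    apply Subtype.ext
    change (g ^ m) ^ j = g ^ ((m : ℤ) * j)
    rw [zpow_mul, zpow_natCast])
  let ρ' : Representation ℂ G V := (Units.coeHom (V →ₗ[ℂ] V)).comp F
  have hρ' : ∀ n : N, ρ' n = ρ n := by
    intro n
    change ((F n : (V →ₗ[ℂ] V)ˣ) : V →ₗ[ℂ] V) = ρ n
    rw [hF]
    rfl
  refine ⟨ρ'.character, ⟨V, i1, i2, i3, ρ', ?_, rfl⟩, ?_⟩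
  · rw [isIrreducible_iff] at hρ ⊢
    refine ⟨hρ.1, fun W hW => hρ.2 W (fun n v hv => ?_)⟩
    rw [← hρ']
    exact hW n v hv
  · intro x hx
    have h6 := congrFun hch ⟨x, hx⟩
    change θ x = _ at h6
    rw [h6]
    change LinearMap.trace ℂ V (ρ' x) = LinearMap.trace ℂ V (ρ ⟨x, hx⟩)
    rw [← hρ']

variable {p : ℕ} [Fact p.Prime] {K : Type} [Group K] [Finite K]
  {Q H : Subgroup K} (hL : Loc p (⊤ : Subgroup K) Q H)
include hL

private theorem H_le_stab {φ : K → ℂ} (hφ : φ ∈ IrrS H) : H ≤ stab φ := by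
  intro h hh
  rw [mem_stab]
  funext x
  rw [cnj_apply]
  by_cases hx : x ∈ H
  · have h1 := Irr.isClass hφ.1 ⟨h⁻¹, H.inv_mem hh⟩ ⟨x, hx⟩
    change φ (h⁻¹ * x * h⁻¹⁻¹) = φ x at h1
    rwa [inv_inv] at h1
  · have h2 : h⁻¹ * x * h ∉ H := by
      intro h3
      apply hx
      have h4 : x = h * (h⁻¹ * x * h) * h⁻¹ := by group
      rw [h4]
      exact H.mul_mem (H.mul_mem hh h3) (H.inv_mem hh)
    rw [hφ.2 _ hx, hφ.2 _ h2]

private theorem H_le_T {φ : K → ℂ} (hφ : φ ∈ IrrS H) :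
    H ≤ Subgroup.normalizer (Q : Set K) ⊓ stab φ :=
  le_inf (hL.HC.trans (inf_le_right.trans (Subgroup.centralizer_le_normalizer (Q : Set K))))
    (H_le_stab hL hφ)

private theorem Q_le_T {φ : K → ℂ} (hφ : φ ∈ IrrS H) :
    Q ≤ Subgroup.normalizer (Q : Set K) ⊓ stab φ := by
  refine le_inf Subgroup.le_normalizer ?_
  intro q hq
  rw [mem_stab]
  funext x
  rw [cnj_apply]
  by_cases hx : x ∈ H
  · have h1 := hL.comm q hq x hx
    have h2 : q⁻¹ * x * q = x := by
      rw [mul_assoc, ← h1]; group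
    rw [h2]
  · have h2 : q⁻¹ * x * q ∉ H := by
      intro h3
      apply hx
      have h1 := hL.comm q hq _ h3
      have h4 : x = q * (q⁻¹ * x * q) * q⁻¹ := by group
      rw [h4, h1, mul_inv_cancel_right]
      exact h3
    rw [hφ.2 _ hx, hφ.2 _ h2]

theorem exists_compl {φ : K → ℂ} (hφ : φ ∈ IrrS H) :
    ∃ X : Subgroup K, H ≤ X ∧ X ≤ Subgroup.normalizer (Q : Set K) ⊓ stab φ ∧ Q ⊓ X = ⊥ ∧
      (∀ t ∈ Subgroup.normalizer (Q : Set K) ⊓ stab φ, ∃ x ∈ Q, ∃ z ∈ X, t = x * z) ∧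
      ¬ p ∣ Nat.card X := by
  have hpr : p.Prime := Fact.out
  set T : Subgroup K := Subgroup.normalizer (Q : Set K) ⊓ stab φ with hT
  have hQT : Q ≤ T := Q_le_T hL hφ
  have hHT : H ≤ T := H_le_T hL hφ
  have hnorm : (Q.subgroupOf T).Normal := by
    refine ⟨fun n hn g => ?_⟩
    rw [Subgroup.mem_subgroupOf] at hn ⊢
    have h1 : (g : K) ∈ Subgroup.normalizer (Q : Set K) := g.2.1
    have := (Subgroup.mem_normalizer_iff.mp h1 (n : K)).mp hn
    simpa using this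
  have hcard : Nat.card (Q.subgroupOf T) = p :=
    (Nat.card_congr (Subgroup.subgroupOfEquivOfLe hQT).toEquiv).trans hL.cQ
  have hmul : p * (Q.subgroupOf T).index = Nat.card T := by
    rw [← hcard]
    exact (Q.subgroupOf T).card_mul_index
  have hpp : ¬ p ^ 2 ∣ Nat.card T := by
    intro hd
    apply hL.pp
    exact hd.trans (Subgroup.card_dvd_of_le le_top)
  have hnd : ¬ p ∣ (Q.subgroupOf T).index := by
    intro h
    apply hpp
    rw [← hmul, pow_two]
    exact Nat.mul_dvd_mul_left p h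
  have hcop : Nat.Coprime (Nat.card (Q.subgroupOf T)) (Q.subgroupOf T).index := by
    rw [hcard]
    exact (Nat.Prime.coprime_iff_not_dvd hpr).mpr hnd
  obtain ⟨M, hM⟩ := Subgroup.exists_right_complement'_of_coprime hcop
  have hMcard : Nat.card M = (Q.subgroupOf T).index := by
    have h1 := hM.card_mul
    have h2 := (Q.subgroupOf T).card_mul_index
    have h3 : 0 < Nat.card (Q.subgroupOf T) := Nat.card_pos
    exact Nat.eq_of_mul_eq_mul_left h3 (h1.trans h2.symm)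
  have hXcard : ¬ p ∣ Nat.card (M.map T.subtype) := by
    rw [Subgroup.card_map_of_injective T.subtype_injective, hMcard]
    exact hnd
  have hXT : M.map T.subtype ≤ T := by
    rintro _ ⟨x, _, rfl⟩
    exact x.2
  have hdec : ∀ t ∈ T, ∃ x ∈ Q, ∃ z ∈ M.map T.subtype, t = x * z := by
    intro t ht
    obtain ⟨⟨a, b⟩, hab⟩ := hM.2 ⟨t, ht⟩
    have h1 : ((a : T) : K) * ((b : T) : K) = t := congrArg Subtype.val hab
    exact ⟨((a : T) : K), a.2, ((b : T) : K), ⟨_, b.2, rfl⟩, h1.symm⟩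
  have hint : Q ⊓ M.map T.subtype = ⊥ := by
    apply Subgroup.inf_eq_bot_of_coprime
    rw [hL.cQ]
    exact (Nat.Prime.coprime_iff_not_dvd hpr).mpr hXcard
  refine ⟨M.map T.subtype, ?_, hXT, hint, hdec, hXcard⟩
  intro h hh
  obtain ⟨q, hq, z, hz, hqz⟩ := hdec h (hHT hh)
  have hcomm : Commute q h := hL.comm q hq h hh
  have hz' : z = q⁻¹ * h := by rw [hqz]; group
  set n := orderOf z with hn
  have hnp : ¬ p ∣ n := fun hd => hXcard (hd.trans (Subgroup.orderOf_dvd_natCard _ hz))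
  have hzn : z ^ n = 1 := pow_orderOf_eq_one z
  have hcomm' : Commute q⁻¹ h := hcomm.inv_left
  rw [hz', hcomm'.mul_pow] at hzn
  have h5 : h ^ n = q ^ n := by
    rw [inv_pow, inv_mul_eq_one] at hzn
    exact hzn.symm
  have h6 : q ^ n ∈ Q ⊓ H := ⟨Q.pow_mem hq n, by
    change q ^ n ∈ H
    rw [← h5]; exact H.pow_mem hh n⟩
  rw [hL.inf_eq, Subgroup.mem_bot] at h6
  have h7 : q ^ p = 1 := by
    have h8 := pow_card_eq_one' (G := Q) (x := ⟨q, hq⟩)
    rw [hL.cQ] at h8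
    exact congrArg Subtype.val h8
  have h9 : q = 1 := by
    have h10 : orderOf q ∣ Nat.gcd p n :=
      Nat.dvd_gcd (orderOf_dvd_of_pow_eq_one h7) (orderOf_dvd_of_pow_eq_one h6)
    have h11 : Nat.gcd p n = 1 := (Nat.Prime.coprime_iff_not_dvd hpr).mpr hnp
    rw [h11, Nat.dvd_one, orderOf_eq_one_iff] at h10
    exact h10
  rw [h9, one_mul] at hqz
  rw [hqz]
  exact hz

/-- commutators of elements of `X` lie in `H` -/
theorem X_commutator {X : Subgroup K} (hX : X ≤ Subgroup.normalizer (Q : Set K))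
    (hp : ¬ p ∣ Nat.card X) {a b : K} (ha : a ∈ X) (hb : b ∈ X) :
    a * b * a⁻¹ * b⁻¹ ∈ H := by
  have hcyc : IsCyclic Q := isCyclic_of_prime_card hL.cQ
  have hmem : a * b * a⁻¹ * b⁻¹ ∈ X :=
    X.mul_mem (X.mul_mem (X.mul_mem ha hb) (X.inv_mem ha)) (X.inv_mem hb)
  rw [hL.mem_H_iff]
  refine ⟨⟨Subgroup.mem_top _, ?_⟩, fun hd =>
    hp (hd.trans (Subgroup.orderOf_dvd_natCard _ hmem))⟩
  let f : Subgroup.normalizer (Q : Set K) →* MulAut Q := Q.normalizerMonoidHom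
  have hab : ∀ u v : MulAut Q, u * v = v * u := by
    intro u v
    apply (IsCyclic.mulAutMulEquiv Q).injective
    rw [map_mul, map_mul, mul_comm]
  have h1 : f (⟨a, hX ha⟩ * ⟨b, hX hb⟩ * ⟨a, hX ha⟩⁻¹ * ⟨b, hX hb⟩⁻¹) = 1 := by
    rw [map_mul, map_mul, map_mul, map_inv, map_inv, hab (f ⟨a, hX ha⟩) (f ⟨b, hX hb⟩),
      mul_inv_cancel_right, mul_inv_cancel]
  have h2 : (⟨a, hX ha⟩ * ⟨b, hX hb⟩ * ⟨a, hX ha⟩⁻¹ * ⟨b, hX hb⟩⁻¹ :
      Subgroup.normalizer (Q : Set K)) ∈ Q.normalizerMonoidHom.ker := h1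
  rw [Subgroup.normalizerMonoidHom_ker, Subgroup.mem_subgroupOf] at h2
  exact h2

theorem exists_Phi {φ : K → ℂ} (hφ : φ ∈ IrrS H) {X : Subgroup K} (hHX : H ≤ X)
    (hX : X ≤ Subgroup.normalizer (Q : Set K) ⊓ stab φ) (hp : ¬ p ∣ Nat.card X) :
    ∃ Φ : X →* Matrix (Fin (deg φ)) (Fin (deg φ)) (OO p),
      ∀ h : X, (h : K) ∈ H → (((Φ h).trace : OO p) : ℂ) = φ h := by
  classical
  have hcyc : IsCyclic Q := isCyclic_of_prime_card hL.cQ
  have hXN : X ≤ Subgroup.normalizer (Q : Set K) := hX.trans inf_le_left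
  have hnor : (H.subgroupOf X).Normal := by
    refine ⟨fun n hn g => ?_⟩
    rw [Subgroup.mem_subgroupOf] at hn ⊢
    have h1 : (g : K) ∈ Subgroup.normalizer (H : Set K) := by
      apply hL.norm_H
      · rw [Subgroup.mem_normalizer_iff]
        intro x
        exact ⟨fun _ => Subgroup.mem_top _, fun _ => Subgroup.mem_top _⟩
      · exact hXN g.2
    have := (Subgroup.mem_normalizer_iff.mp h1 (n : K)).mp hn
    simpa using this
  -- the quotient is cyclic
  let f : X →* MulAut Q := Q.normalizerMonoidHom.comp (Subgroup.inclusion hXN)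
  have hker : f.ker = H.subgroupOf X := by
    ext g
    rw [MonoidHom.mem_ker, Subgroup.mem_subgroupOf]
    have h1 : f g = 1 ↔ Subgroup.inclusion hXN g ∈ Q.normalizerMonoidHom.ker := by
      rw [MonoidHom.mem_ker]; rfl
    rw [h1, Subgroup.normalizerMonoidHom_ker, Subgroup.mem_subgroupOf, hL.mem_H_iff]
    constructor
    · intro h
      exact ⟨⟨Subgroup.mem_top _, h⟩, fun hd =>
        hp (hd.trans (Subgroup.orderOf_dvd_natCard _ g.2))⟩
    · intro h
      exact h.1.2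
  have hcycA : IsCyclic (MulAut Q) := by
    have h1 : IsCyclic (ZMod (Nat.card Q))ˣ := by
      rw [hL.cQ]
      infer_instance
    exact isCyclic_of_injective (IsCyclic.mulAutMulEquiv Q).toMonoidHom
      (IsCyclic.mulAutMulEquiv Q).injective
  have hcycX : IsCyclic (X ⧸ H.subgroupOf X) := by
    have h1 : IsCyclic (X ⧸ f.ker) :=
      isCyclic_of_injective (QuotientGroup.kerLift f) (QuotientGroup.kerLift_injective f)
    exact isCyclic_of_injective (QuotientGroup.quotientMulEquivOfEq hker).symm.toMonoidHom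
      (QuotientGroup.quotientMulEquivOfEq hker).symm.injective
  have hθ : (fun x : X => φ x) ∈ IrrS (H.subgroupOf X) := by
    refine ⟨?_, ?_⟩
    · exact irr_comp (Subgroup.subgroupOfEquivOfLe hHX) hφ.1
    · intro x hx
      apply hφ.2
      rwa [Subgroup.mem_subgroupOf] at hx
  have hinv : ∀ g : X, cnj g (fun x : X => φ x) = fun x : X => φ x := by
    intro g
    funext x
    have h1 : cnj (g : K) φ = φ := (hX g.2).2
    have h2 := congrFun h1 (x : K)
    exact h2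
  obtain ⟨χ, hχ, hext⟩ := ext_cyclic (H.subgroupOf X) hcycX hθ hinv
  obtain ⟨V, i1, i2, i3, ρ, hρ, rfl⟩ := hχ
  have hnt : Nontrivial V := ((isIrreducible_iff ρ).1 hρ).1
  obtain ⟨w, hw⟩ := exists_ne (0 : V)
  obtain ⟨n, b, R, -, -, -, -, hR⟩ := exists_mat_form (p := p) ρ hρ w hw
  have hn : n = deg φ := by
    have h1 := hR 1
    have h2 : chR R 1 = n := by
      change (((R 1).trace : OO p) : ℂ) = n
      rw [map_one, Matrix.trace_one]
      simp
    rw [h2, hext 1 (Subgroup.one_mem _)] at h1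
    symm
    apply deg_eq
    exact h1.symm
  subst hn
  refine ⟨R, fun h hh => ?_⟩
  have h1 := hR h
  rw [hext h (by rw [Subgroup.mem_subgroupOf]; exact hh)] at h1
  exact h1

end Pool.Agent.Helper42.IR
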