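import Pool.Agent.Helper42.IR.KeyApp

/-!
# IR-30 (project IR, section 3.5): the alternative (Key)

`LocalR R`, `π` over the residue field with `E π = π = π E` (`E = toK (Eph R H φ)`) commuting with
`toK (R t)`, `t ∈ T = N(Q) ∩ stab φ`. By `keyK`: `π = E g - trQ b`, `g` commuting with all `toK (R k)`,
`E b = b = b E`. By `LocalR` (applied to `g`) `g` is nilpotent or a unit. Let `v` be fixed by `y` (a generator
of `Q`, so by all of `Q`) and `E v = v`. Here `E` commutes with `g` (`E` is the reduction of a combination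
of the `R h`) and with `toK (R x)`, `x ∈ Q`.

* `g` nilpotent, `g ^ j = 0`: by `pow_trQ` applied to `π = E g - trQ b` (the matrices `π`, `E g` commute
  with `toK (R x)`, `x ∈ Q ≤ T`) `π ^ j = (E g) ^ j - trQ b' = - trQ b'` (`j ≥ 1`), so
  `π ^ j v = N (- b' v)` (`trQ_fix`, `N = nQ`), and `π ^ j v = E π ^ j v = N (E (- b' v))`.
* `g` a unit, `π v = 0`: `g v = E g v = trQ(b) v = N b v`; multiply by `g⁻¹` (it commutes with `N`):
  `v = N (g⁻¹ b v)`, and `v = E v = N (E g⁻¹ b v)`.
-/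

namespace Pool.Agent.Helper42.IR

open Pool.Agent.Helper42.INC

variable {p : ℕ} [Fact p.Prime] {K : Type} [Group K] [Finite K] {n : ℕ}
  (R : K →* Matrix (Fin n) (Fin n) (OO p)) {Q H : Subgroup K} (hL : Loc p (⊤ : Subgroup K) Q H)
include hL

private lemma Q_le_stab' {φ : K → ℂ} (hφ : φ ∈ IrrS H) : Q ≤ stab φ := by
  intro x hx
  rw [mem_stab]
  funext y
  rw [cnj_apply]
  by_cases hy : y ∈ H
  · have h1 := hL.comm x hx y hy
    congr 1
    rw [mul_assoc, ← h1, ← mul_assoc, inv_mul_cancel, one_mul]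
  · rw [hφ.2 y hy]
    apply hφ.2
    intro h1
    apply hy
    have h2 := hL.comm x hx _ h1
    have h3 : y = x⁻¹ * y * x := by
      have h4 : x * (x⁻¹ * y * x) = y * x := by group
      rw [h4] at h2
      exact mul_right_cancel h2
    rw [h3]
    exact h1

/-- the commutation with the centre in the residue field -/
private lemma eph_comm_centerK' {φ : K → ℂ} (hφ : φ ∈ IrrS H)
    (g : Matrix (Fin n) (Fin n) (kk p)) (hg : ∀ k, toK (R k) * g = g * toK (R k)) :
    toK (Eph R H φ) * g = g * toK (Eph R H φ) := by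
  classical
  have := Fintype.ofFinite H
  -- coefficients
  have hc : ∀ h : H, ∃ a : OO p, (a : ℂ) =
      ((deg φ : ℂ) * (Nat.card H : ℂ)⁻¹) * φ (h : K)⁻¹ := by
    intro h
    refine ⟨((deg φ : ℕ) : OO p) * ⟨(Nat.card H : ℂ)⁻¹, inv_nat_mem hL.pH⟩ *
      ⟨φ (h : K)⁻¹, irrS_mem_OO hφ _⟩, ?_⟩
    push_cast
    rfl
  choose a ha using hc
  have hE : Eph R H φ = ∑ h : H, a h • R h := by
    apply toC_inj
    rw [toC_Eph R H hL.pH hφ, finsum_eq_sum_of_fintype, toC_sum, Finset.smul_sum]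
    refine Finset.sum_congr rfl fun h _ => ?_
    rw [toC_smul, ha, smul_smul]
  rw [hE, toK_sum, Finset.sum_mul, Finset.mul_sum]
  refine Finset.sum_congr rfl fun h _ => ?_
  rw [toK_smul, Matrix.smul_mul, Matrix.mul_smul, hg]

theorem key35 (hLoc : LocalR R) {φ : K → ℂ} (hφ : φ ∈ IrrS H) {y : K} (hy : y ∈ Q) (hy1 : y ≠ 1)
    (π : Matrix (Fin n) (Fin n) (kk p)) (h1 : toK (Eph R H φ) * π = π)
    (h2 : π * toK (Eph R H φ) = π)
    (h3 : ∀ t ∈ Subgroup.normalizer (Q : Set K) ⊓ stab φ, toK (R t) * π = π * toK (R t)) :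
    (∃ j : ℕ, ∀ v : Fin n → kk p, (toK (R y)).mulVec v = v → (toK (Eph R H φ)).mulVec v = v →
      ∃ w : Fin n → kk p, (toK (Eph R H φ)).mulVec w = w ∧
        (π ^ j).mulVec v = (nQ (redR R) Q).mulVec w) ∨
    (∀ v : Fin n → kk p, (toK (R y)).mulVec v = v → (toK (Eph R H φ)).mulVec v = v →
      π.mulVec v = 0 → ∃ w : Fin n → kk p, (toK (Eph R H φ)).mulVec w = w ∧
        v = (nQ (redR R) Q).mulVec w) := by
  classical
  have := Fintype.ofFinite Q
  obtain ⟨g, b, hg, heb, hbe, hf⟩ := keyK R hL hφ π h1 h2 h3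
  set E := toK (Eph R H φ) with hE
  have hEE : E * E = E := by rw [hE, ← toK_mul, Eph_mul_self R H hL.pH hφ]
  have hEg : E * g = g * E := eph_comm_centerK' R hL hφ g hg
  have hEx : ∀ x ∈ Q, toK (R x) * E = E * toK (R x) := by
    intro x hx
    rw [hE, ← toK_mul, ← toK_mul, Eph_comm_centralizer R H hL.pH hφ]
    rw [Subgroup.mem_centralizer_iff]
    intro h hh
    exact (hL.comm x hx h hh).symm
  have hNE : nQ (redR R) Q * E = E * nQ (redR R) Q := by
    unfold nQ
    rw [finsum_eq_sum_of_fintype, Finset.sum_mul, Finset.mul_sum]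
    apply Finset.sum_congr rfl
    intro x _
    exact hEx x x.2
  have hQT : Q ≤ Subgroup.normalizer (Q : Set K) ⊓ stab φ :=
    le_inf Subgroup.le_normalizer (Q_le_stab' hL hφ)
  -- vectors fixed by `y` are fixed by `Q`
  have hfix : ∀ v : Fin n → kk p, (toK (R y)).mulVec v = v → ∀ x ∈ Q,
      (redR R x).mulVec v = v := by
    intro v hv x hx
    have hyQ : (⟨y, hy⟩ : Q) ≠ 1 := fun h0 => hy1 (congrArg Subtype.val h0)
    obtain ⟨k, hk⟩ := (Submonoid.mem_powers_iff _ _).1
      (mem_powers_of_prime_card (g' := (⟨x, hx⟩ : Q)) hL.cQ hyQ)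
    have hk' : y ^ k = x := by simpa using congrArg Subtype.val hk
    rw [← hk', map_pow]
    clear hk hk'
    induction k with
    | zero => rw [pow_zero, Matrix.one_mulVec]
    | succ k ih =>
      rw [pow_succ, ← Matrix.mulVec_mulVec, redR_apply, hv]
      exact ih
  rcases hLoc g (fun k => (hg k).symm) with ⟨j, hj⟩ | hunit
  · left
    refine ⟨j + 1, ?_⟩
    intro v hv hEv
    obtain ⟨b', hb'⟩ := pow_trQ (redR R) Q π (E * g) b
      (fun x hx => h3 x (hQT hx))
      (fun x hx => by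
        rw [redR_apply, ← mul_assoc, hEx x hx, mul_assoc, hg x, ← mul_assoc])
      hf (j + 1)
    have hz : (E * g) ^ (j + 1) = 0 := by
      have hc : Commute E g := hEg
      rw [hc.mul_pow, pow_succ g, hj, zero_mul, mul_zero]
    rw [hz, zero_sub] at hb'
    refine ⟨E.mulVec (-(b'.mulVec v)), ?_, ?_⟩
    · rw [Matrix.mulVec_mulVec, hEE]
    · have e1 : (π ^ (j + 1)).mulVec v = (nQ (redR R) Q).mulVec (-(b'.mulVec v)) := by
        rw [hb', Matrix.neg_mulVec, trQ_fix (redR R) Q b' v (hfix v hv), Matrix.mulVec_neg]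
      have e2 : E * π ^ (j + 1) = π ^ (j + 1) := by
        rw [pow_succ', ← mul_assoc, h1]
      rw [Matrix.mulVec_mulVec, hNE, ← Matrix.mulVec_mulVec, ← e1, Matrix.mulVec_mulVec, e2]
  · right
    intro v hv hEv hπv
    obtain ⟨u, hu⟩ := hunit
    set gi : Matrix (Fin n) (Fin n) (kk p) := ((u⁻¹ : (Matrix (Fin n) (Fin n) (kk p))ˣ) :
      Matrix (Fin n) (Fin n) (kk p)) with hgi
    have hgig : gi * g = 1 := by rw [← hu, hgi, Units.inv_mul]
    have hggi : g * gi = 1 := by rw [← hu, hgi, Units.mul_inv]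
    have hxgi : ∀ x, toK (R x) * gi = gi * toK (R x) := by
      intro x
      calc toK (R x) * gi = (gi * g) * (toK (R x) * gi) := by rw [hgig, one_mul]
        _ = gi * ((g * toK (R x)) * gi) := by simp only [Matrix.mul_assoc]
        _ = gi * ((toK (R x) * g) * gi) := by rw [hg]
        _ = gi * toK (R x) * (g * gi) := by simp only [Matrix.mul_assoc]
        _ = _ := by rw [hggi, mul_one]
    have hNgi : nQ (redR R) Q * gi = gi * nQ (redR R) Q := by
      unfold nQ
      rw [finsum_eq_sum_of_fintype, Finset.sum_mul, Finset.mul_sum]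
      apply Finset.sum_congr rfl
      intro x _
      exact hxgi x
    have e1 : g.mulVec v = (nQ (redR R) Q).mulVec (b.mulVec v) := by
      have e3 : (E * g).mulVec v - (trQ (redR R) Q b).mulVec v = 0 := by
        rw [← Matrix.sub_mulVec, ← hf, hπv]
      rw [hEg, ← Matrix.mulVec_mulVec, hEv, trQ_fix (redR R) Q b v (hfix v hv), sub_eq_zero] at e3
      exact e3
    have e2 : v = (nQ (redR R) Q).mulVec (gi.mulVec (b.mulVec v)) := by
      rw [Matrix.mulVec_mulVec, hNgi, ← Matrix.mulVec_mulVec, ← e1, Matrix.mulVec_mulVec, hgig,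
        Matrix.one_mulVec]
    refine ⟨E.mulVec (gi.mulVec (b.mulVec v)), ?_, ?_⟩
    · rw [Matrix.mulVec_mulVec, hEE]
    · rw [Matrix.mulVec_mulVec, hNE, ← Matrix.mulVec_mulVec, ← e2, hEv]

end Pool.Agent.Helper42.IR
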