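import Mathlib

/-!
# IR-21 (project IR, section 3.5): linear algebra with a nilpotent operator and a group acting

Setting: `k` an algebraically closed field, `W` a finite dimensional `k`-space, `X` a finite group
whose order is invertible in `k`, `σ : X → GL(W)`, `u : W → W` with `u ^ p = 0` and
`σ x u = τ x u σ x` for a homomorphism `τ : X → kˣ`.

`exists_pi`: let `1 ≤ m`, `Y ≤ ker u ⊓ range (u ^ (m - 1))` be `X`-stable with
`Y ⊓ range (u ^ m) = ⊥`. Then there is `π : W → W` commuting with `u` and all `σ x`, with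
`π w ∈ Y` for `w ∈ ker u` and `π y = y` for `y ∈ Y`.
Proof: choose a linear `l0 : W → W` with range in `Y`, identity on `Y`, zero on `range (u ^ m)`, and
`σ0 : Y → W` (extended to `W` by composing with a projection, or as `W → W`) with
`u ^ (m-1) (σ0 y) = y`. Average: `l = (1/|X|) ∑ σ x l0 σ x⁻¹` keeps its properties and commutes with
`X`; `s1 = (1/|X|) ∑ τ(x)^(m-1) σ x σ0 σ x⁻¹` (on `Y`) satisfies `u^(m-1) s1 = id` on `Y` and
`σ x s1 = τ(x)^{-(m-1)} s1 σ x` on `Y`. Put `π = ∑_{i<m} u^i s1 l u^(m-1-i)`. It commutes with `u`: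
`u π - π u = u^m s1 l - s1 l u^m = 0` (`u^m s1 l = u (u^(m-1) s1 l) = u l = 0` since `Y ≤ ker u`). It
commutes with `σ x`. On `ker u` only the term `i = m - 1` survives: `π w = u^(m-1) s1 (l w) = l w`.
-/

namespace Pool.Agent.Helper42.IR

variable {k : Type} [Field k] [IsAlgClosed k] {W : Type} [AddCommGroup W] [Module k W]
  [FiniteDimensional k W] {X : Type} [Group X] [Finite X] (hX : (Nat.card X : k) ≠ 0)
  (σ : Representation k X W)

include hX

theorem exists_pi (τ : X →* kˣ) (u : W →ₗ[k] W)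
    (hu : ∀ x, σ x * u = (τ x : k) • (u * σ x)) (m : ℕ) (hm : 1 ≤ m) (Y : Submodule k W)
    (hY : Y ≤ LinearMap.ker u ⊓ LinearMap.range (u ^ (m - 1)))
    (hY' : Y ⊓ LinearMap.range (u ^ m) = ⊥) (hst : ∀ x, ∀ z ∈ Y, σ x z ∈ Y) :
    ∃ π : W →ₗ[k] W, π * u = u * π ∧ (∀ x, π * σ x = σ x * π) ∧
      (∀ w, u w = 0 → π w ∈ Y) ∧ ∀ y ∈ Y, π y = y := by
  classical
  have := Fintype.ofFinite X
  -- powers of `u`
  have hpow : ∀ (j : ℕ) (x : X), σ x * u ^ j = (τ x : k) ^ j • (u ^ j * σ x) := by
    intro j x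
    induction j with
    | zero => simp
    | succ j ih =>
      rw [pow_succ, ← mul_assoc, ih, smul_mul_assoc, mul_assoc, hu, mul_smul_comm, smul_smul,
        ← mul_assoc, pow_succ]
  have hτ0 : ∀ x, (τ x : k) ≠ 0 := fun x => (τ x).ne_zero
  have hτmul : ∀ x y, (τ (x * y) : k) = τ x * τ y := by
    intro x y
    rw [map_mul, Units.val_mul]
  have hσinv : ∀ x, σ x * σ x⁻¹ = 1 := by
    intro x
    rw [← map_mul, mul_inv_cancel, map_one]
  have hσinv' : ∀ x, σ x⁻¹ * σ x = 1 := by
    intro x
    rw [← map_mul, inv_mul_cancel, map_one]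
  -- the range of `u ^ m` is stable
  have hRst : ∀ x, ∀ z ∈ LinearMap.range (u ^ m), σ x z ∈ LinearMap.range (u ^ m) := by
    rintro x _ ⟨w, rfl⟩
    have h1 := LinearMap.congr_fun (hpow m x) w
    rw [Module.End.mul_apply, LinearMap.smul_apply, Module.End.mul_apply] at h1
    rw [h1, ← map_smul]
    exact LinearMap.mem_range_self _ _
  -- the projection and the section
  have hdis : Disjoint (LinearMap.range (u ^ m)) Y := by
    rw [disjoint_iff, inf_comm]; exact hY'
  obtain ⟨D, hRD, hDY⟩ := hdis.exists_isCompl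
  let P : W →ₗ[k] Y := Y.projectionOnto D hDY.symm
  have hPY : ∀ y (hy : y ∈ Y), (P y : W) = y := by
    intro y hy
    simp only [P]
    rw [Submodule.projectionOnto_apply_of_mem_left hDY.symm hy]
  have hPR : ∀ z ∈ LinearMap.range (u ^ m), P z = 0 := by
    intro z hz
    exact Submodule.projectionOnto_apply_of_mem_right hDY.symm (hRD hz)
  obtain ⟨g, hg⟩ := LinearMap.exists_rightInverse_of_surjective (u ^ (m - 1)).rangeRestrict
    (LinearMap.range_rangeRestrict _)
  let l0 : W →ₗ[k] W := Y.subtype ∘ₗ P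
  let q0 : W →ₗ[k] W := g ∘ₗ (Submodule.inclusion (hY.trans inf_le_right)) ∘ₗ P
  have hq0 : u ^ (m - 1) * q0 = l0 := by
    ext w
    rw [Module.End.mul_apply]
    have h1 := LinearMap.congr_fun hg (Submodule.inclusion (hY.trans inf_le_right) (P w))
    have h2 := congrArg Subtype.val h1
    exact h2
  have hq0R : ∀ z ∈ LinearMap.range (u ^ m), q0 z = 0 := by
    intro z hz
    simp only [q0, LinearMap.comp_apply]
    rw [hPR z hz, map_zero, map_zero]
  -- averages
  have hN : (Fintype.card X : k) ≠ 0 := by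
    rw [← Nat.card_eq_fintype_card]; exact hX
  let l : W →ₗ[k] W := (Fintype.card X : k)⁻¹ • ∑ x : X, σ x * l0 * σ x⁻¹
  let q : W →ₗ[k] W :=
    (Fintype.card X : k)⁻¹ • ∑ x : X, (τ x : k) ^ (m - 1) • (σ x * q0 * σ x⁻¹)
  have hlY : ∀ w, l w ∈ Y := by
    intro w
    simp only [l]
    rw [LinearMap.smul_apply, LinearMap.sum_apply]
    refine Submodule.smul_mem _ _ (Submodule.sum_mem _ fun x _ => ?_)
    rw [Module.End.mul_apply, Module.End.mul_apply]
    exact hst x _ (P _).2
  have hlid : ∀ y ∈ Y, l y = y := by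
    intro y hy
    simp only [l]
    rw [LinearMap.smul_apply, LinearMap.sum_apply, Finset.sum_congr rfl (g := fun _ => y)]
    · rw [Finset.sum_const, Finset.card_univ, ← Nat.cast_smul_eq_nsmul k, smul_smul,
        inv_mul_cancel₀ hN, one_smul]
    · intro x _
      rw [Module.End.mul_apply, Module.End.mul_apply]
      have h1 : l0 (σ x⁻¹ y) = σ x⁻¹ y := hPY _ (hst x⁻¹ y hy)
      rw [h1, ← Module.End.mul_apply, hσinv, Module.End.one_apply]
  have hqR : q * u ^ m = 0 := by
    ext w
    rw [Module.End.mul_apply, LinearMap.zero_apply]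
    simp only [q]
    rw [LinearMap.smul_apply, LinearMap.sum_apply, Finset.sum_eq_zero, smul_zero]
    intro x _
    rw [LinearMap.smul_apply, Module.End.mul_apply, Module.End.mul_apply,
      hq0R _ (hRst x⁻¹ _ (LinearMap.mem_range_self _ _)), map_zero, smul_zero]
  have hql : u ^ (m - 1) * q = l := by
    simp only [q, l]
    rw [mul_smul_comm, Finset.mul_sum]
    congr 1
    refine Finset.sum_congr rfl fun x _ => ?_
    rw [mul_smul_comm, ← mul_assoc, ← mul_assoc, ← smul_mul_assoc, ← smul_mul_assoc, ← hpow,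
      mul_assoc (σ x), hq0]
  have hqσ : ∀ y, (τ y : k) ^ (m - 1) • (σ y * q) = q * σ y := by
    intro y
    simp only [q]
    rw [mul_smul_comm, smul_mul_assoc, smul_comm, Finset.mul_sum, Finset.smul_sum, Finset.sum_mul]
    congr 1
    refine Fintype.sum_equiv (Equiv.mulLeft y) _ _ fun x => ?_
    rw [Equiv.coe_mulLeft, hτmul, mul_pow, mul_smul_comm, smul_smul, smul_mul_assoc, map_mul,
      mul_inv_rev, map_mul]
    congr 1
    rw [mul_assoc (σ y * σ x * q0), mul_assoc (σ x⁻¹), hσinv', mul_one]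
    simp only [mul_assoc]
  -- the operator
  have hul : u * l = 0 := by
    ext w
    rw [Module.End.mul_apply, LinearMap.zero_apply]
    exact LinearMap.mem_ker.1 (hY (hlY w)).1
  refine ⟨∑ i ∈ Finset.range m, u ^ i * q * u ^ (m - 1 - i), ?_, ?_, ?_, ?_⟩
  · have h1 : (∑ i ∈ Finset.range m, u ^ i * q * u ^ (m - 1 - i)) * u =
        ∑ i ∈ Finset.range m, u ^ i * q * u ^ (m - i) := by
      rw [Finset.sum_mul]
      refine Finset.sum_congr rfl fun i hi => ?_
      rw [Finset.mem_range] at hi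
      rw [mul_assoc _ _ u, ← pow_succ]
      congr 2
      omega
    have h2 : u * (∑ i ∈ Finset.range m, u ^ i * q * u ^ (m - 1 - i)) =
        ∑ i ∈ Finset.range m, u ^ (i + 1) * q * u ^ (m - (i + 1)) := by
      rw [Finset.mul_sum]
      refine Finset.sum_congr rfl fun i hi => ?_
      rw [Finset.mem_range] at hi
      rw [pow_succ', mul_assoc, mul_assoc, mul_assoc]
      congr 4
      omega
    have h3 := Finset.sum_range_sub (fun i => u ^ i * q * u ^ (m - i)) m
    rw [Finset.sum_sub_distrib] at h3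
    have h4 : u ^ m * q * u ^ (m - m) = 0 := by
      have h5 : u ^ m = u * u ^ (m - 1) := by
        rw [← pow_succ']; congr 1; omega
      rw [Nat.sub_self, pow_zero, mul_one, h5, mul_assoc, hql, hul]
    have h6 : u ^ 0 * q * u ^ (m - 0) = 0 := by
      rw [pow_zero, one_mul, Nat.sub_zero, hqR]
    rw [h4, h6, sub_zero] at h3
    rw [h1, h2]
    exact (sub_eq_zero.1 h3).symm
  · intro x
    rw [Finset.sum_mul, Finset.mul_sum]
    refine Finset.sum_congr rfl fun i hi => ?_
    rw [Finset.mem_range] at hi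
    have h1 : σ x * (u ^ i * q * u ^ (m - 1 - i)) =
        (τ x : k) ^ i • (u ^ i * (σ x * q) * u ^ (m - 1 - i)) := by
      rw [← mul_assoc, ← mul_assoc, hpow, smul_mul_assoc, smul_mul_assoc, mul_assoc (u ^ i)]
    have h2 : u ^ i * q * u ^ (m - 1 - i) * σ x =
        ((τ x : k) ^ (m - 1 - i))⁻¹ • (u ^ i * (q * σ x) * u ^ (m - 1 - i)) := by
      have h3 : u ^ (m - 1 - i) * σ x = ((τ x : k) ^ (m - 1 - i))⁻¹ • (σ x * u ^ (m - 1 - i)) := by
        rw [hpow, smul_smul, inv_mul_cancel₀ (pow_ne_zero _ (hτ0 x)), one_smul]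
      rw [mul_assoc _ _ (σ x), h3, mul_smul_comm]
      simp only [mul_assoc]
    rw [h1, h2, ← hqσ, mul_smul_comm, smul_mul_assoc, smul_smul]
    congr 1
    have h4 : (τ x : k) ^ (m - 1) = (τ x : k) ^ (m - 1 - i) * (τ x : k) ^ i := by
      rw [← pow_add]; congr 1; omega
    rw [h4, ← mul_assoc, inv_mul_cancel₀ (pow_ne_zero _ (hτ0 x)), one_mul]
  · intro w hw
    have h1 : (∑ i ∈ Finset.range m, u ^ i * q * u ^ (m - 1 - i)) w = l w := by
      rw [LinearMap.sum_apply, Finset.sum_eq_single (m - 1)]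
      · rw [Nat.sub_self, pow_zero, mul_one, hql]
      · intro i hi hne
        rw [Finset.mem_range] at hi
        have h2 : m - 1 - i = (m - 1 - i - 1) + 1 := by omega
        rw [h2, pow_succ, Module.End.mul_apply, Module.End.mul_apply, Module.End.mul_apply, hw,
          map_zero, map_zero, map_zero]
      · intro h
        exact absurd (Finset.mem_range.2 (by omega)) h
    rw [h1]
    exact hlY w
  · intro y hy
    have hw : u y = 0 := LinearMap.mem_ker.1 (hY hy).1
    have h1 : (∑ i ∈ Finset.range m, u ^ i * q * u ^ (m - 1 - i)) y = l y := by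
      rw [LinearMap.sum_apply, Finset.sum_eq_single (m - 1)]
      · rw [Nat.sub_self, pow_zero, mul_one, hql]
      · intro i hi hne
        rw [Finset.mem_range] at hi
        have h2 : m - 1 - i = (m - 1 - i - 1) + 1 := by omega
        rw [h2, pow_succ, Module.End.mul_apply, Module.End.mul_apply, Module.End.mul_apply, hw,
          map_zero, map_zero, map_zero]
      · intro h
        exact absurd (Finset.mem_range.2 (by omega)) h
    rw [h1]
    exact hlid y hy

end Pool.Agent.Helper42.IR
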