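import Pool.Agent.Helper42.IR.LA1
import Pool.Agent.Helper42.IR.LA2

/-!
# IR-22 (project IR, section 3.5): linear algebra with a nilpotent operator and a group acting

Setting: `k` an algebraically closed field, `W` a finite dimensional `k`-space, `X` a finite group
whose order is invertible in `k`, `σ : X → GL(W)`, `u : W → W` with `u ^ p = 0` and
`σ x u = τ x u σ x` for a homomorphism `τ : X → kˣ`.

`dim_ker_le`: suppose moreover (Key) for every `π` commuting with `u` and all `σ x`, either some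
power `π ^ j` maps `ker u` into `range (u ^ (p-1))`, or `ker u ⊓ ker π ≤ range (u ^ (p-1))`. Then
`dim ker u ≤ n + dim range (u ^ (p-1))`.
Proof: if `ker u ≤ range (u^(p-1))` this is clear. Otherwise there is `m` with `1 ≤ m ≤ p - 1` and
`ker u ⊓ range (u^(m-1))` not contained in `range (u^m)` (else `ker u ≤ range (u ^ j)` for all
`j ≤ p - 1` by induction). By Maschke (averaging a projection) the `X`-stable subspace
`ker u ⊓ range (u^m)` has an `X`-stable complement `Z ≠ 0` in `ker u ⊓ range (u^(m-1))`; take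
`Y ≤ Z` from `exists_simple` and `π` from `exists_pi` (`Y ⊓ range (u^m) ≤ Z ⊓ ker u ⊓ range (u^m) = ⊥`).
First alternative of (Key): for `0 ≠ y ∈ Y`, `y = π^j y ∈ range (u^(p-1)) ≤ range (u^m)`, a
contradiction. So `ker u ⊓ ker π ≤ range (u^(p-1))` and by rank-nullity for `π` on `ker u`:
`dim ker u ≤ dim Y + dim range (u^(p-1)) ≤ n + dim range (u^(p-1))`.
-/

namespace Pool.Agent.Helper42.IR

variable {k : Type} [Field k] [IsAlgClosed k] {W : Type} [AddCommGroup W] [Module k W]
  [FiniteDimensional k W] {X : Type} [Group X] [Finite X] (hX : (Nat.card X : k) ≠ 0)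
  (σ : Representation k X W) {n : ℕ}

include hX

/-- Averaging a projection onto a stable subspace. -/
theorem exists_avg_proj (B : Submodule k W) (hB : ∀ x, ∀ z ∈ B, σ x z ∈ B) :
    ∃ l : W →ₗ[k] W, (∀ w, l w ∈ B) ∧ (∀ w ∈ B, l w = w) ∧ ∀ x, l * σ x = σ x * l := by
  classical
  have := Fintype.ofFinite X
  have hN : (Fintype.card X : k) ≠ 0 := by
    rw [← Nat.card_eq_fintype_card]; exact hX
  have hσinv : ∀ x, σ x * σ x⁻¹ = 1 := by
    intro x
    rw [← map_mul, mul_inv_cancel, map_one]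
  have hσinv' : ∀ x, σ x⁻¹ * σ x = 1 := by
    intro x
    rw [← map_mul, inv_mul_cancel, map_one]
  obtain ⟨D, hD⟩ := exists_isCompl B
  let l0 : W →ₗ[k] W := B.projection D hD
  refine ⟨(Fintype.card X : k)⁻¹ • ∑ x : X, σ x * l0 * σ x⁻¹, ?_, ?_, ?_⟩
  · intro w
    rw [LinearMap.smul_apply, LinearMap.sum_apply]
    refine Submodule.smul_mem _ _ (Submodule.sum_mem _ fun x _ => ?_)
    rw [Module.End.mul_apply, Module.End.mul_apply]
    exact hB x _ (Submodule.projection_apply_mem hD _)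
  · intro w hw
    rw [LinearMap.smul_apply, LinearMap.sum_apply, Finset.sum_congr rfl (g := fun _ => w)]
    · rw [Finset.sum_const, Finset.card_univ, ← Nat.cast_smul_eq_nsmul k, smul_smul,
        inv_mul_cancel₀ hN, one_smul]
    · intro x _
      rw [Module.End.mul_apply, Module.End.mul_apply]
      have h1 : l0 (σ x⁻¹ w) = σ x⁻¹ w := Submodule.projection_apply_of_mem_left hD (hB x⁻¹ w hw)
      rw [h1, ← Module.End.mul_apply, hσinv, Module.End.one_apply]
  · intro y
    rw [mul_smul_comm, smul_mul_assoc, Finset.mul_sum, Finset.sum_mul]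
    congr 1
    symm
    refine Fintype.sum_equiv (Equiv.mulLeft y) _ _ fun x => ?_
    rw [Equiv.coe_mulLeft, map_mul, mul_inv_rev, map_mul]
    rw [mul_assoc (σ y * σ x * l0), mul_assoc (σ x⁻¹), hσinv', mul_one]
    simp only [mul_assoc]

theorem dim_ker_le (p : ℕ) (hp : 2 ≤ p) (H : Subgroup X)
    (s : Matrix (Fin n) (Fin n) k →ₐ[k] (W →ₗ[k] W))
    (φ : X →* Matrix (Fin n) (Fin n) k)
    (hs : ∀ (x : X) (A : Matrix (Fin n) (Fin n) k), σ x * s A = s (φ x * A * φ x⁻¹) * σ x)
    (hH : ∀ h ∈ H, σ h = s (φ h))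
    (hspan : ∀ A, s A ∈ Submodule.span k (Set.range fun h : H => σ (h : X)))
    (hab : ∀ x y : X, x * y * x⁻¹ * y⁻¹ ∈ H)
    (τ : X →* kˣ) (u : W →ₗ[k] W) (hu : ∀ x, σ x * u = (τ x : k) • (u * σ x))
    (hup : u ^ p = 0)
    (hkey : ∀ π : W →ₗ[k] W, π * u = u * π → (∀ x, π * σ x = σ x * π) →
      (∃ j : ℕ, ∀ w, u w = 0 → (π ^ j) w ∈ LinearMap.range (u ^ (p - 1))) ∨
      (∀ w, u w = 0 → π w = 0 → w ∈ LinearMap.range (u ^ (p - 1)))) :
    Module.finrank k (LinearMap.ker u) ≤
      n + Module.finrank k (LinearMap.range (u ^ (p - 1))) := by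
  classical
  by_cases hle : LinearMap.ker u ≤ LinearMap.range (u ^ (p - 1))
  · exact (Submodule.finrank_mono hle).trans (Nat.le_add_left _ _)
  -- the exponent `m`
  have hex : ∃ j, ¬ LinearMap.ker u ≤ LinearMap.range (u ^ j) := ⟨p - 1, hle⟩
  obtain ⟨m, hm, hmmin⟩ : ∃ m, ¬ LinearMap.ker u ≤ LinearMap.range (u ^ m) ∧
      ∀ j < m, LinearMap.ker u ≤ LinearMap.range (u ^ j) :=
    ⟨Nat.find hex, Nat.find_spec hex, fun j hj => not_not.1 (Nat.find_min hex hj)⟩
  have hm1 : 1 ≤ m := by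
    rcases Nat.eq_zero_or_pos m with h0 | h0
    · subst h0
      exfalso
      apply hm
      rw [pow_zero]
      intro w _
      exact ⟨w, rfl⟩
    · exact h0
  have hmp : m ≤ p - 1 := by
    by_contra hcon
    exact hle (hmmin (p - 1) (by omega))
  -- stability
  have hpow : ∀ (j : ℕ) (x : X), σ x * u ^ j = (τ x : k) ^ j • (u ^ j * σ x) := by
    intro j x
    induction j with
    | zero => simp
    | succ j ih =>
      rw [pow_succ, ← mul_assoc, ih, smul_mul_assoc, mul_assoc, hu, mul_smul_comm, smul_smul,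
        ← mul_assoc, pow_succ]
  have hRst : ∀ x, ∀ z ∈ LinearMap.range (u ^ m), σ x z ∈ LinearMap.range (u ^ m) := by
    rintro x _ ⟨w, rfl⟩
    have h1 := LinearMap.congr_fun (hpow m x) w
    rw [Module.End.mul_apply, LinearMap.smul_apply, Module.End.mul_apply] at h1
    rw [h1, ← map_smul]
    exact LinearMap.mem_range_self _ _
  have hKst : ∀ x, ∀ z ∈ LinearMap.ker u, σ x z ∈ LinearMap.ker u := by
    intro x z hz
    rw [LinearMap.mem_ker] at hz ⊢
    have h1 := LinearMap.congr_fun (hu x) z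
    rw [Module.End.mul_apply, LinearMap.smul_apply, Module.End.mul_apply, hz, map_zero] at h1
    exact (smul_eq_zero.1 h1.symm).resolve_left (τ x).ne_zero
  -- the complement
  let B : Submodule k W := LinearMap.ker u ⊓ LinearMap.range (u ^ m)
  have hBst : ∀ x, ∀ z ∈ B, σ x z ∈ B := fun x z hz => ⟨hKst x z hz.1, hRst x z hz.2⟩
  obtain ⟨l, hlB, hlid, hlσ⟩ := exists_avg_proj hX σ B hBst
  let Z : Submodule k W := LinearMap.ker u ⊓ LinearMap.ker l
  have hZst : ∀ x, ∀ z ∈ Z, σ x z ∈ Z := by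
    intro x z hz
    refine ⟨hKst x z hz.1, ?_⟩
    rw [SetLike.mem_coe, LinearMap.mem_ker]
    have h1 := LinearMap.congr_fun (hlσ x) z
    rw [Module.End.mul_apply, Module.End.mul_apply, LinearMap.mem_ker.1 hz.2, map_zero] at h1
    exact h1
  have hZB : ∀ z ∈ Z, z ∈ LinearMap.range (u ^ m) → z = 0 := by
    intro z hz hzR
    have h1 := hlid z ⟨hz.1, hzR⟩
    rw [← h1]
    exact LinearMap.mem_ker.1 hz.2
  have hZ : Z ≠ ⊥ := by
    intro h
    apply hm
    intro w hw
    have h1 : w - l w ∈ Z := by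
      refine ⟨Submodule.sub_mem _ hw (hlB w).1, ?_⟩
      rw [SetLike.mem_coe, LinearMap.mem_ker, map_sub, hlid _ (hlB w), sub_self]
    rw [h, Submodule.mem_bot, sub_eq_zero] at h1
    rw [h1]
    exact (hlB w).2
  obtain ⟨Y, hYZ, hY0, hYst, hYn⟩ := exists_simple σ H s φ hs hH hspan hab Z hZ hZst
  have hYR : Y ⊓ LinearMap.range (u ^ m) = ⊥ := by
    rw [eq_bot_iff]
    intro y hy
    rw [Submodule.mem_bot]
    exact hZB y (hYZ hy.1) hy.2
  obtain ⟨π, hπu, hπσ, hπY, hπid⟩ := exists_pi hX σ τ u hu m hm1 Y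
    (fun y hy => ⟨(hYZ hy).1, hmmin (m - 1) (by omega) (hYZ hy).1⟩) hYR hYst
  rcases hkey π hπu hπσ with ⟨j, hj⟩ | hker
  · exfalso
    obtain ⟨y, hy, hy0⟩ := Submodule.exists_mem_ne_zero_of_ne_bot hY0
    have hjy : (π ^ j) y = y := by
      clear hj
      induction j with
      | zero => rfl
      | succ j ih => rw [pow_succ, Module.End.mul_apply, hπid y hy, ih]
    have h1 := hj y (LinearMap.mem_ker.1 (hYZ hy).1)
    rw [hjy] at h1
    apply hy0
    apply hZB y (hYZ hy)
    obtain ⟨w, hw⟩ := h1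
    refine ⟨(u ^ (p - 1 - m)) w, ?_⟩
    rw [← Module.End.mul_apply, ← pow_add, ← hw]
    congr 2
    omega
  · let f : LinearMap.ker u →ₗ[k] W := π ∘ₗ (LinearMap.ker u).subtype
    have h1 := LinearMap.finrank_range_add_finrank_ker f
    have h2 : Module.finrank k (LinearMap.range f) ≤ n := by
      refine le_trans (Submodule.finrank_mono ?_) hYn
      rintro _ ⟨w, rfl⟩
      exact hπY w (LinearMap.mem_ker.1 w.2)
    have h3 : Module.finrank k (LinearMap.ker f) ≤
        Module.finrank k (LinearMap.range (u ^ (p - 1))) := by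
      rw [← Submodule.finrank_map_subtype_eq]
      refine Submodule.finrank_mono ?_
      rintro _ ⟨w, hw, rfl⟩
      exact hker _ (LinearMap.mem_ker.1 w.2) (LinearMap.mem_ker.1 hw)
    omega

end Pool.Agent.Helper42.IR
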