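import Pool.Agent.Helper42.IR.Val

/-!
# IR-02 (project IR): monic polynomials over `OO p` split, the residue field is algebraically closed

Proof of `monic_splits`: map `f` to `ℂ[X]`; it splits, `f = ∏ (X - a_i)` over the roots. Each root
is integral over `OO p` (root of the monic `f`), hence in `OO p` (`OO p` is integrally closed in its
fraction field `ℂ`). Both sides have coefficients in `OO p` and `OO p → ℂ` is injective.
Proof of `isAlgClosed_kk`: use `IsAlgClosed.of_exists_root`: a monic irreducible polynomial over the
residue field lifts to a monic polynomial of the same degree over `OO p`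
(`Polynomial.lifts_and_natDegree_eq_and_monic` or similar); it splits over `OO p`; its degree is
positive, so it has a root, whose residue is a root of the given polynomial.
-/

namespace Pool.Agent.Helper42.IR

open Pool.Agent.Helper42.INC

variable {p : ℕ} [Fact p.Prime]

theorem monic_splits (f : Polynomial (OO p)) (hf : f.Monic) :
    ∃ s : Multiset (OO p), f = (s.map (fun a => Polynomial.X - Polynomial.C a)).prod := by
  classical
  have hinj : Function.Injective (algebraMap (OO p) ℂ) := Subtype.val_injective
  have hex : ∀ a ∈ (f.map (algebraMap (OO p) ℂ)).roots, ∃ b : OO p, algebraMap (OO p) ℂ b = a := by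
    intro a ha
    have h1 : (f.map (algebraMap (OO p) ℂ)).eval a = 0 := (Polynomial.mem_roots'.1 ha).2
    rw [Polynomial.eval_map] at h1
    have h2 : IsIntegral (OO p) a := ⟨f, hf, h1⟩
    exact IsIntegrallyClosed.isIntegral_iff.1 h2
  have hF : (f.map (algebraMap (OO p) ℂ)).Monic := hf.map _
  have hprod : f.map (algebraMap (OO p) ℂ) =
      ((f.map (algebraMap (OO p) ℂ)).roots.map (fun a => Polynomial.X - Polynomial.C a)).prod :=
    (IsAlgClosed.splits _).eq_prod_roots_of_monic hF
  refine ⟨(f.map (algebraMap (OO p) ℂ)).roots.map
    (fun a => if h : ∃ b : OO p, algebraMap (OO p) ℂ b = a then h.choose else 0), ?_⟩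
  apply Polynomial.map_injective _ hinj
  rw [Polynomial.map_multiset_prod, Multiset.map_map, Multiset.map_map]
  refine hprod.trans ?_
  congr 1
  apply Multiset.map_congr rfl
  intro a ha
  have h := hex a ha
  simp only [Function.comp, Polynomial.map_sub, Polynomial.map_X, Polynomial.map_C]
  rw [dif_pos h, h.choose_spec]

instance isAlgClosed_kk : IsAlgClosed (kk p) := by
  apply IsAlgClosed.of_exists_root
  intro g hg hirr
  have hsurj : Function.Surjective (IsLocalRing.residue (OO p)) := IsLocalRing.residue_surjective
  have hl : g ∈ Polynomial.lifts (IsLocalRing.residue (OO p)) := by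
    rw [Polynomial.mem_lifts]
    exact Polynomial.map_surjective _ hsurj g
  obtain ⟨q, hq1, hq2, hq3⟩ := Polynomial.lifts_and_natDegree_eq_and_monic hl hg
  obtain ⟨s, hs⟩ := monic_splits q hq3
  have hdeg : 0 < g.natDegree := hirr.natDegree_pos
  have hne : s ≠ 0 := by
    rintro rfl
    rw [Multiset.map_zero, Multiset.prod_zero] at hs
    rw [← hq2, hs, Polynomial.natDegree_one] at hdeg
    exact absurd hdeg (lt_irrefl 0)
  obtain ⟨a, ha⟩ := Multiset.exists_mem_of_ne_zero hne
  refine ⟨IsLocalRing.residue (OO p) a, ?_⟩
  have hroot : q.eval a = 0 := by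
    rw [hs, Polynomial.eval_multiset_prod, Multiset.map_map]
    apply Multiset.prod_eq_zero
    rw [Multiset.mem_map]
    exact ⟨a, ha, by simp⟩
  rw [← hq1, Polynomial.eval_map_apply, hroot, map_zero]

end Pool.Agent.Helper42.IR
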