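import Pool.Agent.Helper42.IR.BSepA

/-!
# IR-23 (project IR, section 3.3): block separation, multiplicities divisible by `p`

`χ = chR R` irreducible of degree `n` prime to `p`, `m_ρ = ip H χ ρ` (a natural number, `ip_nat`).
* `bs_zero`: `p ∣ m_ρ ⇒ aa (·, ρ) = 0`. `keyO` for `f = E = Eph R H ρ`: `E = c E - trQ b`,
  `c n = |K : T| trace E = |K : T| ρ(1) m_ρ` (`trace_Eph`), so `c` is in the maximal ideal (`n` is a unit,
  `isUnit_nat`), `1 - c` is a unit and `E = trQ (-(1 - c)⁻¹ b)`; apply `aa_zero_of_trQ`.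
* `ndvd_of_bl`: if `p ∣ m` then `bs_zero` shows that `Bl` fails.
-/

namespace Pool.Agent.Helper42.IR

open Pool.Agent.Helper42.INC

variable {p : ℕ} [Fact p.Prime]

variable {K : Type} [Group K] [Finite K] {n : ℕ}
  (R : K →* Matrix (Fin n) (Fin n) (OO p)) {Q H : Subgroup K}

variable (hL : Loc p (⊤ : Subgroup K) Q H)
include hL

theorem bs_zero (hR : SchurR R) (hn : ¬ p ∣ n) {ρ : K → ℂ} (hρ : ρ ∈ IrrS H) {m : ℕ}
    (hm : ip H (chR R) ρ = m) (hd : p ∣ m) {lam : K → ℂ} (hl : lam ∈ IrrS Q) :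
    aa Q H (chR R) lam ρ = 0 := by
  have hH : ¬ p ∣ Nat.card H := hL.pH
  have hfT : ∀ t ∈ Subgroup.normalizer (Q : Set K) ⊓ stab ρ,
      R t * Eph R H ρ = Eph R H ρ * R t := by
    intro t ht
    have h1 : t ∈ Subgroup.normalizer (H : Set K) := by
      refine Loc.norm_H hL ?_ ht.1
      rw [Subgroup.mem_normalizer_iff]
      intro h
      simp
    exact Eph_comm R H hH hρ h1 (mem_stab.1 ht.2)
  obtain ⟨c, b, hEb, hbE, hE, hc⟩ := keyO R hL hR hρ (Eph R H ρ) (Eph_mul_self R H hH hρ)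
    (Eph_mul_self R H hH hρ) hfT
  have htr : (Eph R H ρ).trace = ((deg ρ : ℕ) : OO p) * (m : OO p) := by
    have h0 : (((Eph R H ρ).trace : OO p) : ℂ) = ((((deg ρ : ℕ) : OO p) * (m : OO p) : OO p) : ℂ) := by
      rw [trace_Eph R H hH hρ, hm]
      push_cast
      rfl
    exact Subtype.coe_injective h0
  have hcn : c * (n : OO p) ∈ IsLocalRing.maximalIdeal (OO p) := by
    rw [hc, htr]
    refine Ideal.mul_mem_left _ _ (Ideal.mul_mem_left _ _ ?_)
    obtain ⟨m', rfl⟩ := hd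
    rw [Nat.cast_mul]
    exact Ideal.mul_mem_right _ _ (p_mem p)
  have hcm : c ∈ IsLocalRing.maximalIdeal (OO p) := by
    obtain ⟨u, hu⟩ := (isUnit_nat (p := p) hn).exists_right_inv
    have h2 : c = (c * (n : OO p)) * u := by rw [mul_assoc, hu, mul_one]
    rw [h2]
    exact Ideal.mul_mem_right _ _ hcn
  have hu1 : IsUnit (1 - c) := by
    by_contra hnu
    have h3 : (1 - c) ∈ IsLocalRing.maximalIdeal (OO p) := (IsLocalRing.mem_maximalIdeal _).2 hnu
    have h4 : (1 : OO p) ∈ IsLocalRing.maximalIdeal (OO p) := by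
      have h5 := Ideal.add_mem _ h3 hcm
      rwa [sub_add_cancel] at h5
    exact (IsLocalRing.mem_maximalIdeal _).1 h4 isUnit_one
  obtain ⟨u, hu⟩ := hu1.exists_left_inv
  have hE2 : (1 - c) • Eph R H ρ = - trQ R Q b := by
    rw [sub_smul, one_smul]
    nth_rewrite 1 [hE]
    abel
  have hE3 : Eph R H ρ = trQ R Q ((-u) • b) := by
    rw [trQ_smul, neg_smul, ← smul_neg, ← hE2, smul_smul, hu, one_smul]
  refine aa_zero_of_trQ R hL hρ ((-u) • b) ?_ hE3 hl
  rw [Matrix.mul_smul, hEb]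

theorem ndvd_of_bl (hR : SchurR R) (hn : ¬ p ∣ n) {φ : K → ℂ} (hφ : φ ∈ IrrS H) {m : ℕ}
    (hm : ip H (chR R) φ = m) (hB : Bl Q H (chR R) φ) : ¬ p ∣ m := by
  intro hd
  obtain ⟨lam, hl, hne⟩ := hB
  exact hne (bs_zero R hL hR hn hφ hm hd hl)

end Pool.Agent.Helper42.IR
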