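import Pool.Agent.Helper42.IR.BSepA

/-!
# IR-24 (project IR, section 3.3): block separation, conjugacy

`χ = chR R` irreducible of degree `n` prime to `p`, `m_ρ = ip H χ ρ` (a natural number, `ip_nat`).
* `bs_conj`: if `p ∤ m_φ`, `p ∤ m_ρ` then `ρ` is conjugate to `φ` under `N = N_K(Q)`. Suppose not. Let
  `ε_φ = ∑ Eph ψ` over the `N`-orbit of `φ` (`ψ = cnj t φ`, a finite set of functions), `ε_ρ` likewise; they
  commute with `R t`, `t ∈ N` (`Eph_conj`), and `ε_φ ε_ρ = 0` (`Eph_mul_ne`). By `keyO_top`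
  `ε_φ = c - trQ b`, `ε_ρ = c' - trQ b'`, with `c n = |K:N| trace ε_φ`, where
  `trace ε_φ = |orbit| φ(1) m_φ` (`m` is constant on the orbit as `χ` is a class function) is a unit:
  `|orbit|` divides `|N : Q H|`, a divisor of `p - 1` (`Loc.index_dvd`), `p ∤ φ(1)` (`not_dvd_deg` of
  `BSepA`), and `|K : N|` is prime to `p` (`Q ≤ N`, `p² ∤ |K|`).
  Hence `c`, `c'` are units. Now `0 = ε_φ ε_ρ = c c' - c trQ b' - trQ b ε_ρ`; taking traces
  (`trace_trQ`, `trQ_mul`): `c c' n ∈ p OO p`, a contradiction.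
-/

namespace Pool.Agent.Helper42.IR

open Pool.Agent.Helper42.INC

variable {p : ℕ} [Fact p.Prime]

variable {K : Type} [Group K] [Finite K] {n : ℕ}
  (R : K →* Matrix (Fin n) (Fin n) (OO p)) {Q H : Subgroup K}

variable (hL : Loc p (⊤ : Subgroup K) Q H)
include hL

omit [Finite K] hL in
private theorem bc_mem {t : K} (ht : t ∈ Subgroup.normalizer (H : Set K)) {φ : K → ℂ}
    (hφ : φ ∈ IrrS H) : cnj t φ ∈ IrrS H := by
  have hmem : ∀ x, x ∈ H ↔ t⁻¹ * x * t ∈ H := Subgroup.mem_normalizer_iff''.1 ht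
  constructor
  · let e : H ≃* H :=
      { toFun := fun x => ⟨t⁻¹ * x * t, (hmem x).1 x.2⟩
        invFun := fun x => ⟨t * x * t⁻¹, (Subgroup.mem_normalizer_iff.1 ht x).1 x.2⟩
        left_inv := fun x => by apply Subtype.ext; change t * (t⁻¹ * x * t) * t⁻¹ = x; group
        right_inv := fun x => by apply Subtype.ext; change t⁻¹ * (t * x * t⁻¹) * t = x; group
        map_mul' := fun x y => by
          apply Subtype.ext
          change t⁻¹ * (x * y) * t = (t⁻¹ * x * t) * (t⁻¹ * y * t)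
          group }
    exact irr_comp e hφ.1
  · intro x hx
    exact hφ.2 _ (fun h => hx ((hmem x).2 h))

omit [Finite K] [Fact p.Prime] hL in
private theorem bc_deg (t : K) (φ : K → ℂ) : deg (cnj t φ) = deg φ := by
  unfold deg cnj
  simp

omit [Finite K] hL in
private theorem bc_ip {t : K} (ht : t ∈ Subgroup.normalizer (H : Set K)) (φ : K → ℂ) :
    ip H (chR R) (cnj t φ) = ip H (chR R) φ := by
  have hmem : ∀ x, x ∈ H ↔ t⁻¹ * x * t ∈ H := Subgroup.mem_normalizer_iff''.1 ht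
  let e : H ≃ H :=
    { toFun := fun x => ⟨t⁻¹ * x * t, (hmem x).1 x.2⟩
      invFun := fun x => ⟨t * x * t⁻¹, (Subgroup.mem_normalizer_iff.1 ht x).1 x.2⟩
      left_inv := fun x => by apply Subtype.ext; change t * (t⁻¹ * x * t) * t⁻¹ = x; group
      right_inv := fun x => by apply Subtype.ext; change t⁻¹ * (t * x * t⁻¹) * t = x; group }
  unfold ip B
  congr 1
  symm
  rw [← finsum_comp_equiv e]
  apply finsum_congr
  intro x
  change chR R (t⁻¹ * x * t) * φ (t⁻¹ * x * t)⁻¹ = chR R x * φ (t⁻¹ * (x : K)⁻¹ * t)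
  have e1 : (t⁻¹ * (x : K) * t)⁻¹ = t⁻¹ * (x : K)⁻¹ * t := by group
  have e2 : chR R (t⁻¹ * x * t) = chR R x := by
    unfold chR
    rw [mul_assoc, map_mul, Matrix.trace_mul_comm, ← map_mul]
    congr 3
    group
  rw [e1, e2]

/-- the orbit has cardinality prime to `p` -/
private theorem bc_orbit {φ : K → ℂ} (hφ : φ ∈ IrrS H) (O : Finset (K → ℂ))
    (hO : ∀ ψ, ψ ∈ O ↔ ∃ t ∈ Subgroup.normalizer (Q : Set K), cnj t φ = ψ) : ¬ p ∣ O.card := by
  classical
  have := Fintype.ofFinite K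
  set N := Subgroup.normalizer (Q : Set K) with hN
  have hNN : NN (⊤ : Subgroup K) Q = N := by
    unfold NN
    rw [top_inf_eq]
  set T := N ⊓ stab φ with hT
  have h1 : Q ⊔ H ≤ T := by
    refine le_inf ?_ ?_
    · rw [← hNN]
      exact Loc.C_le_N hL
    · refine sup_le ?_ ?_
      · intro x hx
        rw [mem_stab]
        funext y
        rw [cnj_apply]
        by_cases hy : y ∈ H
        · have h2 := Loc.comm hL x hx y hy
          rw [mul_assoc, ← h2, inv_mul_cancel_left]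
        · rw [hφ.2 y hy, hφ.2]
          intro h3
          apply hy
          have h4 := Loc.comm hL x hx _ h3
          have h5 : y = x * (x⁻¹ * y * x) * x⁻¹ := by group
          rw [h5, h4, mul_inv_cancel_right]
          exact h3
      · intro x hx
        rw [mem_stab]
        funext y
        rw [cnj_apply]
        by_cases hy : y ∈ H
        · have h2 := (Irr.isClass hφ.1) ⟨x⁻¹, H.inv_mem hx⟩ ⟨y, hy⟩
          simpa using h2
        · rw [hφ.2 y hy, hφ.2]
          intro h3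
          apply hy
          have h5 : y = x * (x⁻¹ * y * x) * x⁻¹ := by group
          rw [h5]
          exact H.mul_mem (H.mul_mem hx h3) (H.inv_mem hx)
  have h2 : ¬ p ∣ T.relIndex N := by
    have h3 := Loc.index_prime hL h1 (by rw [hNN]; exact inf_le_left)
    rwa [hNN] at h3
  have h3 : (Finset.univ.filter (fun t : K => t ∈ N)).card =
      O.card * (Finset.univ.filter (fun t : K => t ∈ T)).card := by
    rw [Finset.card_eq_sum_card_fiberwise (f := fun t => cnj t φ) (t := O) (by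
      intro t ht
      exact (hO _).2 ⟨t, (Finset.mem_filter.1 ht).2, rfl⟩)]
    rw [Finset.sum_const_nat (m := (Finset.univ.filter (fun t : K => t ∈ T)).card)]
    intro ψ hψ
    obtain ⟨t0, ht0, rfl⟩ := (hO ψ).1 hψ
    refine Finset.card_bij' (fun t _ => t0⁻¹ * t) (fun t _ => t0 * t) ?_ ?_ ?_ ?_
    · intro t ht
      rw [Finset.mem_filter, Finset.mem_filter] at ht
      rw [Finset.mem_filter]
      refine ⟨Finset.mem_univ _, Subgroup.mem_inf.2 ⟨N.mul_mem (N.inv_mem ht0) ht.1.2, ?_⟩⟩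
      rw [mem_stab, ← cnj_cnj, ht.2, cnj_inv_cnj]
    · intro t ht
      rw [Finset.mem_filter] at ht
      have h4 := Subgroup.mem_inf.1 ht.2
      rw [Finset.mem_filter, Finset.mem_filter]
      refine ⟨⟨Finset.mem_univ _, N.mul_mem ht0 h4.1⟩, ?_⟩
      rw [← cnj_cnj, mem_stab.1 h4.2]
    · intro t _
      exact mul_inv_cancel_left _ _
    · intro t _
      exact inv_mul_cancel_left _ _
  have h4 : ∀ L : Subgroup K, (Finset.univ.filter (fun t : K => t ∈ L)).card = Nat.card L := by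
    intro L
    rw [Nat.card_eq_fintype_card, Fintype.card_subtype]
  rw [h4, h4] at h3
  have h5 : T.relIndex N * Nat.card T = Nat.card N := by
    have h6 := Subgroup.card_mul_index (T.subgroupOf N)
    rw [Nat.card_congr (Subgroup.subgroupOfEquivOfLe (inf_le_left : T ≤ N)).toEquiv, mul_comm] at h6
    exact h6
  have h7 : O.card = T.relIndex N := by
    have h8 : 0 < Nat.card T := Nat.card_pos
    exact Nat.eq_of_mul_eq_mul_right h8 (by rw [← h3, h5])
  rw [h7]
  exact h2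

theorem bs_conj (hR : SchurR R) (hn : ¬ p ∣ n) {φ ρ : K → ℂ} (hφ : φ ∈ IrrS H)
    (hρ : ρ ∈ IrrS H) {m m' : ℕ} (hm : ip H (chR R) φ = m) (hm' : ip H (chR R) ρ = m')
    (hd : ¬ p ∣ m) (hd' : ¬ p ∣ m') :
    ∃ t ∈ Subgroup.normalizer (Q : Set K), cnj t φ = ρ := by
  classical
  have := Fintype.ofFinite K
  set N := Subgroup.normalizer (Q : Set K) with hN
  by_contra hcon
  push Not at hcon
  have hp : p.Prime := Fact.out
  have hNH : ∀ t ∈ N, t ∈ Subgroup.normalizer (H : Set K) := fun t ht =>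
    Loc.norm_H hL (by rw [Subgroup.mem_normalizer_iff]; simp) ht
  -- orbit sums
  let O : (K → ℂ) → Finset (K → ℂ) := fun f =>
    (Finset.univ.filter (fun t : K => t ∈ N)).image (fun t => cnj t f)
  have hO : ∀ f ψ, ψ ∈ O f ↔ ∃ t ∈ N, cnj t f = ψ := by
    intro f ψ
    simp [O]
  have hOI : ∀ {f}, f ∈ IrrS H → ∀ ψ ∈ O f, ψ ∈ IrrS H := by
    intro f hf ψ hψ
    obtain ⟨t, ht, rfl⟩ := (hO f ψ).1 hψ
    exact bc_mem (hNH t ht) hf
  let E : (K → ℂ) → Matrix (Fin n) (Fin n) (OO p) := fun f => ∑ ψ ∈ O f, Eph R H ψ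
  have hinv : ∀ s : K, R s⁻¹ * R s = 1 := fun s => by rw [← map_mul, inv_mul_cancel, map_one]
  have hEc : ∀ {f}, f ∈ IrrS H → ∀ s ∈ N, R s * E f = E f * R s := by
    intro f hf s hs
    have h1 : ∀ ψ ∈ O f, R s * Eph R H ψ = Eph R H (cnj s ψ) * R s := by
      intro ψ hψ
      rw [← Eph_conj R H hL.pH (hOI hf ψ hψ) (hNH s hs), Matrix.mul_assoc, hinv, Matrix.mul_one]
    change R s * (∑ ψ ∈ O f, Eph R H ψ) = (∑ ψ ∈ O f, Eph R H ψ) * R s
    rw [Finset.mul_sum, Finset.sum_congr rfl h1, ← Finset.sum_mul]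
    congr 1
    refine Finset.sum_nbij' (fun ψ => cnj s ψ) (fun ψ => cnj s⁻¹ ψ) ?_ ?_ ?_ ?_ ?_
    · intro ψ hψ
      obtain ⟨t, ht, rfl⟩ := (hO f ψ).1 hψ
      exact (hO f _).2 ⟨s * t, N.mul_mem hs ht, (cnj_cnj s t f).symm⟩
    · intro ψ hψ
      obtain ⟨t, ht, rfl⟩ := (hO f ψ).1 hψ
      exact (hO f _).2 ⟨s⁻¹ * t, N.mul_mem (N.inv_mem hs) ht, (cnj_cnj s⁻¹ t f).symm⟩
    · intro ψ _
      exact cnj_inv_cnj s ψ
    · intro ψ _
      change cnj s (cnj s⁻¹ ψ) = ψ
      rw [cnj_cnj, mul_inv_cancel, cnj_one]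
    · intro ψ _
      rfl
  have hE0 : E φ * E ρ = 0 := by
    change (∑ ψ ∈ O φ, Eph R H ψ) * (∑ ψ ∈ O ρ, Eph R H ψ) = 0
    rw [Finset.sum_mul]
    refine Finset.sum_eq_zero fun ψ hψ => ?_
    rw [Finset.mul_sum]
    refine Finset.sum_eq_zero fun ψ' hψ' => ?_
    refine Eph_mul_ne R H hL.pH (hOI hφ ψ hψ) (hOI hρ ψ' hψ') ?_
    rintro rfl
    obtain ⟨t, ht, h1⟩ := (hO φ ψ).1 hψ
    obtain ⟨s, hs, h2⟩ := (hO ρ ψ).1 hψ'
    refine hcon (s⁻¹ * t) (N.mul_mem (N.inv_mem hs) ht) ?_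
    rw [← cnj_cnj, h1, ← h2, cnj_inv_cnj]
  have hEt : ∀ {f}, f ∈ IrrS H → ∀ k : ℕ, ip H (chR R) f = k →
      (E f).trace = (((O f).card * (deg f * k) : ℕ) : OO p) := by
    intro f hf k hk
    apply Subtype.ext
    change (((∑ ψ ∈ O f, Eph R H ψ).trace : OO p) : ℂ) = _
    rw [← trace_toC, toC_sum, Matrix.trace_sum]
    have h1 : ∀ ψ ∈ O f, (toC (Eph R H ψ)).trace = (deg f : ℂ) * k := by
      intro ψ hψ
      rw [trace_toC, trace_Eph R H hL.pH (hOI hf ψ hψ)]
      obtain ⟨t, ht, rfl⟩ := (hO f ψ).1 hψ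
      rw [bc_deg, bc_ip R (hNH t ht), hk]
    rw [Finset.sum_congr rfl h1, Finset.sum_const, nsmul_eq_mul]
    push_cast
    rfl
  have hu : ∀ {f}, f ∈ IrrS H → ∀ k : ℕ, ip H (chR R) f = k → ¬ p ∣ k →
      ¬ p ∣ (O f).card * (deg f * k) := by
    intro f hf k _ hk
    rw [hp.dvd_mul, hp.dvd_mul]
    rintro (h1 | h1 | h1)
    · exact bc_orbit hL hf (O f) (hO f) h1
    · exact not_dvd_deg hL.pH hf h1
    · exact hk h1
  have hidx : ¬ p ∣ N.index := by
    intro h1
    apply hL.pp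
    have h2 : Nat.card N * N.index = Nat.card K := Subgroup.card_mul_index N
    have h3 : p ∣ Nat.card N := by
      rw [← hL.cQ]
      exact Subgroup.card_dvd_of_le Subgroup.le_normalizer
    rw [Subgroup.card_top, ← h2, pow_two]
    exact mul_dvd_mul h3 h1
  obtain ⟨c, b, hcb, hct⟩ := keyO_top R hL hR (E φ) (hEc hφ)
  have hc : IsUnit c := by
    have h1 : IsUnit (c * (n : OO p)) := by
      rw [hct, hEt hφ m hm, ← Nat.cast_mul]
      refine isUnit_nat ?_
      rw [hp.dvd_mul]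
      rintro (h2 | h2)
      · exact hidx h2
      · exact hu hφ m hm hd h2
    exact isUnit_of_mul_isUnit_left h1
  have hkey : c * (E ρ).trace = (p : OO p) * (b * E ρ).trace := by
    have h1 : c • E ρ = trQ R Q (b * E ρ) := by
      rw [← trQ_mul R Q b (E ρ) (fun y hy => hEc hρ y (Subgroup.le_normalizer hy))]
      have h2 : E φ * E ρ = c • E ρ - trQ R Q b * E ρ := by
        conv_lhs => rw [hcb]
        rw [Matrix.sub_mul, Matrix.smul_mul, Matrix.one_mul]
      rw [hE0] at h2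
      exact (sub_eq_zero.1 h2.symm)
    have h3 := congrArg Matrix.trace h1
    rw [Matrix.trace_smul, trace_trQ, hL.cQ, smul_eq_mul] at h3
    exact h3
  have hfin : IsUnit (c * (E ρ).trace) := by
    rw [hEt hρ m' hm']
    exact hc.mul (isUnit_nat (hu hρ m' hm' hd'))
  rw [hkey] at hfin
  exact p_mem p (isUnit_of_mul_isUnit_left hfin)

end Pool.Agent.Helper42.IR
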