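import Pool.Agent.Helper42.IR.BSepB
import Pool.Agent.Helper42.IR.BSepC

/-!
# IR-25 (project IR, section 3.3): the degree modulo `p`

`χ = chR R` irreducible of degree `n` prime to `p`, `m_ρ = ip H χ ρ` (a natural number, `ip_nat`).
* `deg_mod`: `n = ∑_ρ ρ(1) m_ρ`, all terms outside the orbit of `φ` are divisible by `p`, and the
  orbit has `|N : T|` elements with equal terms.
-/

namespace Pool.Agent.Helper42.IR

open Pool.Agent.Helper42.INC

variable {p : ℕ} [Fact p.Prime]

omit [Fact p.Prime] in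
private lemma dmx_irr {K : Type} [Group K] {H : Subgroup K} {t : K}
    (ht : t ∈ Subgroup.normalizer (H : Set K)) {φ : K → ℂ} (hφ : φ ∈ IrrS H) :
    cnj t φ ∈ IrrS H := by
  let e : H ≃* H :=
    { toFun := fun x => ⟨t⁻¹ * x * t, (Subgroup.mem_normalizer_iff''.1 ht x).1 x.2⟩
      invFun := fun x => ⟨t * x * t⁻¹, (Subgroup.mem_normalizer_iff.1 ht x).1 x.2⟩
      left_inv := by
        intro x
        apply Subtype.ext
        change t * (t⁻¹ * x * t) * t⁻¹ = x
        group
      right_inv := by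
        intro x
        apply Subtype.ext
        change t⁻¹ * (t * x * t⁻¹) * t = x
        group
      map_mul' := by
        intro x y
        apply Subtype.ext
        change t⁻¹ * (x * y) * t = (t⁻¹ * x * t) * (t⁻¹ * y * t)
        group }
  refine ⟨irr_comp e hφ.1, fun x hx => ?_⟩
  change φ (t⁻¹ * x * t) = 0
  exact hφ.2 _ (fun h => hx ((Subgroup.mem_normalizer_iff''.1 ht x).2 h))

omit [Fact p.Prime] in
private lemma dmx_ip {K : Type} [Group K] [Finite K] {H : Subgroup K} {t : K}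
    (ht : t ∈ Subgroup.normalizer (H : Set K)) {χ φ : K → ℂ} (hχ : cnj t χ = χ) :
    ip H χ (cnj t φ) = ip H χ φ := by
  classical
  have := Fintype.ofFinite H
  let e : H ≃ H :=
    { toFun := fun x => ⟨t⁻¹ * x * t, (Subgroup.mem_normalizer_iff''.1 ht x).1 x.2⟩
      invFun := fun x => ⟨t * x * t⁻¹, (Subgroup.mem_normalizer_iff.1 ht x).1 x.2⟩
      left_inv := by
        intro x
        apply Subtype.ext
        change t * (t⁻¹ * x * t) * t⁻¹ = x
        group
      right_inv := by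
        intro x
        apply Subtype.ext
        change t⁻¹ * (t * x * t⁻¹) * t = x
        group }
  unfold ip
  rw [B_eq, B_eq]
  congr 1
  rw [← Equiv.sum_comp e (fun x : H => χ x * φ ((x⁻¹ : H) : K))]
  refine Finset.sum_congr rfl fun x _ => ?_
  have h1 : χ (x : K) = χ (t⁻¹ * x * t) := (congrFun hχ x).symm
  rw [h1]
  congr 1
  change φ (t⁻¹ * ((x⁻¹ : H) : K) * t) = φ ((t⁻¹ * x * t)⁻¹)
  congr 1
  rw [Subgroup.coe_inv]
  group

omit [Fact p.Prime] in
private lemma dmx_orbit {K : Type} [Group K] [Finite K] (N : Subgroup K) (φ : K → ℂ)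
    (O : Finset (K → ℂ)) (hO : ∀ f, f ∈ O ↔ ∃ t ∈ N, cnj t φ = f) :
    O.card = (N ⊓ stab φ).relIndex N := by
  classical
  let act : MulAction N (K → ℂ) :=
    { smul := fun t f => cnj (t : K) f
      one_smul := fun f => cnj_one f
      mul_smul := fun a b f => (cnj_cnj (a : K) (b : K) f).symm }
  have hs : MulAction.stabilizer N φ = (N ⊓ stab φ).subgroupOf N := by
    ext x
    rw [MulAction.mem_stabilizer_iff, Subgroup.mem_subgroupOf]
    exact ⟨fun h => ⟨x.2, h⟩, fun h => h.2⟩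
  have ho : MulAction.orbit N φ = (O : Set (K → ℂ)) := by
    ext f
    rw [MulAction.mem_orbit_iff, Finset.mem_coe, hO]
    constructor
    · rintro ⟨x, hx⟩
      exact ⟨x, x.2, hx⟩
    · rintro ⟨t, ht, h⟩
      exact ⟨⟨t, ht⟩, h⟩
  unfold Subgroup.relIndex
  rw [← hs, MulAction.index_stabilizer, ho, Set.ncard_coe_finset]

variable {K : Type} [Group K] [Finite K] {n : ℕ}
  (R : K →* Matrix (Fin n) (Fin n) (OO p)) {Q H : Subgroup K}

variable (hL : Loc p (⊤ : Subgroup K) Q H)
include hL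

theorem deg_mod (hR : SchurR R) (hn : ¬ p ∣ n) {φ : K → ℂ} (hφ : φ ∈ IrrS H) {m : ℕ}
    (hm : ip H (chR R) φ = m) (hB : Bl Q H (chR R) φ) :
    (n : ZMod p) = (((Subgroup.normalizer (Q : Set K) ⊓ stab φ).relIndex
      (Subgroup.normalizer (Q : Set K)) * deg φ * m : ℕ) : ZMod p) := by
  classical
  have hfin : Finite (IrrS H) := Finite.of_equiv _ (cmx_equiv H).symm
  have := Fintype.ofFinite (IrrS H)
  have := Fintype.ofFinite (Irr H)
  have hmd : ¬ p ∣ m := ndvd_of_bl R hL hR hn hφ hm hB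
  have hNH : ∀ t ∈ Subgroup.normalizer (Q : Set K), t ∈ Subgroup.normalizer (H : Set K) := by
    intro t ht
    refine hL.norm_H ?_ ht
    rw [Subgroup.mem_normalizer_iff]
    intro x
    simp
  have hcl : ∀ t : K, cnj t (chR R) = chR R := by
    intro t
    funext x
    change ((R (t⁻¹ * x * t)).trace : ℂ) = ((R x).trace : ℂ)
    rw [map_mul, Matrix.trace_mul_comm, ← map_mul]
    congr 3
    group
  choose mm hmm using fun ρ : IrrS H => ip_nat R ρ.2
  have hclass : IsClass (fun h : H => chR R (h : K)) := by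
    intro a b
    have h1 := congrFun (hcl (a : K)⁻¹) b
    change chR R ((a : K)⁻¹⁻¹ * b * (a : K)⁻¹) = chR R b at h1
    rw [inv_inv] at h1
    exact h1
  have hexp : (n : ℂ) = ∑ ρ : IrrS H, (mm ρ : ℂ) * (deg ρ.1 : ℂ) := by
    have h1 := congrFun (expand (fun h : H => chR R (h : K)) hclass) 1
    rw [Finset.sum_apply, ← Equiv.sum_comp (cmx_equiv H)] at h1
    have h2 : chR R (((1 : H) : K)) = n := by
      change ((R (((1 : H) : K))).trace : ℂ) = n
      rw [Subgroup.coe_one, map_one, Matrix.trace_one, Fintype.card_fin]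
      simp
    rw [h2] at h1
    rw [h1]
    refine Finset.sum_congr rfl fun ρ _ => ?_
    rw [← hmm ρ]
    have h3 : (deg ρ.1 : ℂ) = ρ.1 (((1 : H) : K)) := by
      have h4 := deg_cast ρ.2.1
      exact h4
    rw [h3]
    rfl
  have hexpN : n = ∑ ρ : IrrS H, mm ρ * deg ρ.1 := by exact_mod_cast hexp
  let P : IrrS H → Prop := fun ρ => ∃ t ∈ Subgroup.normalizer (Q : Set K), cnj t φ = ρ.1
  have h2 : ∑ ρ : IrrS H, (mm ρ : ZMod p) * (deg ρ.1 : ZMod p) =
      ∑ ρ ∈ Finset.univ.filter P, (mm ρ : ZMod p) * (deg ρ.1 : ZMod p) := by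
    symm
    apply Finset.sum_subset (Finset.subset_univ _)
    intro ρ _ hρ
    have h5 : p ∣ mm ρ := by
      by_contra hnd
      obtain ⟨t, ht, hteq⟩ := bs_conj R hL hR hn hφ ρ.2 hm (hmm ρ) hmd hnd
      exact hρ (Finset.mem_filter.2 ⟨Finset.mem_univ _, t, ht, hteq⟩)
    rw [(ZMod.natCast_eq_zero_iff _ _).2 h5, zero_mul]
  have h3 : ∀ ρ ∈ Finset.univ.filter P,
      (mm ρ : ZMod p) * (deg ρ.1 : ZMod p) = (m : ZMod p) * (deg φ : ZMod p) := by
    intro ρ hρ
    obtain ⟨-, t, ht, hteq⟩ := Finset.mem_filter.1 hρ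
    have e1 : mm ρ = m := by
      have h6 : (mm ρ : ℂ) = m := by
        rw [← hmm ρ, ← hm, ← hteq]
        exact dmx_ip (hNH t ht) (hcl t)
      exact_mod_cast h6
    have e2 : deg ρ.1 = deg φ := by
      rw [← hteq]
      unfold deg cnj
      simp
    rw [e1, e2]
  have h4 : (Finset.univ.filter P).card = (Subgroup.normalizer (Q : Set K) ⊓ stab φ).relIndex
      (Subgroup.normalizer (Q : Set K)) := by
    rw [← dmx_orbit (Subgroup.normalizer (Q : Set K)) φ
      ((Finset.univ.filter P).map (Function.Embedding.subtype _)), Finset.card_map]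
    intro f
    rw [Finset.mem_map]
    constructor
    · rintro ⟨ρ, hρ, rfl⟩
      exact (Finset.mem_filter.1 hρ).2
    · rintro ⟨t, ht, rfl⟩
      exact ⟨⟨cnj t φ, dmx_irr (hNH t ht) hφ⟩, Finset.mem_filter.2 ⟨Finset.mem_univ _, t, ht, rfl⟩,
        rfl⟩
  nth_rewrite 1 [hexpN]
  push_cast
  rw [h2, Finset.sum_congr rfl h3, Finset.sum_const, nsmul_eq_mul, h4]
  ring

end Pool.Agent.Helper42.IR
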