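import Pool.Agent.Helper42.INC.Red3

/-!
# Project IR (MP_5ecade_al): common definitions

Characters of a subgroup `H` of `G` are functions on `G` vanishing off `H`; `G` acts on functions by
conjugation.
-/

namespace Pool.Agent.Helper42.IR

open Pool.Agent.Helper42.INC

section basic

variable {G : Type} [Group G]

/-- conjugate of a function: `(cnj g f) x = f (g⁻¹ x g)` -/
def cnj (g : G) (f : G → ℂ) : G → ℂ := fun x => f (g⁻¹ * x * g)

lemma cnj_apply (g : G) (f : G → ℂ) (x : G) : cnj g f x = f (g⁻¹ * x * g) := rfl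

@[simp] lemma cnj_one (f : G → ℂ) : cnj 1 f = f := by
  funext x; simp [cnj]

lemma cnj_cnj (g h : G) (f : G → ℂ) : cnj g (cnj h f) = cnj (g * h) f := by
  funext x
  simp only [cnj, mul_inv_rev]
  congr 1
  group

lemma cnj_inv_cnj (g : G) (f : G → ℂ) : cnj g⁻¹ (cnj g f) = f := by
  rw [cnj_cnj, inv_mul_cancel, cnj_one]

/-- the stabilizer of a function -/
def stab (f : G → ℂ) : Subgroup G where
  carrier := {g | cnj g f = f}
  one_mem' := cnj_one f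
  mul_mem' := by
    intro a b ha hb
    change cnj (a * b) f = f
    rw [← cnj_cnj, hb, ha]
  inv_mem' := by
    intro a ha
    change cnj a⁻¹ f = f
    have h : cnj a f = f := ha
    nth_rewrite 1 [← h]
    exact cnj_inv_cnj a f

lemma mem_stab {f : G → ℂ} {g : G} : g ∈ stab f ↔ cnj g f = f := Iff.rfl

/-- irreducible characters of the subgroup `H`, as functions on `G` vanishing off `H` -/
def IrrS (H : Subgroup G) : Set (G → ℂ) :=
  {f | (fun h : H => f h) ∈ Irr H ∧ ∀ x, x ∉ H → f x = 0}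

/-- characters (of finite dimensional complex representations) of the subgroup `H`, as functions
on `G` vanishing off `H` -/
def CharS (H : Subgroup G) : Set (G → ℂ) :=
  {f | (∃ (V : Type) (_ : AddCommGroup V) (_ : Module ℂ V) (_ : FiniteDimensional ℂ V)
    (ρ : Representation ℂ H V), (fun h : H => f h) = ρ.character) ∧ ∀ x, x ∉ H → f x = 0}

/-- irreducible characters of `H` of degree prime to `p` -/
def IrrSP (p : ℕ) (H : Subgroup G) : Set (G → ℂ) := {f | f ∈ IrrS H ∧ ¬ p ∣ deg f}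

/-- the scalar product of two functions on the subgroup `H` -/
noncomputable def ip (H : Subgroup G) (f g : G → ℂ) : ℂ :=
  B (fun h : H => f h) (fun h : H => g h)

/-- the trivial character of `H` -/
noncomputable def oneS (H : Subgroup G) : G → ℂ := by
  classical
  exact fun x => if x ∈ H then 1 else 0

/-- the fibre product of `K N_θ` and `N_θ` over `N_θ K / K` -/
def Dlt (K N : Subgroup G) [K.Normal] (θ : G → ℂ) : Subgroup (G × G) where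
  carrier := {x | x.2 ∈ N ∧ x.1 * x.2⁻¹ ∈ K ∧ cnj x.2 θ = θ}
  one_mem' := by
    refine ⟨N.one_mem, ?_, cnj_one θ⟩
    simp
  mul_mem' := by
    rintro ⟨a, b⟩ ⟨c, d⟩ ⟨h1, h2, h3⟩ ⟨h4, h5, h6⟩
    refine ⟨N.mul_mem h1 h4, ?_, ?_⟩
    · change a * c * (b * d)⁻¹ ∈ K
      have e : a * c * (b * d)⁻¹ = (a * (c * d⁻¹) * a⁻¹) * (a * b⁻¹) := by group
      rw [e]
      exact K.mul_mem (Subgroup.Normal.conj_mem inferInstance _ h5 _) h2
    · change cnj (b * d) θ = θ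
      have h3' : cnj b θ = θ := h3
      have h6' : cnj d θ = θ := h6
      rw [← cnj_cnj, h6', h3']
  inv_mem' := by
    rintro ⟨a, b⟩ ⟨h1, h2, h3⟩
    refine ⟨N.inv_mem h1, ?_, ?_⟩
    · change a⁻¹ * b⁻¹⁻¹ ∈ K
      have e : a⁻¹ * b⁻¹⁻¹ = a⁻¹ * (a * b⁻¹)⁻¹ * a⁻¹⁻¹ := by group
      rw [e]
      exact Subgroup.Normal.conj_mem inferInstance _ (K.inv_mem h2) _
    · have h3' : cnj b θ = θ := h3
      change cnj b⁻¹ θ = θ
      nth_rewrite 1 [← h3']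
      exact cnj_inv_cnj b θ

lemma mem_Dlt {K N : Subgroup G} [K.Normal] {θ : G → ℂ} {x : G × G} :
    x ∈ Dlt K N θ ↔ x.2 ∈ N ∧ x.1 * x.2⁻¹ ∈ K ∧ cnj x.2 θ = θ := Iff.rfl

/-- weakly matched: equal stabilizers in `N`, and `θ × φ̄` extends to the fibre product -/
structure MatchedW (K N : Subgroup G) [K.Normal] (θ φ : G → ℂ) : Prop where
  stab : ∀ n ∈ N, cnj n θ = θ ↔ cnj n φ = φ
  ext : ∃ κ ∈ CharS (Dlt K N θ), ∀ k ∈ K, ∀ m ∈ K ⊓ N, κ (k, m) = θ k * φ m⁻¹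

/-- matched: the extension is moreover trivial on the diagonal of the centralizer of `K` -/
structure Matched (K N : Subgroup G) [K.Normal] (θ φ : G → ℂ) : Prop where
  stab : ∀ n ∈ N, cnj n θ = θ ↔ cnj n φ = φ
  ext : ∃ κ ∈ CharS (Dlt K N θ), ∀ k ∈ K, ∀ m ∈ K ⊓ N,
    ∀ c ∈ Subgroup.centralizer (K : Set G) ⊓ N, κ (k * c, m * c) = θ k * φ m⁻¹

lemma Matched.weak {K N : Subgroup G} [K.Normal] {θ φ : G → ℂ} (h : Matched K N θ φ) :
    MatchedW K N θ φ := by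
  refine ⟨h.stab, ?_⟩
  obtain ⟨κ, hκ, h1⟩ := h.ext
  refine ⟨κ, hκ, fun k hk m hm => ?_⟩
  have h2 := h1 k hk m hm 1 (Subgroup.one_mem _)
  simpa using h2

/-- an equivariant bijection `F` from the set `A` of characters of `K` onto the set `S` of characters
of `K ⊓ N`, preserving degrees up to sign modulo `p`, with weakly matched pairs -/
structure Corr (p : ℕ) (K N : Subgroup G) [K.Normal] (A S : Set (G → ℂ))
    (F : (G → ℂ) → (G → ℂ)) : Prop where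
  subA : A ⊆ IrrS K
  subS : S ⊆ IrrS (K ⊓ N)
  bij : Set.BijOn F A S
  stable : ∀ n ∈ N, ∀ θ ∈ A, cnj n θ ∈ A
  equivariant : ∀ n ∈ N, ∀ θ ∈ A, F (cnj n θ) = cnj n (F θ)
  degree : ∀ θ ∈ A, (deg (F θ) : ZMod p) ^ 2 = (deg θ : ZMod p) ^ 2
  mat : ∀ θ ∈ A, MatchedW K N θ (F θ)

/-- the correspondence of a `p`-good group: all characters of degree prime to `p`, matched pairs -/
structure GCorr (p : ℕ) (K N : Subgroup G) [K.Normal] (F : (G → ℂ) → (G → ℂ)) : Prop where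
  bij : Set.BijOn F (IrrSP p K) (IrrSP p (K ⊓ N))
  equivariant : ∀ n ∈ N, ∀ θ ∈ IrrSP p K, F (cnj n θ) = cnj n (F θ)
  degree : ∀ θ ∈ IrrSP p K, (deg (F θ) : ZMod p) ^ 2 = (deg θ : ZMod p) ^ 2
  mat : ∀ θ ∈ IrrSP p K, Matched K N θ (F θ)

end basic

/-- `p`-good groups: the inductive McKay condition with degrees congruent up to sign modulo `p`
(with an intermediate subgroup `N`, which contains the normalizer of `Q` but does not contain `K`) -/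
def PGood (p : ℕ) (S : Type) [Group S] : Prop :=
  ∀ (Γ : Type) [Group Γ] [Finite Γ] (K : Subgroup Γ) [K.Normal],
    ⁅K, K⁆ = K → ¬ p ∣ Nat.card (Subgroup.center K) →
    Nonempty ((K ⧸ Subgroup.center K) ≃* S) →
    ∀ Q : Subgroup Γ, Q ≤ K → IsPGroup p Q → ¬ p ∣ Q.relIndex K →
      ∃ N : Subgroup Γ, Subgroup.normalizer (Q : Set Γ) ≤ N ∧ ¬ K ≤ N ∧ ∃ F, GCorr p K N F

/-- `S` is involved in `G`: it is isomorphic to a section of `G` -/
def Involved (S G : Type) [Group S] [Group G] : Prop :=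
  ∃ (H : Subgroup G) (L : Subgroup H) (_ : L.Normal), Nonempty ((H ⧸ L) ≃* S)

/-! ### Groups with Sylow `p`-subgroup of order `p` -/

section loc

variable {G : Type} [Group G]

/-- the local subgroup -/
def NN (K Q : Subgroup G) : Subgroup G := K ⊓ Subgroup.normalizer (Q : Set G)

/-- `K` has order divisible by `p` but not by `p²`, `Q` is a subgroup of `K` of order `p` and
`H` is the normal `p`-complement of the centralizer of `Q` in `K` -/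
structure Loc (p : ℕ) (K Q H : Subgroup G) : Prop where
  pp : ¬ p ^ 2 ∣ Nat.card K
  QK : Q ≤ K
  cQ : Nat.card Q = p
  HC : H ≤ K ⊓ Subgroup.centralizer (Q : Set G)
  pH : ¬ p ∣ Nat.card H
  sup : Q ⊔ H = K ⊓ Subgroup.centralizer (Q : Set G)

/-- the difference of the multiplicities of `lam × φ` and `1 × φ` in `χ` restricted to `Q × H` -/
noncomputable def aa (Q H : Subgroup G) (χ lam φ : G → ℂ) : ℂ :=
  ((Nat.card Q : ℂ) * (Nat.card H : ℂ))⁻¹ *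
    ∑ᶠ x : Q, ∑ᶠ h : H, χ ((x : G) * (h : G)) * (lam (x : G)⁻¹ - 1) * φ (h : G)⁻¹

/-- `χ` belongs to the block of `φ` -/
def Bl (Q H : Subgroup G) (χ φ : G → ℂ) : Prop := ∃ lam ∈ IrrS Q, aa Q H χ lam φ ≠ 0

/-- nonexceptional shape with sign `ε` -/
def NE (Q H : Subgroup G) (χ φ : G → ℂ) (ε : ℂ) : Prop :=
  ∀ lam ∈ IrrS Q, lam ≠ oneS Q → aa Q H χ lam φ = ε

/-- exceptional shape with sign `ε` and label `l0` -/
def EX (K Q H : Subgroup G) (χ φ l0 : G → ℂ) (ε : ℂ) : Prop :=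
  ∀ lam ∈ IrrS Q, lam ≠ oneS Q →
    ((∃ n ∈ NN K Q, cnj n φ = φ ∧ cnj n l0 = lam) → aa Q H χ lam φ = ε) ∧
    ((¬ ∃ n ∈ NN K Q, cnj n φ = φ ∧ cnj n l0 = lam) → aa Q H χ lam φ = 0)

open Classical in
/-- everything we need to know about the characters of `K` on `Q × H` -/
structure Pkg (p : ℕ) (K Q H : Subgroup G) : Prop where
  exb : ∀ χ ∈ IrrSP p K, ∃ φ ∈ IrrS H, Bl Q H χ φ
  unb : ∀ χ ∈ IrrSP p K, ∀ φ ∈ IrrS H, ∀ ρ ∈ IrrS H, Bl Q H χ φ → Bl Q H χ ρ →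
    ∃ n ∈ NN K Q, cnj n φ = ρ
  def0 : ∀ χ ∈ IrrS K, p ∣ deg χ → ∀ φ ∈ IrrS H, ¬ Bl Q H χ φ
  shape : ∀ χ ∈ IrrSP p K, ∀ φ ∈ IrrS H, Bl Q H χ φ → ∃ ε : ℂ, (ε = 1 ∨ ε = -1) ∧
    (NE Q H χ φ ε ∨ ∃ l0 ∈ IrrS Q, l0 ≠ oneS Q ∧ EX K Q H χ φ l0 ε)
  norm : ∀ φ ∈ IrrS H, ∀ lam ∈ IrrS Q, ∀ lam' ∈ IrrS Q, lam ≠ oneS Q → lam' ≠ oneS Q →
    ∑ᶠ χ : IrrS K, aa Q H χ.1 lam φ * aa Q H χ.1 lam' φ =
      ((Q ⊔ H).relIndex (NN K Q ⊓ stab φ) : ℂ) +
        (if ∃ n ∈ NN K Q, cnj n φ = φ ∧ cnj n lam = lam' then 1 else 0)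
  regular : ∀ φ ∈ IrrS H, ∀ lam ∈ IrrS Q, ∑ᶠ χ : IrrS K, aa Q H χ.1 lam φ * χ.1 1 = 0
  degNE : ∀ χ ∈ IrrSP p K, ∀ φ ∈ IrrS H, ∀ ε : ℂ, (ε = 1 ∨ ε = -1) → NE Q H χ φ ε →
    (deg χ : ZMod p) ^ 2 = (((NN K Q ⊓ stab φ).relIndex (NN K Q) * deg φ : ℕ) : ZMod p) ^ 2
  degEX : ∀ χ ∈ IrrSP p K, ∀ φ ∈ IrrS H, ∀ l0 ∈ IrrS Q, l0 ≠ oneS Q → ∀ ε : ℂ,
    (ε = 1 ∨ ε = -1) → EX K Q H χ φ l0 ε →
    (deg χ : ZMod p) ^ 2 = (((Q ⊔ H).relIndex (NN K Q) * deg φ : ℕ) : ZMod p) ^ 2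

end loc

end Pool.Agent.Helper42.IR
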