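import Pool.Agent.Helper42.IR.PkgTop

/-!
# IR-41 (project IR, section 3): the package for a subgroup

`G` finite, `K` a subgroup, `Loc p K Q H`. Put `Q' = Q.subgroupOf K`, `H' = H.subgroupOf K` (subgroups of
the group `↥K`); then `Loc p ⊤ Q' H'` (`loc_sub`): `Q'` and `H'` have the same orders and
`⊤ ⊓ centralizer Q' = (K ⊓ centralizer Q).subgroupOf K`.
For a subgroup `L ≤ K` the restriction map `rs f = fun k : K => f k` is a bijection from `IrrS L` (functions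
on `G` vanishing off `L`) onto `IrrS (L.subgroupOf K)` (functions on `↥K`), compatible with `deg`, `cnj k`
(`k ∈ K`) and `oneS`, and `aa Q H χ lam φ = aa Q' H' (rs χ) (rs lam) (rs φ)`. All fields of `Pkg` are
transported from `pkg_top`: `NN ⊤ Q' = (NN K Q).subgroupOf K`, relative indices agree.
(Split the proof in lemmas as you like.)
-/

namespace Pool.Agent.Helper42.IR

open Pool.Agent.Helper42.INC

set_option linter.unusedSectionVars false

variable {p : ℕ} [Fact p.Prime] {G : Type} [Group G] [Finite G] {K Q H : Subgroup G}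

private lemma card_subOf {L : Subgroup G} (hL : L ≤ K) :
    Nat.card (L.subgroupOf K) = Nat.card L :=
  Nat.card_congr (Subgroup.subgroupOfEquivOfLe hL).toEquiv

private lemma cent_sub (hQ : Q ≤ K) :
    (K ⊓ Subgroup.centralizer (Q : Set G)).subgroupOf K =
      (⊤ : Subgroup K) ⊓ Subgroup.centralizer ((Q.subgroupOf K : Subgroup K) : Set K) := by
  ext x
  simp only [Subgroup.mem_subgroupOf, Subgroup.mem_inf, Subgroup.mem_top, true_and,
    Subgroup.mem_centralizer_iff, SetLike.mem_coe]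
  constructor
  · rintro ⟨_, h⟩ y hy
    have := h (y : G) hy
    exact Subtype.ext this
  · intro h
    refine ⟨x.2, fun y hy => ?_⟩
    have := h ⟨y, hQ hy⟩ hy
    exact congrArg Subtype.val this

theorem loc_sub (hL : Loc p K Q H) :
    Loc p (⊤ : Subgroup K) (Q.subgroupOf K) (H.subgroupOf K) := by
  have hH : H ≤ K := hL.HC.trans inf_le_left
  refine ⟨?_, le_top, ?_, ?_, ?_, ?_⟩
  · have h : Nat.card (⊤ : Subgroup K) = Nat.card K := Nat.card_congr Subgroup.topEquiv.toEquiv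
    rw [h]
    exact hL.pp
  · rw [card_subOf hL.QK]
    exact hL.cQ
  · rw [← cent_sub hL.QK]
    intro x hx
    exact hL.HC hx
  · rw [card_subOf hH]
    exact hL.pH
  · rw [← cent_sub hL.QK, ← hL.sup, Subgroup.subgroupOf_sup hL.QK hH]

theorem irrS_sub {L : Subgroup G} (hL : L ≤ K) {f : G → ℂ} (hf : ∀ x, x ∉ L → f x = 0) :
    f ∈ IrrS L ↔ (fun k : K => f k) ∈ IrrS (L.subgroupOf K) := by
  constructor
  · rintro ⟨h1, _⟩
    refine ⟨?_, fun x hx => hf x hx⟩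
    exact irr_comp (Subgroup.subgroupOfEquivOfLe hL) h1
  · rintro ⟨h1, _⟩
    refine ⟨?_, hf⟩
    exact irr_comp (Subgroup.subgroupOfEquivOfLe hL).symm h1

/-- restriction of functions -/
private def rs (K : Subgroup G) (f : G → ℂ) : K → ℂ := fun k => f k

open Classical in
/-- extension by zero -/
private noncomputable def ex (K : Subgroup G) (u : K → ℂ) : G → ℂ :=
  fun x => if h : x ∈ K then u ⟨x, h⟩ else 0

private lemma rs_ex (u : K → ℂ) : rs K (ex K u) = u := by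
  funext k
  unfold rs ex
  rw [dif_pos k.2]

private lemma rs_mem {L : Subgroup G} (hL : L ≤ K) {f : G → ℂ} (hf : f ∈ IrrS L) :
    rs K f ∈ IrrS (L.subgroupOf K) := (irrS_sub hL hf.2).1 hf

private lemma ex_mem {L : Subgroup G} (hL : L ≤ K) {u : K → ℂ}
    (hu : u ∈ IrrS (L.subgroupOf K)) : ex K u ∈ IrrS L := by
  refine (irrS_sub hL ?_).2 ?_
  · intro x hx
    unfold ex
    split_ifs with h
    · exact hu.2 ⟨x, h⟩ hx
    · rfl
  · have : (fun k : K => ex K u k) = u := rs_ex u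
    rw [this]
    exact hu

private lemma van {L : Subgroup G} (hL : L ≤ K) {f : G → ℂ} (hf : f ∈ IrrS L) :
    ∀ x, x ∉ K → f x = 0 := fun x hx => hf.2 x (fun h => hx (hL h))

private lemma rs_inj {f g : G → ℂ} (hf : ∀ x, x ∉ K → f x = 0) (hg : ∀ x, x ∉ K → g x = 0) :
    rs K f = rs K g ↔ f = g := by
  constructor
  · intro h
    funext x
    by_cases hx : x ∈ K
    · exact congrFun h ⟨x, hx⟩
    · rw [hf x hx, hg x hx]
  · rintro rfl
    rfl

private lemma ex_rs {L : Subgroup G} (hL : L ≤ K) {f : G → ℂ} (hf : f ∈ IrrS L) :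
    ex K (rs K f) = f := by
  rw [← rs_inj (K := K) _ (van hL hf), rs_ex]
  intro x hx
  unfold ex
  rw [dif_neg hx]

private lemma rs_one (hQ : Q ≤ K) : rs K (oneS Q) = oneS (Q.subgroupOf K) := by
  funext k
  unfold rs oneS
  by_cases h : (k : G) ∈ Q
  · have h2 : k ∈ Q.subgroupOf K := h
    simp only [if_pos h, if_pos h2]
  · have h2 : ¬ k ∈ Q.subgroupOf K := h
    simp only [if_neg h, if_neg h2]

private lemma oneS_van (hQ : Q ≤ K) : ∀ x, x ∉ K → oneS Q x = 0 := by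
  intro x hx
  unfold oneS
  rw [if_neg (fun h => hx (hQ h))]

private lemma deg_rs (f : G → ℂ) : deg (rs K f) = deg f := rfl

private lemma rs_memP {f : G → ℂ} (hf : f ∈ IrrSP p K) :
    rs K f ∈ IrrSP p (⊤ : Subgroup K) := by
  refine ⟨?_, hf.2⟩
  have := rs_mem le_rfl hf.1
  rwa [Subgroup.subgroupOf_self] at this

private lemma cnj_van {f : G → ℂ} (hf : ∀ x, x ∉ K → f x = 0) (k : K) :
    ∀ x, x ∉ K → cnj (k : G) f x = 0 := by
  intro x hx
  apply hf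
  intro h
  apply hx
  have h2 : x = (k : G) * ((k : G)⁻¹ * x * k) * (k : G)⁻¹ := by group
  rw [h2]
  exact K.mul_mem (K.mul_mem k.2 h) (K.inv_mem k.2)

private lemma cnj_eq_iff {f g : G → ℂ} (hf : ∀ x, x ∉ K → f x = 0)
    (hg : ∀ x, x ∉ K → g x = 0) (k : K) :
    cnj (k : G) f = g ↔ cnj k (rs K f) = rs K g := by
  rw [← rs_inj (cnj_van hf k) hg]
  rfl

private lemma mem_nrm (hQ : Q ≤ K) (k : K) : (k : G) ∈ Subgroup.normalizer (Q : Set G) ↔
    k ∈ Subgroup.normalizer ((Q.subgroupOf K : Subgroup K) : Set K) := by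
  rw [Subgroup.mem_normalizer_iff, Subgroup.mem_normalizer_iff]
  constructor
  · intro h x
    exact h (x : G)
  · intro h x
    by_cases hx : x ∈ K
    · exact h ⟨x, hx⟩
    · constructor
      · intro h1
        exact absurd (hQ h1) hx
      · intro h1
        exfalso
        apply hx
        have h2 : x = (k : G)⁻¹ * ((k : G) * x * (k : G)⁻¹) * k := by group
        rw [h2]
        exact K.mul_mem (K.mul_mem (K.inv_mem k.2) (hQ h1)) k.2

private lemma mem_NN (hQ : Q ≤ K) (k : K) :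
    (k : G) ∈ NN K Q ↔ k ∈ NN (⊤ : Subgroup K) (Q.subgroupOf K) := by
  unfold NN
  rw [Subgroup.mem_inf, Subgroup.mem_inf, ← mem_nrm hQ k]
  simp

private lemma NN_sub (hQ : Q ≤ K) :
    NN (⊤ : Subgroup K) (Q.subgroupOf K) = (NN K Q).subgroupOf K := by
  ext k
  rw [Subgroup.mem_subgroupOf]
  exact (mem_NN hQ k).symm

private lemma NNstab_sub (hQ : Q ≤ K) {f : G → ℂ} (hf : ∀ x, x ∉ K → f x = 0) :
    NN (⊤ : Subgroup K) (Q.subgroupOf K) ⊓ stab (rs K f) = (NN K Q ⊓ stab f).subgroupOf K := by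
  ext k
  rw [Subgroup.mem_subgroupOf, Subgroup.mem_inf, Subgroup.mem_inf, ← mem_NN hQ k, mem_stab,
    mem_stab, cnj_eq_iff hf hf k]

private lemma ex_NN (hQ : Q ≤ K) {P : G → Prop} {P' : K → Prop}
    (hP : ∀ k : K, P k ↔ P' k) :
    (∃ n ∈ NN K Q, P n) ↔ ∃ n ∈ NN (⊤ : Subgroup K) (Q.subgroupOf K), P' n := by
  constructor
  · rintro ⟨n, hn, h⟩
    have hnK : n ∈ K := hn.1
    exact ⟨⟨n, hnK⟩, (mem_NN hQ ⟨n, hnK⟩).1 hn, (hP ⟨n, hnK⟩).1 h⟩
  · rintro ⟨n, hn, h⟩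
    exact ⟨n, (mem_NN hQ n).2 hn, (hP n).2 h⟩

private lemma all_irr {L : Subgroup G} (hL : L ≤ K) {P : (G → ℂ) → Prop} {P' : (K → ℂ) → Prop}
    (hP : ∀ f ∈ IrrS L, P f ↔ P' (rs K f)) :
    (∀ f ∈ IrrS L, P f) ↔ ∀ u ∈ IrrS (L.subgroupOf K), P' u := by
  constructor
  · intro h u hu
    have h1 := (hP _ (ex_mem hL hu)).1 (h _ (ex_mem hL hu))
    rwa [rs_ex] at h1
  · intro h f hf
    exact (hP f hf).2 (h _ (rs_mem hL hf))

private lemma ex_irr {L : Subgroup G} (hL : L ≤ K) {P : (G → ℂ) → Prop} {P' : (K → ℂ) → Prop}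
    (hP : ∀ f ∈ IrrS L, P f ↔ P' (rs K f)) :
    (∃ f ∈ IrrS L, P f) ↔ ∃ u ∈ IrrS (L.subgroupOf K), P' u := by
  constructor
  · rintro ⟨f, hf, h⟩
    exact ⟨_, rs_mem hL hf, (hP f hf).1 h⟩
  · rintro ⟨u, hu, h⟩
    refine ⟨_, ex_mem hL hu, (hP _ (ex_mem hL hu)).2 ?_⟩
    rwa [rs_ex]

private lemma aa_rs (hQ : Q ≤ K) (hH : H ≤ K) (χ lam φ : G → ℂ) :
    aa Q H χ lam φ = aa (Q.subgroupOf K) (H.subgroupOf K) (rs K χ) (rs K lam) (rs K φ) := by
  unfold aa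
  rw [card_subOf hQ, card_subOf hH]
  congr 1
  refine finsum_eq_of_bijective (Subgroup.subgroupOfEquivOfLe hQ).symm
    (Subgroup.subgroupOfEquivOfLe hQ).symm.bijective fun x => ?_
  refine finsum_eq_of_bijective (Subgroup.subgroupOfEquivOfLe hH).symm
    (Subgroup.subgroupOfEquivOfLe hH).symm.bijective fun h => ?_
  rfl

private lemma Bl_rs (hQ : Q ≤ K) (hH : H ≤ K) (χ φ : G → ℂ) :
    Bl Q H χ φ ↔ Bl (Q.subgroupOf K) (H.subgroupOf K) (rs K χ) (rs K φ) := by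
  unfold Bl
  refine ex_irr hQ fun lam _ => ?_
  rw [aa_rs hQ hH]

private lemma ne_one_iff (hQ : Q ≤ K) {lam : G → ℂ} (h : lam ∈ IrrS Q) :
    lam ≠ oneS Q ↔ rs K lam ≠ oneS (Q.subgroupOf K) := by
  rw [← rs_one hQ, not_iff_not, rs_inj (van hQ h) (oneS_van hQ)]

private lemma NE_rs (hQ : Q ≤ K) (hH : H ≤ K) (χ φ : G → ℂ) (ε : ℂ) :
    NE Q H χ φ ε ↔ NE (Q.subgroupOf K) (H.subgroupOf K) (rs K χ) (rs K φ) ε := by
  unfold NE
  refine all_irr hQ fun lam hlam => ?_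
  rw [aa_rs hQ hH, ne_one_iff hQ hlam]

private lemma EX_rs (hQ : Q ≤ K) (hH : H ≤ K) (χ : G → ℂ) {φ l0 : G → ℂ} (hφ : φ ∈ IrrS H)
    (hl0 : l0 ∈ IrrS Q) (ε : ℂ) :
    EX K Q H χ φ l0 ε ↔ EX (⊤ : Subgroup K) (Q.subgroupOf K) (H.subgroupOf K)
      (rs K χ) (rs K φ) (rs K l0) ε := by
  unfold EX
  refine all_irr hQ fun lam hlam => ?_
  have h1 : (∃ n ∈ NN K Q, cnj n φ = φ ∧ cnj n l0 = lam) ↔
      ∃ n ∈ NN (⊤ : Subgroup K) (Q.subgroupOf K), cnj n (rs K φ) = rs K φ ∧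
        cnj n (rs K l0) = rs K lam := by
    refine ex_NN hQ fun k => ?_
    rw [cnj_eq_iff (van hH hφ) (van hH hφ) k, cnj_eq_iff (van hQ hl0) (van hQ hlam) k]
  rw [aa_rs hQ hH, ne_one_iff hQ hlam, h1]

/-- the bijection of the sets of irreducible characters -/
private noncomputable def irrE (K : Subgroup G) : IrrS K ≃ IrrS (⊤ : Subgroup K) where
  toFun χ := ⟨rs K χ.1, by
    have := rs_mem le_rfl χ.2
    rwa [Subgroup.subgroupOf_self] at this⟩
  invFun u := ⟨ex K u.1, ex_mem le_rfl (by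
    rw [Subgroup.subgroupOf_self]
    exact u.2)⟩
  left_inv χ := Subtype.ext (ex_rs le_rfl χ.2)
  right_inv u := Subtype.ext (rs_ex u.1)

theorem pkg_of_loc (hL : Loc p K Q H) (hp2 : p ≠ 2) : Pkg p K Q H := by
  have hQ : Q ≤ K := hL.QK
  have hH : H ≤ K := hL.HC.trans inf_le_left
  have P := pkg_top (loc_sub hL) hp2
  have hQH : Q.subgroupOf K ⊔ H.subgroupOf K = (Q ⊔ H).subgroupOf K :=
    (Subgroup.subgroupOf_sup hQ hH).symm
  have hNK : NN K Q ≤ K := inf_le_left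
  refine ⟨?_, ?_, ?_, ?_, ?_, ?_, ?_, ?_⟩
  · intro χ hχ
    rw [ex_irr hH (P' := fun u => Bl (Q.subgroupOf K) (H.subgroupOf K) (rs K χ) u)
      (fun φ _ => Bl_rs hQ hH χ φ)]
    exact P.exb _ (rs_memP hχ)
  · intro χ hχ φ hφ ρ hρ h1 h2
    have h := P.unb _ (rs_memP hχ) _ (rs_mem hH hφ) _ (rs_mem hH hρ) ((Bl_rs hQ hH χ φ).1 h1)
      ((Bl_rs hQ hH χ ρ).1 h2)
    rw [ex_NN hQ (P' := fun n => cnj n (rs K φ) = rs K ρ)
      (fun k => cnj_eq_iff (van hH hφ) (van hH hρ) k)]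
    exact h
  · intro χ hχ hd φ hφ hb
    have h1 := rs_mem le_rfl hχ
    rw [Subgroup.subgroupOf_self] at h1
    exact P.def0 _ h1 hd _ (rs_mem hH hφ) ((Bl_rs hQ hH χ φ).1 hb)
  · intro χ hχ φ hφ hb
    obtain ⟨ε, hε, h⟩ := P.shape _ (rs_memP hχ) _ (rs_mem hH hφ) ((Bl_rs hQ hH χ φ).1 hb)
    refine ⟨ε, hε, ?_⟩
    rcases h with h | ⟨l0, hl0, hne, h⟩
    · exact Or.inl ((NE_rs hQ hH χ φ ε).2 h)
    · refine Or.inr ⟨ex K l0, ex_mem hQ hl0, ?_, ?_⟩
      · rw [ne_one_iff hQ (ex_mem hQ hl0), rs_ex]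
        exact hne
      · rw [EX_rs hQ hH χ hφ (ex_mem hQ hl0), rs_ex]
        exact h
  · intro φ hφ lam hlam lam' hlam' h1 h2
    have h := P.norm _ (rs_mem hH hφ) _ (rs_mem hQ hlam) _ (rs_mem hQ hlam')
      ((ne_one_iff hQ hlam).1 h1) ((ne_one_iff hQ hlam').1 h2)
    have hs : ∑ᶠ χ : IrrS K, aa Q H χ.1 lam φ * aa Q H χ.1 lam' φ =
        ∑ᶠ χ : IrrS (⊤ : Subgroup K),
          aa (Q.subgroupOf K) (H.subgroupOf K) χ.1 (rs K lam) (rs K φ) *
          aa (Q.subgroupOf K) (H.subgroupOf K) χ.1 (rs K lam') (rs K φ) := by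
      refine finsum_eq_of_bijective (irrE K) (irrE K).bijective fun χ => ?_
      rw [aa_rs hQ hH, aa_rs hQ hH]
      rfl
    rw [hs, h, hQH, NNstab_sub hQ (van hH hφ),
      Subgroup.relIndex_subgroupOf (inf_le_left.trans hNK)]
    congr 1
    have h3 : (∃ n ∈ NN K Q, cnj n φ = φ ∧ cnj n lam = lam') ↔
        ∃ n ∈ NN (⊤ : Subgroup K) (Q.subgroupOf K), cnj n (rs K φ) = rs K φ ∧
          cnj n (rs K lam) = rs K lam' := by
      refine ex_NN hQ fun k => ?_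
      rw [cnj_eq_iff (van hH hφ) (van hH hφ) k, cnj_eq_iff (van hQ hlam) (van hQ hlam') k]
    by_cases h4 : ∃ n ∈ NN K Q, cnj n φ = φ ∧ cnj n lam = lam'
    · rw [if_pos h4, if_pos (h3.1 h4)]
    · rw [if_neg h4, if_neg (fun h5 => h4 (h3.2 h5))]
  · intro φ hφ lam hlam
    have h := P.regular _ (rs_mem hH hφ) _ (rs_mem hQ hlam)
    rw [← h]
    refine finsum_eq_of_bijective (irrE K) (irrE K).bijective fun χ => ?_
    rw [aa_rs hQ hH]
    rfl
  · intro χ hχ φ hφ ε hε hne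
    have h := P.degNE _ (rs_memP hχ) _ (rs_mem hH hφ) ε hε ((NE_rs hQ hH χ φ ε).1 hne)
    rw [NNstab_sub hQ (van hH hφ), NN_sub hQ, Subgroup.relIndex_subgroupOf hNK, deg_rs,
      deg_rs] at h
    exact h
  · intro χ hχ φ hφ l0 hl0 hne ε hε hex
    have h := P.degEX _ (rs_memP hχ) _ (rs_mem hH hφ) _ (rs_mem hQ hl0)
      ((ne_one_iff hQ hl0).1 hne) ε hε ((EX_rs hQ hH χ hφ hl0 ε).1 hex)
    rw [hQH, NN_sub hQ, Subgroup.relIndex_subgroupOf hNK, deg_rs, deg_rs] at h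
    exact h

end Pool.Agent.Helper42.IR
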