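import Pool.Agent.Helper42.IR.ScalarR

/-!
# IR-13 (project IR): integral central idempotents of a `p'`-subgroup `H`

`R : K → M_n(OO p)` an integral representation, `H` a subgroup of `K` of order prime to `p`,
`φ ∈ IrrS H`. The matrix `(φ(1)/|H|) ∑_h φ(h⁻¹) R(h)` has entries in `OO p`: the values of `φ` are
sums of roots of unity, so algebraic integers (`integral_mem`), and `1/|H| ∈ OO p`
(`inv_nat_mem`). `Eph R H φ` is this matrix.

Proofs of the properties (all can be checked after applying the injective map `toC`, where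
`toC (Eph R H φ) = (φ(1)/|H|) ∑_h φ(h⁻¹) toC (R h)`):
* `Eph_mul_self`, `Eph_mul_ne`: the convolution formula
  `∑_{h} φ(h⁻¹) ρ((h g⁻¹)) = δ_{φ ρ} (|H|/φ(1)) φ(g⁻¹)` for irreducible characters of `H`
  (generalized orthogonality; for a representation `σ` affording `ρ` the operator
  `∑_h φ(h⁻¹) σ(h)` is `schur_zero` of `INC/Basic.lean` if `φ ≠ ρ` and the scalar `|H|/φ(1)` if
  `φ = ρ`).
* `Eph_sum`: `∑_φ φ(1) φ(h⁻¹) = |H| δ_{h,1}` (regular character; `complete`/`expand` in INC).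
* `Eph_conj`: for `t` normalizing `H`, `R t * Eph φ * R t⁻¹ = Eph (cnj t φ)` (reindex
  `h ↦ t h t⁻¹`).
* `Eph_comm`: hence commutation for `t` with `cnj t φ = φ`.
* `trace_Eph`: `trace (Eph φ) = φ(1) * ip H χ φ` with `χ = chR R`.
-/

namespace Pool.Agent.Helper42.IR

open Pool.Agent.Helper42.INC

variable {p : ℕ} [Fact p.Prime] {K : Type} [Group K] [Finite K] {n : ℕ}

private lemma char_integral {M : Type} [Group M] [Finite M] {V : Type} [AddCommGroup V]
    [Module ℂ V] [FiniteDimensional ℂ V] (ρ : Representation ℂ M V) (g : M) :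
    IsIntegral ℤ (ρ.character g) := by
  have h1 : ρ.character g = (LinearMap.charpoly (ρ g)).roots.sum :=
    Module.End.trace_eq_sum_roots_charpoly_of_splits (IsAlgClosed.splits _)
  rw [h1]
  have h2 : ∀ s : Multiset ℂ, (∀ z ∈ s, IsIntegral ℤ z) → IsIntegral ℤ s.sum := by
    intro s
    induction s using Multiset.induction_on with
    | empty => intro _; simpa using isIntegral_zero
    | cons a s ih =>
      intro hs
      rw [Multiset.sum_cons]
      exact (hs a (Multiset.mem_cons_self a s)).add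
        (ih fun z hz => hs z (Multiset.mem_cons_of_mem hz))
  apply h2
  intro z hz
  have hz1 : (LinearMap.charpoly (ρ g)).IsRoot z := Polynomial.isRoot_of_mem_roots hz
  have hz2 : Module.End.HasEigenvalue (ρ g) z :=
    (Module.End.hasEigenvalue_iff_isRoot_charpoly (ρ g) z).2 hz1
  obtain ⟨v, hv⟩ := hz2.exists_hasEigenvector
  have hv1 : ∀ k : ℕ, (ρ (g ^ k)) v = z ^ k • v := by
    intro k
    induction k with
    | zero => simp
    | succ k ih =>
      rw [pow_succ', map_mul, Module.End.mul_apply, ih, map_smul, hv.apply_eq_smul, smul_smul,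
        pow_succ]
  have hcard : 0 < Nat.card M := Nat.card_pos
  have h3 := hv1 (Nat.card M)
  rw [pow_card_eq_one', map_one, Module.End.one_apply] at h3
  have h4 : (z ^ Nat.card M - 1) • v = 0 := by
    rw [sub_smul, one_smul, ← h3, sub_self]
  have h5 : z ^ Nat.card M - 1 = 0 := (smul_eq_zero.1 h4).resolve_right hv.2
  refine ⟨Polynomial.X ^ Nat.card M - 1, ?_, ?_⟩
  · exact Polynomial.monic_X_pow_sub_C (1 : ℤ) hcard.ne'
  · simpa using h5

private lemma conv {M : Type} [Group M] [Finite M] [Fintype M] {φ ψ : M → ℂ} (hφ : φ ∈ Irr M)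
    (hψ : ψ ∈ Irr M) (g : M) :
    φ 1 * ∑ h : M, φ h⁻¹ * ψ (g⁻¹ * h) =
      (if φ = ψ then (Nat.card M : ℂ) * φ g⁻¹ else 0) := by
  classical
  obtain ⟨V, _, _, _, ρ, hρ, rfl⟩ := hφ
  obtain ⟨W, _, _, _, τ, hτ, rfl⟩ := hψ
  have hcl : ∀ h : M, τ.character (g⁻¹ * h) = LinearMap.trace ℂ W (τ h ∘ₗ τ g⁻¹) := by
    intro h
    have h1 : τ h ∘ₗ τ g⁻¹ = τ (h * g⁻¹) := (map_mul τ h g⁻¹).symm
    rw [h1]
    have h2 := char_isClass τ g⁻¹ (h * g⁻¹)
    have h3 : g⁻¹ * (h * g⁻¹) * g⁻¹⁻¹ = g⁻¹ * h := by group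
    rw [h3] at h2
    exact h2
  have hid : ∀ h : M, ρ.character h⁻¹ = LinearMap.trace ℂ V (LinearMap.id ∘ₗ ρ h⁻¹) := by
    intro h
    rw [LinearMap.id_comp]
    rfl
  by_cases hne : ρ.character = τ.character
  · rw [if_pos hne]
    have hcl' : ∀ h : M, τ.character (g⁻¹ * h) = LinearMap.trace ℂ V (ρ h ∘ₗ ρ g⁻¹) := by
      intro h
      rw [← hne]
      have h1 : ρ h ∘ₗ ρ g⁻¹ = ρ (h * g⁻¹) := (map_mul ρ h g⁻¹).symm
      rw [h1]
      have h2 := char_isClass ρ g⁻¹ (h * g⁻¹)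
      have h3 : g⁻¹ * (h * g⁻¹) * g⁻¹⁻¹ = g⁻¹ * h := by group
      rw [h3] at h2
      exact h2
    rw [Finset.sum_congr rfl (fun h _ => by rw [hid h, hcl' h]), schur_trace]
    have h4 := finrank_ne_zero_of_irr ρ
    rw [Representation.char_one, LinearMap.id_comp]
    change _ = _ * LinearMap.trace ℂ V (ρ g⁻¹)
    field_simp
  · rw [if_neg hne, Finset.sum_congr rfl (fun h _ => by rw [hid h, hcl h]),
      schur_trace_zero ρ τ hne, mul_zero]

private lemma regular' {M : Type} [Group M] [Finite M] [Fintype (Irr M)] (x : M) :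
    ∑ φ : Irr M, φ.1 1 * φ.1 x = (by classical exact if x = 1 then (Nat.card M : ℂ) else 0) := by
  classical
  have := Fintype.ofFinite M
  set δ : M → ℂ := fun x => if x = 1 then (Nat.card M : ℂ) else 0 with hδ
  have hδc : IsClass δ := by
    intro g x
    simp only [hδ, conj_eq_one_iff]
  have hB : ∀ χ ∈ Irr M, B δ χ = χ 1 := by
    intro χ _
    rw [B_eq, Finset.sum_eq_single 1]
    · simp only [hδ, if_true, inv_one]
      rw [← mul_assoc, inv_mul_cancel₀, one_mul]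
      exact_mod_cast Nat.card_pos.ne'
    · intro x _ hx; simp only [hδ, if_neg hx]; simp
    · intro h; exact absurd (Finset.mem_univ _) h
  have h := congrFun (expand δ hδc) x
  simp only [Finset.sum_apply, Pi.smul_apply, smul_eq_mul] at h
  have h2 : (∑ φ : Irr M, φ.1 1 * φ.1 x) = δ x := by
    rw [h]
    exact Finset.sum_congr rfl fun χ _ => by rw [hB χ.1 χ.2]
  rw [h2]

private lemma deg_S {H : Subgroup K} {φ : K → ℂ} (hφ : φ ∈ IrrS H) : (deg φ : ℂ) = φ 1 := by
  obtain ⟨m, _, hm⟩ := irr_one hφ.1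
  have h1 : φ 1 = m := hm
  rw [deg_eq h1, h1]

open Classical in
private noncomputable def ext0 {H : Subgroup K} (f : H → ℂ) : K → ℂ :=
  fun x => if h : x ∈ H then f ⟨x, h⟩ else 0

private lemma ext0_coe {H : Subgroup K} (f : H → ℂ) (h : H) : ext0 f (h : K) = f h := by
  unfold ext0
  rw [dif_pos h.2]

private lemma ext0_out {H : Subgroup K} (f : H → ℂ) {x : K} (hx : x ∉ H) : ext0 f x = 0 := by
  unfold ext0
  rw [dif_neg hx]

private noncomputable def eqS (H : Subgroup K) : IrrS H ≃ Irr H where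
  toFun φ := ⟨fun h : H => φ.1 h, φ.2.1⟩
  invFun f := ⟨ext0 f.1, by
    refine ⟨?_, fun x hx => ext0_out f.1 hx⟩
    have : (fun h : H => ext0 f.1 (h : K)) = f.1 := funext fun h => ext0_coe f.1 h
    rw [this]
    exact f.2⟩
  left_inv φ := by
    apply Subtype.ext
    funext x
    by_cases hx : x ∈ H
    · exact ext0_coe (fun h : H => φ.1 h) ⟨x, hx⟩
    · change ext0 (fun h : H => φ.1 h) x = φ.1 x
      rw [ext0_out _ hx, φ.2.2 x hx]
  right_inv f := by
    apply Subtype.ext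
    funext h
    exact ext0_coe f.1 h

private lemma cnj_S {H : Subgroup K} {φ : K → ℂ} (hφ : φ ∈ IrrS H) {t : K}
    (ht : t ∈ Subgroup.normalizer (H : Set K)) : cnj t φ ∈ IrrS H := by
  have h1 : ∀ x, t⁻¹ * x * t ∈ H ↔ x ∈ H := fun x => by
    have := (Subgroup.mem_normalizer_iff''.1 ht) x
    exact this.symm
  refine ⟨?_, ?_⟩
  · let e : H ≃* H :=
      { toFun := fun h => ⟨t⁻¹ * h * t, (h1 h).2 h.2⟩
        invFun := fun h => ⟨t * h * t⁻¹, (h1 _).1 (by
          have : t⁻¹ * (t * (h : K) * t⁻¹) * t = h := by group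
          rw [this]
          exact h.2)⟩
        left_inv := fun h => by
          apply Subtype.ext
          change t * (t⁻¹ * (h : K) * t) * t⁻¹ = h
          group
        right_inv := fun h => by
          apply Subtype.ext
          change t⁻¹ * (t * (h : K) * t⁻¹) * t = h
          group
        map_mul' := fun a b => by
          apply Subtype.ext
          change t⁻¹ * ((a : K) * b) * t = (t⁻¹ * a * t) * (t⁻¹ * b * t)
          group }
    exact irr_comp e hφ.1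
  · intro x hx
    exact hφ.2 _ (fun h => hx ((h1 x).1 h))

/-- values of characters lie in `OO p` -/
theorem irrS_mem_OO {H : Subgroup K} {φ : K → ℂ} (hφ : φ ∈ IrrS H) (x : K) : φ x ∈ OO p := by
  by_cases hx : x ∈ H
  · obtain ⟨V, _, _, _, ρ, hρ, h⟩ := hφ.1
    have h1 : φ x = ρ.character ⟨x, hx⟩ := congrFun h ⟨x, hx⟩
    rw [h1]
    exact integral_mem (char_integral ρ _)
  · rw [hφ.2 x hx]
    exact (OO p).zero_mem

theorem exists_Eph (R : K →* Matrix (Fin n) (Fin n) (OO p)) (H : Subgroup K)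
    (hH : ¬ p ∣ Nat.card H) {φ : K → ℂ} (hφ : φ ∈ IrrS H) :
    ∃ E : Matrix (Fin n) (Fin n) (OO p), toC E =
      ((deg φ : ℂ) * (Nat.card H : ℂ)⁻¹) • ∑ᶠ h : H, φ (h : K)⁻¹ • toC (R h) := by
  classical
  letI : Fintype H := Fintype.ofFinite H
  have hd : (deg φ : ℂ) ∈ OO p := by
    have : (deg φ : ℂ) = ((deg φ : OO p) : ℂ) := by simp
    rw [this]
    exact Subtype.mem _
  set c : OO p := ⟨_, hd⟩ * ⟨_, inv_nat_mem hH⟩ with hc
  refine ⟨c • ∑ h : H, (⟨φ (h : K)⁻¹, irrS_mem_OO hφ _⟩ : OO p) • R h, ?_⟩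
  rw [toC_smul, toC_sum, finsum_eq_sum_of_fintype]
  congr 1

open Classical in
/-- the integral central idempotent of `φ` -/
noncomputable def Eph (R : K →* Matrix (Fin n) (Fin n) (OO p)) (H : Subgroup K) (φ : K → ℂ) :
    Matrix (Fin n) (Fin n) (OO p) :=
  if h : ∃ E : Matrix (Fin n) (Fin n) (OO p), toC E =
      ((deg φ : ℂ) * (Nat.card H : ℂ)⁻¹) • ∑ᶠ h : H, φ (h : K)⁻¹ • toC (R h)
  then h.choose else 0

variable (R : K →* Matrix (Fin n) (Fin n) (OO p)) (H : Subgroup K) (hH : ¬ p ∣ Nat.card H)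
include hH

theorem toC_Eph {φ : K → ℂ} (hφ : φ ∈ IrrS H) : toC (Eph R H φ) =
    ((deg φ : ℂ) * (Nat.card H : ℂ)⁻¹) • ∑ᶠ h : H, φ (h : K)⁻¹ • toC (R h) := by
  have h := exists_Eph R H hH hφ
  unfold Eph
  rw [dif_pos h]
  exact h.choose_spec

private lemma Eph_mul_aux [Fintype H] {φ ψ : K → ℂ} (hφ : φ ∈ IrrS H) (hψ : ψ ∈ IrrS H) :
    toC (Eph R H φ * Eph R H ψ) = if (fun h : H => φ h) = (fun h : H => ψ h) then
      toC (Eph R H φ) else 0 := by
  classical
  rw [toC_mul, toC_Eph R H hH hφ, toC_Eph R H hH hψ, finsum_eq_sum_of_fintype,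
    finsum_eq_sum_of_fintype, Matrix.smul_mul, Matrix.mul_smul, smul_smul, Finset.sum_mul_sum]
  have h1 : ∑ i : H, ∑ j : H, (φ (i : K)⁻¹ • toC (R i)) * (ψ (j : K)⁻¹ • toC (R j)) =
      ∑ g : H, (∑ h : H, φ ((h⁻¹ : H) : K) * ψ (((g⁻¹ * h : H)) : K)) • toC (R g) := by
    have e1 : ∀ i : H, ∑ j : H, (φ (i : K)⁻¹ • toC (R i)) * (ψ (j : K)⁻¹ • toC (R j)) =
        ∑ g : H, (φ ((i⁻¹ : H) : K) * ψ (((g⁻¹ * i : H)) : K)) • toC (R g) := by
      intro i
      refine Fintype.sum_equiv (Equiv.mulLeft i) _ _ ?_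
      intro j
      have e2 : ((Equiv.mulLeft i j : H) : K) = i * j := rfl
      have e3 : (((Equiv.mulLeft i j : H)⁻¹ * i : H) : K) = (j : K)⁻¹ := by
        change ((i : K) * j)⁻¹ * i = (j : K)⁻¹
        group
      rw [e3, e2, map_mul, toC_mul, Matrix.smul_mul, Matrix.mul_smul, smul_smul]
      rfl
    rw [Finset.sum_congr rfl fun i _ => e1 i, Finset.sum_comm]
    exact Finset.sum_congr rfl fun g _ => by rw [Finset.sum_smul]
  rw [h1]
  have hcard : (Nat.card H : ℂ) ≠ 0 := by exact_mod_cast Nat.card_pos.ne'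
  have hd1 : (deg φ : ℂ) = φ 1 := deg_S hφ
  have hd2 : (deg ψ : ℂ) = ψ 1 := deg_S hψ
  have h2 : ∀ g : H, (deg φ : ℂ) * ∑ h : H, φ ((h⁻¹ : H) : K) * ψ (((g⁻¹ * h : H)) : K) =
      (if (fun h : H => φ h) = (fun h : H => ψ h) then (Nat.card H : ℂ) * φ ((g⁻¹ : H) : K)
        else 0) := by
    intro g
    rw [hd1]
    exact conv hφ.1 hψ.1 g
  have h3 : ((deg φ : ℂ) * (Nat.card H : ℂ)⁻¹ * ((deg ψ : ℂ) * (Nat.card H : ℂ)⁻¹)) •
      ∑ g : H, (∑ h : H, φ ((h⁻¹ : H) : K) * ψ (((g⁻¹ * h : H)) : K)) • toC (R g) =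
      ((deg ψ : ℂ) * (Nat.card H : ℂ)⁻¹ * (Nat.card H : ℂ)⁻¹) •
      ∑ g : H, ((deg φ : ℂ) * ∑ h : H, φ ((h⁻¹ : H) : K) * ψ (((g⁻¹ * h : H)) : K)) •
        toC (R g) := by
    rw [Finset.smul_sum, Finset.smul_sum]
    refine Finset.sum_congr rfl fun g _ => ?_
    rw [smul_smul, smul_smul]
    congr 1
    ring
  rw [h3, Finset.sum_congr rfl fun g _ => by rw [h2 g]]
  by_cases hne : (fun h : H => φ h) = (fun h : H => ψ h)
  · simp only [if_pos hne]
    have h4 : (deg ψ : ℂ) = deg φ := by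
      rw [hd1, hd2]
      exact (congrFun hne 1).symm
    rw [h4, Finset.smul_sum, Finset.smul_sum]
    refine Finset.sum_congr rfl fun g _ => ?_
    rw [smul_smul, smul_smul]
    congr 1
    have : φ ((g⁻¹ : H) : K) = φ (g : K)⁻¹ := rfl
    rw [this]
    field_simp
  · simp only [if_neg hne, zero_smul, Finset.sum_const_zero, smul_zero]

theorem Eph_mul_self {φ : K → ℂ} (hφ : φ ∈ IrrS H) :
    Eph R H φ * Eph R H φ = Eph R H φ := by
  classical
  letI : Fintype H := Fintype.ofFinite H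
  apply toC_inj
  rw [Eph_mul_aux R H hH hφ hφ, if_pos rfl]

theorem Eph_mul_ne {φ ψ : K → ℂ} (hφ : φ ∈ IrrS H) (hψ : ψ ∈ IrrS H) (hne : φ ≠ ψ) :
    Eph R H φ * Eph R H ψ = 0 := by
  classical
  letI : Fintype H := Fintype.ofFinite H
  apply toC_inj
  have h0 : toC (0 : Matrix (Fin n) (Fin n) (OO p)) = 0 := by
    have := toC_sub (0 : Matrix (Fin n) (Fin n) (OO p)) 0
    simpa using this
  rw [Eph_mul_aux R H hH hφ hψ, if_neg, h0]
  intro h
  apply hne
  funext x
  by_cases hx : x ∈ H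
  · exact congrFun h ⟨x, hx⟩
  · rw [hφ.2 x hx, hψ.2 x hx]

theorem Eph_sum : ∑ᶠ φ : IrrS H, Eph R H φ.1 = 1 := by
  classical
  letI : Fintype H := Fintype.ofFinite H
  letI : Fintype (Irr H) := Fintype.ofFinite (Irr H)
  letI : Fintype (IrrS H) := Fintype.ofEquiv _ (eqS H).symm
  rw [finsum_eq_sum_of_fintype]
  apply toC_inj
  rw [toC_sum, toC_one, Finset.sum_congr rfl fun φ _ => by
    rw [toC_Eph R H hH φ.2, finsum_eq_sum_of_fintype, Finset.smul_sum]]
  rw [Finset.sum_comm]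
  have hcard : (Nat.card H : ℂ) ≠ 0 := by exact_mod_cast Nat.card_pos.ne'
  have h1 : ∀ h : H, ∑ φ : IrrS H, ((deg φ.1 : ℂ) * (Nat.card H : ℂ)⁻¹) •
      φ.1 (h : K)⁻¹ • toC (R h) = (if h = 1 then (1 : ℂ) else 0) • toC (R h) := by
    intro h
    rw [Finset.sum_congr rfl fun φ _ => smul_smul _ _ _, ← Finset.sum_smul]
    congr 1
    have h2 : ∑ φ : IrrS H, ((deg φ.1 : ℂ) * (Nat.card H : ℂ)⁻¹) * φ.1 (h : K)⁻¹ =
        (Nat.card H : ℂ)⁻¹ * ∑ φ : Irr H, φ.1 1 * φ.1 h⁻¹ := by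
      rw [Finset.mul_sum]
      refine Fintype.sum_equiv (eqS H) _ _ ?_
      intro φ
      rw [deg_S φ.2]
      change φ.1 1 * (Nat.card H : ℂ)⁻¹ * φ.1 (h : K)⁻¹ =
        (Nat.card H : ℂ)⁻¹ * (φ.1 1 * φ.1 (h : K)⁻¹)
      ring
    rw [h2, regular']
    by_cases hh : h = 1
    · rw [if_pos hh, if_pos (by rw [hh, inv_one]), inv_mul_cancel₀ hcard]
    · rw [if_neg hh, if_neg (by rwa [inv_eq_one]), mul_zero]
  rw [Finset.sum_congr rfl fun h _ => h1 h, Finset.sum_eq_single 1]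
  · rw [if_pos rfl, one_smul, OneMemClass.coe_one, map_one, toC_one]
  · intro h _ hh
    rw [if_neg hh, zero_smul]
  · intro h
    exact absurd (Finset.mem_univ _) h

theorem Eph_conj {φ : K → ℂ} (hφ : φ ∈ IrrS H) {t : K}
    (ht : t ∈ Subgroup.normalizer (H : Set K)) :
    R t * Eph R H φ * R t⁻¹ = Eph R H (cnj t φ) := by
  classical
  letI : Fintype H := Fintype.ofFinite H
  apply toC_inj
  have hS := cnj_S hφ ht
  rw [toC_mul, toC_mul, toC_Eph R H hH hφ, toC_Eph R H hH hS, finsum_eq_sum_of_fintype,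
    finsum_eq_sum_of_fintype]
  have hdeg : (deg (cnj t φ) : ℂ) = deg φ := by
    rw [deg_S hS, deg_S hφ, cnj_apply]
    congr 1
    group
  rw [hdeg, Matrix.mul_smul, Matrix.smul_mul, Finset.mul_sum, Finset.sum_mul]
  congr 1
  have h1 : ∀ x, x ∈ H ↔ t * x * t⁻¹ ∈ H := Subgroup.mem_normalizer_iff.1 ht
  let e : H ≃ H :=
    { toFun := fun h => ⟨t * h * t⁻¹, (h1 h).1 h.2⟩
      invFun := fun h => ⟨t⁻¹ * h * t, (h1 _).2 (by
        have : t * (t⁻¹ * (h : K) * t) * t⁻¹ = h := by group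
        rw [this]
        exact h.2)⟩
      left_inv := fun h => by
        apply Subtype.ext
        change t⁻¹ * (t * (h : K) * t⁻¹) * t = h
        group
      right_inv := fun h => by
        apply Subtype.ext
        change t * (t⁻¹ * (h : K) * t) * t⁻¹ = h
        group }
  refine Fintype.sum_equiv e _ _ ?_
  intro h
  have e1 : ((e h : H) : K) = t * h * t⁻¹ := rfl
  rw [e1, cnj_apply, Matrix.mul_smul, Matrix.smul_mul, ← toC_mul, ← toC_mul, ← map_mul,
    ← map_mul]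
  congr 2
  group

theorem Eph_comm {φ : K → ℂ} (hφ : φ ∈ IrrS H) {t : K}
    (ht : t ∈ Subgroup.normalizer (H : Set K)) (hs : cnj t φ = φ) :
    R t * Eph R H φ = Eph R H φ * R t := by
  have h := Eph_conj R H hH hφ ht
  rw [hs] at h
  calc R t * Eph R H φ = R t * Eph R H φ * (R t⁻¹ * R t) := by
        rw [← map_mul, inv_mul_cancel, map_one, Matrix.mul_one]
    _ = R t * Eph R H φ * R t⁻¹ * R t := by simp only [Matrix.mul_assoc]
    _ = Eph R H φ * R t := by rw [h]

theorem Eph_comm_centralizer {φ : K → ℂ} (hφ : φ ∈ IrrS H) {t : K}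
    (ht : t ∈ Subgroup.centralizer (H : Set K)) :
    R t * Eph R H φ = Eph R H φ * R t := by
  have hc : ∀ x ∈ H, x * t = t * x := fun x hx => Subgroup.mem_centralizer_iff.1 ht x hx
  have hn : t ∈ Subgroup.normalizer (H : Set K) := by
    rw [Subgroup.mem_normalizer_iff]
    intro x
    constructor
    · intro hx
      have : t * x * t⁻¹ = x := by rw [← hc x hx]; group
      rw [this]
      exact hx
    · intro hx
      have h2 := hc _ hx
      have h3 : x = t * x * t⁻¹ := by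
        have h4 : t * x = t * (t * x * t⁻¹) := by
          rw [← h2]
          group
        exact mul_left_cancel h4
      rw [h3]
      exact hx
  apply Eph_comm R H hH hφ hn
  funext x
  rw [cnj_apply]
  by_cases hx : x ∈ H
  · congr 1
    rw [mul_assoc, hc x hx]
    group
  · rw [hφ.2 x hx]
    apply hφ.2
    intro h
    apply hx
    have := (Subgroup.mem_normalizer_iff''.1 hn) x
    exact this.2 h

theorem trace_Eph {φ : K → ℂ} (hφ : φ ∈ IrrS H) :
    ((Eph R H φ).trace : ℂ) = (deg φ : ℂ) * ip H (chR R) φ := by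
  classical
  letI : Fintype H := Fintype.ofFinite H
  rw [← trace_toC, toC_Eph R H hH hφ, Matrix.trace_smul, finsum_eq_sum_of_fintype,
    Matrix.trace_sum, smul_eq_mul, mul_assoc]
  congr 1
  unfold ip
  rw [B_eq]
  congr 1
  refine Finset.sum_congr rfl fun h _ => ?_
  rw [Matrix.trace_smul, trace_toC, smul_eq_mul, mul_comm]
  rfl

end Pool.Agent.Helper42.IR
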