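import Pool.Agent.Helper42.IR.ValAlg

/-!
# IR-05 (project IR): a polynomial producing idempotents

For a monic `f` over `OO p` there is a polynomial `h` such that `f` divides `h ^ 2 - h`, the residue
of `h` takes the value `1` at `1` if `1` is a root of the residue of `f`, and takes the value `0` at
`0` if `0` is a root of the residue of `f`.

Proof: by `monic_splits` `f = ∏ (X - a)` over a multiset `s`. Let `f1` be the product over the
`a ∈ s` with residue `1` and `f0` the product over the others, `f = f0 * f1`. If the residues of `a`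
and `b` are different then `b - a` is a unit of `OO p`, so `X - a` and `X - b` are coprime in
`(OO p)[X]`; hence `f0` and `f1` are coprime (`IsCoprime.multiset_prod_left` or induction):
`g0 * f0 + g1 * f1 = 1`. Put `h = g0 * f0`. Then `h ^ 2 - h = - g0 f0 g1 f1` is divisible by `f`.
If the residue of `f` vanishes at `1`, then (as the residue of `f0` does not) the residue of `f1`
vanishes at `1` and `h(1) = 1 - g1(1) f1(1) = 1`. If the residue of `f` vanishes at `0`, then the
residue of `f0` does, as the roots of the residue of `f1` are all equal to `1`.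
-/

namespace Pool.Agent.Helper42.IR

open Pool.Agent.Helper42.INC

variable {p : ℕ} [Fact p.Prime]

private lemma coprime_prod {S : Type*} [CommRing S] (t : Multiset S) (g : S) (h : ∀ q ∈ t, IsCoprime q g) :
    IsCoprime t.prod g := by
  induction t using Multiset.induction_on with
  | empty => simpa using isCoprime_one_left
  | cons a t ih =>
    rw [Multiset.prod_cons]
    exact (h a (Multiset.mem_cons_self a t)).mul_left
      (ih fun q hq => h q (Multiset.mem_cons_of_mem hq))

private lemma eval_prod {R : Type*} [CommRing R] [IsLocalRing R] (t : Multiset R)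
    (c : IsLocalRing.ResidueField R)
    (h : (((t.map (fun a => Polynomial.X - Polynomial.C a)).prod).map (IsLocalRing.residue R)).eval c
      = 0) : ∃ a ∈ t, IsLocalRing.residue R a = c := by
  induction t using Multiset.induction_on with
  | empty => simp at h
  | cons a t ih =>
    rw [Multiset.map_cons, Multiset.prod_cons, Polynomial.map_mul, Polynomial.eval_mul] at h
    rcases mul_eq_zero.1 h with h1 | h1
    · refine ⟨a, Multiset.mem_cons_self a t, ?_⟩
      simp only [Polynomial.map_sub, Polynomial.map_X, Polynomial.map_C, Polynomial.eval_sub,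
        Polynomial.eval_X, Polynomial.eval_C] at h1
      exact (sub_eq_zero.1 h1).symm
    · obtain ⟨b, hb, hb'⟩ := ih h1
      exact ⟨b, Multiset.mem_cons_of_mem hb, hb'⟩

private lemma aux {R : Type*} [CommRing R] [IsLocalRing R] (s : Multiset R)
    (f : Polynomial R) (hs : f = (s.map (fun a => Polynomial.X - Polynomial.C a)).prod) :
    ∃ h : Polynomial R, f ∣ h ^ 2 - h ∧
      ((f.map (IsLocalRing.residue R)).eval 1 = 0 →
        (h.map (IsLocalRing.residue R)).eval 1 = 1) ∧
      ((f.map (IsLocalRing.residue R)).eval 0 = 0 →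
        (h.map (IsLocalRing.residue R)).eval 0 = 0) := by
  classical
  set s1 := s.filter (fun a => IsLocalRing.residue R a = 1) with hs1
  set s0 := s.filter (fun a => ¬ IsLocalRing.residue R a = 1) with hs0
  set f1 := (s1.map (fun a => Polynomial.X - Polynomial.C a)).prod with hf1
  set f0 := (s0.map (fun a => Polynomial.X - Polynomial.C a)).prod with hf0
  have hf : f = f1 * f0 := by
    rw [hs, hf1, hf0, ← Multiset.prod_add, ← Multiset.map_add, hs1, hs0,
      Multiset.filter_add_not]
  have hco : IsCoprime f0 f1 := by
    apply coprime_prod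
    intro q hq
    obtain ⟨a, ha, rfl⟩ := Multiset.mem_map.1 hq
    apply IsCoprime.symm
    apply coprime_prod
    intro r hr
    obtain ⟨b, hb, rfl⟩ := Multiset.mem_map.1 hr
    apply Polynomial.isCoprime_X_sub_C_of_isUnit_sub
    have hb1 : IsLocalRing.residue R b = 1 := (Multiset.mem_filter.1 hb).2
    have ha1 : ¬ IsLocalRing.residue R a = 1 := (Multiset.mem_filter.1 ha).2
    rw [← IsLocalRing.residue_ne_zero_iff_isUnit, map_sub, hb1]
    intro h0
    exact ha1 (sub_eq_zero.1 h0).symm
  obtain ⟨g0, g1, hg⟩ := hco
  refine ⟨g0 * f0, ⟨-(g0 * g1), ?_⟩, ?_, ?_⟩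
  · have h1 : g0 * f0 = 1 - g1 * f1 := by rw [← hg]; ring
    calc (g0 * f0) ^ 2 - g0 * f0 = g0 * f0 * (g0 * f0 - 1) := by ring
      _ = g0 * f0 * (- (g1 * f1)) := by
          congr 1
          rw [h1]
          ring
      _ = f * (-(g0 * g1)) := by rw [hf]; ring
  · intro h1
    rw [hf, Polynomial.map_mul, Polynomial.eval_mul] at h1
    have h2 : (f1.map (IsLocalRing.residue R)).eval 1 = 0 := by
      rcases mul_eq_zero.1 h1 with h2 | h2
      · exact h2
      · obtain ⟨a, ha, ha'⟩ := eval_prod s0 1 h2
        exact absurd ha' (Multiset.mem_filter.1 ha).2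
    have h3 : g0 * f0 = 1 - g1 * f1 := by rw [← hg]; ring
    rw [h3]
    simp only [Polynomial.map_sub, Polynomial.map_mul, Polynomial.map_one, Polynomial.eval_sub,
      Polynomial.eval_one, Polynomial.eval_mul, h2, mul_zero, sub_zero]
  · intro h1
    rw [hf, Polynomial.map_mul, Polynomial.eval_mul] at h1
    have h2 : (f0.map (IsLocalRing.residue R)).eval 0 = 0 := by
      rcases mul_eq_zero.1 h1 with h2 | h2
      · obtain ⟨a, ha, ha'⟩ := eval_prod s1 0 h2
        have := (Multiset.mem_filter.1 ha).2
        rw [ha'] at this
        exact absurd this zero_ne_one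
      · exact h2
    rw [Polynomial.map_mul, Polynomial.eval_mul, h2, mul_zero]

theorem exists_idem_poly (f : Polynomial (OO p)) (hf : f.Monic) :
    ∃ h : Polynomial (OO p), f ∣ h ^ 2 - h ∧
      ((f.map (IsLocalRing.residue (OO p))).eval 1 = 0 →
        (h.map (IsLocalRing.residue (OO p))).eval 1 = 1) ∧
      ((f.map (IsLocalRing.residue (OO p))).eval 0 = 0 →
        (h.map (IsLocalRing.residue (OO p))).eval 0 = 0) := by
  obtain ⟨s, hs⟩ := monic_splits f hf
  exact aux s f hs

end Pool.Agent.Helper42.IR
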