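import Mathlib

/-!
# IR-12 (project IR): the relative trace `Tr_Q(b) = ∑_{x ∈ Q} ρ x b ρ x⁻¹` for matrices

`trQ_comm`: it commutes with `ρ Q`. `trQ_mul`, `mul_trQ`: `Tr_Q(b) f = Tr_Q(b f)` and
`f Tr_Q(b) = Tr_Q(f b)` for `f` commuting with `ρ Q`. `trace_trQ`: `trace (Tr_Q(b)) = |Q| trace b`.
`trQ_fix`: on a vector `v` fixed by `Q`, `Tr_Q(b) v = (∑ ρ x) (b v)`.
`pow_trQ`: if `f = g - Tr_Q(b)` with `f`, `g` commuting with `ρ Q` then for each `j` there is `b'`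
with `f ^ j = g ^ j - Tr_Q(b')` (induction: `f^{j+1} = f (g^j - Tr b') = g^{j+1} - Tr(b) g^j -
f Tr(b')`); if `e` is an idempotent with `e b = b = b e`, `e` commuting with `g`, `f`, `ρ Q`, then
`b'` can be chosen with `e b' = b' = b' e` for `j ≥ 1` (not needed below).
-/

namespace Pool.Agent.Helper42.IR

variable {A : Type} [CommRing A] {K : Type} [Group K] [Finite K] {n : ℕ}

/-- the relative trace -/
noncomputable def trQ (ρ : K →* Matrix (Fin n) (Fin n) A) (Q : Subgroup K)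
    (b : Matrix (Fin n) (Fin n) A) : Matrix (Fin n) (Fin n) A :=
  ∑ᶠ x : Q, ρ (x : K) * b * ρ (x : K)⁻¹

/-- the norm element -/
noncomputable def nQ (ρ : K →* Matrix (Fin n) (Fin n) A) (Q : Subgroup K) :
    Matrix (Fin n) (Fin n) A := ∑ᶠ x : Q, ρ (x : K)

variable (ρ : K →* Matrix (Fin n) (Fin n) A) (Q : Subgroup K)

omit [Finite K] in
private lemma inv_mul_self' (x : K) : ρ (x⁻¹) * ρ x = 1 := by
  rw [← map_mul, inv_mul_cancel, map_one]

private lemma inv_comm' (f : Matrix (Fin n) (Fin n) A) (hf : ∀ y ∈ Q, ρ y * f = f * ρ y) (x : Q) :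
    ρ (x : K)⁻¹ * f = f * ρ (x : K)⁻¹ := hf _ (Q.inv_mem x.2)

private lemma trQ_eq [Fintype Q] (b : Matrix (Fin n) (Fin n) A) :
    trQ ρ Q b = ∑ x : Q, ρ (x : K) * b * ρ (x : K)⁻¹ := finsum_eq_sum_of_fintype _

lemma trQ_comm (b : Matrix (Fin n) (Fin n) A) {y : K} (hy : y ∈ Q) :
    ρ y * trQ ρ Q b = trQ ρ Q b * ρ y := by
  classical
  letI : Fintype Q := Fintype.ofFinite Q
  rw [trQ_eq, Finset.mul_sum, Finset.sum_mul]
  refine Fintype.sum_equiv (Equiv.mulLeft (⟨y, hy⟩ : Q)) _ _ ?_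
  intro x
  have h1 : ((Equiv.mulLeft (⟨y, hy⟩ : Q) x : Q) : K) = y * x := rfl
  rw [h1, mul_inv_rev, map_mul, map_mul]
  have h2 : ρ (y⁻¹) * ρ y = 1 := by rw [← map_mul, inv_mul_cancel, map_one]
  calc ρ y * (ρ (x : K) * b * ρ (x : K)⁻¹) = ρ y * ρ (x : K) * b * (ρ (x : K)⁻¹ * 1) := by
        simp only [Matrix.mul_assoc, mul_one]
    _ = ρ y * ρ (x : K) * b * (ρ (x : K)⁻¹ * (ρ (y⁻¹) * ρ y)) := by rw [h2]
    _ = ρ y * ρ (x : K) * b * (ρ (x : K)⁻¹ * ρ (y⁻¹)) * ρ y := by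
        simp only [Matrix.mul_assoc]

lemma trQ_mul (b f : Matrix (Fin n) (Fin n) A) (hf : ∀ y ∈ Q, ρ y * f = f * ρ y) :
    trQ ρ Q b * f = trQ ρ Q (b * f) := by
  classical
  letI : Fintype Q := Fintype.ofFinite Q
  rw [trQ_eq, trQ_eq, Finset.sum_mul]
  refine Finset.sum_congr rfl fun x _ => ?_
  rw [Matrix.mul_assoc, inv_comm' ρ Q f hf x]
  simp only [Matrix.mul_assoc]

lemma mul_trQ (b f : Matrix (Fin n) (Fin n) A) (hf : ∀ y ∈ Q, ρ y * f = f * ρ y) :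
    f * trQ ρ Q b = trQ ρ Q (f * b) := by
  classical
  letI : Fintype Q := Fintype.ofFinite Q
  rw [trQ_eq, trQ_eq, Finset.mul_sum]
  refine Finset.sum_congr rfl fun x _ => ?_
  rw [← Matrix.mul_assoc, ← Matrix.mul_assoc, ← hf _ x.2]
  simp only [Matrix.mul_assoc]

lemma trQ_add (b b' : Matrix (Fin n) (Fin n) A) :
    trQ ρ Q (b + b') = trQ ρ Q b + trQ ρ Q b' := by
  classical
  letI : Fintype Q := Fintype.ofFinite Q
  rw [trQ_eq, trQ_eq, trQ_eq, ← Finset.sum_add_distrib]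
  refine Finset.sum_congr rfl fun x _ => ?_
  rw [Matrix.mul_add, Matrix.add_mul]

lemma trQ_smul (c : A) (b : Matrix (Fin n) (Fin n) A) : trQ ρ Q (c • b) = c • trQ ρ Q b := by
  classical
  letI : Fintype Q := Fintype.ofFinite Q
  rw [trQ_eq, trQ_eq, Finset.smul_sum]
  refine Finset.sum_congr rfl fun x _ => ?_
  rw [Matrix.mul_smul, Matrix.smul_mul]

lemma trace_trQ (b : Matrix (Fin n) (Fin n) A) :
    (trQ ρ Q b).trace = (Nat.card Q : A) * b.trace := by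
  classical
  letI : Fintype Q := Fintype.ofFinite Q
  rw [trQ_eq, Matrix.trace_sum]
  rw [Finset.sum_congr rfl (g := fun _ => b.trace) (fun x _ => by
    rw [Matrix.trace_mul_comm, ← Matrix.mul_assoc, inv_mul_self', Matrix.one_mul])]
  rw [Finset.sum_const, Finset.card_univ, Nat.card_eq_fintype_card, nsmul_eq_mul]

lemma trQ_fix (b : Matrix (Fin n) (Fin n) A) (v : Fin n → A)
    (hv : ∀ y ∈ Q, (ρ y).mulVec v = v) :
    (trQ ρ Q b).mulVec v = (nQ ρ Q).mulVec (b.mulVec v) := by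
  classical
  letI : Fintype Q := Fintype.ofFinite Q
  rw [trQ_eq, nQ, finsum_eq_sum_of_fintype, Matrix.sum_mulVec, Matrix.sum_mulVec]
  refine Finset.sum_congr rfl fun x _ => ?_
  rw [← Matrix.mulVec_mulVec, hv _ (Q.inv_mem x.2), ← Matrix.mulVec_mulVec]

lemma pow_trQ (f g b : Matrix (Fin n) (Fin n) A) (hf : ∀ y ∈ Q, ρ y * f = f * ρ y)
    (hg : ∀ y ∈ Q, ρ y * g = g * ρ y) (hfg : f = g - trQ ρ Q b) (j : ℕ) :
    ∃ b' : Matrix (Fin n) (Fin n) A, f ^ j = g ^ j - trQ ρ Q b' := by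
  have hneg : ∀ c : Matrix (Fin n) (Fin n) A, trQ ρ Q (-c) = - trQ ρ Q c := fun c => by
    have := trQ_smul ρ Q (-1 : A) c
    simpa using this
  have h0 : trQ ρ Q (0 : Matrix (Fin n) (Fin n) A) = 0 := by
    have := trQ_smul ρ Q (0 : A) (0 : Matrix (Fin n) (Fin n) A)
    simpa using this
  have hgp : ∀ j : ℕ, ∀ y ∈ Q, ρ y * g ^ j = g ^ j * ρ y := fun j y hy =>
    (show Commute (ρ y) g from hg y hy).pow_right j
  induction j with
  | zero => exact ⟨0, by rw [h0, pow_zero, pow_zero, sub_zero]⟩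
  | succ j ih =>
    obtain ⟨b', hb'⟩ := ih
    refine ⟨b * g ^ j + f * b', ?_⟩
    rw [trQ_add, ← trQ_mul ρ Q b (g ^ j) (hgp j), ← mul_trQ ρ Q b' f hf, pow_succ' f, hb', mul_sub]
    rw [pow_succ' g]
    nth_rewrite 1 [hfg]
    rw [sub_mul]
    abel

end Pool.Agent.Helper42.IR
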