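import Pool.Agent.Helper42.IR.Eph
import Pool.Agent.Helper42.IR.Cm
import Pool.Agent.Helper42.IR.LocFacts
import Pool.Agent.Helper42.IR.TrQ
import Pool.Agent.Helper42.IR.RankIdem

/-!
# IR-16 (project IR, section 3.1): bounds for the multiplicities by ranks over the residue field

`R` integral with character `χ = chR R`, `Loc p ⊤ Q H`, `φ ∈ IrrS H`, `E = Eph R H φ`,
`lam ∈ IrrS Q`, `m` the multiplicity `cm Q H χ lam φ`, `y ∈ Q`, `y ≠ 1` (so `y` generates `Q`).

`exists_NL`: the values of `lam` are `p`-th roots of unity, so in `OO p`; let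
`NL = ∑_{x ∈ Q} lam(x⁻¹) R x`. A `p`-th root of unity `z` has residue `1`: `(z - 1) ^ p` has residue
`z ^ p - 1 = 0` (characteristic `p`). So `toK NL = toK (nQ R Q)`.

`rank_NL`: over `ℂ`, `P = (1/p) NL` is idempotent, commutes with `E` (`Q` centralizes `H`), so `P E` is
idempotent of rank equal to its trace, `(1/p)(φ(1)/|H|) ∑_{x,h} lam(x⁻¹) φ(h⁻¹) χ(x h) = φ(1) m`.
The rank of `NL E = p P E` is the same.

`rank_sub`: on the range of `E` the operator `R y` is diagonalizable, its `lam y`-eigenspace is the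
range of `P E` (`P` projects onto it: `y P = lam(y) P`, and a vector `v` with `y v = lam(y) v` has
`P v = v` because `y` generates `Q`); so the kernel of `R y - lam y` on `range E` has dimension `φ(1) m`,
and `(R y - lam y) E` has rank `rank E - φ(1) m` (rank nullity for the restriction to `range E`).

`bounds`: `rank_map_le` applied to `NL E` and to `(R y - mu) E`, `mu = lam y`, whose reductions are
those of `nQ E` and `(R y - 1) E`; and `rank (toK E) = rank (toC E)` (`rank_idem_map`).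

`aa_zero`: if `rank (toK E) ≤ rank (toK ((R y - 1) E)) + rank (toK (nQ E))` then by `bounds` all
`φ(1) m` are equal (to `rank (toK (nQ E))`), so `aa = 0` by `aa_eq`.
`aa_small`: if `rank (toK E) ≤ rank (toK ((R y - 1) E)) + rank (toK (nQ E)) + φ(1)`, all `φ(1) m` lie in
an interval of length `φ(1)`, so any two multiplicities differ by at most `1`.
-/

namespace Pool.Agent.Helper42.IR

open Pool.Agent.Helper42.INC

variable {p : ℕ} [Fact p.Prime] {K : Type} [Group K] [Finite K] {n : ℕ}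
  (R : K →* Matrix (Fin n) (Fin n) (OO p)) {Q H : Subgroup K}

/-! ### auxiliary facts -/

omit [Finite K] in
lemma mb_res_one {z : OO p} (hz : z ^ p = 1) : IsLocalRing.residue (OO p) z = 1 := by
  have h1 : (IsLocalRing.residue (OO p) z - 1) ^ p = 0 := by
    have h2 := sub_pow_char (x := IsLocalRing.residue (OO p) z) (y := (1 : kk p)) (p := p)
    rw [h2, ← map_pow, hz, map_one, one_pow, sub_self]
  exact sub_eq_zero.1 (pow_eq_zero_iff (Fact.out : p.Prime).ne_zero |>.1 h1)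

omit [Finite K] in
lemma mb_chR_mem : chR R ∈ CharS (⊤ : Subgroup K) := by
  refine ⟨⟨Fin n → ℂ, inferInstance, inferInstance, inferInstance,
    { toFun := fun g => Matrix.toLin' (toC (R g))
      map_one' := by
        rw [show ((1 : (⊤ : Subgroup K)) : K) = 1 from rfl, map_one, toC_one, Matrix.toLin'_one]
        rfl
      map_mul' := by
        intro g h
        rw [show ((g * h : (⊤ : Subgroup K)) : K) = g * h from rfl, map_mul, toC_mul,
          Matrix.toLin'_mul]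
        rfl }, ?_⟩, ?_⟩
  · funext g
    change ((R g).trace : ℂ) = LinearMap.trace ℂ (Fin n → ℂ) (Matrix.toLin' (toC (R g)))
    rw [Matrix.trace_toLin'_eq, trace_toC]
  · intro x hx
    exact absurd (Subgroup.mem_top x) hx

lemma mb_deg_pos {φ : K → ℂ} (hφ : φ ∈ IrrS H) : 0 < deg φ := by
  have h1 := deg_pos hφ.1
  exact h1

omit [Finite K] in
lemma mb_toC_map (A : Matrix (Fin n) (Fin n) (OO p)) :
    (toK A).rank ≤ (toC A).rank :=
  rank_map_le (algebraMap (OO p) ℂ) (IsLocalRing.residue (OO p)) (by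
    intro a b h
    exact Subtype.ext h) A

/-- ranks of scalar multiples -/
lemma mb_rank_smul {c : ℂ} (hc : c ≠ 0) (A : Matrix (Fin n) (Fin n) ℂ) :
    (c • A).rank = A.rank :=
  Matrix.rank_smul_of_mem_nonZeroDivisors A (mem_nonZeroDivisors_of_ne_zero hc)

omit [Finite K] in
lemma mb_S_mul (x y : K) : toC (R x) * toC (R y) = toC (R (x * y)) := by
  rw [map_mul, toC_mul]

section core

variable [Fintype Q] {lam φ : K → ℂ}

lemma mb_y_N (hQ : Nat.card Q = p) (hl : lam ∈ IrrS Q) {y : K} (hy : y ∈ Q) :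
    toC (R y) * (∑ x : Q, lam (x : K)⁻¹ • toC (R x)) =
      lam y • ∑ x : Q, lam (x : K)⁻¹ • toC (R x) := by
  obtain ⟨h1, h2, h3⟩ := deg_irrS_Q hQ hl
  rw [Finset.mul_sum, Finset.smul_sum]
  refine Fintype.sum_equiv (Equiv.mulLeft (⟨y, hy⟩ : Q)) _ _ ?_
  intro x
  have e1 : ((Equiv.mulLeft (⟨y, hy⟩ : Q) x : Q) : K) = y * x := rfl
  rw [e1, Matrix.mul_smul, mb_S_mul, smul_smul]
  congr 1
  have e3 : (y * (x : K))⁻¹ = (x : K)⁻¹ * y⁻¹ := mul_inv_rev _ _
  have e4 : lam y * lam y⁻¹ = 1 := by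
    rw [← h2 y hy _ (Q.inv_mem hy), mul_inv_cancel, h1]
  rw [e3, h2 _ (Q.inv_mem x.2) _ (Q.inv_mem hy)]
  linear_combination (-lam (x : K)⁻¹) * e4

lemma mb_N_N (hQ : Nat.card Q = p) (hl : lam ∈ IrrS Q) :
    (∑ x : Q, lam (x : K)⁻¹ • toC (R x)) * (∑ x : Q, lam (x : K)⁻¹ • toC (R x)) =
      (p : ℂ) • ∑ x : Q, lam (x : K)⁻¹ • toC (R x) := by
  obtain ⟨h1, h2, h3⟩ := deg_irrS_Q hQ hl
  rw [Finset.sum_mul]
  have e1 : ∀ x : Q, (lam (x : K)⁻¹ • toC (R x)) * (∑ x : Q, lam (x : K)⁻¹ • toC (R x)) =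
      ∑ x : Q, lam (x : K)⁻¹ • toC (R x) := by
    intro x
    rw [Matrix.smul_mul, mb_y_N R hQ hl x.2, smul_smul, ← h2 _ (Q.inv_mem x.2) _ x.2,
      inv_mul_cancel, h1, one_smul]
  rw [Finset.sum_congr rfl (fun x _ => e1 x), Finset.sum_const, Finset.card_univ,
    ← Nat.card_eq_fintype_card, hQ, ← Nat.cast_smul_eq_nsmul ℂ]

lemma mb_N_E (hL : Loc p (⊤ : Subgroup K) Q H) (hφ : φ ∈ IrrS H) :
    (∑ x : Q, lam (x : K)⁻¹ • toC (R x)) * toC (Eph R H φ) =
      toC (Eph R H φ) * ∑ x : Q, lam (x : K)⁻¹ • toC (R x) := by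
  rw [Finset.sum_mul, Finset.mul_sum]
  refine Finset.sum_congr rfl fun x _ => ?_
  rw [Matrix.smul_mul, Matrix.mul_smul, ← toC_mul, ← toC_mul, Eph_comm_centralizer R H hL.pH hφ]
  rw [Subgroup.mem_centralizer_iff]
  intro h hh
  exact (Loc.comm hL _ x.2 h hh).symm

omit [Fintype Q] in
lemma mb_y_E (hL : Loc p (⊤ : Subgroup K) Q H) (hφ : φ ∈ IrrS H) {y : K} (hy : y ∈ Q) :
    toC (R y) * toC (Eph R H φ) = toC (Eph R H φ) * toC (R y) := by
  rw [← toC_mul, ← toC_mul, Eph_comm_centralizer R H hL.pH hφ]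
  rw [Subgroup.mem_centralizer_iff]
  intro h hh
  exact (Loc.comm hL _ hy h hh).symm

lemma mb_trace_PE (hL : Loc p (⊤ : Subgroup K) Q H) (hφ : φ ∈ IrrS H) :
    (((p : ℂ)⁻¹ • ∑ x : Q, lam (x : K)⁻¹ • toC (R x)) * toC (Eph R H φ)).trace =
      (deg φ : ℂ) * cm Q H (chR R) lam φ := by
  have := Fintype.ofFinite H
  rw [Matrix.smul_mul, Matrix.trace_smul, Finset.sum_mul, Matrix.trace_sum,
    toC_Eph R H hL.pH hφ, finsum_eq_sum_of_fintype]
  unfold cm
  rw [finsum_eq_sum_of_fintype, hL.cQ, Finset.mul_sum, Finset.mul_sum, smul_eq_mul,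
    Finset.mul_sum]
  refine Finset.sum_congr rfl fun x _ => ?_
  rw [finsum_eq_sum_of_fintype, Matrix.smul_mul, Matrix.mul_smul, Finset.mul_sum,
    Matrix.trace_smul, Matrix.trace_smul, Matrix.trace_sum, smul_eq_mul, smul_eq_mul]
  have e1 : ∀ h : H, (toC (R (x : K)) * (φ (h : K)⁻¹ • toC (R (h : K)))).trace =
      chR R ((x : K) * (h : K)) * φ (h : K)⁻¹ := by
    intro h
    rw [Matrix.mul_smul, mb_S_mul, Matrix.trace_smul, trace_toC, smul_eq_mul, mul_comm]
    rfl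
  rw [Finset.sum_congr rfl (fun h _ => e1 h)]
  have e2 : ∀ h : H, chR R ((x : K) * (h : K)) * lam (x : K)⁻¹ * φ (h : K)⁻¹ =
      lam (x : K)⁻¹ * (chR R ((x : K) * (h : K)) * φ (h : K)⁻¹) := by
    intro h; ring
  rw [Finset.sum_congr rfl (fun h _ => e2 h), ← Finset.mul_sum, mul_inv]
  ring

end core

section main

variable (hL : Loc p (⊤ : Subgroup K) Q H)
include hL

theorem exists_NL {lam : K → ℂ} (hl : lam ∈ IrrS Q) :
    ∃ NL : Matrix (Fin n) (Fin n) (OO p), toC NL = ∑ᶠ x : Q, lam (x : K)⁻¹ • toC (R x) ∧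
      toK NL = toK (nQ R Q) := by
  classical
  have := Fintype.ofFinite Q
  obtain ⟨h1, h2, h3⟩ := deg_irrS_Q hL.cQ hl
  refine ⟨∑ x : Q, (⟨lam (x : K)⁻¹, irrS_mem_OO hl _⟩ : OO p) • R (x : K), ?_, ?_⟩
  · rw [toC_sum, finsum_eq_sum_of_fintype]
    refine Finset.sum_congr rfl fun x _ => ?_
    rw [toC_smul]
  · unfold nQ
    rw [toK_sum, finsum_eq_sum_of_fintype, toK_sum]
    refine Finset.sum_congr rfl fun x _ => ?_
    rw [toK_smul, mb_res_one, one_smul]
    apply Subtype.ext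
    exact h3 _ (Q.inv_mem x.2)

theorem rank_NL {lam φ : K → ℂ} (hl : lam ∈ IrrS Q) (hφ : φ ∈ IrrS H) {m : ℕ}
    (hm : cm Q H (chR R) lam φ = m) {NL : Matrix (Fin n) (Fin n) (OO p)}
    (hNL : toC NL = ∑ᶠ x : Q, lam (x : K)⁻¹ • toC (R x)) :
    (toC (NL * Eph R H φ)).rank = deg φ * m := by
  classical
  have := Fintype.ofFinite Q
  have hp0 : (p : ℂ) ≠ 0 := by exact_mod_cast (Fact.out : p.Prime).ne_zero
  rw [finsum_eq_sum_of_fintype] at hNL
  rw [toC_mul, hNL]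
  have hE : toC (Eph R H φ) * toC (Eph R H φ) = toC (Eph R H φ) := by
    rw [← toC_mul, Eph_mul_self R H hL.pH hφ]
  have hNN := mb_N_N R hL.cQ hl
  have hNE := mb_N_E R (lam := lam) hL hφ
  have htr := mb_trace_PE R (lam := lam) hL hφ
  set N := ∑ x : Q, lam (x : K)⁻¹ • toC (R x) with hN
  set E := toC (Eph R H φ) with hEdef
  have hid : (((p : ℂ)⁻¹ • N) * E) * (((p : ℂ)⁻¹ • N) * E) = ((p : ℂ)⁻¹ • N) * E := by
    simp only [Matrix.smul_mul, Matrix.mul_smul]
    congr 1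
    have h1 : N * E * (N * E) = (p : ℂ) • (N * E) := by
      calc N * E * (N * E) = N * (E * N) * E := by simp only [Matrix.mul_assoc]
        _ = N * (N * E) * E := by rw [hNE]
        _ = (N * N) * (E * E) := by simp only [Matrix.mul_assoc]
        _ = (p : ℂ) • (N * E) := by rw [hNN, hE, Matrix.smul_mul]
    rw [h1, smul_smul, inv_mul_cancel₀ hp0, one_smul]
  have h1 := trace_idem _ hid
  rw [htr, hm] at h1
  have h2 : (((p : ℂ)⁻¹ • N) * E).rank = (N * E).rank := by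
    rw [Matrix.smul_mul, mb_rank_smul (inv_ne_zero hp0)]
  rw [h2] at h1
  exact_mod_cast h1.symm

theorem rank_sub {lam φ : K → ℂ} (hl : lam ∈ IrrS Q) (hφ : φ ∈ IrrS H) {m : ℕ}
    (hm : cm Q H (chR R) lam φ = m) {y : K} (hy : y ∈ Q) (hy1 : y ≠ 1) {mu : OO p}
    (hmu : (mu : ℂ) = lam y) :
    (toC ((R y - mu • (1 : Matrix (Fin n) (Fin n) (OO p))) * Eph R H φ)).rank + deg φ * m =
      (toC (Eph R H φ)).rank := by
  classical
  have := Fintype.ofFinite Q
  have hp0 : (p : ℂ) ≠ 0 := by exact_mod_cast (Fact.out : p.Prime).ne_zero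
  obtain ⟨h1, h2, h3⟩ := deg_irrS_Q hL.cQ hl
  have hlam0 : lam y ≠ 0 := by
    intro h
    have h4 := h3 y hy
    rw [h, zero_pow (Fact.out : p.Prime).ne_zero] at h4
    exact zero_ne_one h4
  rw [toC_mul, toC_sub, toC_smul, toC_one, hmu]
  have hE : toC (Eph R H φ) * toC (Eph R H φ) = toC (Eph R H φ) := by
    rw [← toC_mul, Eph_mul_self R H hL.pH hφ]
  have hNN := mb_N_N R hL.cQ hl
  have hNE := mb_N_E R (lam := lam) hL hφ
  have htr := mb_trace_PE R (lam := lam) hL hφ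
  have hyN := mb_y_N R hL.cQ hl hy
  have hyE := mb_y_E R hL hφ hy
  -- `1 - lam(x⁻¹) R x` is a multiple of `R y - lam y`
  have hX : ∀ x : Q, ∃ X : Matrix (Fin n) (Fin n) ℂ,
      1 - lam (x : K)⁻¹ • toC (R (x : K)) = X * (toC (R y) - lam y • 1) := by
    intro x
    obtain ⟨k, hk⟩ := mem_powers_of_prime_card (p := p) hL.cQ (g := (⟨y, hy⟩ : Q)) (g' := x)
      (by intro h; exact hy1 (congrArg Subtype.val h))
    have hk' : (x : K) = y ^ k := by
      have := congrArg Subtype.val hk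
      simpa using this.symm
    have hlk : ∀ k : ℕ, lam ((y ^ k)⁻¹) = ((lam y)⁻¹) ^ k := by
      intro k
      induction k with
      | zero => simp [h1]
      | succ k ih =>
        have e1 : (y ^ (k + 1))⁻¹ = (y ^ k)⁻¹ * y⁻¹ := by
          rw [pow_succ', mul_inv_rev]
        rw [e1, h2 _ (Q.inv_mem (Q.pow_mem hy k)) _ (Q.inv_mem hy), ih, pow_succ]
        congr 1
        apply eq_inv_of_mul_eq_one_left
        rw [← h2 _ (Q.inv_mem hy) _ hy, inv_mul_cancel, h1]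
    have e2 : lam (x : K)⁻¹ • toC (R (x : K)) = ((lam y)⁻¹ • toC (R y)) ^ k := by
      have e5 : ∀ k : ℕ, toC (R y ^ k) = toC (R y) ^ k := by
        intro k
        exact map_pow ((algebraMap (OO p) ℂ).mapMatrix) (R y) k
      rw [hk', hlk, smul_pow, map_pow, e5]
    have e6 := geom_sum_mul ((lam y)⁻¹ • toC (R y)) k
    refine ⟨-((∑ i ∈ Finset.range k, ((lam y)⁻¹ • toC (R y)) ^ i) * ((lam y)⁻¹ • 1)), ?_⟩
    rw [e2]
    have e7 : (lam y)⁻¹ • toC (R y) - 1 = ((lam y)⁻¹ • (1 : Matrix (Fin n) (Fin n) ℂ)) *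
        (toC (R y) - lam y • 1) := by
      rw [Matrix.smul_mul, Matrix.one_mul, smul_sub, smul_smul, inv_mul_cancel₀ hlam0, one_smul]
    rw [e7, ← Matrix.mul_assoc] at e6
    rw [Matrix.neg_mul, e6]
    abel
  choose X hX using hX
  set N := ∑ x : Q, lam (x : K)⁻¹ • toC (R x) with hN
  set E := toC (Eph R H φ) with hEdef
  set T := toC (R y) - lam y • (1 : Matrix (Fin n) (Fin n) ℂ) with hT
  have hXT : 1 - (p : ℂ)⁻¹ • N = ((p : ℂ)⁻¹ • ∑ x : Q, X x) * T := by
    have e8 : ∑ x : Q, (1 - lam (x : K)⁻¹ • toC (R (x : K))) = (∑ x : Q, X x) * T := by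
      rw [Finset.sum_mul]
      exact Finset.sum_congr rfl fun x _ => hX x
    rw [Finset.sum_sub_distrib, Finset.sum_const, Finset.card_univ, ← Nat.card_eq_fintype_card,
      hL.cQ, ← hN, ← Nat.cast_smul_eq_nsmul ℂ] at e8
    rw [Matrix.smul_mul, ← e8, smul_sub, smul_smul, inv_mul_cancel₀ hp0, one_smul]
  have hPE : ((p : ℂ)⁻¹ • N) * E = E * ((p : ℂ)⁻¹ • N) := by
    rw [Matrix.smul_mul, Matrix.mul_smul, hNE]
  have hPP : ((p : ℂ)⁻¹ • N) * ((p : ℂ)⁻¹ • N) = (p : ℂ)⁻¹ • N := by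
    rw [Matrix.smul_mul, Matrix.mul_smul, hNN, smul_smul, smul_smul,
      show (p : ℂ)⁻¹ * (p : ℂ)⁻¹ * (p : ℂ) = (p : ℂ)⁻¹ by field_simp]
  have hTP : T * ((p : ℂ)⁻¹ • N) = 0 := by
    rw [Matrix.mul_smul, hT, Matrix.sub_mul, hyN, Matrix.smul_mul, Matrix.one_mul, sub_self,
      smul_zero]
  set P := (p : ℂ)⁻¹ • N with hP
  have hid1 : (P * E) * (P * E) = P * E := by
    calc P * E * (P * E) = P * (E * P) * E := by simp only [Matrix.mul_assoc]
      _ = P * (P * E) * E := by rw [hPE]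
      _ = (P * P) * (E * E) := by simp only [Matrix.mul_assoc]
      _ = P * E := by rw [hPP, hE]
  have hid2 : ((1 - P) * E) * ((1 - P) * E) = (1 - P) * E := by
    have e9 : E * (1 - P) = (1 - P) * E := by
      rw [Matrix.mul_sub, Matrix.sub_mul, hPE, Matrix.mul_one, Matrix.one_mul]
    have e10 : (1 - P) * (1 - P) = 1 - P := by
      rw [Matrix.sub_mul, Matrix.mul_sub P, hPP, Matrix.mul_one, Matrix.one_mul, sub_self,
        sub_zero]
    calc (1 - P) * E * ((1 - P) * E) = (1 - P) * (E * (1 - P)) * E := by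
          simp only [Matrix.mul_assoc]
      _ = (1 - P) * ((1 - P) * E) * E := by rw [e9]
      _ = ((1 - P) * (1 - P)) * (E * E) := by simp only [Matrix.mul_assoc]
      _ = (1 - P) * E := by rw [e10, hE]
  have t1 := trace_idem _ hid1
  have t2 := trace_idem _ hid2
  have t3 := trace_idem _ hE
  have t4 : (P * E).trace + ((1 - P) * E).trace = E.trace := by
    rw [← Matrix.trace_add, ← Matrix.add_mul]
    simp
  have hrk : (T * E).rank = ((1 - P) * E).rank := by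
    apply le_antisymm
    · have e11 : T * E = T * ((1 - P) * E) := by
        rw [← Matrix.mul_assoc, Matrix.mul_sub, hTP, Matrix.mul_one, sub_zero]
      rw [e11]
      exact Matrix.rank_mul_le_right _ _
    · rw [hXT, Matrix.mul_assoc]
      exact Matrix.rank_mul_le_right _ _
  have hfin : (((T * E).rank + deg φ * m : ℕ) : ℂ) = (E.rank : ℂ) := by
    rw [← t3, ← t4, t2, htr, hm, hrk]
    push_cast
    ring
  exact_mod_cast hfin

theorem bounds {lam φ : K → ℂ} (hl : lam ∈ IrrS Q) (hφ : φ ∈ IrrS H) {m : ℕ}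
    (hm : cm Q H (chR R) lam φ = m) {y : K} (hy : y ∈ Q) (hy1 : y ≠ 1) :
    (toK (nQ R Q * Eph R H φ)).rank ≤ deg φ * m ∧
      deg φ * m + (toK ((R y - 1) * Eph R H φ)).rank ≤ (toK (Eph R H φ)).rank := by
  obtain ⟨NL, hNL, hNLk⟩ := exists_NL R hL hl
  obtain ⟨h1, h2, h3⟩ := deg_irrS_Q hL.cQ hl
  have h4 := rank_NL R hL hl hφ hm hNL
  have h5 := rank_sub R hL hl hφ hm hy hy1 (mu := ⟨lam y, irrS_mem_OO hl y⟩) rfl
  constructor
  · rw [← h4]
    have h6 : toK (nQ R Q * Eph R H φ) = toK (NL * Eph R H φ) := by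
      rw [toK_mul, toK_mul, hNLk]
    rw [h6]
    exact mb_toC_map _
  · have h6 : toK ((R y - 1) * Eph R H φ) = toK ((R y - (⟨lam y, irrS_mem_OO hl y⟩ : OO p) •
        (1 : Matrix (Fin n) (Fin n) (OO p))) * Eph R H φ) := by
      rw [toK_mul, toK_mul, toK_sub, toK_sub, toK_smul, mb_res_one, one_smul]
      apply Subtype.ext
      exact h3 y hy
    have h7 := mb_toC_map ((R y - (⟨lam y, irrS_mem_OO hl y⟩ : OO p) •
        (1 : Matrix (Fin n) (Fin n) (OO p))) * Eph R H φ)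
    have h8 : (toK (Eph R H φ)).rank = (toC (Eph R H φ)).rank :=
      rank_idem_map (algebraMap (OO p) ℂ) (IsLocalRing.residue (OO p)) (by
        intro a b h
        exact Subtype.ext h) _ (Eph_mul_self R H hL.pH hφ)
    rw [h6, h8, ← h5]
    omega

theorem aa_zero {φ : K → ℂ} (hφ : φ ∈ IrrS H) {y : K} (hy : y ∈ Q) (hy1 : y ≠ 1)
    (h : (toK (Eph R H φ)).rank ≤ (toK ((R y - 1) * Eph R H φ)).rank +
      (toK (nQ R Q * Eph R H φ)).rank) {lam : K → ℂ} (hl : lam ∈ IrrS Q) :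
    aa Q H (chR R) lam φ = 0 := by
  have h0 := mb_deg_pos hφ
  have hcm : ∀ {lam : K → ℂ}, lam ∈ IrrS Q → ∃ m : ℕ, cm Q H (chR R) lam φ = m ∧
      deg φ * m = (toK (nQ R Q * Eph R H φ)).rank := by
    intro lam hl
    obtain ⟨m, hm⟩ := cm_nat hL.cQ (Loc.comm hL) (mb_chR_mem R) hl hφ
    obtain ⟨h1, h2⟩ := bounds R hL hl hφ hm hy hy1
    exact ⟨m, hm, by omega⟩
  obtain ⟨m, hm, hm'⟩ := hcm hl
  obtain ⟨m1, hm1, hm1'⟩ := hcm (oneS_mem Q)
  have h3 : m = m1 := Nat.eq_of_mul_eq_mul_left h0 (hm'.trans hm1'.symm)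
  rw [aa_eq, hm, hm1, h3, sub_self]

theorem aa_small {φ : K → ℂ} (hφ : φ ∈ IrrS H) {y : K} (hy : y ∈ Q) (hy1 : y ≠ 1)
    (h : (toK (Eph R H φ)).rank ≤ (toK ((R y - 1) * Eph R H φ)).rank +
      (toK (nQ R Q * Eph R H φ)).rank + deg φ) {lam lam' : K → ℂ} (hl : lam ∈ IrrS Q)
    (hl' : lam' ∈ IrrS Q) {m m' : ℕ} (hm : cm Q H (chR R) lam φ = m)
    (hm' : cm Q H (chR R) lam' φ = m') : m ≤ m' + 1 := by
  have h0 := mb_deg_pos hφ
  obtain ⟨h1, h2⟩ := bounds R hL hl hφ hm hy hy1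
  obtain ⟨h3, h4⟩ := bounds R hL hl' hφ hm' hy hy1
  have h5 : deg φ * m ≤ deg φ * (m' + 1) := by
    rw [Nat.mul_add, Nat.mul_one]
    omega
  exact Nat.le_of_mul_le_mul_left h5 h0

end main

end Pool.Agent.Helper42.IR
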