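import Pool.Agent.Helper42.IR.KeyLemma
import Pool.Agent.Helper42.IR.MultBds

/-!
# IR-18 (project IR, section 3.2): the key lemma over `OO p` and over the residue field

`keyO`: `key_lemma` over `OO p` with `T = N_K(Q) ∩ stab φ`, `N = N_K(Q)`, `e = Eph R H φ`. Hypotheses:
`Loc.ti` (an element of `T ≤ N` conjugate to an element of `Q`), `Loc.norm_H` (`N` normalizes `H`),
`Eph_conj`, `Eph_mul_ne` (for `k ∈ N \ T`, `cnj k φ ≠ φ`). (`key_lemma` in IR-11 has one more
hypothesis `hcen`: every `g` commuting with all `ρ k` commutes with `e`; true here, `Eph R H φ` is a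
linear combination of the `R h`.) The matrix `g` commutes with `R`, so it is
a scalar `c` (`scalarR`), `c n = trace g = |K : T| trace f`.
`keyO_top`: the same with `T = N`, `e = 1`.
`keyK`: over the residue field with the homomorphism `g ↦ toK (R g)` and `e = toK (Eph R H φ)`; there
`g` commutes with the reduction of `R`.
-/

namespace Pool.Agent.Helper42.IR

open Pool.Agent.Helper42.INC

section aux

variable {G : Type} [Group G] [Finite G]

private lemma cnj_mem_irrS {H : Subgroup G} {φ : G → ℂ} (hφ : φ ∈ IrrS H) {k : G}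
    (hk : k ∈ Subgroup.normalizer (H : Set G)) : cnj k φ ∈ IrrS H := by
  have hkm : ∀ x : G, x ∈ H ↔ k * x * k⁻¹ ∈ H := Subgroup.mem_normalizer_iff.1 hk
  have hki : ∀ x : G, x ∈ H ↔ k⁻¹ * x * k ∈ H := by
    intro x
    rw [hkm (k⁻¹ * x * k)]
    have : k * (k⁻¹ * x * k) * k⁻¹ = x := by group
    rw [this]
  refine ⟨?_, ?_⟩
  · let f : H →* H :=
      { toFun := fun h => ⟨k⁻¹ * (h : G) * k, (hki _).1 h.2⟩
        map_one' := by ext; simp
        map_mul' := by
          intro a b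
          ext
          push_cast
          group }
    have hf : Function.Surjective f := by
      intro y
      refine ⟨⟨k * (y : G) * k⁻¹, (hkm _).1 y.2⟩, ?_⟩
      ext
      change k⁻¹ * (k * (y : G) * k⁻¹) * k = y
      group
    have h1 := irr_infl f hf hφ.1
    exact h1
  · intro x hx
    rw [cnj_apply]
    exact hφ.2 _ (fun h => hx ((hki x).2 h))

private lemma Q_le_stab {p : ℕ} [Fact p.Prime] {K Q H : Subgroup G} (hL : Loc p K Q H)
    {φ : G → ℂ} (hφ : φ ∈ IrrS H) : Q ≤ stab φ := by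
  intro x hx
  rw [mem_stab]
  funext y
  rw [cnj_apply]
  by_cases hy : y ∈ H
  · have h1 := hL.comm x hx y hy
    congr 1
    rw [mul_assoc, ← h1, ← mul_assoc, inv_mul_cancel, one_mul]
  · rw [hφ.2 y hy]
    apply hφ.2
    intro h1
    apply hy
    have h2 := hL.comm x hx _ h1
    have h3 : y = x⁻¹ * y * x := by
      have h4 : x * (x⁻¹ * y * x) = y * x := by group
      rw [h4] at h2
      exact mul_right_cancel h2
    rw [h3]
    exact h1

end aux

variable {p : ℕ} [Fact p.Prime] {K : Type} [Group K] [Finite K] {n : ℕ}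
  (R : K →* Matrix (Fin n) (Fin n) (OO p)) {Q H : Subgroup K} (hL : Loc p (⊤ : Subgroup K) Q H)
include hL

private lemma normQ_le_normH {k : K} (hk : k ∈ Subgroup.normalizer (Q : Set K)) :
    k ∈ Subgroup.normalizer (H : Set K) := by
  apply hL.norm_H _ hk
  rw [Subgroup.mem_normalizer_iff]
  intro x
  simp

private lemma hQN : ∀ k ∈ Subgroup.normalizer (Q : Set K), ∀ x ∈ Q, k⁻¹ * x * k ∈ Q := by
  intro k hk x hx
  have h1 := (Subgroup.mem_normalizer_iff.1 hk (k⁻¹ * x * k)).2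
  apply h1
  have : k * (k⁻¹ * x * k) * k⁻¹ = x := by group
  rw [this]
  exact hx

private lemma hfreeN : ∀ k, k ∉ Subgroup.normalizer (Q : Set K) → ∀ x ∈ Q,
    k⁻¹ * x * k ∈ Subgroup.normalizer (Q : Set K) → x = 1 := by
  intro k hk x hx h
  by_contra hx1
  exact hk (hL.ti (Subgroup.mem_top k) hx hx1 h)

private lemma eph_comm_center {φ : K → ℂ} (hφ : φ ∈ IrrS H)
    (g : Matrix (Fin n) (Fin n) (OO p)) (hg : ∀ k, R k * g = g * R k) :
    Eph R H φ * g = g * Eph R H φ := by
  classical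
  haveI := Fintype.ofFinite H
  apply toC_inj
  rw [toC_mul, toC_mul, toC_Eph R H hL.pH hφ, finsum_eq_sum_of_fintype, Matrix.smul_mul,
    Matrix.mul_smul, Finset.sum_mul, Finset.mul_sum]
  congr 1
  refine Finset.sum_congr rfl fun h _ => ?_
  rw [Matrix.smul_mul, Matrix.mul_smul, ← toC_mul, ← toC_mul, hg]

/-- the commutation with the centre in the residue field -/
private lemma eph_comm_centerK {φ : K → ℂ} (hφ : φ ∈ IrrS H)
    (g : Matrix (Fin n) (Fin n) (kk p)) (hg : ∀ k, toK (R k) * g = g * toK (R k)) :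
    toK (Eph R H φ) * g = g * toK (Eph R H φ) := by
  classical
  haveI := Fintype.ofFinite H
  -- coefficients
  have hc : ∀ h : H, ∃ a : OO p, (a : ℂ) =
      ((deg φ : ℂ) * (Nat.card H : ℂ)⁻¹) * φ (h : K)⁻¹ := by
    intro h
    refine ⟨((deg φ : ℕ) : OO p) * ⟨(Nat.card H : ℂ)⁻¹, inv_nat_mem hL.pH⟩ *
      ⟨φ (h : K)⁻¹, irrS_mem_OO hφ _⟩, ?_⟩
    push_cast
    rfl
  choose a ha using hc
  have hE : Eph R H φ = ∑ h : H, a h • R h := by
    apply toC_inj
    rw [toC_Eph R H hL.pH hφ, finsum_eq_sum_of_fintype, toC_sum, Finset.smul_sum]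
    refine Finset.sum_congr rfl fun h _ => ?_
    rw [toC_smul, ha, smul_smul]
  rw [hE, toK_sum, Finset.sum_mul, Finset.mul_sum]
  refine Finset.sum_congr rfl fun h _ => ?_
  rw [toK_smul, Matrix.smul_mul, Matrix.mul_smul, hg]

theorem keyO (hR : SchurR R) {φ : K → ℂ} (hφ : φ ∈ IrrS H)
    (f : Matrix (Fin n) (Fin n) (OO p)) (hef : Eph R H φ * f = f) (hfe : f * Eph R H φ = f)
    (hfT : ∀ t ∈ Subgroup.normalizer (Q : Set K) ⊓ stab φ, R t * f = f * R t) :
    ∃ (c : OO p) (b : Matrix (Fin n) (Fin n) (OO p)), Eph R H φ * b = b ∧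
      b * Eph R H φ = b ∧ f = c • Eph R H φ - trQ R Q b ∧
      c * (n : OO p) = ((Subgroup.normalizer (Q : Set K) ⊓ stab φ).index : OO p) * f.trace := by
  obtain ⟨g, b, hg, heb, hbe, hf, htr⟩ := key_lemma R Q
    (Subgroup.normalizer (Q : Set K) ⊓ stab φ) (Subgroup.normalizer (Q : Set K))
    (le_inf Subgroup.le_normalizer (Q_le_stab hL hφ)) inf_le_left (hQN hL)
    (fun k hk x hx h => hfreeN hL k hk x hx h.1)
    (Eph R H φ) (Eph_mul_self R H hL.pH hφ)
    (fun t ht => Eph_comm R H hL.pH hφ (normQ_le_normH hL ht.1) ht.2)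
    (fun g hg => eph_comm_center R hL hφ g hg)
    (by
      intro k hk hkT
      have hkH := normQ_le_normH hL hk
      rw [Eph_conj R H hL.pH hφ hkH]
      apply Eph_mul_ne R H hL.pH hφ (cnj_mem_irrS hφ hkH)
      intro h
      exact hkT ⟨hk, h.symm⟩)
    f hef hfe hfT
  obtain ⟨c, hc⟩ := scalarR R hR g (fun k => (hg k).symm)
  refine ⟨c, b, heb, hbe, ?_, ?_⟩
  · rw [hf, hc]
    simp only [trQ, Matrix.mul_smul, mul_one]
  · rw [← htr, hc, Matrix.trace_smul, Matrix.trace_one, Fintype.card_fin, smul_eq_mul]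

theorem keyO_top (hR : SchurR R) (f : Matrix (Fin n) (Fin n) (OO p))
    (hfT : ∀ t ∈ Subgroup.normalizer (Q : Set K), R t * f = f * R t) :
    ∃ (c : OO p) (b : Matrix (Fin n) (Fin n) (OO p)),
      f = c • (1 : Matrix (Fin n) (Fin n) (OO p)) - trQ R Q b ∧
      c * (n : OO p) = ((Subgroup.normalizer (Q : Set K)).index : OO p) * f.trace := by
  obtain ⟨g, b, hg, heb, hbe, hf, htr⟩ := key_lemma R Q
    (Subgroup.normalizer (Q : Set K)) (Subgroup.normalizer (Q : Set K))
    Subgroup.le_normalizer le_rfl (hQN hL)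
    (fun k hk x hx h => hfreeN hL k hk x hx h)
    1 (one_mul _) (fun t _ => by rw [one_mul, mul_one]) (fun g _ => by rw [one_mul, mul_one])
    (fun k hk hkT => absurd hk hkT)
    f (one_mul _) (mul_one _) hfT
  obtain ⟨c, hc⟩ := scalarR R hR g (fun k => (hg k).symm)
  refine ⟨c, b, ?_, ?_⟩
  · rw [hf, hc, one_mul]
    rfl
  · rw [← htr, hc, Matrix.trace_smul, Matrix.trace_one, Fintype.card_fin, smul_eq_mul]

/-- the reduction of an integral representation -/
noncomputable def redR (R : K →* Matrix (Fin n) (Fin n) (OO p)) :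
    K →* Matrix (Fin n) (Fin n) (kk p) :=
  ((IsLocalRing.residue (OO p)).mapMatrix : Matrix (Fin n) (Fin n) (OO p) →+*
    Matrix (Fin n) (Fin n) (kk p)).toMonoidHom.comp R

omit hL in
lemma redR_apply (g : K) : redR R g = toK (R g) := by
  rfl

theorem keyK {φ : K → ℂ} (hφ : φ ∈ IrrS H)
    (f : Matrix (Fin n) (Fin n) (kk p)) (hef : toK (Eph R H φ) * f = f)
    (hfe : f * toK (Eph R H φ) = f)
    (hfT : ∀ t ∈ Subgroup.normalizer (Q : Set K) ⊓ stab φ, toK (R t) * f = f * toK (R t)) :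
    ∃ g b : Matrix (Fin n) (Fin n) (kk p), (∀ k, toK (R k) * g = g * toK (R k)) ∧
      toK (Eph R H φ) * b = b ∧ b * toK (Eph R H φ) = b ∧
      f = toK (Eph R H φ) * g - trQ (redR R) Q b := by
  obtain ⟨g, b, hg, heb, hbe, hf, -⟩ := key_lemma (redR R) Q
    (Subgroup.normalizer (Q : Set K) ⊓ stab φ) (Subgroup.normalizer (Q : Set K))
    (le_inf Subgroup.le_normalizer (Q_le_stab hL hφ)) inf_le_left (hQN hL)
    (fun k hk x hx h => hfreeN hL k hk x hx h.1)
    (toK (Eph R H φ)) (by rw [← toK_mul, Eph_mul_self R H hL.pH hφ])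
    (fun t ht => by
      rw [redR_apply, ← toK_mul, ← toK_mul,
        Eph_comm R H hL.pH hφ (normQ_le_normH hL ht.1) ht.2])
    (fun g hg => eph_comm_centerK R hL hφ g hg)
    (by
      intro k hk hkT
      have hkH := normQ_le_normH hL hk
      rw [redR_apply, redR_apply, ← toK_mul, ← toK_mul, ← toK_mul,
        Eph_conj R H hL.pH hφ hkH,
        Eph_mul_ne R H hL.pH hφ (cnj_mem_irrS hφ hkH)]
      · ext i j
        simp [toK]
      · intro h
        exact hkT ⟨hk, h.symm⟩)
    f hef hfe hfT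
  exact ⟨g, b, hg, heb, hbe, hf⟩

end Pool.Agent.Helper42.IR
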