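import Mathlib

/-!
# IR-20 (project IR, section 3.5): linear algebra with a nilpotent operator and a group acting

Setting: `k` an algebraically closed field, `W` a finite dimensional `k`-space, `X` a finite group
whose order is invertible in `k`, `σ : X → GL(W)`, `u : W → W` with `u ^ p = 0` and
`σ x u = τ x u σ x` for a homomorphism `τ : X → kˣ`.

`exists_simple`: moreover `s : M_n(k) → End W` is a unital algebra homomorphism, `φ : X → M_n(k)` a
homomorphism with `σ x s(A) = s(φ x A φ x⁻¹) σ x`, `H` a subgroup of `X` with `σ h = s(φ h)` for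
`h ∈ H`, every `s(A)` is a linear combination of the `σ h`, `h ∈ H`, and all commutators of `X` lie
in `H`. Then every nonzero `X`-stable subspace `Z` contains a nonzero `X`-stable subspace `Y` of
dimension at most `n`.
Proof: `Z` is stable under all `s(A)`. `Z1 = s(E_11) Z` (range of the idempotent) is nonzero: the
`s(E_ij)` are conjugate and `∑ s(E_ii) = 1` (`n ≥ 1` as `W ≠ 0`). For `x ∈ X` the operator
`x' = s(φ x⁻¹) σ x` commutes with all `s(A)`, so it preserves `Z1`; `x ↦ x'` is multiplicative and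
trivial on `H`, hence the `x'` commute pairwise; they are invertible. Commuting operators on a
nonzero finite dimensional space over `k` have a common eigenvector `z ∈ Z1`
(`Module.End.exists_hasEigenvalue` and induction, or simultaneous eigenspaces). Put
`Y = {s(A) z}`: it is spanned by the `n` vectors `s(E_i1) z` since `s(A) z = s(A E_11) z`; and
`σ x s(A) z = s(φ x A φ x⁻¹) σ x z = s(φ x A φ x⁻¹) s(φ x) x' z ∈ Y`.
-/

namespace Pool.Agent.Helper42.IR

variable {k : Type} [Field k] [IsAlgClosed k] {W : Type} [AddCommGroup W] [Module k W]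
  [FiniteDimensional k W] {X : Type} [Group X] [Finite X]
  (σ : Representation k X W) {n : ℕ}

/-- Commuting endomorphisms of a nonzero stable subspace have a common eigenvector. -/
theorem exists_common_eigenvector {ι : Type} (T : ι → (W →ₗ[k] W))
    (hcomm : ∀ i j, T i * T j = T j * T i) (Z : Submodule k W) (hZ : Z ≠ ⊥)
    (hst : ∀ i, ∀ z ∈ Z, T i z ∈ Z) :
    ∃ z ∈ Z, z ≠ 0 ∧ ∃ c : ι → k, ∀ i, T i z = c i • z := by
  classical
  let P : Set (Submodule k W) := {U | U ≤ Z ∧ U ≠ ⊥ ∧ ∀ i, ∀ u ∈ U, T i u ∈ U}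
  have hPne : P.Nonempty := ⟨Z, le_rfl, hZ, hst⟩
  obtain ⟨U, ⟨hUZ, hU0, hUst⟩, hmin⟩ :=
    WellFounded.has_min (wellFounded_lt (α := Submodule k W)) P hPne
  have hscalar : ∀ i, ∃ c : k, ∀ u ∈ U, T i u = c • u := by
    intro i
    have : Nontrivial U := Submodule.nontrivial_iff_ne_bot.2 hU0
    obtain ⟨c, hc⟩ := Module.End.exists_eigenvalue ((T i).restrict (hUst i))
    obtain ⟨v, hv⟩ := hc.exists_hasEigenvector
    have hv1 : T i (v : W) = c • (v : W) := by
      have h1 := hv.apply_eq_smul
      have h2 := congrArg (Subtype.val) h1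
      simpa using h2
    have hv0 : (v : W) ≠ 0 := by
      intro h
      exact hv.2 (Subtype.ext h)
    refine ⟨c, ?_⟩
    let U' : Submodule k W := U ⊓ LinearMap.ker (T i - c • (1 : W →ₗ[k] W))
    have hmemU' : ∀ w, w ∈ U' ↔ w ∈ U ∧ T i w = c • w := by
      intro w
      rw [Submodule.mem_inf, LinearMap.mem_ker, LinearMap.sub_apply, LinearMap.smul_apply,
        Module.End.one_apply, sub_eq_zero]
    have hU'P : U' ∈ P := by
      refine ⟨inf_le_left.trans hUZ, ?_, ?_⟩
      · intro h
        have h1 : (v : W) ∈ U' := (hmemU' _).2 ⟨v.2, hv1⟩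
        rw [h, Submodule.mem_bot] at h1
        exact hv0 h1
      · intro j u hu
        rw [hmemU'] at hu ⊢
        refine ⟨hUst j u hu.1, ?_⟩
        have h1 := LinearMap.congr_fun (hcomm i j) u
        rw [Module.End.mul_apply, Module.End.mul_apply, hu.2, map_smul] at h1
        exact h1
    have hle : U ≤ U' := by
      by_contra hcon
      refine hmin U' hU'P (lt_of_le_of_ne inf_le_left ?_)
      intro h
      exact hcon h.ge
    intro u hu
    exact ((hmemU' u).1 (hle hu)).2
  choose c hc using hscalar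
  obtain ⟨z, hz, hz0⟩ := Submodule.exists_mem_ne_zero_of_ne_bot hU0
  exact ⟨z, hUZ hz, hz0, c, fun i => hc i z hz⟩

theorem exists_simple (H : Subgroup X) (s : Matrix (Fin n) (Fin n) k →ₐ[k] (W →ₗ[k] W))
    (φ : X →* Matrix (Fin n) (Fin n) k)
    (hs : ∀ (x : X) (A : Matrix (Fin n) (Fin n) k), σ x * s A = s (φ x * A * φ x⁻¹) * σ x)
    (hH : ∀ h ∈ H, σ h = s (φ h))
    (hspan : ∀ A, s A ∈ Submodule.span k (Set.range fun h : H => σ (h : X)))
    (hab : ∀ x y : X, x * y * x⁻¹ * y⁻¹ ∈ H)
    (Z : Submodule k W) (hZ : Z ≠ ⊥) (hst : ∀ x, ∀ z ∈ Z, σ x z ∈ Z) :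
    ∃ Y : Submodule k W, Y ≤ Z ∧ Y ≠ ⊥ ∧ (∀ x, ∀ z ∈ Y, σ x z ∈ Y) ∧
      Module.finrank k Y ≤ n := by
  classical
  -- `Z` is stable under `s A`
  have hsZ : ∀ A, ∀ z ∈ Z, s A z ∈ Z := by
    intro A z hz
    have hle : Submodule.span k (Set.range fun h : H => σ (h : X)) ≤
        Submodule.comap (LinearMap.applyₗ z) Z := by
      rw [Submodule.span_le]
      rintro _ ⟨h, rfl⟩
      exact hst h z hz
    exact hle (hspan A)
  obtain ⟨z0, hz0, hz0'⟩ := Submodule.exists_mem_ne_zero_of_ne_bot hZ
  -- `n` is positive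
  have hn : 0 < n := by
    rcases Nat.eq_zero_or_pos n with h0 | h0
    · subst h0
      exfalso
      have h1 : (1 : Matrix (Fin 0) (Fin 0) k) = 0 := Subsingleton.elim _ _
      have h2 := congrArg s h1
      rw [map_one, map_zero] at h2
      have h3 := LinearMap.congr_fun h2 z0
      rw [Module.End.one_apply, LinearMap.zero_apply] at h3
      exact hz0' h3
    · exact h0
  let o : Fin n := ⟨0, hn⟩
  let E : Fin n → Fin n → (W →ₗ[k] W) := fun i j => s (Matrix.single i j 1)
  have hEE : ∀ i j l, E i j * E j l = E i l := by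
    intro i j l
    simp only [E]
    rw [← map_mul, Matrix.single_mul_single_same, mul_one]
  have hsum : ∑ i, E i i = 1 := by
    simp only [E]
    rw [← map_sum, Matrix.sum_single_one, map_one]
  -- the subspace `Z1`
  let Z1 : Submodule k W := Z ⊓ LinearMap.ker (E o o - 1)
  have hmemZ1 : ∀ w, w ∈ Z1 ↔ w ∈ Z ∧ E o o w = w := by
    intro w
    rw [Submodule.mem_inf, LinearMap.mem_ker, LinearMap.sub_apply, Module.End.one_apply,
      sub_eq_zero]
  have hZ1 : Z1 ≠ ⊥ := by
    obtain ⟨i, hi⟩ : ∃ i, E i i z0 ≠ 0 := by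
      by_contra hcon
      push Not at hcon
      apply hz0'
      have h1 := LinearMap.congr_fun hsum z0
      rw [LinearMap.sum_apply, Module.End.one_apply, Finset.sum_eq_zero (fun i _ => hcon i)] at h1
      exact h1.symm
    have h2 : E o i z0 ∈ Z1 := by
      rw [hmemZ1]
      refine ⟨hsZ _ _ hz0, ?_⟩
      rw [← Module.End.mul_apply, hEE]
    intro h3
    rw [h3, Submodule.mem_bot] at h2
    apply hi
    rw [← hEE i o i, Module.End.mul_apply, h2, map_zero]
  -- the operators `x'`
  let T : X → (W →ₗ[k] W) := fun x => s (φ x⁻¹) * σ x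
  have hφinv : ∀ x, φ x⁻¹ * φ x = 1 := by
    intro x
    rw [← map_mul, inv_mul_cancel, map_one]
  have hφinv' : ∀ x, φ x * φ x⁻¹ = 1 := by
    intro x
    rw [← map_mul, mul_inv_cancel, map_one]
  have hTs : ∀ x A, T x * s A = s A * T x := by
    intro x A
    simp only [T]
    rw [mul_assoc, hs, ← mul_assoc, ← map_mul, ← mul_assoc (s A), ← map_mul]
    congr 2
    rw [← mul_assoc, ← mul_assoc, hφinv, one_mul]
  have hTmul : ∀ x y, T (x * y) = T x * T y := by
    intro x y
    have h1 : T (x * y) = s (φ y⁻¹) * T x * σ y := by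
      simp only [T]
      rw [mul_inv_rev, map_mul, map_mul, map_mul]
      simp only [mul_assoc]
    rw [h1, ← hTs, mul_assoc]
  have hTH : ∀ h ∈ H, T h = 1 := by
    intro h hh
    simp only [T]
    rw [hH h hh, ← map_mul, hφinv, map_one]
  have hTcomm : ∀ x y, T x * T y = T y * T x := by
    intro x y
    rw [← hTmul, ← hTmul]
    have h1 : x * y = (x * y * x⁻¹ * y⁻¹) * (y * x) := by group
    rw [h1, hTmul (x * y * x⁻¹ * y⁻¹), hTH _ (hab x y), one_mul]
  have hTZ1 : ∀ x, ∀ z ∈ Z1, T x z ∈ Z1 := by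
    intro x z hz
    rw [hmemZ1] at hz ⊢
    refine ⟨hsZ _ _ (hst _ _ hz.1), ?_⟩
    have h1 := LinearMap.congr_fun (hTs x (Matrix.single o o 1)) z
    rw [Module.End.mul_apply, Module.End.mul_apply] at h1
    change T x (E o o z) = E o o (T x z) at h1
    rw [← h1, hz.2]
  obtain ⟨z, hzZ1, hz, c, hc⟩ := exists_common_eigenvector T hTcomm Z1 hZ1 hTZ1
  rw [hmemZ1] at hzZ1
  -- the subspace `Y`
  let Y : Submodule k W := Submodule.span k (Set.range fun i : Fin n => E i o z)
  have hsY : ∀ A, s A z ∈ Y := by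
    intro A
    have h1 : s A z = s (A * Matrix.single o o 1) z := by
      rw [map_mul, Module.End.mul_apply]
      change s A z = s A (E o o z)
      rw [hzZ1.2]
    have h2 : A * Matrix.single o o (1 : k) = ∑ i, A i o • Matrix.single i o (1 : k) := by
      ext a b
      rw [Matrix.sum_apply]
      simp only [Matrix.smul_apply, smul_eq_mul]
      by_cases hb : b = o
      · subst hb
        rw [Matrix.mul_single_apply_same, Finset.sum_eq_single a]
        · rw [Matrix.single_apply_same]
        · intro i _ hi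
          rw [Matrix.single_apply_of_row_ne hi, mul_zero]
        · intro h
          exact absurd (Finset.mem_univ _) h
      · rw [Matrix.mul_single_apply_of_ne (1 : k) o o a b hb A, Finset.sum_eq_zero]
        intro i _
        rw [Matrix.single_apply_of_col_ne _ _ (Ne.symm hb), mul_zero]
    rw [h1, h2, map_sum, LinearMap.sum_apply]
    refine Submodule.sum_mem _ fun i _ => ?_
    rw [map_smul, LinearMap.smul_apply]
    exact Submodule.smul_mem _ _ (Submodule.subset_span ⟨i, rfl⟩)
  refine ⟨Y, ?_, ?_, ?_, ?_⟩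
  · rw [Submodule.span_le]
    rintro _ ⟨i, rfl⟩
    exact hsZ _ _ hzZ1.1
  · intro h
    have h1 : E o o z ∈ Y := Submodule.subset_span ⟨o, rfl⟩
    rw [h, Submodule.mem_bot, hzZ1.2] at h1
    exact hz h1
  · intro x
    have hle : Y ≤ Submodule.comap (σ x) Y := by
      rw [Submodule.span_le]
      rintro _ ⟨i, rfl⟩
      change σ x (E i o z) ∈ Y
      have h1 : σ x (E i o z) = c x • s (φ x * Matrix.single i o 1) z := by
        have h2 : σ x (E i o z) = (s (φ x * Matrix.single i o 1 * φ x⁻¹) * σ x) z := by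
          rw [← hs, Module.End.mul_apply]
        rw [h2, map_mul, mul_assoc, Module.End.mul_apply]
        change s (φ x * Matrix.single i o 1) (T x z) = _
        rw [hc, map_smul]
      rw [h1]
      exact Submodule.smul_mem _ _ (hsY _)
    intro z' hz'
    exact hle hz'
  · have h1 := finrank_range_le_card (R := k) (fun i : Fin n => E i o z)
    rw [Fintype.card_fin] at h1
    exact h1

end Pool.Agent.Helper42.IR
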