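import Pool.Agent.Helper42.IR.Val

/-!
# IR-06 (project IR): lattices over the valuation ring have bases among given generators

Let `v : ι → V` (`ι` finite) be a family of vectors of the finite dimensional complex vector space
`V` which spans `V` over `ℂ`. Then there is a basis `b` of `V` consisting of members of the family
such that every `v i` is a combination of the `b j` with coefficients in `OO p`.

Proof: among the subsets `s` of `ι` such that every `v i` is an `OO p`-combination of the `v j`,
`j ∈ s`, take one of minimal cardinality (`s = univ` is one). Claim: `(v j), j ∈ s` is linearly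
independent over `ℂ`. Otherwise `∑ c_j v_j = 0` with some `c_j ≠ 0`; choose `j0` such that all
`c_j / c_{j0}` lie in `OO p` (the `c_j`, not all zero, finite in number: take one with maximal
valuation; `ValuationSubring.valuation` or induction with `OO p.mem_or_inv_mem`). So `v_{j0}` is an
`OO p`-combination of the others and `s \ {j0}` has the same property, a contradiction to the
minimality. The `v j`, `j ∈ s`, span `V` over `ℂ`. So they form a basis; reindex by `Fin n`.
-/

namespace Pool.Agent.Helper42.IR

open Pool.Agent.Helper42.INC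

variable {p : ℕ} [Fact p.Prime]

/-- every member of the family is an `OO p`-combination of the members with index in `s` -/
private def GoodSet (p : ℕ) [Fact p.Prime] {V : Type} [AddCommGroup V] [Module ℂ V]
    {ι : Type} [Fintype ι] (v : ι → V) (s : Finset ι) : Prop :=
  ∀ i, ∃ c : ι → ℂ, (∀ j, c j ∈ OO p) ∧ (∀ j, j ∉ s → c j = 0) ∧ v i = ∑ j, c j • v j

private lemma goodSet_univ {V : Type} [AddCommGroup V] [Module ℂ V]
    {ι : Type} [Fintype ι] [DecidableEq ι] (v : ι → V) : GoodSet p v Finset.univ := by
  intro i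
  refine ⟨fun j => if j = i then 1 else 0, ?_, ?_, ?_⟩
  · intro j
    by_cases h : j = i
    · simp only [h, if_true]; exact (OO p).one_mem
    · simp only [h, if_false]; exact (OO p).zero_mem
  · intro j hj
    exact absurd (Finset.mem_univ j) hj
  · simp

private lemma goodSet_erase {V : Type} [AddCommGroup V] [Module ℂ V]
    {ι : Type} [Fintype ι] [DecidableEq ι] (v : ι → V) (s : Finset ι) (hs : GoodSet p v s)
    (g : ι → ℂ) (hg0 : ∀ j, j ∉ s → g j = 0) (hg : ∑ j, g j • v j = 0) (j0 : ι)
    (hj0 : g j0 ≠ 0) (hd : ∀ j, g j / g j0 ∈ OO p) : GoodSet p v (s.erase j0) := by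
  intro i
  obtain ⟨c, hc, hc0, hv⟩ := hs i
  refine ⟨fun j => c j - c j0 * (g j / g j0), ?_, ?_, ?_⟩
  · intro j
    exact sub_mem (hc j) (mul_mem (hc j0) (hd j))
  · intro j hj
    by_cases h : j = j0
    · subst h
      change c j - c j * (g j / g j) = 0
      rw [div_self hj0]; ring
    · have h1 : j ∉ s := fun h2 => hj (Finset.mem_erase.2 ⟨h, h2⟩)
      change c j - c j0 * (g j / g j0) = 0
      rw [hc0 j h1, hg0 j h1]; simp
  · have h1 : ∑ j, (c j0 * (g j / g j0)) • v j = 0 := by
      have h2 : ∀ j ∈ Finset.univ, (c j0 * (g j / g j0)) • v j = (c j0 / g j0) • (g j • v j) := by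
        intro j _
        rw [smul_smul]
        congr 1
        ring
      rw [Finset.sum_congr rfl h2, ← Finset.smul_sum, hg, smul_zero]
    simp only [sub_smul, Finset.sum_sub_distrib]
    rw [h1, sub_zero, hv]

theorem exists_lattice_basis {V : Type} [AddCommGroup V] [Module ℂ V] [FiniteDimensional ℂ V]
    {ι : Type} [Finite ι] (v : ι → V) (hv : Submodule.span ℂ (Set.range v) = ⊤) :
    ∃ (n : ℕ) (b : Module.Basis (Fin n) ℂ V), (∀ j, ∃ i, b j = v i) ∧
      ∀ i, ∀ j, b.repr (v i) j ∈ OO p := by
  classical
  have : Fintype ι := Fintype.ofFinite ι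
  have hex : ∃ k, ∃ s : Finset ι, s.card = k ∧ GoodSet p v s :=
    ⟨_, Finset.univ, rfl, goodSet_univ v⟩
  obtain ⟨s, hsc, hs⟩ := Nat.find_spec hex
  have hmin : ∀ t : Finset ι, GoodSet p v t → s.card ≤ t.card := by
    intro t ht
    rw [hsc]
    exact Nat.find_min' hex ⟨t, rfl, ht⟩
  have hli : LinearIndependent ℂ (fun j : s => v j) := by
    by_contra hcon
    rw [Fintype.not_linearIndependent_iff] at hcon
    obtain ⟨g, hg, j1, hj1⟩ := hcon
    have : Nonempty s := ⟨j1⟩
    obtain ⟨j0, hj0⟩ := Finite.exists_max (fun j : s => (OO p).valuation (g j))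
    have hne : g j0 ≠ 0 := by
      intro h0
      have h1 := hj0 j1
      rw [h0, map_zero] at h1
      have h2 : (OO p).valuation (g j1) = 0 := le_antisymm h1 zero_le
      exact hj1 ((map_eq_zero _).1 h2)
    let G : ι → ℂ := fun j => if h : j ∈ s then g ⟨j, h⟩ else 0
    have hG0 : ∀ j, j ∉ s → G j = 0 := fun j hj => by simp [G, hj]
    have hGs : ∀ j : s, G j = g j := fun j => by simp [G]
    have hGj0 : G j0 = g j0 := hGs j0
    have hsum : ∑ j, G j • v j = 0 := by
      rw [← hg]
      have h1 : ∑ j, G j • v j = ∑ j ∈ s, G j • v j := by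
        symm
        apply Finset.sum_subset (Finset.subset_univ s)
        intro j _ hj
        rw [hG0 j hj, zero_smul]
      rw [h1, ← Finset.sum_coe_sort s (fun j => G j • v j)]
      apply Finset.sum_congr rfl
      intro j _
      rw [hGs j]
    have hd : ∀ j, G j / G j0 ∈ OO p := by
      intro j
      by_cases h : j ∈ s
      · rw [← (OO p).valuation_le_one_iff, map_div₀]
        have h1 : (OO p).valuation (G j) ≤ (OO p).valuation (G j0) := by
          have h2 := hj0 ⟨j, h⟩
          rw [← hGs ⟨j, h⟩, ← hGj0] at h2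
          exact h2
        exact div_le_one_of_le₀ h1 zero_le
      · rw [hG0 j h, zero_div]
        exact (OO p).zero_mem
    have h3 := hmin _ (goodSet_erase v s hs G hG0 hsum j0 (by rw [hGj0]; exact hne) hd)
    have h4 : (s.erase (j0 : ι)).card < s.card := Finset.card_erase_lt_of_mem j0.2
    omega
  have hrep : ∀ i, ∃ c : s → ℂ, (∀ j, c j ∈ OO p) ∧ v i = ∑ j : s, c j • v j := by
    intro i
    obtain ⟨c, hc, hc0, hvi⟩ := hs i
    refine ⟨fun j => c j, fun j => hc j, ?_⟩
    rw [hvi]
    have h1 : ∑ j, c j • v j = ∑ j ∈ s, c j • v j := by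
      symm
      apply Finset.sum_subset (Finset.subset_univ s)
      intro j _ hj
      rw [hc0 j hj, zero_smul]
    rw [h1, ← Finset.sum_coe_sort s (fun j => c j • v j)]
  have hsp : ⊤ ≤ Submodule.span ℂ (Set.range (fun j : s => v j)) := by
    rw [← hv, Submodule.span_le]
    rintro _ ⟨i, rfl⟩
    obtain ⟨c, -, hci⟩ := hrep i
    rw [hci]
    apply Submodule.sum_mem
    intro j _
    exact Submodule.smul_mem _ _ (Submodule.subset_span ⟨j, rfl⟩)
  let b0 : Module.Basis s ℂ V := Module.Basis.mk hli hsp
  have hb0 : ∀ j, b0 j = v j := fun j => by simp [b0]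
  let e : s ≃ Fin (Fintype.card s) := Fintype.equivFin s
  refine ⟨Fintype.card s, b0.reindex e, ?_, ?_⟩
  · intro j
    exact ⟨e.symm j, by rw [Module.Basis.reindex_apply, hb0]⟩
  · intro i j
    obtain ⟨c, hc, hci⟩ := hrep i
    have h1 : b0.repr (v i) (e.symm j) = c (e.symm j) := by
      have h2 : v i = ∑ j : s, c j • b0 j := by
        rw [hci]
        apply Finset.sum_congr rfl
        intro j _
        rw [hb0]
      rw [h2, Module.Basis.repr_sum_self]
    rw [Module.Basis.repr_reindex, Finsupp.mapDomain_equiv_apply, h1]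
    exact hc _

end Pool.Agent.Helper42.IR
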