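import Pool.Agent.Helper42.IR.Typ

/-! Project IR, section 5.1: Lemma E (interface only; do not import this file in proofs, the proof will be
in `IR/E/Final.lean` with the same statement and name in the namespace `Pool.Agent.Helper42.IR`).

`G` is the group `Γ̂` of the paper proof: `K` is normal of index prime to `p`, `χh` is an irreducible
character of `G` whose restriction `χ` to `K` is irreducible of degree prime to `p`, in the block of `φ`;
`ψ` is a character of `NN K Q = N_K(Q)` in the block of `φ`, invariant under `N_G(Q)`, of the same type.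
Then `ψ` extends to `N_G(Q)` with the same scalars as `χh` on the centralizer of `K`. -/

namespace Pool.Agent.Helper42.IR.Top

open Pool.Agent.Helper42.INC Pool.Agent.Helper42.IR

theorem lemmaE {G : Type} [Group G] [Finite G] {p : ℕ} [Fact p.Prime] (hp2 : p ≠ 2)
    (K Q H : Subgroup G) [K.Normal] (hL : Loc p K Q H) (hidx : ¬ p ∣ K.index)
    (hz : ¬ p ∣ Nat.card (Subgroup.center K)) {χh χ ψ φ : G → ℂ} (hχh : χh ∈ Irr G)
    (hχ : χ ∈ IrrSP p K) (hres : ∀ k ∈ K, χh k = χ k) (hφ : φ ∈ IrrS H) (hB : Bl Q H χ φ)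
    (hψ : ψ ∈ IrrSP p (NN K Q)) (hBψ : Bl Q H ψ φ)
    (hinv : ∀ a ∈ Subgroup.normalizer (Q : Set G), cnj a ψ = ψ) (htyp : Typ K Q H χ ψ φ) :
    ∃ ψh ∈ CharS (Subgroup.normalizer (Q : Set G)), (∀ n ∈ NN K Q, ψh n = ψ n) ∧
      ∀ c ∈ Subgroup.centralizer (K : Set G), ∀ a ∈ Subgroup.normalizer (Q : Set G),
        χ 1 * ψh (a * c) = ψh a * χh c := by
  sorry

end Pool.Agent.Helper42.IR.Top
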