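import Pool.Agent.Helper42.IR.Eph
import Pool.Agent.Helper42.IR.SchurIrr

/-!
# IR-29 (project IR, section 3.5): matrix units in the group ring of a `p'`-group

`R : K → M_n(OO p)`, `H ≤ X ≤ N_K(H)`, `p ∤ |H|`, `φ ∈ IrrS H`, `Φ : X → M_d(OO p)` a homomorphism whose
restriction to `H` affords `φ`. Put `s(A) = (d/|H|) ∑_{h ∈ H} tr(A Φ(h⁻¹)) R(h)`.

* `schur_rel`: `d ∑_h tr(A Φ(h⁻¹)) tr(Y Φ(h)) = |H| tr(A Y)`. Proof: `∑_h Φ(h) E_kj Φ(h⁻¹)` commutes
  with `Φ`, so it is a scalar `c` (`scalarR`), `d c = |H| δ_kj`; expand the traces in matrix entries.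
* `exists_s`: over `OO p` first: `s(A) s(B) = (d/|H|)² ∑_{h,g} tr(AΦ(h⁻¹)) tr(BΦ(g⁻¹)) R(hg)`; with
  `m = h g`, `g⁻¹ = m⁻¹ h`, `∑_h tr(AΦ(h⁻¹)) tr(BΦ(m⁻¹)Φ(h)) = (|H|/d) tr(A B Φ(m⁻¹))` by `schur_rel`, so
  `s(A) s(B) = s(A B)`. `s(1) = (d/|H|) ∑ φ(h⁻¹) R(h) = Eph R H φ` (`toC_Eph`, `d = deg φ`).
  `R(x) s(A) R(x)⁻¹ = (d/|H|) ∑ tr(AΦ(h⁻¹)) R(x h x⁻¹) = s(Φ(x) A Φ(x)⁻¹)` (reindex).
  `R(h) s(1) = (d/|H|) ∑_m φ(m⁻¹) R(h m) = (d/|H|) ∑_g tr(Φ(h) Φ(g⁻¹)) R(g) = s(Φ(h))` (`g = h m`; the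
  values of `φ` are traces). Everything is then reduced modulo the maximal ideal: over the residue
  field `s(A) = (d/|H|) ∑ tr(A toK Φ(h⁻¹)) toK R(h)` (matrices over the residue field lift to
  `OO p`, so the identities follow from those over `OO p`).
-/

namespace Pool.Agent.Helper42.IR

open Pool.Agent.Helper42.INC

variable {p : ℕ} [Fact p.Prime]

private lemma avg_comm {A : Type} [CommRing A] {H : Type} [Group H] [Fintype H] {d : ℕ}
    (Φ : H →* Matrix (Fin d) (Fin d) A) (X : Matrix (Fin d) (Fin d) A) (g : H) :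
    (∑ h : H, Φ h * X * Φ h⁻¹) * Φ g = Φ g * ∑ h : H, Φ h * X * Φ h⁻¹ := by
  rw [Finset.sum_mul, Finset.mul_sum]
  refine (Fintype.sum_equiv (Equiv.mulLeft g) _ _ ?_).symm
  intro h
  change Φ g * (Φ h * X * Φ h⁻¹) = Φ (g * h) * X * Φ (g * h)⁻¹ * Φ g
  rw [mul_inv_rev, map_mul, map_mul]
  have h1 : Φ g⁻¹ * Φ g = 1 := by rw [← map_mul, inv_mul_cancel, map_one]
  rw [mul_assoc (Φ g * Φ h * X), mul_assoc (Φ h⁻¹), h1, mul_one]
  simp only [mul_assoc]

private lemma trace_expand {A : Type} [CommRing A] {d : ℕ} (M N : Matrix (Fin d) (Fin d) A) :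
    M.trace * N.trace = ∑ i : Fin d, ∑ j : Fin d, (N * Matrix.single j i (1 : A) * M) j i := by
  have h1 : ∀ i j : Fin d, (N * Matrix.single j i (1 : A) * M) j i = N j j * M i i := by
    intro i j
    rw [Matrix.mul_apply, Finset.sum_eq_single i]
    · rw [Matrix.mul_single_apply_same, mul_one]
    · intro k _ hk
      rw [Matrix.mul_single_apply_of_ne _ _ _ _ _ hk, zero_mul]
    · intro h
      exact absurd (Finset.mem_univ _) h
  simp only [h1]
  unfold Matrix.trace
  rw [Finset.sum_mul_sum]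
  refine Finset.sum_congr rfl fun i _ => Finset.sum_congr rfl fun j _ => ?_
  simp only [Matrix.diag_apply]
  ring

private lemma schur_gen {A : Type} [CommRing A] {H : Type} [Group H] [Fintype H] {d : ℕ}
    (Φ : H →* Matrix (Fin d) (Fin d) A)
    (hS : ∀ X : Matrix (Fin d) (Fin d) A, (d : A) • (∑ h : H, Φ h * X * Φ h⁻¹) =
      ((Fintype.card H : A) * X.trace) • (1 : Matrix (Fin d) (Fin d) A))
    (M Y : Matrix (Fin d) (Fin d) A) :
    (d : A) * ∑ h : H, (M * Φ h⁻¹).trace * (Y * Φ h).trace =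
      (Fintype.card H : A) * (M * Y).trace := by
  have h1 : ∀ h : H, (M * Φ h⁻¹).trace * (Y * Φ h).trace = ∑ i : Fin d, ∑ j : Fin d,
      (Y * (Φ h * (Matrix.single j i (1 : A) * M) * Φ h⁻¹)) j i := by
    intro h
    rw [trace_expand]
    refine Finset.sum_congr rfl fun i _ => Finset.sum_congr rfl fun j _ => ?_
    congr 1
    simp only [mul_assoc]
  rw [Finset.sum_congr rfl fun h _ => h1 h]
  rw [Finset.sum_comm]
  have h2 : ∀ i : Fin d, ∑ h : H, ∑ j : Fin d,
      (Y * (Φ h * (Matrix.single j i (1 : A) * M) * Φ h⁻¹)) j i =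
      ∑ j : Fin d, (Y * (∑ h : H, Φ h * (Matrix.single j i (1 : A) * M) * Φ h⁻¹)) j i := by
    intro i
    rw [Finset.sum_comm]
    refine Finset.sum_congr rfl fun j _ => ?_
    rw [Finset.mul_sum, Matrix.sum_apply]
  rw [Finset.sum_congr rfl fun i _ => h2 i, Finset.mul_sum]
  have h3 : ∀ i : Fin d, (d : A) * ∑ j : Fin d,
      (Y * (∑ h : H, Φ h * (Matrix.single j i (1 : A) * M) * Φ h⁻¹)) j i =
      ∑ j : Fin d, (Fintype.card H : A) * (M i j * Y j i) := by
    intro i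
    rw [Finset.mul_sum]
    refine Finset.sum_congr rfl fun j _ => ?_
    have h4 : (d : A) * (Y * (∑ h : H, Φ h * (Matrix.single j i (1 : A) * M) * Φ h⁻¹)) j i =
        (Y * ((d : A) • (∑ h : H, Φ h * (Matrix.single j i (1 : A) * M) * Φ h⁻¹))) j i := by
      rw [Matrix.mul_smul, Matrix.smul_apply, smul_eq_mul]
    rw [h4, hS, Matrix.mul_smul, Matrix.mul_one, Matrix.smul_apply, smul_eq_mul]
    have h5 : (Matrix.single j i (1 : A) * M).trace = M i j := by
      unfold Matrix.trace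
      rw [Finset.sum_eq_single j]
      · rw [Matrix.diag_apply, Matrix.single_mul_apply_same, one_mul]
      · intro k _ hk
        rw [Matrix.diag_apply, Matrix.single_mul_apply_of_ne _ _ _ _ _ hk]
      · intro h
        exact absurd (Finset.mem_univ _) h
    rw [h5]
    ring
  rw [Finset.sum_congr rfl fun i _ => h3 i]
  unfold Matrix.trace
  rw [Finset.mul_sum]
  refine Finset.sum_congr rfl fun i _ => ?_
  rw [Matrix.diag_apply, Matrix.mul_apply, Finset.mul_sum]

theorem schur_rel {H : Type} [Group H] [Finite H] {d : ℕ}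
    (Φ : H →* Matrix (Fin d) (Fin d) (OO p)) (hΦ : SchurR Φ)
    (A Y : Matrix (Fin d) (Fin d) (OO p)) :
    (d : OO p) * ∑ᶠ h : H, (A * Φ h⁻¹).trace * (Y * Φ h).trace =
      (Nat.card H : OO p) * (A * Y).trace := by
  classical
  letI : Fintype H := Fintype.ofFinite H
  rw [finsum_eq_sum_of_fintype, Nat.card_eq_fintype_card]
  apply schur_gen
  intro X
  obtain ⟨c, hc⟩ := scalarR Φ hΦ (∑ h : H, Φ h * X * Φ h⁻¹) (avg_comm Φ X)
  have h1 : (∑ h : H, Φ h * X * Φ h⁻¹).trace = (Fintype.card H : OO p) * X.trace := by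
    rw [Matrix.trace_sum]
    have h2 : ∀ h : H, (Φ h * X * Φ h⁻¹).trace = X.trace := by
      intro h
      rw [Matrix.trace_mul_comm, ← mul_assoc, ← map_mul, inv_mul_cancel, map_one, one_mul]
    rw [Finset.sum_congr rfl fun h _ => h2 h, Finset.sum_const, nsmul_eq_mul, Finset.card_univ]
  rw [hc, Matrix.trace_smul, Matrix.trace_one, Fintype.card_fin, smul_eq_mul] at h1
  rw [hc, smul_smul, ← h1, mul_comm]

private lemma toK_surj {n : ℕ} (A : Matrix (Fin n) (Fin n) (kk p)) :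
    ∃ A' : Matrix (Fin n) (Fin n) (OO p), toK A' = A := by
  choose f hf using fun i j => IsLocalRing.residue_surjective (A i j)
  exact ⟨Matrix.of f, by ext i j; exact hf i j⟩

theorem exists_s {K : Type} [Group K] [Finite K] {n d : ℕ}
    (R : K →* Matrix (Fin n) (Fin n) (OO p)) {H X : Subgroup K} (hH : ¬ p ∣ Nat.card H)
    (hHX : H ≤ X) (hXH : X ≤ Subgroup.normalizer (H : Set K)) {φ : K → ℂ} (hφ : φ ∈ IrrS H)
    (Φ : X →* Matrix (Fin d) (Fin d) (OO p))
    (hΦ : ∀ h : X, (h : K) ∈ H → (((Φ h).trace : OO p) : ℂ) = φ h) :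
    ∃ s : Matrix (Fin d) (Fin d) (kk p) →ₗ[kk p] Matrix (Fin n) (Fin n) (kk p),
      s 1 = toK (Eph R H φ) ∧ (∀ A B, s (A * B) = s A * s B) ∧
      (∀ (x : X) (A : Matrix (Fin d) (Fin d) (kk p)),
        toK (R x) * s A = s (toK (Φ x) * A * toK (Φ x⁻¹)) * toK (R x)) ∧
      (∀ h : X, (h : K) ∈ H → toK (R h) * s 1 = s (toK (Φ h))) ∧
      ∀ A, s A ∈ Submodule.span (kk p) (Set.range fun h : H => toK (R (h : K))) := by
  classical
  letI : Fintype H := Fintype.ofFinite H
  -- the restriction of `Φ` to `H`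
  let ι : H →* X := Subgroup.inclusion hHX
  let Ψ : H →* Matrix (Fin d) (Fin d) (OO p) := Φ.comp ι
  have hchR : chR Ψ = fun h : H => φ h := by
    funext h
    exact hΦ (ι h) h.2
  have hS : SchurR Ψ := schurR_of_mem Ψ (by rw [hchR]; exact hφ.1)
  -- the scalar
  have hu : IsUnit ((Nat.card H : ℕ) : OO p) := isUnit_nat hH
  obtain ⟨v, hv⟩ := hu.exists_right_inv
  -- Schur relation over the residue field
  let c : kk p := IsLocalRing.residue (OO p) ((d : OO p) * v)
  have hrel : ∀ A Y : Matrix (Fin d) (Fin d) (kk p),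
      c * ∑ h : H, (A * toK (Ψ h⁻¹)).trace * (Y * toK (Ψ h)).trace = (A * Y).trace := by
    intro A Y
    obtain ⟨A', rfl⟩ := toK_surj A
    obtain ⟨Y', rfl⟩ := toK_surj Y
    have h1 := schur_rel Ψ hS A' Y'
    rw [finsum_eq_sum_of_fintype] at h1
    have h2 : ((d : OO p) * v) * ∑ h : H, (A' * Ψ h⁻¹).trace * (Y' * Ψ h).trace =
        (A' * Y').trace := by
      calc ((d : OO p) * v) * ∑ h : H, (A' * Ψ h⁻¹).trace * (Y' * Ψ h).trace
          = v * ((d : OO p) * ∑ h : H, (A' * Ψ h⁻¹).trace * (Y' * Ψ h).trace) := by ring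
        _ = (((Nat.card H : ℕ) : OO p) * v) * (A' * Y').trace := by rw [h1]; ring
        _ = (A' * Y').trace := by rw [hv, one_mul]
    have h3 := congrArg (IsLocalRing.residue (OO p)) h2
    rw [map_mul, map_sum] at h3
    simp only [map_mul, ← trace_toK, toK_mul] at h3
    exact h3
  let s : Matrix (Fin d) (Fin d) (kk p) →ₗ[kk p] Matrix (Fin n) (Fin n) (kk p) :=
    { toFun := fun A => c • ∑ h : H, (A * toK (Ψ h⁻¹)).trace • toK (R (h : K))
      map_add' := by
        intro A B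
        rw [← smul_add, ← Finset.sum_add_distrib]
        congr 1
        refine Finset.sum_congr rfl fun h _ => ?_
        rw [add_mul, Matrix.trace_add, add_smul]
      map_smul' := by
        intro a A
        rw [RingHom.id_apply, smul_comm a c]
        congr 1
        rw [Finset.smul_sum]
        refine Finset.sum_congr rfl fun h _ => ?_
        rw [Matrix.smul_mul, Matrix.trace_smul, smul_assoc] }
  have hs : ∀ A, s A = c • ∑ h : H, (A * toK (Ψ h⁻¹)).trace • toK (R (h : K)) := fun A => rfl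
  have hKone : ∀ x : X, toK (Φ x⁻¹) * toK (Φ x) = 1 := by
    intro x
    rw [← toK_mul, ← map_mul, inv_mul_cancel, map_one, toK_one]
  refine ⟨s, ?_, ?_, ?_, ?_, ?_⟩
  · -- `s 1`
    have h1 : Eph R H φ = ((d : OO p) * v) • ∑ h : H, (Ψ h⁻¹).trace • R (h : K) := by
      apply toC_inj
      rw [toC_Eph R H hH hφ, finsum_eq_sum_of_fintype, toC_smul, toC_sum]
      have hd : (deg φ : ℂ) = d := by
        have h2 : φ 1 = d := by
          have h3 := hΦ 1 H.one_mem
          rw [map_one, Matrix.trace_one, Fintype.card_fin] at h3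
          have h4 : (((1 : X) : K)) = 1 := rfl
          rw [h4] at h3
          rw [← h3]
          simp
        rw [deg_eq h2]
      have hv' : (Nat.card H : ℂ)⁻¹ = (v : ℂ) := by
        have h2 := congrArg (Subtype.val : OO p → ℂ) hv
        have h3 : (Nat.card H : ℂ) * (v : ℂ) = 1 := by simpa using h2
        exact inv_eq_of_mul_eq_one_right h3
      have hdv : (((d : OO p) * v : OO p) : ℂ) = (deg φ : ℂ) * (Nat.card H : ℂ)⁻¹ := by
        rw [hd, hv']
        simp
      rw [hdv]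
      congr 1
      refine Finset.sum_congr rfl fun h _ => ?_
      rw [toC_smul]
      congr 1
      exact (hΦ (ι h⁻¹) (h⁻¹).2).symm
    rw [hs, h1, toK_smul, toK_sum]
    congr 1
    refine Finset.sum_congr rfl fun h _ => ?_
    rw [toK_smul, one_mul, trace_toK]
  · -- multiplicativity
    intro A B
    rw [hs A, hs B, Matrix.smul_mul, Matrix.mul_smul, Finset.sum_mul_sum, hs (A * B)]
    congr 1
    have h1 : ∀ i : H, ∑ j : H, ((A * toK (Ψ i⁻¹)).trace • toK (R (i : K))) *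
        ((B * toK (Ψ j⁻¹)).trace • toK (R (j : K))) =
        ∑ m : H, ((A * toK (Ψ i⁻¹)).trace * ((B * toK (Ψ m⁻¹)) * toK (Ψ i)).trace) •
          toK (R (m : K)) := by
      intro i
      refine Fintype.sum_equiv (Equiv.mulLeft i) _ _ ?_
      intro j
      have e1 : (((Equiv.mulLeft i j : H)) : K) = i * j := rfl
      have e2 : (Equiv.mulLeft i j : H)⁻¹ = j⁻¹ * i⁻¹ := by
        change (i * j)⁻¹ = j⁻¹ * i⁻¹
        rw [mul_inv_rev]
      rw [e1, e2, map_mul, toK_mul, map_mul, toK_mul, Matrix.smul_mul, Matrix.mul_smul,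
        smul_smul]
      congr 2
      rw [mul_assoc, mul_assoc, ← toK_mul, ← map_mul, inv_mul_cancel, map_one, toK_one,
        mul_one]
    rw [Finset.sum_congr rfl fun i _ => h1 i, Finset.sum_comm, Finset.smul_sum]
    refine Finset.sum_congr rfl fun m _ => ?_
    rw [← Finset.sum_smul, ← smul_assoc, smul_eq_mul, hrel, mul_assoc]
  · -- conjugation
    intro x A
    rw [hs A, hs, Matrix.mul_smul, Matrix.smul_mul, Finset.mul_sum, Finset.sum_mul]
    congr 1
    have hn := Subgroup.mem_normalizer_iff.1 (hXH x.2)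
    let e : H ≃ H :=
      { toFun := fun h => ⟨(x : K) * h * (x : K)⁻¹, (hn h).1 h.2⟩
        invFun := fun h => ⟨(x : K)⁻¹ * h * x, (hn _).2 (by
          have : (x : K) * ((x : K)⁻¹ * (h : K) * x) * (x : K)⁻¹ = h := by group
          rw [this]
          exact h.2)⟩
        left_inv := fun h => by
          apply Subtype.ext
          change (x : K)⁻¹ * ((x : K) * (h : K) * (x : K)⁻¹) * x = h
          group
        right_inv := fun h => by
          apply Subtype.ext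
          change (x : K) * ((x : K)⁻¹ * (h : K) * x) * (x : K)⁻¹ = h
          group }
    refine Fintype.sum_equiv e _ _ ?_
    intro h
    have e1 : ((e h : H) : K) = x * h * (x : K)⁻¹ := rfl
    have e2 : ι (e h)⁻¹ = x * ι h⁻¹ * x⁻¹ := by
      apply Subtype.ext
      change ((x : K) * (h : K) * (x : K)⁻¹)⁻¹ = (x : K) * (h : K)⁻¹ * (x : K)⁻¹
      group
    have e3 : Ψ (e h)⁻¹ = Φ x * Ψ h⁻¹ * Φ x⁻¹ := by
      change Φ (ι (e h)⁻¹) = _
      rw [e2, map_mul, map_mul]
      rfl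
    rw [e1, e3, Matrix.mul_smul, Matrix.smul_mul, ← toK_mul, ← toK_mul, ← map_mul, ← map_mul]
    congr 1
    · rw [toK_mul, toK_mul]
      calc (A * toK (Ψ h⁻¹)).trace
          = (A * toK (Ψ h⁻¹) * (toK (Φ x⁻¹) * toK (Φ x))).trace := by rw [hKone, mul_one]
        _ = (toK (Φ x) * (A * toK (Ψ h⁻¹) * toK (Φ x⁻¹))).trace := by
            rw [← mul_assoc, Matrix.trace_mul_comm]
        _ = (toK (Φ x) * A * (toK (Φ x⁻¹) * toK (Φ x)) * toK (Ψ h⁻¹) * toK (Φ x⁻¹)).trace := by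
            rw [hKone, mul_one]; simp only [mul_assoc]
        _ = (toK (Φ x) * A * toK (Φ x⁻¹) * (toK (Φ x) * toK (Ψ h⁻¹) * toK (Φ x⁻¹))).trace := by
            simp only [mul_assoc]
    · have e5 : (x : K) * (h : K) = x * h * (x : K)⁻¹ * x := by group
      rw [← e5]
  · -- left multiplication
    intro h0 hh0
    rw [hs 1, hs, Matrix.mul_smul, Finset.mul_sum]
    congr 1
    let g0 : H := ⟨(h0 : K), hh0⟩
    refine Fintype.sum_equiv (Equiv.mulLeft g0) _ _ ?_
    intro h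
    have e1 : (((Equiv.mulLeft g0 h : H)) : K) = h0 * h := rfl
    have e2 : (Equiv.mulLeft g0 h : H)⁻¹ = h⁻¹ * g0⁻¹ := by
      change (g0 * h)⁻¹ = h⁻¹ * g0⁻¹
      rw [mul_inv_rev]
    have e4 : Ψ g0⁻¹ = Φ h0⁻¹ := rfl
    rw [e1, e2, map_mul Ψ, toK_mul, e4, Matrix.mul_smul, ← toK_mul, ← map_mul]
    congr 1
    rw [one_mul, Matrix.trace_mul_comm (toK (Φ h0)), mul_assoc, hKone, mul_one]
  · intro A
    rw [hs A]
    refine Submodule.smul_mem _ _ (Submodule.sum_mem _ fun h _ => Submodule.smul_mem _ _ ?_)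
    exact Submodule.subset_span ⟨h, rfl⟩

end Pool.Agent.Helper42.IR
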