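import Mathlib

/-!
# IR-32 (project IR, section 3.6): a finite set with geometric power sums

Let `n = |M|`, `P_j = ∑_{g ∈ M} g ^ j` (`P_0 = n`). Suppose `2 ≤ n ≤ X - 1`. Put `q = P_1 / n`. By
induction `P_j = n q ^ j` for `0 ≤ j ≤ X - 1` (`n P_{j+1} = P_1 P_j`). For a polynomial `f` of degree
at most `X - 1`: `∑_{g ∈ M} f(g) = n f(q)` (linearity). For `f = ∏_{g ∈ M} (T - g)`, of degree
`n ≤ X - 1`: `0 = n f(q)`, so `q ∈ M`. As `n ≥ 2` there is `g0 ∈ M`, `g0 ≠ q`;
for `h = ∏_{g ∈ M, g ≠ g0} (T - g)`: `h(g0) = ∑_{g ∈ M} h(g) = n h(q) = 0`, but `h(g0) ≠ 0`.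
Contradiction.
-/

namespace Pool.Agent.Helper42.IR

theorem ps_card {F : Type} [Field F] (M : Finset F) (X : ℕ) (hM : M.Nonempty)
    (hc : (M.card : F) ≠ 0)
    (h : ∀ j l : ℕ, 1 ≤ j → 1 ≤ l → j + l ≤ X - 1 →
      (M.card : F) * ∑ g ∈ M, g ^ (j + l) = (∑ g ∈ M, g ^ j) * ∑ g ∈ M, g ^ l) :
    M.card = 1 ∨ X ≤ M.card := by
  classical
  by_contra hcon
  push Not at hcon
  obtain ⟨h1, h2⟩ := hcon
  have hn2 : 2 ≤ M.card := by
    have := hM.card_pos
    omega
  have hX : M.card ≤ X - 1 := by omega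
  set n : F := (M.card : F) with hn
  set q : F := (∑ g ∈ M, g) / n with hq
  have hq1 : ∑ g ∈ M, g = n * q := by
    rw [hq]
    field_simp
  have hP : ∀ j, j ≤ X - 1 → ∑ g ∈ M, g ^ j = n * q ^ j := by
    intro j hj
    induction j with
    | zero => simp [hn]
    | succ j ih =>
      rcases Nat.eq_zero_or_pos j with h0 | h0
      · subst h0
        simpa using hq1
      · have h3 := h j 1 h0 le_rfl hj
        rw [ih (by omega)] at h3
        simp only [pow_one] at h3
        rw [hq1] at h3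
        have h4 : n * (∑ g ∈ M, g ^ (j + 1)) = n * (n * q ^ (j + 1)) := by
          rw [h3]
          ring
        exact mul_left_cancel₀ hc h4
  have hf : ∀ f : Polynomial F, f.natDegree ≤ X - 1 → ∑ g ∈ M, f.eval g = n * f.eval q := by
    intro f hf
    simp only [Polynomial.eval_eq_sum_range]
    rw [Finset.sum_comm, Finset.mul_sum]
    refine Finset.sum_congr rfl (fun i hi => ?_)
    rw [← Finset.mul_sum, hP i (by have := Finset.mem_range.1 hi; omega)]
    ring
  have hqM : q ∈ M := by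
    have h3 := hf (∏ g ∈ M, (Polynomial.X - Polynomial.C g)) (by
      rw [Polynomial.natDegree_prod_of_monic _ _ (fun g _ => Polynomial.monic_X_sub_C g)]
      simpa using hX)
    have h4 : ∑ g ∈ M, (∏ g' ∈ M, (Polynomial.X - Polynomial.C g')).eval g = 0 := by
      refine Finset.sum_eq_zero (fun g hg => ?_)
      rw [Polynomial.eval_prod]
      exact Finset.prod_eq_zero hg (by simp)
    rw [h4] at h3
    have h5 := (mul_eq_zero.1 h3.symm).resolve_left hc
    rw [Polynomial.eval_prod, Finset.prod_eq_zero_iff] at h5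
    obtain ⟨g, hg, hg0⟩ := h5
    rw [Polynomial.eval_sub, Polynomial.eval_X, Polynomial.eval_C, sub_eq_zero] at hg0
    rw [hg0]
    exact hg
  obtain ⟨g0, hg0, hne⟩ : ∃ g0 ∈ M, g0 ≠ q := Finset.exists_mem_ne (by omega) q
  have h3 := hf (∏ g ∈ M.erase g0, (Polynomial.X - Polynomial.C g)) (by
    rw [Polynomial.natDegree_prod_of_monic _ _ (fun g _ => Polynomial.monic_X_sub_C g)]
    simp only [Polynomial.natDegree_X_sub_C, Finset.sum_const, smul_eq_mul, mul_one]
    have := Finset.card_erase_le (s := M) (a := g0)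
    omega)
  have h4 : ∑ g ∈ M, (∏ g' ∈ M.erase g0, (Polynomial.X - Polynomial.C g')).eval g =
      (∏ g' ∈ M.erase g0, (Polynomial.X - Polynomial.C g')).eval g0 := by
    refine Finset.sum_eq_single_of_mem g0 hg0 (fun g hg hgne => ?_)
    rw [Polynomial.eval_prod]
    exact Finset.prod_eq_zero (Finset.mem_erase.2 ⟨hgne, hg⟩) (by simp)
  have h5 : (∏ g' ∈ M.erase g0, (Polynomial.X - Polynomial.C g')).eval q = 0 := by
    rw [Polynomial.eval_prod]
    exact Finset.prod_eq_zero (Finset.mem_erase.2 ⟨hne.symm, hqM⟩) (by simp)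
  rw [h4, h5, mul_zero, Polynomial.eval_prod, Finset.prod_eq_zero_iff] at h3
  obtain ⟨g, hg, hg1⟩ := h3
  rw [Polynomial.eval_sub, Polynomial.eval_X, Polynomial.eval_C, sub_eq_zero] at hg1
  exact (Finset.mem_erase.1 hg).1 hg1.symm

end Pool.Agent.Helper42.IR
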