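import Pool.Agent.Helper42.IR.Cm

/-!
# IR-35 (project IR, section 3.6): the characters of a group of prime order

`Q` of order `p` in a finite group `K`, `y ∈ Q`, `y ≠ 1` (so `Q = {y ^ a}`, `orderOf y = p`), `ζ` a
primitive `p`-th root of unity.

* `exists_param`: for `i : ZMod p` the function with value `ζ ^ (i.val * a)` at `y ^ a` and `0` off `Q` is
  well defined and a linear character of `Q`, so it is in `IrrS Q`; these `p` functions are distinct
  (values at `y`), and `|IrrS Q| = p` (`card_irrS_Q`), so `i ↦` is a bijection. `i = 0`: `oneS Q`.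
* `param_conj`: `cnj t (f i) (y ^ a) = f i (t⁻¹ y ^ a t) = f i (y ^ (c a)) = ζ ^ (i c a)`; both sides
  vanish off `Q` as `t` normalizes `Q`; exponents only matter modulo `p`.
* `exists_E`: the set of `c ∈ (ZMod p)ˣ` with `t⁻¹ y t = y ^ c` for some `t ∈ T` (`T` normalizes `Q`) is
  closed under products, and finite, so it is a subgroup.
* `exists_exp`: for `t` normalizing `Q`: `t⁻¹ y t ∈ Q` is a power of `y`, not `1`.
-/

namespace Pool.Agent.Helper42.IR

open Pool.Agent.Helper42.INC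

/-- linear characters are irreducible -/
private lemma lin_irr {A : Type} [Group A] [Finite A] (f : A → ℂ) (h1 : f 1 = 1)
    (hm : ∀ x y, f (x * y) = f x * f y) : f ∈ Irr A := by
  classical
  have := Fintype.ofFinite A
  let σ : Representation ℂ A ℂ :=
    { toFun := fun x => f x • (LinearMap.id : ℂ →ₗ[ℂ] ℂ)
      map_one' := by rw [h1, one_smul]; rfl
      map_mul' := by
        intro x y
        ext
        simp [hm, mul_comm] }
  have htr : f = σ.character := by
    funext x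
    unfold Representation.character
    change f x = LinearMap.trace ℂ ℂ (f x • (LinearMap.id : ℂ →ₗ[ℂ] ℂ))
    rw [map_smul, LinearMap.trace_id]
    simp
  apply irr_of_norm_one
  · intro g x
    rw [hm, hm, mul_right_comm, ← hm, mul_inv_cancel, h1, one_mul]
  · intro χ hχ
    obtain ⟨V, _, _, _, ρ, hρ, rfl⟩ := hχ
    rw [htr]
    exact B_char _ _
  · rw [B_eq]
    have e : ∀ x ∈ (Finset.univ : Finset A), f x * f x⁻¹ = 1 := by
      intro x _
      rw [← hm, mul_inv_cancel, h1]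
    rw [Finset.sum_congr rfl e, Finset.sum_const, Finset.card_univ, nsmul_eq_mul, mul_one,
      Nat.card_eq_fintype_card, inv_mul_cancel₀]
    exact_mod_cast Fintype.card_ne_zero

private lemma pow_modEq {M : Type} [Monoid M] {x : M} {n a b : ℕ} (hx : x ^ n = 1)
    (h : a ≡ b [MOD n]) : x ^ a = x ^ b := by
  have h1 : ∀ c : ℕ, x ^ c = x ^ (c % n) := by
    intro c
    conv_lhs => rw [← Nat.div_add_mod c n]
    rw [pow_add, pow_mul, hx, one_pow, one_mul]
  rw [h1 a, h1 b, h]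

variable {p : ℕ} [Fact p.Prime] {K : Type} [Group K] [Finite K] {Q : Subgroup K}
  (hQ : Nat.card Q = p) {y : K} (hy : y ∈ Q) (hy1 : y ≠ 1)
include hQ hy hy1

omit hy1 [Fact p.Prime] [Finite K] in
private lemma y_pow_p : y ^ p = 1 := by
  have h2 : (⟨y, hy⟩ : Q) ^ p = 1 := by
    rw [← hQ]; exact pow_card_eq_one'
  simpa using congrArg Subtype.val h2

omit [Finite K] in
private lemma mem_pow {x : K} (hx : x ∈ Q) : ∃ a : ℕ, y ^ a = x := by
  have hyQ : (⟨y, hy⟩ : Q) ≠ 1 := fun h0 => hy1 (congrArg Subtype.val h0)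
  obtain ⟨k, hk⟩ := (Submonoid.mem_powers_iff _ _).1
    (mem_powers_of_prime_card (g' := (⟨x, hx⟩ : Q)) hQ hyQ)
  exact ⟨k, by simpa using congrArg Subtype.val hk⟩

omit [Finite K] in
private lemma orderOf_y : orderOf y = p :=
  orderOf_eq_prime (y_pow_p hQ hy) hy1

theorem exists_param {ζ : ℂ} (hζ : IsPrimitiveRoot ζ p) :
    ∃ f : ZMod p ≃ IrrS Q, (f 0).1 = oneS Q ∧
      ∀ (i : ZMod p) (a : ℕ), (f i).1 (y ^ a) = ζ ^ (i.val * a) := by
  classical
  have hyp := y_pow_p hQ hy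
  have hord := orderOf_y hQ hy hy1
  choose! dl hdl using fun (x : K) (hx : x ∈ Q) => mem_pow hQ hy hy1 hx
  have hζp : ζ ^ p = 1 := hζ.pow_eq_one
  let F : ZMod p → K → ℂ := fun i x => if x ∈ Q then ζ ^ (i.val * dl x) else 0
  have hFy : ∀ (i : ZMod p) (a : ℕ), F i (y ^ a) = ζ ^ (i.val * a) := by
    intro i a
    have hmem : y ^ a ∈ Q := Q.pow_mem hy a
    simp only [F, if_pos hmem]
    apply pow_modEq hζp
    apply Nat.ModEq.mul_left
    have h1 := hdl _ hmem
    rw [pow_eq_pow_iff_modEq, hord] at h1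
    exact h1
  have hFirr : ∀ i, F i ∈ IrrS Q := by
    intro i
    constructor
    · apply lin_irr
      · have := hFy i 0
        simpa using this
      · intro x z
        obtain ⟨a, ha⟩ := mem_pow hQ hy hy1 x.2
        obtain ⟨b, hb⟩ := mem_pow hQ hy hy1 z.2
        rw [Subgroup.coe_mul, ← ha, ← hb, ← pow_add, hFy, hFy, hFy, ← pow_add, mul_add]
    · intro x hx
      simp only [F, if_neg hx]
  have hFinj : Function.Injective (fun i => (⟨F i, hFirr i⟩ : IrrS Q)) := by
    intro i j hij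
    have h1 := congrFun (congrArg Subtype.val hij) y
    have h2 := hFy i 1
    have h3 := hFy j 1
    rw [pow_one, mul_one] at h2 h3
    change F i y = F j y at h1
    rw [h2, h3] at h1
    have h4 := hζ.pow_inj (ZMod.val_lt i) (ZMod.val_lt j) h1
    exact ZMod.val_injective p h4
  have : Finite (IrrS Q) := Finite.of_equiv _ (cmx_equiv Q).symm
  have hbij : Function.Bijective (fun i => (⟨F i, hFirr i⟩ : IrrS Q)) := by
    have : Fintype (IrrS Q) := Fintype.ofFinite _
    rw [Fintype.bijective_iff_injective_and_card]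
    refine ⟨hFinj, ?_⟩
    rw [ZMod.card, ← Nat.card_eq_fintype_card, card_irrS_Q hQ]
  refine ⟨Equiv.ofBijective _ hbij, ?_, ?_⟩
  · rw [Equiv.ofBijective_apply]
    funext x
    change F 0 x = oneS Q x
    simp only [F, oneS, ZMod.val_zero, zero_mul, pow_zero]
  · intro i a
    rw [Equiv.ofBijective_apply]
    exact hFy i a

theorem param_conj {ζ : ℂ} (hζ : IsPrimitiveRoot ζ p) (f : ZMod p ≃ IrrS Q)
    (hf : ∀ (i : ZMod p) (a : ℕ), (f i).1 (y ^ a) = ζ ^ (i.val * a)) {t : K}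
    (ht : t ∈ Subgroup.normalizer (Q : Set K)) {c : ZMod p} (hc : t⁻¹ * y * t = y ^ c.val)
    (i : ZMod p) : cnj t (f i).1 = (f (c * i)).1 := by
  have hζp : ζ ^ p = 1 := hζ.pow_eq_one
  funext x
  rw [cnj_apply]
  have h2 := (Subgroup.mem_normalizer_iff''.1 ht x)
  by_cases hx : x ∈ Q
  · obtain ⟨a, rfl⟩ := mem_pow hQ hy hy1 hx
    have e1 : t⁻¹ * y ^ a * t = (t⁻¹ * y * t) ^ a := by
      have := conj_pow (i := a) (a := t⁻¹) (b := y)
      rw [inv_inv] at this
      exact this.symm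
    rw [e1, hc, ← pow_mul, hf, hf]
    apply pow_modEq hζp
    rw [ZMod.val_mul]
    have e2 : i.val * (c.val * a) = (c.val * i.val) * a := by ring
    rw [e2]
    exact Nat.ModEq.mul_right _ (Nat.mod_modEq _ _).symm
  · rw [(f i).2.2 _ (fun h => hx (h2.2 h)), (f (c * i)).2.2 _ hx]

theorem exists_exp {t : K} (ht : t ∈ Subgroup.normalizer (Q : Set K)) :
    ∃ c : (ZMod p)ˣ, t⁻¹ * y * t = y ^ (c : ZMod p).val := by
  have hyp := y_pow_p hQ hy
  have hmem : t⁻¹ * y * t ∈ Q := (Subgroup.mem_normalizer_iff''.1 ht y).1 hy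
  obtain ⟨a, ha⟩ := mem_pow hQ hy hy1 hmem
  have hval : y ^ ((a : ZMod p)).val = t⁻¹ * y * t := by
    rw [← ha, ZMod.val_natCast]
    exact pow_modEq hyp (Nat.mod_modEq _ _)
  have hne : (a : ZMod p) ≠ 0 := by
    intro h0
    rw [h0, ZMod.val_zero, pow_zero] at hval
    apply hy1
    have h1 : t * (t⁻¹ * y * t) * t⁻¹ = 1 := by rw [← hval]; group
    have h2 : t * (t⁻¹ * y * t) * t⁻¹ = y := by group
    rw [← h2, h1]
  exact ⟨Units.mk0 _ hne, by rw [Units.val_mk0, hval]⟩

theorem exists_E {T : Subgroup K} (hT : T ≤ Subgroup.normalizer (Q : Set K)) :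
    ∃ E : Subgroup (ZMod p)ˣ, ∀ c : (ZMod p)ˣ,
      c ∈ E ↔ ∃ t ∈ T, t⁻¹ * y * t = y ^ (c : ZMod p).val := by
  have hyp := y_pow_p hQ hy
  have hpow : ∀ (s : K) (a : ℕ), s⁻¹ * y ^ a * s = (s⁻¹ * y * s) ^ a := by
    intro s a
    have := conj_pow (i := a) (a := s⁻¹) (b := y)
    rw [inv_inv] at this
    exact this.symm
  refine ⟨{ carrier := {c | ∃ t ∈ T, t⁻¹ * y * t = y ^ (c : ZMod p).val}
            one_mem' := ⟨1, T.one_mem, ?_⟩
            mul_mem' := ?_
            inv_mem' := ?_ }, fun c => Iff.rfl⟩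
  · rintro c d ⟨t, ht, h1⟩ ⟨s, hs, h2⟩
    refine ⟨t * s, T.mul_mem ht hs, ?_⟩
    have e1 : (t * s)⁻¹ * y * (t * s) = s⁻¹ * (t⁻¹ * y * t) * s := by group
    rw [e1, h1, hpow, h2, ← pow_mul, Units.val_mul, ZMod.val_mul]
    apply pow_modEq hyp
    rw [mul_comm]
    exact (Nat.mod_modEq _ _).symm
  · rw [Units.val_one, ZMod.val_one, pow_one]
    group
  · rintro c ⟨t, ht, h1⟩
    refine ⟨t⁻¹, T.inv_mem ht, ?_⟩
    rw [inv_inv]
    have hz : (t * y * t⁻¹) ^ (c : ZMod p).val = y := by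
      rw [conj_pow, ← h1]
      group
    have hzp : (t * y * t⁻¹) ^ p = 1 := by
      rw [conj_pow, hyp]
      group
    have e2 : y ^ ((c⁻¹ : (ZMod p)ˣ) : ZMod p).val =
        (t * y * t⁻¹) ^ ((c : ZMod p).val * ((c⁻¹ : (ZMod p)ˣ) : ZMod p).val) := by
      rw [pow_mul, hz]
    rw [e2]
    have e3 : (c : ZMod p).val * ((c⁻¹ : (ZMod p)ˣ) : ZMod p).val ≡ 1 [MOD p] := by
      have e4 : ((c : ZMod p) * ((c⁻¹ : (ZMod p)ˣ) : ZMod p)).val = 1 := by
        rw [← Units.val_mul, mul_inv_cancel, Units.val_one, ZMod.val_one]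
      rw [ZMod.val_mul] at e4
      have hp1 : 1 < p := (Fact.out : p.Prime).one_lt
      unfold Nat.ModEq
      rw [e4, Nat.mod_eq_of_lt hp1]
    have e5 := pow_modEq hzp e3
    rw [e5, pow_one]

end Pool.Agent.Helper42.IR
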