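import Pool.Agent.Helper42.IR.Key35
import Pool.Agent.Helper42.IR.WtVec
import Pool.Agent.Helper42.IR.LA3
import Pool.Agent.Helper42.IR.ExtX
import Pool.Agent.Helper42.IR.MatUnits
import Pool.Agent.Helper42.IR.ValAlg

/-!
# IR-31 (project IR, section 3.5): multiplicities in a block differ by at most one

`rank_small`: apply `dim_ker_le` with `k = kk p` (algebraically closed: `isAlgClosed_kk`; characteristic
`p`), `W` the range of `E = toK (Eph R H φ)` in `k ^ n` (as a submodule of `Fin n → k`), `X` and `Φ` from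
`exists_compl`, `exists_Phi` (`d = deg φ`; reduce `Φ` by `toK`), the subgroup `H.subgroupOf X` of `X`,
`σ x` the restriction of `toK (R x)` to `W` (`toK (R x)` commutes with `E` for `x ∈ X ≤ T`: `Eph_comm`),
`s` the restriction of the map of `exists_s` to `W` (an algebra homomorphism since `s 1 = E` is the
identity on `W`), `u` the restriction of `wt k p (toK (R y))` to `W`. For `x ∈ X`,
`x y x⁻¹ = y ^ c` with `p ∤ c`, and `c` modulo `p` is a homomorphism `X → (ZMod p)ˣ → kˣ`; this is `τ`
(`wt_semi`). `u ^ p = 0` (`wt_pow_p`).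
The hypothesis `hkey`: given `π : W → W` commuting with `u` and the `σ x`, let `π'` be the matrix of
`v ↦ π (E v)`; `E π' = π' = π' E`; `π'` commutes with `toK (R x)` for `x ∈ X`, with `toK (R y)` by `wt_comm`
(in the algebra `End W`: `u = wt k p (restriction of toK (R y))`), so with `toK (R t)` for all
`t ∈ T = Q X`. Apply `key35`: `ker u` is the space of `v ∈ W` fixed by `toK (R y)` (`wt_unit`), and
`range (u ^ (p - 1))` is `N W`, `N = ∑ toK (R y) ^ j = nQ (redR R) Q` (`wt_pow`; the powers
`y ^ j`, `j < p`, are the elements of `Q`).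
Conclusion: `dim ker u ≤ deg φ + dim N W`, and `dim ker u = rank E - rank ((R y - 1) E)` by rank
nullity, `dim N W = rank (N E)`.
`cm_diff`: `aa_small`.
-/

namespace Pool.Agent.Helper42.IR

open Pool.Agent.Helper42.INC

/-! ### restriction of matrices to the range of an idempotent -/

section res

variable {F : Type} [Field F] {n : ℕ} (E : Matrix (Fin n) (Fin n) F)

/-- the range of `E` -/
private abbrev rgW : Submodule F (Fin n → F) := LinearMap.range E.mulVecLin

/-- the compression of a matrix to the range of `E` -/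
private noncomputable def res : Matrix (Fin n) (Fin n) F →ₗ[F] (rgW E →ₗ[F] rgW E) where
  toFun A := (E.mulVecLin.rangeRestrict).comp (A.mulVecLin.comp (rgW E).subtype)
  map_add' A B := by
    apply LinearMap.ext
    intro w
    apply Subtype.ext
    change E.mulVec ((A + B).mulVec (w : Fin n → F)) =
      E.mulVec (A.mulVec (w : Fin n → F)) + E.mulVec (B.mulVec (w : Fin n → F))
    rw [Matrix.add_mulVec, Matrix.mulVec_add]
  map_smul' c A := by
    apply LinearMap.ext
    intro w
    apply Subtype.ext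
    change E.mulVec ((c • A).mulVec (w : Fin n → F)) = c • E.mulVec (A.mulVec (w : Fin n → F))
    rw [Matrix.smul_mulVec, Matrix.mulVec_smul]

private lemma res_coe (A : Matrix (Fin n) (Fin n) F) (w : rgW E) :
    (res E A w : Fin n → F) = E.mulVec (A.mulVec (w : Fin n → F)) := rfl

variable {E} (hE : E * E = E)

include hE in
private lemma mem_rgW {v : Fin n → F} : v ∈ rgW E ↔ E.mulVec v = v := by
  constructor
  · rintro ⟨w, rfl⟩
    change E.mulVec (E.mulVec w) = E.mulVec w
    rw [Matrix.mulVec_mulVec, hE]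
  · intro h
    exact ⟨v, h⟩

include hE in
private lemma res_coe' {A : Matrix (Fin n) (Fin n) F} (hA : A * E = E * A) (w : rgW E) :
    (res E A w : Fin n → F) = A.mulVec (w : Fin n → F) := by
  rw [res_coe, Matrix.mulVec_mulVec, ← hA, ← Matrix.mulVec_mulVec, (mem_rgW hE).1 w.2]

include hE in
private lemma res_mul {A : Matrix (Fin n) (Fin n) F} (hA : A * E = E * A)
    (B : Matrix (Fin n) (Fin n) F) : res E (A * B) = res E A * res E B := by
  apply LinearMap.ext
  intro w
  apply Subtype.ext
  rw [Module.End.mul_apply, res_coe, res_coe' hE hA, res_coe, Matrix.mulVec_mulVec,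
    Matrix.mulVec_mulVec, Matrix.mulVec_mulVec, ← mul_assoc, hA]

include hE in
private lemma res_mul' (A : Matrix (Fin n) (Fin n) F) {B : Matrix (Fin n) (Fin n) F}
    (hB : B * E = E * B) : res E (A * B) = res E A * res E B := by
  apply LinearMap.ext
  intro w
  apply Subtype.ext
  rw [Module.End.mul_apply, res_coe, res_coe, res_coe' hE hB, ← Matrix.mulVec_mulVec _ A]

include hE in
private lemma res_one : res E 1 = 1 := by
  apply LinearMap.ext
  intro w
  apply Subtype.ext
  rw [res_coe, Matrix.one_mulVec, (mem_rgW hE).1 w.2]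
  rfl

include hE in
private lemma res_E : res E E = 1 := by
  apply LinearMap.ext
  intro w
  apply Subtype.ext
  rw [res_coe, (mem_rgW hE).1 w.2, (mem_rgW hE).1 w.2]
  rfl

variable (E) in
/-- a matrix extending an endomorphism of the range of `E` -/
private noncomputable def pull (π : rgW E →ₗ[F] rgW E) : Matrix (Fin n) (Fin n) F :=
  LinearMap.toMatrix' ((rgW E).subtype.comp (π.comp E.mulVecLin.rangeRestrict))

private lemma pull_mulVec (π : rgW E →ₗ[F] rgW E) (v : Fin n → F) :
    (pull E π).mulVec v = (π (E.mulVecLin.rangeRestrict v) : Fin n → F) := by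
  unfold pull
  rw [LinearMap.toMatrix'_mulVec]
  rfl

include hE in
private lemma rr_mulVec (v : Fin n → F) :
    E.mulVecLin.rangeRestrict (E.mulVec v) = E.mulVecLin.rangeRestrict v := by
  apply Subtype.ext
  change E.mulVec (E.mulVec v) = E.mulVec v
  rw [Matrix.mulVec_mulVec, hE]

include hE in
private lemma rr_coe (w : rgW E) : E.mulVecLin.rangeRestrict (w : Fin n → F) = w := by
  apply Subtype.ext
  change E.mulVec (w : Fin n → F) = w
  exact (mem_rgW hE).1 w.2

private lemma ext_mulVec {A B : Matrix (Fin n) (Fin n) F} (h : ∀ v, A.mulVec v = B.mulVec v) :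
    A = B := by
  apply Matrix.toLin'.injective
  apply LinearMap.ext
  intro v
  rw [Matrix.toLin'_apply, Matrix.toLin'_apply, h v]

include hE in
private lemma E_pull (π : rgW E →ₗ[F] rgW E) : E * pull E π = pull E π := by
  apply ext_mulVec
  intro v
  rw [← Matrix.mulVec_mulVec, pull_mulVec]
  exact (mem_rgW hE).1 (π _).2

include hE in
private lemma pull_E (π : rgW E →ₗ[F] rgW E) : pull E π * E = pull E π := by
  apply ext_mulVec
  intro v
  rw [← Matrix.mulVec_mulVec, pull_mulVec, pull_mulVec, rr_mulVec hE]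

include hE in
private lemma pull_comm (π : rgW E →ₗ[F] rgW E) {A : Matrix (Fin n) (Fin n) F}
    (hA : A * E = E * A) (h : π * res E A = res E A * π) : A * pull E π = pull E π * A := by
  apply ext_mulVec
  intro v
  rw [← Matrix.mulVec_mulVec, ← Matrix.mulVec_mulVec, pull_mulVec, pull_mulVec]
  have h1 : E.mulVecLin.rangeRestrict (A.mulVec v) = res E A (E.mulVecLin.rangeRestrict v) := by
    apply Subtype.ext
    rw [res_coe' hE hA]
    change E.mulVec (A.mulVec v) = A.mulVec (E.mulVec v)
    rw [Matrix.mulVec_mulVec, Matrix.mulVec_mulVec, hA]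
  rw [h1, ← Module.End.mul_apply, h, Module.End.mul_apply, res_coe' hE hA]

include hE in
private lemma pull_pow (π : rgW E →ₗ[F] rgW E) (j : ℕ) (w : rgW E) :
    (pull E π ^ j).mulVec (w : Fin n → F) = ((π ^ j) w : Fin n → F) := by
  induction j with
  | zero => rw [pow_zero, pow_zero, Matrix.one_mulVec]; rfl
  | succ j ih =>
    rw [pow_succ', pow_succ', ← Matrix.mulVec_mulVec, ih, pull_mulVec, rr_coe hE,
      Module.End.mul_apply]

include hE in
private lemma rank_res {A : Matrix (Fin n) (Fin n) F} (hA : A * E = E * A) :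
    (A * E).rank = Module.finrank F (LinearMap.range (res E A)) := by
  have h1 : LinearMap.range (A * E).mulVecLin =
      (LinearMap.range (res E A)).map (rgW E).subtype := by
    apply le_antisymm
    · rintro _ ⟨v, rfl⟩
      refine ⟨res E A (E.mulVecLin.rangeRestrict v), ⟨_, rfl⟩, ?_⟩
      change (res E A (E.mulVecLin.rangeRestrict v) : Fin n → F) = (A * E).mulVec v
      rw [res_coe' hE hA, ← Matrix.mulVec_mulVec]
      rfl
    · rintro _ ⟨_, ⟨w, rfl⟩, rfl⟩
      refine ⟨w, ?_⟩
      change (A * E).mulVec (w : Fin n → F) = (res E A w : Fin n → F)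
      rw [res_coe' hE hA, ← Matrix.mulVec_mulVec, (mem_rgW hE).1 w.2]
  unfold Matrix.rank
  rw [h1]
  exact (LinearEquiv.finrank_eq
    (Submodule.equivMapOfInjective (rgW E).subtype (rgW E).injective_subtype
      (LinearMap.range (res E A)))).symm

end res

private lemma unit_aux {A : Type} [Ring A] {x v w : A} (hwv : w * v = 1) (hvx : v * x = x * v) :
    w * ((x - 1) * v) = x - 1 ∧ (x - 1) * v = v * (x - 1) := by
  constructor
  · rw [sub_mul, one_mul, ← hvx, mul_sub, ← mul_assoc, hwv, one_mul]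
  · rw [sub_mul, one_mul, ← hvx, mul_sub, mul_one]

variable {p : ℕ} [Fact p.Prime] {K : Type} [Group K] [Finite K] {n : ℕ}
  (R : K →* Matrix (Fin n) (Fin n) (OO p)) {Q H : Subgroup K} (hL : Loc p (⊤ : Subgroup K) Q H)
include hL

theorem rank_small (hp2 : p ≠ 2) (hLoc : LocalR R) {φ : K → ℂ} (hφ : φ ∈ IrrS H) {y : K}
    (hy : y ∈ Q) (hy1 : y ≠ 1) :
    (toK (Eph R H φ)).rank ≤ (toK ((R y - 1) * Eph R H φ)).rank +
      (toK (nQ R Q * Eph R H φ)).rank + deg φ := by
  classical
  have hp : p.Prime := Fact.out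
  have : Fintype Q := Fintype.ofFinite Q
  have htop : ∀ t : K, t ∈ Subgroup.normalizer ((⊤ : Subgroup K) : Set K) := by
    intro t
    rw [Subgroup.mem_normalizer_iff]
    intro h
    simp
  have hNH : ∀ t ∈ Subgroup.normalizer (Q : Set K), t ∈ Subgroup.normalizer (H : Set K) :=
    fun t ht => Loc.norm_H hL (htop t) ht
  have hE : toK (Eph R H φ) * toK (Eph R H φ) = toK (Eph R H φ) := by
    rw [← toK_mul, Eph_mul_self R H hL.pH hφ]
  have hcT : ∀ t ∈ Subgroup.normalizer (Q : Set K) ⊓ stab φ,
      toK (R t) * toK (Eph R H φ) = toK (Eph R H φ) * toK (R t) := by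
    intro t ht
    rw [← toK_mul, ← toK_mul, Eph_comm R H hL.pH hφ (hNH t ht.1) ht.2]
  have hcQ : ∀ x ∈ Q, toK (R x) * toK (Eph R H φ) = toK (Eph R H φ) * toK (R x) := by
    intro x hx
    rw [← toK_mul, ← toK_mul, Eph_comm_centralizer R H hL.pH hφ]
    rw [Subgroup.mem_centralizer_iff]
    intro h hh
    exact (Loc.comm hL x hx h hh).symm
  obtain ⟨X, hHX, hX, hQX, hT, hpX⟩ := exists_compl hL hφ
  obtain ⟨Φ, hΦ⟩ := exists_Phi hL hφ hHX hX hpX
  have hXH : X ≤ Subgroup.normalizer (H : Set K) := fun x hx => hNH x (hX hx).1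
  obtain ⟨s, hs1, hsm, hsx, hsh, hsp⟩ := exists_s R hL.pH hHX hXH hφ Φ hΦ
  generalize hEdef : toK (Eph R H φ) = E at hE hcT hcQ hs1
  have hsE : ∀ A, s A * E = E * s A := by
    intro A
    rw [← hs1, ← hsm, ← hsm, mul_one, one_mul]
  -- powers of `R y`
  have hyE : ∀ j : ℕ, toK (R (y ^ j)) * E = E * toK (R (y ^ j)) :=
    fun j => hcQ _ (Q.pow_mem hy j)
  have hyE1 : toK (R y) * E = E * toK (R y) := hcQ _ hy
  have hypow : ∀ j : ℕ, res E (toK (R (y ^ j))) = (res E (toK (R y))) ^ j := by
    intro j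
    induction j with
    | zero => rw [pow_zero, pow_zero, map_one, toK_one, res_one hE]
    | succ j ih => rw [pow_succ, map_mul, toK_mul, res_mul hE (hyE j), ih, pow_succ]
  have hyp : y ^ p = 1 := by
    have h := pow_card_eq_one' (G := Q) (x := ⟨y, hy⟩)
    rw [hL.cQ] at h
    simpa using congrArg (Subtype.val) h
  have hord : orderOf y = p := orderOf_eq_prime hyp hy1
  have hxp : (res E (toK (R y))) ^ p = 1 := by
    rw [← hypow, hyp, map_one, toK_one, res_one hE]
  have hgen : ∀ x ∈ Q, ∃ j : ℕ, y ^ j = x := by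
    intro x hx
    have h1 : (⟨x, hx⟩ : Q) ∈ Submonoid.powers (⟨y, hy⟩ : Q) :=
      mem_powers_of_prime_card hL.cQ (by
        intro h2
        exact hy1 (congrArg Subtype.val h2))
    obtain ⟨j, hj⟩ := h1
    exact ⟨j, congrArg Subtype.val hj⟩
  -- the norm
  have hN : nQ (redR R) Q = ∑ j ∈ Finset.range p, toK (R (y ^ j)) := by
    unfold nQ
    rw [finsum_eq_sum_of_fintype]
    symm
    refine Finset.sum_bij (fun j _ => (⟨y ^ j, Q.pow_mem hy j⟩ : Q)) (fun j _ => Finset.mem_univ _)
      ?_ ?_ ?_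
    · intro a ha b hb hab
      have h1 : y ^ a = y ^ b := congrArg Subtype.val hab
      rw [pow_eq_pow_iff_modEq, hord] at h1
      exact h1.eq_of_lt_of_lt (Finset.mem_range.1 ha) (Finset.mem_range.1 hb)
    · intro x _
      obtain ⟨j, hj⟩ := hgen x x.2
      refine ⟨j % p, Finset.mem_range.2 (Nat.mod_lt _ hp.pos), ?_⟩
      apply Subtype.ext
      change y ^ (j % p) = (x : K)
      rw [← hj, ← hord, pow_mod_orderOf]
    · intro j _
      rfl
  have hNE : nQ (redR R) Q * E = E * nQ (redR R) Q := by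
    rw [hN, Finset.sum_mul, Finset.mul_sum]
    exact Finset.sum_congr rfl fun j _ => hyE j
  have hNres : res E (nQ (redR R) Q) = ∑ j ∈ Finset.range p, (res E (toK (R y))) ^ j := by
    rw [hN, map_sum]
    exact Finset.sum_congr rfl fun j _ => hypow j
  -- the action of `X` on `Q`
  have hcx : ∀ x : X, ∃ c : ℕ, (x : K) * y * (x : K)⁻¹ = y ^ c := by
    intro x
    have h1 : (x : K) * y * (x : K)⁻¹ ∈ Q :=
      ((Subgroup.mem_normalizer_iff.1 (hX x.2).1) y).1 hy
    obtain ⟨j, hj⟩ := hgen _ h1
    exact ⟨j, hj.symm⟩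
  choose c hc using hcx
  have hc0 : ∀ x, ¬ p ∣ c x := by
    intro x hx
    have h1 : y ^ c x = 1 := by
      rw [← orderOf_dvd_iff_pow_eq_one, hord]
      exact hx
    have h2 := hc x
    rw [h1] at h2
    apply hy1
    have h3 : (x : K) * y = (x : K) * 1 := by
      rw [mul_one]
      exact mul_inv_eq_one.1 h2
    exact mul_left_cancel h3
  have hcmul : ∀ x x' : X, (c (x * x') : kk p) = (c x : kk p) * c x' := by
    intro x x'
    rw [← Nat.cast_mul, CharP.natCast_eq_natCast (kk p) p, ← hord, ← pow_eq_pow_iff_modEq, ← hc,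
      pow_mul, ← hc x, Subgroup.coe_mul, mul_inv_rev]
    have h1 : ((x : K) * y * (x : K)⁻¹) ^ c x' = (x : K) * y ^ c x' * (x : K)⁻¹ := conj_pow
    rw [h1, ← hc x']
    group
  have hcone : (c 1 : kk p) = 1 := by
    have h1 : ((c 1 : ℕ) : kk p) = ((1 : ℕ) : kk p) := by
      rw [CharP.natCast_eq_natCast (kk p) p, ← hord, ← pow_eq_pow_iff_modEq, ← hc 1]
      simp
    rw [h1, Nat.cast_one]
  let τ : X →* (kk p)ˣ :=
    { toFun := fun x => Units.mk0 (c x : kk p) (by
        intro h
        exact hc0 x ((CharP.cast_eq_zero_iff (kk p) p (c x)).1 h))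
      map_one' := by
        apply Units.ext
        exact hcone
      map_mul' := by
        intro a b
        apply Units.ext
        exact hcmul a b }
  let σ : Representation (kk p) X (rgW E) :=
    { toFun := fun x => res E (toK (R (x : K)))
      map_one' := by
        rw [show ((1 : X) : K) = 1 from rfl, map_one, toK_one, res_one hE]
      map_mul' := by
        intro a b
        rw [Subgroup.coe_mul, map_mul, toK_mul, res_mul hE (hcT _ (hX a.2))] }
  let s' : Matrix (Fin (deg φ)) (Fin (deg φ)) (kk p) →ₐ[kk p] (rgW E →ₗ[kk p] rgW E) :=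
    AlgHom.ofLinearMap ((res E).comp s)
      (by
        change res E (s 1) = 1
        rw [hs1]
        exact res_E hE)
      (by
        intro A B
        change res E (s (A * B)) = res E (s A) * res E (s B)
        rw [hsm, res_mul hE (hsE A)])
  have hXcard : (Nat.card X : kk p) ≠ 0 := by
    intro h
    exact hpX ((CharP.cast_eq_zero_iff (kk p) p _).1 h)
  obtain ⟨v, w, hvw, hwv, hvx, hu⟩ :=
    wt_unit (k := kk p) (A := (rgW E →ₗ[kk p] rgW E)) hxp hp2
  obtain ⟨v', w', hvw', hwv', hvx', hup⟩ :=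
    wt_pow (k := kk p) (A := (rgW E →ₗ[kk p] rgW E)) hxp hp2
  have key := dim_ker_le hXcard σ p hp.two_le (H.subgroupOf X) s' (redR Φ) ?_ ?_ ?_ ?_ τ
    (wt (kk p) p (res E (toK (R y)))) ?_ (wt_pow_p hxp hp2) ?_
  · have e1 : LinearMap.ker (wt (kk p) p (res E (toK (R y)))) =
        LinearMap.ker (res E (toK (R y) - 1)) := by
      rw [map_sub, res_one hE]
      obtain ⟨h2, h3⟩ := unit_aux hwv hvx
      ext z
      rw [LinearMap.mem_ker, LinearMap.mem_ker]
      constructor
      · intro hz
        rw [← h2, ← hu, Module.End.mul_apply, hz, map_zero]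
      · intro hz
        rw [hu, h3, Module.End.mul_apply, hz, map_zero]
    have e2 : LinearMap.range (wt (kk p) p (res E (toK (R y))) ^ (p - 1)) =
        LinearMap.range (res E (nQ (redR R) Q)) := by
      rw [hup, hNres]
      apply le_antisymm
      · rintro _ ⟨z, rfl⟩
        exact ⟨v' z, rfl⟩
      · rintro _ ⟨z, rfl⟩
        refine ⟨w' z, ?_⟩
        rw [← Module.End.mul_apply, mul_assoc, hvw', mul_one]
    have e3 : (toK ((R y - 1) * Eph R H φ)).rank =
        Module.finrank (kk p) (LinearMap.range (res E (toK (R y) - 1))) := by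
      rw [toK_mul, toK_sub, toK_one, hEdef]
      apply rank_res hE
      rw [sub_mul, mul_sub, hyE1, one_mul, mul_one]
    have e4 : (toK (nQ R Q * Eph R H φ)).rank =
        Module.finrank (kk p) (LinearMap.range (res E (nQ (redR R) Q))) := by
      have e5 : toK (nQ R Q) = nQ (redR R) Q := by
        unfold nQ
        rw [finsum_eq_sum_of_fintype, finsum_eq_sum_of_fintype, toK_sum]
        rfl
      rw [toK_mul, e5, hEdef]
      exact rank_res hE hNE
    have e6 := LinearMap.finrank_range_add_finrank_ker (res E (toK (R y) - 1))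
    rw [e1, e2] at key
    have e7 : E.rank = Module.finrank (kk p) (rgW E) := rfl
    rw [e3, e4, e7]
    omega
  · -- `hs`
    intro x A
    change res E (toK (R (x : K))) * res E (s A) =
      res E (s (toK (Φ x) * A * toK (Φ x⁻¹))) * res E (toK (R (x : K)))
    rw [← res_mul hE (hcT _ (hX x.2)), ← res_mul hE (hsE _), hsx]
  · intro h hh
    change res E (toK (R ((h : X) : K))) = res E (s (toK (Φ h)))
    rw [← hsh h (Subgroup.mem_subgroupOf.1 hh), hs1, res_mul hE (hcT _ (hX h.2)), res_E hE,
      mul_one]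
  · intro A
    have h1 : s' A = res E (s A) := rfl
    rw [h1]
    have h2 := Submodule.mem_map_of_mem (f := res E) (hsp A)
    rw [Submodule.map_span] at h2
    refine Submodule.span_mono ?_ h2
    rintro _ ⟨_, ⟨h, rfl⟩, rfl⟩
    exact ⟨⟨⟨h, hHX h.2⟩, Subgroup.mem_subgroupOf.2 h.2⟩, rfl⟩
  · intro a b
    rw [Subgroup.mem_subgroupOf]
    exact X_commutator hL (fun x hx => (hX hx).1) hpX a.2 b.2
  · intro x
    refine wt_semi hxp (hc0 x) ?_
    change res E (toK (R (x : K))) * res E (toK (R y)) =
      res E (toK (R y)) ^ c x * res E (toK (R (x : K)))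
    rw [← hypow, ← res_mul hE (hcT _ (hX x.2)), ← res_mul hE (hyE _), ← toK_mul, ← toK_mul,
      ← map_mul, ← map_mul, ← hc x]
    congr 3
    group
  · -- `hkey`
    intro π hπu hπσ
    have hπy : π * res E (toK (R y)) = res E (toK (R y)) * π := wt_comm hxp hp2 hπu
    have hPX : ∀ x ∈ X, toK (R x) * pull E π = pull E π * toK (R x) := fun x hx =>
      pull_comm hE π (hcT _ (hX hx)) (hπσ ⟨x, hx⟩)
    have hPy : toK (R y) * pull E π = pull E π * toK (R y) := pull_comm hE π hyE1 hπy
    have hPyj : ∀ j : ℕ, toK (R (y ^ j)) * pull E π = pull E π * toK (R (y ^ j)) := by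
      intro j
      induction j with
      | zero => rw [pow_zero, map_one, toK_one, one_mul, mul_one]
      | succ j ih => rw [pow_succ, map_mul, toK_mul, mul_assoc, hPy, ← mul_assoc, ih, mul_assoc]
    have hPT : ∀ t ∈ Subgroup.normalizer (Q : Set K) ⊓ stab φ,
        toK (R t) * pull E π = pull E π * toK (R t) := by
      intro t ht
      obtain ⟨x, hx, z, hz, rfl⟩ := hT t ht
      obtain ⟨j, rfl⟩ := hgen x hx
      rw [map_mul, toK_mul, mul_assoc, hPX z hz, ← mul_assoc, hPyj, mul_assoc]
    have hker : ∀ z : rgW E, wt (kk p) p (res E (toK (R y))) z = 0 →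
        (toK (R y)).mulVec (z : Fin n → kk p) = z := by
      intro z hz
      have h1 : (res E (toK (R y)) - 1) z = 0 := by
        obtain ⟨h2, -⟩ := unit_aux hwv hvx
        rw [← h2, ← hu, Module.End.mul_apply, hz, map_zero]
      have h3 : res E (toK (R y)) z = z := sub_eq_zero.1 h1
      have h4 := congrArg (Subtype.val) h3
      rw [res_coe' hE hyE1] at h4
      exact h4
    have hran : ∀ z : rgW E, res E (nQ (redR R) Q) z ∈
        LinearMap.range (wt (kk p) p (res E (toK (R y))) ^ (p - 1)) := by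
      intro z
      refine ⟨w' z, ?_⟩
      rw [hup, hNres, ← Module.End.mul_apply, mul_assoc, hvw', mul_one]
    have hkey35 := key35 R hL hLoc hφ hy hy1 (pull E π) (by rw [hEdef]; exact E_pull hE π)
      (by rw [hEdef]; exact pull_E hE π) hPT
    rw [hEdef] at hkey35
    rcases hkey35 with ⟨j, hj⟩ | h
    · left
      refine ⟨j, fun z hz => ?_⟩
      obtain ⟨w1, hw1, hw2⟩ := hj z (hker z hz) ((mem_rgW hE).1 z.2)
      rw [pull_pow hE] at hw2
      have h1 : (π ^ j) z = res E (nQ (redR R) Q) ⟨w1, (mem_rgW hE).2 hw1⟩ := by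
        apply Subtype.ext
        rw [res_coe' hE hNE]
        exact hw2
      rw [h1]
      exact hran _
    · right
      intro z hz hπz
      have h0 : (pull E π).mulVec (z : Fin n → kk p) = 0 := by
        rw [pull_mulVec, rr_coe hE, hπz]
        rfl
      obtain ⟨w1, hw1, hw2⟩ := h z (hker z hz) ((mem_rgW hE).1 z.2) h0
      have h1 : z = res E (nQ (redR R) Q) ⟨w1, (mem_rgW hE).2 hw1⟩ := by
        apply Subtype.ext
        rw [res_coe' hE hNE]
        exact hw2
      rw [h1]
      exact hran _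

theorem cm_diff (hp2 : p ≠ 2) (hLoc : LocalR R) {φ : K → ℂ} (hφ : φ ∈ IrrS H)
    {lam lam' : K → ℂ} (hl : lam ∈ IrrS Q) (hl' : lam' ∈ IrrS Q) {m m' : ℕ}
    (hm : cm Q H (chR R) lam φ = m) (hm' : cm Q H (chR R) lam' φ = m') : m ≤ m' + 1 := by
  have hp : p.Prime := Fact.out
  have hnt : ∃ y ∈ Q, y ≠ 1 := by
    by_contra hc
    push Not at hc
    have h1 : Nat.card Q = 1 := by
      rw [Subgroup.card_eq_one]
      exact (Subgroup.eq_bot_iff_forall Q).2 hc
    rw [hL.cQ] at h1
    exact hp.one_lt.ne' h1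
  obtain ⟨y, hy, hy1⟩ := hnt
  exact aa_small R hL hφ hy hy1 (rank_small R hL hp2 hLoc hφ hy hy1) hl hl' hm hm'

end Pool.Agent.Helper42.IR
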