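import Pool.Agent.Helper42.IR.Val

/-!
# IR-10 (project IR): commuting integral matrices are scalars; basic facts about `toC`, `toK`

`scalarR`: `toC G` commutes with all `toC (R g)`, so `toC G = c • 1`; `0 < n`, so `c` is a diagonal
entry of `toC G`, hence in `OO p`; `toC` is injective.
`chR_one`: the degree. `toC`, `toK` are multiplicative, additive, unital (they are the maps
`RingHom.mapMatrix`), `toC` is injective, `trace` commutes with them.
-/

namespace Pool.Agent.Helper42.IR

open Pool.Agent.Helper42.INC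

variable {p : ℕ} [Fact p.Prime] {n : ℕ}

lemma toC_inj {A A' : Matrix (Fin n) (Fin n) (OO p)} (h : toC A = toC A') : A = A' := by
  ext i j
  have h1 := congrFun (congrFun h i) j
  simpa [toC] using h1

lemma toC_mul (A A' : Matrix (Fin n) (Fin n) (OO p)) : toC (A * A') = toC A * toC A' := by
  exact map_mul ((algebraMap (OO p) ℂ).mapMatrix) A A'

lemma toC_add (A A' : Matrix (Fin n) (Fin n) (OO p)) : toC (A + A') = toC A + toC A' := by
  exact map_add ((algebraMap (OO p) ℂ).mapMatrix) A A'

lemma toC_sub (A A' : Matrix (Fin n) (Fin n) (OO p)) : toC (A - A') = toC A - toC A' := by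
  exact map_sub ((algebraMap (OO p) ℂ).mapMatrix) A A'

lemma toC_sum {ι : Type} (s : Finset ι) (A : ι → Matrix (Fin n) (Fin n) (OO p)) :
    toC (∑ i ∈ s, A i) = ∑ i ∈ s, toC (A i) := by
  exact map_sum ((algebraMap (OO p) ℂ).mapMatrix) A s

lemma toC_smul (c : OO p) (A : Matrix (Fin n) (Fin n) (OO p)) :
    toC (c • A) = (c : ℂ) • toC A := by
  ext i j
  simp only [toC, Matrix.map_apply, Matrix.smul_apply, smul_eq_mul, map_mul]
  rfl

@[simp] lemma toC_one : toC (1 : Matrix (Fin n) (Fin n) (OO p)) = 1 := by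
  exact map_one ((algebraMap (OO p) ℂ).mapMatrix)

lemma toK_mul (A A' : Matrix (Fin n) (Fin n) (OO p)) : toK (A * A') = toK A * toK A' := by
  exact map_mul ((IsLocalRing.residue (OO p)).mapMatrix) A A'

lemma toK_add (A A' : Matrix (Fin n) (Fin n) (OO p)) : toK (A + A') = toK A + toK A' := by
  exact map_add ((IsLocalRing.residue (OO p)).mapMatrix) A A'

lemma toK_sub (A A' : Matrix (Fin n) (Fin n) (OO p)) : toK (A - A') = toK A - toK A' := by
  exact map_sub ((IsLocalRing.residue (OO p)).mapMatrix) A A'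

lemma toK_sum {ι : Type} (s : Finset ι) (A : ι → Matrix (Fin n) (Fin n) (OO p)) :
    toK (∑ i ∈ s, A i) = ∑ i ∈ s, toK (A i) := by
  exact map_sum ((IsLocalRing.residue (OO p)).mapMatrix) A s

lemma toK_smul (c : OO p) (A : Matrix (Fin n) (Fin n) (OO p)) :
    toK (c • A) = (IsLocalRing.residue (OO p) c) • toK A := by
  ext i j
  simp only [toK, Matrix.map_apply, Matrix.smul_apply, smul_eq_mul, map_mul]

@[simp] lemma toK_one : toK (1 : Matrix (Fin n) (Fin n) (OO p)) = 1 := by
  exact map_one ((IsLocalRing.residue (OO p)).mapMatrix)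

lemma trace_toC (A : Matrix (Fin n) (Fin n) (OO p)) : (toC A).trace = (A.trace : ℂ) := by
  have h : (toC A).trace = algebraMap (OO p) ℂ A.trace := by
    simp only [Matrix.trace, Matrix.diag, toC, Matrix.map_apply, map_sum]
  rw [h]
  rfl

lemma trace_toK (A : Matrix (Fin n) (Fin n) (OO p)) :
    (toK A).trace = IsLocalRing.residue (OO p) A.trace := by
  simp only [Matrix.trace, Matrix.diag, toK, Matrix.map_apply, map_sum]

lemma chR_one {K : Type} [Group K] (R : K →* Matrix (Fin n) (Fin n) (OO p)) :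
    chR R 1 = n := by
  unfold chR
  rw [map_one, ← trace_toC, toC_one, Matrix.trace_one, Fintype.card_fin]

theorem scalarR {K : Type} [Group K] (R : K →* Matrix (Fin n) (Fin n) (OO p)) (hR : SchurR R)
    (G : Matrix (Fin n) (Fin n) (OO p)) (hG : ∀ g, G * R g = R g * G) :
    ∃ c : OO p, G = c • (1 : Matrix (Fin n) (Fin n) (OO p)) := by
  obtain ⟨hn, h⟩ := hR
  obtain ⟨c, hc⟩ := h (toC G) (fun g => by rw [← toC_mul, ← toC_mul, hG g])
  let i0 : Fin n := ⟨0, hn⟩
  have h1 : toC G i0 i0 = c := by rw [hc]; simp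
  refine ⟨G i0 i0, ?_⟩
  apply toC_inj
  rw [toC_smul, toC_one, hc]
  congr 1
  rw [← h1]
  rfl

end Pool.Agent.Helper42.IR
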