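import Pool.Agent.Helper42.IR.PS

/-!
# IR-33 (project IR, section 3.6): the combinatorial shape theorem

`e = |E|`, `p - 1 = e X`. `M0 = {i | c i = c0 + 1}`, `E`-stable, neither empty nor everything.
`∑_{i : ZMod p} i ^ m = 0` in `ZMod p` for `0 < m < p - 1` (Mathlib: `FiniteField.sum_pow_lt_card_sub_one`),
so for `1 ≤ j ≤ X - 1`: `∑ c i i ^ (e j) = ∑_{i ∈ M0} i ^ (e j) = ∑_{i ∈ M0, i ≠ 0} i ^ (e j)`, and
`∑ c i = |M0|` in `ZMod p`. The map `i ↦ i ^ e` on `(ZMod p)ˣ` (cyclic) has kernel `E` (the kernel has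
order `e` and contains `E`, by Lagrange) and its values satisfy `g ^ X = 1`. So if `M ⊆ ZMod p` is the
set of the `i ^ e`, `i ∈ M0 \ 0`: `∑_{i ∈ M0, i ≠ 0} i ^ (e j) = e ∑_{g ∈ M} g ^ j`,
`|M0 \ 0| = e |M|` and `M0 \ 0` is the full preimage of `M`.

Case `0 ∉ M0` (`c 0 = c0`): `M` is not empty, `|M0| = e |M|`; `hps` gives (cancel `e ^ 2`)
`|M| P_{j+l} = P_j P_l` for `j + l ≤ X - 1`; `ps_card` (`|M| ≤ X ≤ p - 1`): `|M| = 1` or `|M| ≥ X`, hence
`|M| = X` (`M` is contained in the `X`-element set of the `g` with `g ^ X = 1`). If `|M| = X` then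
`M0 = all i ≠ 0` and the first alternative holds with `ε = 1`; if `|M| = 1`, `M0` is one coset
`E i0` and the second alternative holds with `ε = 1`.
Case `0 ∈ M0` (`c 0 = c0 + 1`): put `M' = {g | g ^ X = 1} \ M`, not empty (`M0` is not everything).
`∑_{g ^ X = 1} g ^ j = 0` for `1 ≤ j ≤ X - 1`, so the power sums of `M'` are `-P_j`;
`|M0| = 1 + e |M| = 1 + e (X - |M'|) = p - e |M'| = - e |M'|` in `ZMod p`, so
`|M'| P'_{j+l} = P'_j P'_l`. Again `|M'| = 1` or `X`. Now `c i - c 0 = -1` for `i ∉ M0`, `0` for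
`i ∈ M0`: the alternatives hold with `ε = -1`.

In the formal proof both cases are treated at once, with the set `M` of the `i` with `c i ≠ c 0`.
-/

namespace Pool.Agent.Helper42.IR

/-- a subgroup of order `e` of the units of `ZMod p` contains all `e`-th roots of unity -/
private lemma mem_of_pow_card {p : ℕ} [Fact p.Prime] (E : Subgroup (ZMod p)ˣ) (u : (ZMod p)ˣ)
    (hu : u ^ Nat.card E = 1) : u ∈ E := by
  classical
  have he0 : 0 < Nat.card E := Nat.card_pos
  have h1 : (Finset.univ.filter (fun a : (ZMod p)ˣ => a ^ Nat.card E = 1)).card ≤ Nat.card E :=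
    IsCyclic.card_pow_eq_one_le he0
  have h2 : (Finset.univ.filter (fun a : (ZMod p)ˣ => a ∈ E)) ⊆
      Finset.univ.filter (fun a : (ZMod p)ˣ => a ^ Nat.card E = 1) := by
    intro a ha
    rw [Finset.mem_filter] at ha ⊢
    refine ⟨Finset.mem_univ _, ?_⟩
    have h3 : (⟨a, ha.2⟩ : E) ^ Nat.card E = 1 := pow_card_eq_one'
    exact congrArg Subtype.val h3
  have h4 : (Finset.univ.filter (fun a : (ZMod p)ˣ => a ∈ E)).card = Nat.card E := by
    rw [Nat.card_eq_fintype_card, Fintype.card_subtype]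
  have h5 := Finset.eq_of_subset_of_card_le h2 (by rw [h4]; exact h1)
  have h6 : u ∈ Finset.univ.filter (fun a : (ZMod p)ˣ => a ^ Nat.card E = 1) := by
    rw [Finset.mem_filter]
    exact ⟨Finset.mem_univ _, hu⟩
  rw [← h5, Finset.mem_filter] at h6
  exact h6.2

theorem shape_comb {p : ℕ} [Fact p.Prime] (E : Subgroup (ZMod p)ˣ) (c : ZMod p → ℕ)
    (hc : ∀ u ∈ E, ∀ i : ZMod p, c ((u : ZMod p) * i) = c i) (c0 : ℕ)
    (h0 : ∀ i, c i = c0 ∨ c i = c0 + 1) (h1 : ∃ i, c i = c0) (h2 : ∃ i, c i = c0 + 1)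
    (hps : ∀ j l : ℕ, 1 ≤ j → 1 ≤ l → Nat.card E * (j + l) < p - 1 →
      (∑ i, (c i : ZMod p)) * ∑ i, (c i : ZMod p) * i ^ (Nat.card E * (j + l)) =
        (∑ i, (c i : ZMod p) * i ^ (Nat.card E * j)) *
          ∑ i, (c i : ZMod p) * i ^ (Nat.card E * l)) :
    ∃ ε : ℤ, (ε = 1 ∨ ε = -1) ∧ ((∀ i, i ≠ 0 → (c i : ℤ) - c 0 = ε) ∨
      ∃ i0 : ZMod p, i0 ≠ 0 ∧ ∀ i, i ≠ 0 →
        ((∃ u ∈ E, i = (u : ZMod p) * i0) → (c i : ℤ) - c 0 = ε) ∧
        ((¬ ∃ u ∈ E, i = (u : ZMod p) * i0) → (c i : ℤ) - c 0 = 0)) := by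
  classical
  have hp : p.Prime := Fact.out
  have he0 : 0 < Nat.card E := Nat.card_pos
  have hdvd : Nat.card E ∣ p - 1 := by
    have h3 := Subgroup.card_subgroup_dvd_card E
    rwa [Nat.card_eq_fintype_card (α := (ZMod p)ˣ), ZMod.card_units p] at h3
  obtain ⟨X, hX⟩ := hdvd
  generalize hee : Nat.card E = e at *
  have hp1 : 0 < p - 1 := Nat.sub_pos_of_lt hp.one_lt
  have hX0 : 0 < X := by
    rcases Nat.eq_zero_or_pos X with h | h
    · rw [h, mul_zero] at hX
      omega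
    · exact h
  -- the sign and the set of the values different from `c 0`
  obtain ⟨ε, hε, hcε⟩ : ∃ ε : ℤ, (ε = 1 ∨ ε = -1) ∧ ∀ i, c i ≠ c 0 → (c i : ℤ) - c 0 = ε := by
    rcases h0 0 with h | h
    · refine ⟨1, Or.inl rfl, fun i hi => ?_⟩
      rcases h0 i with h3 | h3
      · exact absurd (h3.trans h.symm) hi
      · rw [h3, h]; push_cast; ring
    · refine ⟨-1, Or.inr rfl, fun i hi => ?_⟩
      rcases h0 i with h3 | h3
      · rw [h3, h]; push_cast; ring
      · exact absurd (h3.trans h.symm) hi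
  have hεε : (ε : ZMod p) * (ε : ZMod p) = 1 := by
    rcases hε with h | h <;> rw [h] <;> simp
  set M : Finset (ZMod p) := Finset.univ.filter (fun i => c i ≠ c 0) with hM
  have hMm : ∀ i, i ∈ M ↔ c i ≠ c 0 := fun i => by rw [hM, Finset.mem_filter]; simp
  have hM0 : ∀ i ∈ M, i ≠ 0 := by
    rintro i hi rfl
    exact (hMm 0).1 hi rfl
  have hMne : M.Nonempty := by
    obtain ⟨a, ha⟩ := h1
    obtain ⟨b, hb⟩ := h2
    rcases h0 0 with h | h
    · exact ⟨b, (hMm b).2 (by omega)⟩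
    · exact ⟨a, (hMm a).2 (by omega)⟩
  have hcast : ∀ i, (c i : ZMod p) = (c 0 : ZMod p) + (ε : ZMod p) * (if i ∈ M then 1 else 0) := by
    intro i
    by_cases hi : i ∈ M
    · rw [if_pos hi, mul_one]
      have h3 := hcε i ((hMm i).1 hi)
      have h4 : ((c i : ℤ) : ZMod p) = ((c 0 + ε : ℤ) : ZMod p) := by
        congr 1
        linarith
      push_cast at h4
      exact h4
    · rw [if_neg hi, mul_zero, add_zero]
      rw [hMm, not_not] at hi
      rw [hi]
  have hsum0 : ∑ i, (c i : ZMod p) = (ε : ZMod p) * (M.card : ZMod p) := by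
    rw [Finset.sum_congr rfl (fun i _ => hcast i), Finset.sum_add_distrib, ← Finset.mul_sum]
    rw [Finset.sum_const, Finset.card_univ, ZMod.card, nsmul_eq_mul, CharP.cast_eq_zero, zero_mul,
      zero_add, Finset.sum_boole]
    congr 3
    ext i
    simp
  have hsumm : ∀ m : ℕ, 0 < m → m < p - 1 →
      ∑ i, (c i : ZMod p) * i ^ m = (ε : ZMod p) * ∑ i ∈ M, i ^ m := by
    intro m hm hm'
    have h3 : ∀ i : ZMod p, (c i : ZMod p) * i ^ m =
        (c 0 : ZMod p) * i ^ m + (ε : ZMod p) * (if i ∈ M then i ^ m else 0) := by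
      intro i
      rw [hcast i]
      by_cases hi : i ∈ M
      · rw [if_pos hi, if_pos hi]; ring
      · rw [if_neg hi, if_neg hi]; ring
    rw [Finset.sum_congr rfl (fun i _ => h3 i), Finset.sum_add_distrib, ← Finset.mul_sum,
      ← Finset.mul_sum, FiniteField.sum_pow_lt_card_sub_one (ZMod p) m (by rw [ZMod.card]; exact hm'),
      mul_zero, zero_add, Finset.sum_ite_mem, Finset.univ_inter]
  have hps' : ∀ j l : ℕ, 1 ≤ j → 1 ≤ l → e * (j + l) < p - 1 →
      (M.card : ZMod p) * ∑ i ∈ M, i ^ (e * (j + l)) =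
        (∑ i ∈ M, i ^ (e * j)) * ∑ i ∈ M, i ^ (e * l) := by
    intro j l hj hl hjl
    have h3 := hps j l hj hl hjl
    have hj' : e * j < p - 1 := lt_of_le_of_lt (Nat.mul_le_mul_left e (Nat.le_add_right j l)) hjl
    have hl' : e * l < p - 1 := lt_of_le_of_lt (Nat.mul_le_mul_left e (Nat.le_add_left l j)) hjl
    rw [hsum0, hsumm _ (Nat.mul_pos he0 (by omega)) hjl, hsumm _ (Nat.mul_pos he0 hj) hj',
      hsumm _ (Nat.mul_pos he0 hl) hl'] at h3
    have h4 : ∀ a b : ZMod p, ((ε : ZMod p) * a) * ((ε : ZMod p) * b) = a * b := by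
      intro a b
      calc ((ε : ZMod p) * a) * ((ε : ZMod p) * b) = ((ε : ZMod p) * (ε : ZMod p)) * (a * b) := by
            ring
        _ = a * b := by rw [hεε, one_mul]
    rwa [h4, h4] at h3
  -- the fibres of `i ↦ i ^ e`
  have hpowE : ∀ u ∈ E, (u : ZMod p) ^ e = 1 := by
    intro u hu
    have h3 : (⟨u, hu⟩ : E) ^ Nat.card E = 1 := pow_card_eq_one'
    have h4 : u ^ e = 1 := by
      rw [← hee]
      exact congrArg Subtype.val h3
    have h5 := congrArg (Units.val : (ZMod p)ˣ → ZMod p) h4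
    simpa using h5
  have hfib : ∀ i i0 : ZMod p, i ≠ 0 → i0 ≠ 0 → i ^ e = i0 ^ e → ∃ u ∈ E, i = (u : ZMod p) * i0 := by
    intro i i0 hi hi0 h3
    refine ⟨Units.mk0 i hi * (Units.mk0 i0 hi0)⁻¹, mem_of_pow_card E _ ?_, ?_⟩
    · rw [hee, mul_pow, inv_pow, mul_inv_eq_one]
      apply Units.ext
      simpa using h3
    · simp [hi0]
  have hMst : ∀ u ∈ E, ∀ i, i ∈ M → (u : ZMod p) * i ∈ M := by
    intro u hu i hi
    rw [hMm] at hi ⊢
    rw [hc u hu i]
    exact hi
  set N : Finset (ZMod p) := M.image (fun i => i ^ e) with hN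
  have hNfib : ∀ g ∈ N, (M.filter (fun i => i ^ e = g)).card = e := by
    intro g hg
    rw [hN, Finset.mem_image] at hg
    obtain ⟨i0, hi0, rfl⟩ := hg
    have h3 : M.filter (fun i => i ^ e = i0 ^ e) =
        (Finset.univ : Finset E).image (fun u : E => ((u : (ZMod p)ˣ) : ZMod p) * i0) := by
      ext i
      rw [Finset.mem_filter, Finset.mem_image]
      constructor
      · rintro ⟨hi, hi'⟩
        obtain ⟨u, hu, hui⟩ := hfib i i0 (hM0 i hi) (hM0 i0 hi0) hi'
        exact ⟨⟨u, hu⟩, Finset.mem_univ _, hui.symm⟩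
      · rintro ⟨⟨u, hu⟩, -, rfl⟩
        refine ⟨hMst u hu i0 hi0, ?_⟩
        change ((u : ZMod p) * i0) ^ e = i0 ^ e
        rw [mul_pow, hpowE u hu, one_mul]
    rw [h3, Finset.card_image_of_injective, Finset.card_univ, ← Nat.card_eq_fintype_card, hee]
    intro u v huv
    have h4 : ((u : (ZMod p)ˣ) : ZMod p) = ((v : (ZMod p)ˣ) : ZMod p) :=
      mul_right_cancel₀ (hM0 i0 hi0) huv
    exact Subtype.ext (Units.ext h4)
  have hMcard : M.card = e * N.card := by
    rw [Finset.card_eq_sum_card_image (fun i : ZMod p => i ^ e) M]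
    rw [Finset.sum_congr rfl (fun g hg => hNfib g hg), Finset.sum_const, smul_eq_mul, mul_comm]
  have hMsum : ∀ j : ℕ, ∑ i ∈ M, i ^ (e * j) = (e : ZMod p) * ∑ g ∈ N, g ^ j := by
    intro j
    have h3 : ∑ i ∈ M, i ^ (e * j) = ∑ i ∈ M, (fun g : ZMod p => g ^ j) (i ^ e) :=
      Finset.sum_congr rfl (fun i _ => by rw [pow_mul])
    rw [h3, Finset.sum_comp (fun g : ZMod p => g ^ j) (fun i : ZMod p => i ^ e), Finset.mul_sum]
    refine Finset.sum_congr rfl (fun g hg => ?_)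
    rw [hNfib g hg, nsmul_eq_mul]
  have hNne : N.Nonempty := hMne.image _
  have hMle : M.card ≤ p - 1 := by
    have h3 : M ⊆ Finset.univ.erase 0 := fun i hi =>
      Finset.mem_erase.2 ⟨hM0 i hi, Finset.mem_univ _⟩
    have h4 := Finset.card_le_card h3
    rwa [Finset.card_erase_of_mem (Finset.mem_univ _), Finset.card_univ, ZMod.card] at h4
  have hcastne : ∀ n : ℕ, 0 < n → n ≤ p - 1 → (n : ZMod p) ≠ 0 := by
    intro n hn hn' h3
    rw [ZMod.natCast_eq_zero_iff] at h3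
    have := Nat.le_of_dvd hn h3
    omega
  have hNle : N.card ≤ X := by
    have h3 : e * N.card ≤ e * X := by
      rw [← hMcard, ← hX]
      exact hMle
    exact Nat.le_of_mul_le_mul_left h3 he0
  have hXle : X ≤ p - 1 := by
    rw [hX]
    exact Nat.le_mul_of_pos_left X he0
  have hele : e ≤ p - 1 := by
    rw [hX]
    exact Nat.le_mul_of_pos_right e hX0
  have hene : (e : ZMod p) ≠ 0 := hcastne e he0 hele
  have hkey := ps_card N X hNne (hcastne _ hNne.card_pos (hNle.trans hXle)) (by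
    intro j l hj hl hjl
    have h3 := hps' j l hj hl (by
      rw [hX]
      exact Nat.mul_lt_mul_of_pos_left (by omega) he0)
    rw [hMcard, hMsum, hMsum, hMsum] at h3
    push_cast at h3
    have h4 : ((e : ZMod p) * (e : ZMod p)) * ((N.card : ZMod p) * ∑ g ∈ N, g ^ (j + l)) =
        ((e : ZMod p) * (e : ZMod p)) * ((∑ g ∈ N, g ^ j) * ∑ g ∈ N, g ^ l) := by
      calc _ = (e : ZMod p) * (N.card : ZMod p) * ((e : ZMod p) * ∑ g ∈ N, g ^ (j + l)) := by ring
        _ = (e : ZMod p) * (∑ g ∈ N, g ^ j) * ((e : ZMod p) * ∑ g ∈ N, g ^ l) := h3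
        _ = _ := by ring
    exact mul_left_cancel₀ (mul_ne_zero hene hene) h4)
  refine ⟨ε, hε, ?_⟩
  rcases hkey with hk | hk
  · -- one coset
    right
    obtain ⟨i0, hi0⟩ := hMne
    refine ⟨i0, hM0 i0 hi0, fun i hi => ⟨?_, ?_⟩⟩
    · rintro ⟨u, hu, rfl⟩
      exact hcε _ ((hMm _).1 (hMst u hu i0 hi0))
    · intro h3
      by_contra h4
      have h5 : i ∈ M := by
        rw [hMm]
        intro h6
        rw [h6, sub_self] at h4
        exact h4 rfl
      obtain ⟨g, hg⟩ := Finset.card_eq_one.1 hk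
      have h6 : i ^ e ∈ N := Finset.mem_image_of_mem _ h5
      have h7 : i0 ^ e ∈ N := Finset.mem_image_of_mem _ hi0
      rw [hg, Finset.mem_singleton] at h6 h7
      exact h3 (hfib i i0 hi (hM0 i0 hi0) (h6.trans h7.symm))
  · -- all nonzero elements
    left
    intro i hi
    have h3 : M = Finset.univ.erase 0 := by
      apply Finset.eq_of_subset_of_card_le
      · exact fun i hi => Finset.mem_erase.2 ⟨hM0 i hi, Finset.mem_univ _⟩
      · rw [Finset.card_erase_of_mem (Finset.mem_univ _), Finset.card_univ, ZMod.card, hMcard, hX]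
        exact Nat.mul_le_mul_left e hk
    have h4 : i ∈ M := by
      rw [h3]
      exact Finset.mem_erase.2 ⟨hi, Finset.mem_univ _⟩
    exact hcε i ((hMm i).1 h4)

end Pool.Agent.Helper42.IR
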