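import Pool.Agent.Helper42.IR.Val

/-!
# IR-34 (project IR, section 3.6): the valuation of `ζ ^ k - 1`

`z ∈ OO p` a primitive `p`-th root of unity (as a complex number).

* `z_sub_mem`: the residue of `z` is `1` since `(z - 1) ^ p` has residue `z ^ p - 1 = 0`
  (characteristic `p`).
* `z_pow`: `z ^ k - 1 = (z - 1)(1 + z + ... + z ^ (k-1))` and the second factor is `k` plus an element
  of the maximal ideal.
* `p_eq`: `p = ∏_{k=1}^{p-1} (1 - z ^ k)` (value at `1` of the cyclotomic polynomial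
  `∑ X ^ k = ∏ (X - z ^ k)`, an identity in `ℂ`) and `1 - z ^ k = (z - 1) · unit` for
  `1 ≤ k ≤ p - 1` (`-k` is a unit modulo the maximal ideal).
* `zz_eq`: `zz z E i = ∏_{u ∈ E} (z ^ (u i).val - 1) = (z - 1) ^ e ∏ ((u i).val + w_u)`, and the residue
  of `∏ (u i).val` is the image of `∏_{u ∈ E} (u i) = (∏ u) i ^ e` under `ZMod p → kk p`
  (`ZMod.castHom`, `ZMod.natCast_val`). Here `κ = ∏_{u ∈ E} u` is independent of `i`.
* `ps_of_trace`: for `1 ≤ j, l` with `e (j + l) < p - 1`. Let `κ' ≠ 0` be the image of `κ`,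
  `s_m = ∑ c i i ^ (e m) ∈ ZMod p`. By `zz_eq`: `∑ c i zz i ^ m = (z-1)^(e m) (κ'^m s_m + ..)`, i.e. it
  is `(z - 1) ^ (e m)` times an element with residue `κ' ^ m s_m`. By `p_eq`
  `p w = (z - 1) ^ (p - 1) v w`; cancel `(z - 1) ^ (e (j + l))` in the hypothesis (`OO p` is a domain)
  and take residues: `(∑ c i) κ' ^ (j+l) s_{j+l} = κ' ^ (j+l) s_j s_l` since
  `p - 1 - e (j + l) > 0`. Finally `ZMod p → kk p` is injective.
-/

namespace Pool.Agent.Helper42.IR

open Pool.Agent.Helper42.INC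

variable {p : ℕ} [Fact p.Prime] {z : OO p} (hz : IsPrimitiveRoot (z : ℂ) p)
include hz

theorem z_pow_eq_one : z ^ p = 1 := by
  apply Subtype.ext
  push_cast
  exact hz.pow_eq_one

theorem z_sub_mem : z - 1 ∈ IsLocalRing.maximalIdeal (OO p) := by
  have hp : p.Prime := Fact.out
  rw [← IsLocalRing.residue_eq_zero_iff]
  have h1 : (IsLocalRing.residue (OO p) (z - 1)) ^ p = 0 := by
    rw [map_sub, sub_pow_char, ← map_pow, z_pow_eq_one hz, map_one, one_pow, sub_self]
  exact pow_eq_zero_iff hp.ne_zero |>.1 h1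

theorem z_sub_ne : z - 1 ≠ 0 := by
  have hp : p.Prime := Fact.out
  intro h
  have h1 : z = 1 := sub_eq_zero.1 h
  apply hz.ne_one hp.one_lt
  rw [h1]
  rfl

theorem z_pow (k : ℕ) : ∃ w ∈ IsLocalRing.maximalIdeal (OO p),
    z ^ k - 1 = (z - 1) * ((k : OO p) + w) := by
  refine ⟨∑ i ∈ Finset.range k, (z ^ i - 1), ?_, ?_⟩
  · refine Ideal.sum_mem _ (fun i _ => ?_)
    have h1 : z ^ i - 1 = (z - 1) * ∑ j ∈ Finset.range i, z ^ j := by
      rw [mul_comm, geom_sum_mul]
    rw [h1]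
    exact Ideal.mul_mem_right _ _ (z_sub_mem hz)
  · rw [Finset.sum_sub_distrib, Finset.sum_const, Finset.card_range, nsmul_eq_mul, mul_one,
      add_sub_cancel, mul_comm, geom_sum_mul]

theorem p_eq : ∃ v : OO p, IsUnit v ∧ (p : OO p) = (z - 1) ^ (p - 1) * v := by
  classical
  have hp : p.Prime := Fact.out
  have hz' : IsPrimitiveRoot z p :=
    hz.of_map_of_injective (f := (OO p).subtype) Subtype.val_injective
  have h1 : (p - 1) + 1 = p := Nat.sub_add_cancel hp.one_le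
  have hz2 : IsPrimitiveRoot z ((p - 1) + 1) := by rw [h1]; exact hz'
  have h2 := hz2.prod_one_sub_pow_eq_order
  choose w hw hzw using fun k : ℕ => z_pow hz k
  refine ⟨∏ k ∈ Finset.range (p - 1), (-(((k + 1 : ℕ) : OO p) + w (k + 1))), ?_, ?_⟩
  · rw [IsUnit.prod_iff]
    intro k hk
    rw [Finset.mem_range] at hk
    rw [IsUnit.neg_iff]
    by_contra h3
    have h4 : ((k + 1 : ℕ) : OO p) + w (k + 1) ∈ IsLocalRing.maximalIdeal (OO p) := h3
    have h5 : ((k + 1 : ℕ) : OO p) ∈ IsLocalRing.maximalIdeal (OO p) :=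
      (Ideal.add_mem_iff_left _ (hw (k + 1))).1 h4
    have h6 := Nat.le_of_dvd (Nat.succ_pos k) (dvd_of_mem h5)
    omega
  · have h3 : (p : OO p) = (((p - 1 : ℕ) : OO p) + 1) := by
      have := congrArg (Nat.cast : ℕ → OO p) h1
      push_cast at this
      rw [← this]
    rw [h3, ← h2, ← Finset.card_range (p - 1), ← Finset.prod_const, Finset.card_range,
      ← Finset.prod_mul_distrib]
    refine Finset.prod_congr rfl (fun k _ => ?_)
    rw [mul_neg, ← hzw (k + 1)]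
    ring

omit hz in
/-- the value of `∏ (y ^ u - 1)` at the `i`-th linear character -/
noncomputable def zz (z : OO p) (E : Subgroup (ZMod p)ˣ) (i : ZMod p) : OO p :=
  ∏ᶠ u : E, (z ^ ((((u : (ZMod p)ˣ) : ZMod p) * i).val) - 1)

theorem zz_eq (E : Subgroup (ZMod p)ˣ) : ∃ κ : ZMod p, κ ≠ 0 ∧ ∀ i : ZMod p, ∃ a : OO p,
    zz z E i = (z - 1) ^ (Nat.card E) * a ∧
      IsLocalRing.residue (OO p) a = ZMod.castHom (dvd_refl p) (kk p) (κ * i ^ (Nat.card E)) := by
  classical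
  have hp : p.Prime := Fact.out
  choose w hw hzw using fun k : ℕ => z_pow hz k
  refine ⟨∏ u : E, ((u : (ZMod p)ˣ) : ZMod p), ?_, fun i => ?_⟩
  · exact Finset.prod_ne_zero_iff.2 (fun u _ => (u : (ZMod p)ˣ).ne_zero)
  · refine ⟨∏ u : E, ((((((u : (ZMod p)ˣ) : ZMod p) * i).val : ℕ) : OO p) +
      w ((((u : (ZMod p)ˣ) : ZMod p) * i).val)), ?_, ?_⟩
    · unfold zz
      rw [finprod_eq_prod_of_fintype, Nat.card_eq_fintype_card, ← Finset.card_univ,
        ← Finset.prod_const, ← Finset.prod_mul_distrib]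
      exact Finset.prod_congr rfl (fun u _ => hzw _)
    · rw [map_prod, Nat.card_eq_fintype_card, ← Finset.card_univ, ← Finset.prod_const,
        ← Finset.prod_mul_distrib, map_prod]
      refine Finset.prod_congr rfl (fun u _ => ?_)
      rw [map_add, (IsLocalRing.residue_eq_zero_iff _).2 (hw _), add_zero, map_natCast]
      rw [ZMod.natCast_val, ZMod.castHom_apply]

theorem ps_of_trace (E : Subgroup (ZMod p)ˣ) (c : ZMod p → ℕ)
    (hT : ∀ j l : ℕ, 1 ≤ j → 1 ≤ l → ∃ w : OO p,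
      (∑ i, (c i : OO p)) * ∑ i, (c i : OO p) * zz z E i ^ (j + l) =
        (∑ i, (c i : OO p) * zz z E i ^ j) * (∑ i, (c i : OO p) * zz z E i ^ l) + (p : OO p) * w)
    (j l : ℕ) (hj : 1 ≤ j) (hl : 1 ≤ l) (hjl : Nat.card E * (j + l) < p - 1) :
    (∑ i, (c i : ZMod p)) * ∑ i, (c i : ZMod p) * i ^ (Nat.card E * (j + l)) =
      (∑ i, (c i : ZMod p) * i ^ (Nat.card E * j)) *
        ∑ i, (c i : ZMod p) * i ^ (Nat.card E * l) := by
  classical
  have hp : p.Prime := Fact.out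
  obtain ⟨κ, hκ, ha⟩ := zz_eq hz E
  choose a ha1 ha2 using ha
  obtain ⟨v, -, hv⟩ := p_eq hz
  set e := Nat.card E with he
  set φ : ZMod p →+* kk p := ZMod.castHom (dvd_refl p) (kk p) with hφ
  have hsum : ∀ m : ℕ, ∑ i, (c i : OO p) * zz z E i ^ m =
      (z - 1) ^ (e * m) * ∑ i, (c i : OO p) * a i ^ m := by
    intro m
    rw [Finset.mul_sum]
    refine Finset.sum_congr rfl (fun i _ => ?_)
    rw [ha1 i, mul_pow, ← pow_mul]
    ring
  have hres : ∀ m : ℕ, IsLocalRing.residue (OO p) (∑ i, (c i : OO p) * a i ^ m) =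
      φ (κ ^ m * ∑ i, (c i : ZMod p) * i ^ (e * m)) := by
    intro m
    rw [Finset.mul_sum, map_sum, map_sum]
    refine Finset.sum_congr rfl (fun i _ => ?_)
    rw [map_mul, map_natCast, map_pow, ha2 i, ← map_pow, ← map_natCast φ, ← map_mul]
    congr 1
    rw [mul_pow, ← pow_mul]
    ring
  have hres0 : IsLocalRing.residue (OO p) (∑ i, (c i : OO p)) = φ (∑ i, (c i : ZMod p)) := by
    rw [map_sum, map_sum]
    refine Finset.sum_congr rfl (fun i _ => ?_)
    rw [map_natCast, map_natCast]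
  obtain ⟨w, hw⟩ := hT j l hj hl
  rw [hsum, hsum, hsum, hv] at hw
  obtain ⟨r, hr, hr0⟩ : ∃ r, p - 1 = e * (j + l) + r ∧ 0 < r :=
    ⟨p - 1 - e * (j + l), by omega, by omega⟩
  have h1 : (∑ i, (c i : OO p)) * ∑ i, (c i : OO p) * a i ^ (j + l) =
      (∑ i, (c i : OO p) * a i ^ j) * (∑ i, (c i : OO p) * a i ^ l) + (z - 1) ^ r * v * w := by
    have h2 : (z - 1) ^ (e * (j + l)) ≠ 0 := pow_ne_zero _ (z_sub_ne hz)
    apply mul_left_cancel₀ h2
    rw [hr, pow_add] at hw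
    calc (z - 1) ^ (e * (j + l)) * ((∑ i, (c i : OO p)) * ∑ i, (c i : OO p) * a i ^ (j + l)) =
          (∑ i, (c i : OO p)) * ((z - 1) ^ (e * (j + l)) * ∑ i, (c i : OO p) * a i ^ (j + l)) := by
            ring
      _ = _ := by
            rw [hw]
            rw [Nat.mul_add, pow_add]
            ring
  have h3 := congrArg (IsLocalRing.residue (OO p)) h1
  rw [map_add, map_mul, map_mul, map_mul, map_mul, hres0, hres, hres, hres, map_pow,
    (IsLocalRing.residue_eq_zero_iff _).2 (z_sub_mem hz), zero_pow hr0.ne', zero_mul, zero_mul,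
    add_zero, ← map_mul, ← map_mul] at h3
  have h4 := φ.injective h3
  have h5 : κ ^ (j + l) ≠ 0 := pow_ne_zero _ hκ
  apply mul_left_cancel₀ h5
  calc κ ^ (j + l) * ((∑ i, (c i : ZMod p)) * ∑ i, (c i : ZMod p) * i ^ (e * (j + l))) =
        (∑ i, (c i : ZMod p)) * (κ ^ (j + l) * ∑ i, (c i : ZMod p) * i ^ (e * (j + l))) := by ring
    _ = _ := by
        rw [h4, pow_add]
        ring

end Pool.Agent.Helper42.IR
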