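import Pool.Agent.Helper42.IR.TrPoly
import Pool.Agent.Helper42.IR.ZetaVal
import Pool.Agent.Helper42.IR.ShapeComb
import Pool.Agent.Helper42.IR.Rank35

/-!
# IR-37 (project IR, section 3.6): the shape theorem

`z0_comm`: `T = N(Q) ∩ stab φ`, `y ∈ Q`, `y ≠ 1`, `E ≤ (ZMod p)ˣ` the group of `exists_E` for `T`. The
matrix `aeval (R y) (∏_{u ∈ E} (X ^ u.val - 1)) = ∏_{u ∈ E} (R (y ^ u.val) - 1)` commutes with `R t`,
`t ∈ T`: conjugation by `R t⁻¹` maps `R (y ^ u.val)` to `R (y ^ (c u).val)`, where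
`t⁻¹ y t = y ^ c.val`, `c ∈ E`, so it permutes the factors, which commute with each other.

`shape_R`. Let `z ∈ OO p` be a primitive `p`-th root of unity (`Complex.isPrimitiveRoot_exp`,
`integral_mem`), `f` from `exists_param`, `c i` with `cm (f i) φ = c i` (`cm_nat`; `chR R ∈ CharS ⊤`).
`c (u i) = c i` for `u ∈ E` (`cm_conj` with `t ∈ T`, `cnj t χ = χ`, `cnj t φ = φ`, `param_conj`,
`cnj t (f i) = f (u i)`). Put `P = ∏_{u ∈ E} (X ^ u.val - 1)`; `P.eval (z ^ i.val) = zz z E i` as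
`z ^ p = 1`. The matrices `aeval (R y) P ^ j * E_φ` (`j ≥ 1`; `E_φ = Eph R H φ` commutes with `R y`)
satisfy the hypotheses of `trace_formula`; by `trace_poly`
`(deg φ)² (∑ c i) (∑ c i zz i ^ (j+l)) = (deg φ)² (∑ c i zz i ^ j)(∑ c i zz i ^ l) + p w`; cancel the
unit `(deg φ)²` (`not_dvd_deg`). So `ps_of_trace` gives the hypothesis `hps` of `shape_comb`. By
`cm_diff` `|c i - c j| ≤ 1`, and not all `c i` are equal (`Bl`, `aa_eq`), so with `c0 = min` the
hypotheses of `shape_comb` hold. Translate: `aa (f i) φ = c i - c 0` (`aa_eq`, `f 0 = oneS Q`), and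
for `i0`: `i = u i0` with `u ∈ E` iff there is `t ∈ NN ⊤ Q` with `cnj t φ = φ` and
`cnj t (f i0) = f i`.
-/

namespace Pool.Agent.Helper42.IR

open Pool.Agent.Helper42.INC

private lemma sh_semiconj {A M : Type} [CommRing A] [Ring M] [Algebra A M] {S X Y : M}
    (h : S * Y = X * S) (P : Polynomial A) :
    S * Polynomial.aeval Y P = Polynomial.aeval X P * S := by
  induction P using Polynomial.induction_on' with
  | add P1 P2 h1 h2 => rw [map_add, map_add, mul_add, add_mul, h1, h2]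
  | monomial k a =>
    have h3 : S * Y ^ k = X ^ k * S := SemiconjBy.pow_right (show SemiconjBy S Y X from h) k
    rw [Polynomial.aeval_monomial, Polynomial.aeval_monomial, ← mul_assoc,
      ← Algebra.commutes a S, mul_assoc, h3, mul_assoc]

private lemma sh_dvd_prod {A ι : Type} [CommRing A] (s : Finset ι) (D : A) (F G : ι → A)
    (h : ∀ u ∈ s, D ∣ F u - G u) : D ∣ ∏ u ∈ s, F u - ∏ u ∈ s, G u := by
  classical
  induction s using Finset.induction_on with
  | empty => simp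
  | insert a s ha ih =>
    rw [Finset.prod_insert ha, Finset.prod_insert ha]
    have h1 := ih (fun u hu => h u (Finset.mem_insert_of_mem hu))
    have h2 := h a (Finset.mem_insert_self a s)
    have h3 : F a * ∏ u ∈ s, F u - G a * ∏ u ∈ s, G u =
        (F a - G a) * ∏ u ∈ s, F u + G a * (∏ u ∈ s, F u - ∏ u ∈ s, G u) := by ring
    rw [h3]
    exact dvd_add (h2.mul_right _) (h1.mul_left _)

private lemma sh_pow_dvd {A : Type} [CommRing A] (p a b : ℕ) (h : a % p = b % p) :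
    ((Polynomial.X : Polynomial A) ^ p - 1) ∣ (Polynomial.X ^ a - 1) - (Polynomial.X ^ b - 1) := by
  have key : ∀ a : ℕ, ((Polynomial.X : Polynomial A) ^ p - 1) ∣
      Polynomial.X ^ a - Polynomial.X ^ (a % p) := by
    intro a
    have h1 : (Polynomial.X : Polynomial A) ^ a - Polynomial.X ^ (a % p) =
        Polynomial.X ^ (a % p) * ((Polynomial.X ^ p) ^ (a / p) - 1) := by
      rw [mul_sub, mul_one, ← pow_mul, ← pow_add, Nat.mod_add_div]
    rw [h1]
    refine Dvd.dvd.mul_left ?_ _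
    have h2 := sub_dvd_pow_sub_pow ((Polynomial.X : Polynomial A) ^ p) 1 (a / p)
    rwa [one_pow] at h2
  have h2 := key a
  have h3 := key b
  rw [h] at h2
  have h4 := dvd_sub h2 h3
  have h5 : (Polynomial.X : Polynomial A) ^ a - Polynomial.X ^ (b % p) -
      (Polynomial.X ^ b - Polynomial.X ^ (b % p)) =
      (Polynomial.X ^ a - 1) - (Polynomial.X ^ b - 1) := by ring
  rwa [h5] at h4

open Classical in
/-- the polynomial `∏ (X ^ u - 1)` is invariant under `X ↦ X ^ c`, `c ∈ E`, modulo `X ^ p - 1` -/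
private lemma sh_inv {A M : Type} [CommRing A] [Ring M] [Algebra A M] {p : ℕ} [Fact p.Prime]
    (E : Subgroup (ZMod p)ˣ) {Y : M} (hY : Y ^ p = 1) {c : (ZMod p)ˣ} (hc : c ∈ E) :
    Polynomial.aeval (Y ^ (c : ZMod p).val) (∏ u ∈ Finset.univ.filter (· ∈ E),
        ((Polynomial.X : Polynomial A) ^ ((u : (ZMod p)ˣ) : ZMod p).val - 1)) =
      Polynomial.aeval Y (∏ u ∈ Finset.univ.filter (· ∈ E),
        ((Polynomial.X : Polynomial A) ^ ((u : (ZMod p)ˣ) : ZMod p).val - 1)) := by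
  have h1 : Polynomial.aeval (Y ^ (c : ZMod p).val) (∏ u ∈ Finset.univ.filter (· ∈ E),
        ((Polynomial.X : Polynomial A) ^ ((u : (ZMod p)ˣ) : ZMod p).val - 1)) =
      Polynomial.aeval Y (∏ u ∈ Finset.univ.filter (· ∈ E),
        ((Polynomial.X : Polynomial A) ^ ((c : ZMod p).val * ((u : (ZMod p)ˣ) : ZMod p).val)
          - 1)) := by
    have h2 : (∏ u ∈ Finset.univ.filter (· ∈ E),
        ((Polynomial.X : Polynomial A) ^ ((c : ZMod p).val * ((u : (ZMod p)ˣ) : ZMod p).val)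
          - 1)) = (∏ u ∈ Finset.univ.filter (· ∈ E),
        ((Polynomial.X : Polynomial A) ^ ((u : (ZMod p)ˣ) : ZMod p).val - 1)).comp
          (Polynomial.X ^ (c : ZMod p).val) := by
      rw [Polynomial.prod_comp]
      refine Finset.prod_congr rfl (fun u _ => ?_)
      simp [pow_mul]
    rw [h2, Polynomial.aeval_comp]
    simp
  rw [h1]
  have h3 : (∏ u ∈ Finset.univ.filter (· ∈ E),
        ((Polynomial.X : Polynomial A) ^ ((u : (ZMod p)ˣ) : ZMod p).val - 1)) =
      ∏ u ∈ Finset.univ.filter (· ∈ E),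
        ((Polynomial.X : Polynomial A) ^ ((c * u : (ZMod p)ˣ) : ZMod p).val - 1) := by
    refine (Finset.prod_equiv (Equiv.mulLeft c) ?_ ?_).symm
    · intro u
      simp only [Finset.mem_filter, Finset.mem_univ, true_and, Equiv.coe_mulLeft]
      exact (Subgroup.mul_mem_cancel_left E hc).symm
    · intro u _
      rfl
  rw [h3]
  have h4 := sh_dvd_prod (A := Polynomial A) (Finset.univ.filter (fun u : (ZMod p)ˣ => u ∈ E))
    ((Polynomial.X : Polynomial A) ^ p - 1)
    (fun u => (Polynomial.X : Polynomial A) ^ ((c : ZMod p).val * ((u : (ZMod p)ˣ) : ZMod p).val)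
      - 1)
    (fun u => (Polynomial.X : Polynomial A) ^ ((c * u : (ZMod p)ˣ) : ZMod p).val - 1)
    (by
      intro u _
      apply sh_pow_dvd
      rw [Units.val_mul, ZMod.val_mul, Nat.mod_mod])
  obtain ⟨W, hW⟩ := h4
  have h5 := congrArg (Polynomial.aeval Y) hW
  rw [map_sub, map_mul, map_sub, map_pow, Polynomial.aeval_X, map_one, hY, sub_self, zero_mul] at h5
  exact sub_eq_zero.mp h5

variable {p : ℕ} [Fact p.Prime] {K : Type} [Group K] [Finite K] {n : ℕ}
  (R : K →* Matrix (Fin n) (Fin n) (OO p)) {Q H : Subgroup K} (hL : Loc p (⊤ : Subgroup K) Q H)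
include hL

omit [Finite K] [Fact p.Prime] in
private lemma sh_pow_p {y : K} (hy : y ∈ Q) : y ^ p = 1 := by
  have h2 : (⟨y, hy⟩ : Q) ^ p = 1 := by
    rw [← hL.cQ]; exact pow_card_eq_one'
  have := congrArg (Subtype.val) h2
  simpa using this

open Classical in
theorem z0_comm {T : Subgroup K} (hT : T ≤ Subgroup.normalizer (Q : Set K)) {y : K} (hy : y ∈ Q)
    (hy1 : y ≠ 1) (E : Subgroup (ZMod p)ˣ)
    (hE : ∀ c : (ZMod p)ˣ, c ∈ E ↔ ∃ t ∈ T, t⁻¹ * y * t = y ^ (c : ZMod p).val) :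
    ∀ t ∈ T, R t * Polynomial.aeval (R y) (∏ u ∈ Finset.univ.filter (· ∈ E),
        ((Polynomial.X : Polynomial (OO p)) ^ ((u : (ZMod p)ˣ) : ZMod p).val - 1)) =
      Polynomial.aeval (R y) (∏ u ∈ Finset.univ.filter (· ∈ E),
        ((Polynomial.X : Polynomial (OO p)) ^ ((u : (ZMod p)ˣ) : ZMod p).val - 1)) * R t := by
  intro t ht
  obtain ⟨c, hc⟩ := exists_exp hL.cQ hy hy1 (hT ht)
  have hcE : c ∈ E := (hE c).mpr ⟨t, ht, hc⟩
  have hYp : R y ^ p = 1 := by rw [← map_pow, sh_pow_p hL hy, map_one]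
  rw [← sh_inv E hYp hcE, ← map_pow, ← hc]
  have hs : R t * R (t⁻¹ * y * t) = R y * R t := by
    rw [← map_mul, ← map_mul]
    congr 1
    group
  rw [sh_semiconj hs, hc, map_pow, sh_inv E hYp hcE]

omit [Group K] [Finite K] hL in
private lemma sh_unit_cancel {d a b : OO p} {q w : OO p} (hd : IsUnit d)
    (h : d * a * (d * b) = q + (p : OO p) * w) :
    ∃ v : OO p, d * v = 1 ∧ a * b = v * v * q + (p : OO p) * (v * v * w) := by
  obtain ⟨v, hv⟩ := hd.exists_right_inv
  refine ⟨v, hv, ?_⟩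
  have h1 : v * v * (d * a * (d * b)) = a * b := by
    calc v * v * (d * a * (d * b)) = (d * v) * (d * v) * (a * b) := by ring
      _ = a * b := by rw [hv]; ring
  rw [← h1, h]
  ring

theorem shape_R (hp2 : p ≠ 2) (hR : SchurR R) (hLoc : LocalR R) (hn : ¬ p ∣ n) {φ : K → ℂ}
    (hφ : φ ∈ IrrS H) (hB : Bl Q H (chR R) φ) :
    ∃ ε : ℂ, (ε = 1 ∨ ε = -1) ∧ (NE Q H (chR R) φ ε ∨
      ∃ l0 ∈ IrrS Q, l0 ≠ oneS Q ∧ EX (⊤ : Subgroup K) Q H (chR R) φ l0 ε) := by
  classical
  have hp : p.Prime := Fact.out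
  have hQ := hL.cQ
  -- a generator `y`
  obtain ⟨y, hy, hy1⟩ : ∃ y ∈ Q, y ≠ 1 := by
    have h1 : 1 < Nat.card Q := by rw [hQ]; exact hp.one_lt
    have h2 : Nontrivial Q := (Finite.one_lt_card_iff_nontrivial).mp h1
    obtain ⟨x, hx⟩ := exists_ne (1 : Q)
    exact ⟨x, x.2, fun h => hx (Subtype.ext h)⟩
  -- the root of unity
  have hprim := Complex.isPrimitiveRoot_exp p hp.ne_zero
  obtain ⟨z, hz⟩ : ∃ z : OO p, IsPrimitiveRoot (z : ℂ) p :=
    ⟨⟨_, integral_mem (hprim.isIntegral hp.pos)⟩, hprim⟩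
  set T : Subgroup K := Subgroup.normalizer (Q : Set K) ⊓ stab φ with hTdef
  have hTN : T ≤ Subgroup.normalizer (Q : Set K) := inf_le_left
  have hTH : ∀ t ∈ Subgroup.normalizer (Q : Set K), t ∈ Subgroup.normalizer (H : Set K) := by
    intro t ht
    refine hL.norm_H ?_ ht
    rw [Subgroup.mem_normalizer_iff]
    intro h
    simp
  obtain ⟨E, hE⟩ := exists_E hQ hy hy1 hTN
  obtain ⟨f, hf0, hf⟩ := exists_param hQ hy hy1 hz
  have hchR := mb_chR_mem R
  have hnat : ∀ i : ZMod p, ∃ m : ℕ, cm Q H (chR R) (f i).1 φ = m := fun i =>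
    cm_nat hQ hL.comm hchR (f i).2 hφ
  choose c hcm using hnat
  -- class function
  have hclass : ∀ t : K, cnj t (chR R) = chR R := by
    intro t
    funext x
    change ((R (t⁻¹ * x * t)).trace : ℂ) = ((R x).trace : ℂ)
    congr 1
    rw [map_mul, Matrix.trace_mul_comm, ← map_mul, mul_inv_cancel_left]
  have hcE : ∀ u ∈ E, ∀ i : ZMod p, c ((u : ZMod p) * i) = c i := by
    intro u hu i
    obtain ⟨t, ht, hty⟩ := (hE u).mp hu
    have h1 := param_conj hQ hy hy1 hz f hf (hTN ht) hty i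
    have h2 := cm_conj (hTN ht) (hTH t (hTN ht)) (chR R) (f i).1 φ
    have h3 : cnj t φ = φ := ht.2
    rw [hclass, h1, h3, hcm, hcm] at h2
    exact_mod_cast h2
  -- the polynomial
  set P : Polynomial (OO p) := ∏ u ∈ Finset.univ.filter (· ∈ E),
        ((Polynomial.X : Polynomial (OO p)) ^ ((u : (ZMod p)ˣ) : ZMod p).val - 1) with hP
  have hzp : z ^ p = 1 := z_pow_eq_one hz
  have hPeval : ∀ i : ZMod p, P.eval (z ^ i.val) = zz z E i := by
    intro i
    let _ : Fintype E := Fintype.ofFinite E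
    rw [hP, Polynomial.eval_prod]
    unfold zz
    rw [finprod_eq_prod_of_fintype]
    have h1 : ∏ u ∈ Finset.univ.filter (fun u : (ZMod p)ˣ => u ∈ E), Polynomial.eval (z ^ i.val)
        ((Polynomial.X : Polynomial (OO p)) ^ ((u : (ZMod p)ˣ) : ZMod p).val - 1) =
        ∏ u : E, Polynomial.eval (z ^ i.val)
        ((Polynomial.X : Polynomial (OO p)) ^ ((u : (ZMod p)ˣ) : ZMod p).val - 1) :=
      Finset.prod_subtype _ (by intro u; simp) _
    refine h1.trans (Finset.prod_congr rfl (fun u _ => ?_))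
    rw [Polynomial.eval_sub, Polynomial.eval_pow, Polynomial.eval_X, Polynomial.eval_one,
      ← pow_mul, ZMod.val_mul, ← pow_eq_pow_mod _ hzp, mul_comm]
  set Z : Matrix (Fin n) (Fin n) (OO p) := Polynomial.aeval (R y) P with hZ
  set Em : Matrix (Fin n) (Fin n) (OO p) := Eph R H φ with hEm
  have hEE : Em * Em = Em := Eph_mul_self R H hL.pH hφ
  have hycent : y ∈ Subgroup.centralizer (H : Set K) := by
    rw [Subgroup.mem_centralizer_iff]
    intro h hh
    exact (hL.comm y hy h hh).symm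
  have hyE : Em * R y = R y * Em := (Eph_comm_centralizer R H hL.pH hφ hycent).symm
  have hEZ : Em * Z = Z * Em := sh_semiconj hyE P
  have hEZj : ∀ j : ℕ, Em * Z ^ j = Z ^ j * Em := fun j =>
    SemiconjBy.pow_right (show SemiconjBy Em Z Z from hEZ) j
  have hTZ : ∀ t ∈ T, ∀ j : ℕ, R t * (Z ^ j * Em) = Z ^ j * Em * R t := by
    intro t ht j
    have h1 : R t * Z = Z * R t := z0_comm R hL hTN hy hy1 E hE t ht
    have h2 : R t * Z ^ j = Z ^ j * R t :=
      SemiconjBy.pow_right (show SemiconjBy (R t) Z Z from h1) j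
    have h3 : R t * Em = Em * R t := Eph_comm R H hL.pH hφ (hTH t (hTN ht)) ht.2
    rw [← mul_assoc, h2, mul_assoc, h3, mul_assoc]
  have hl1 : ∀ j : ℕ, Em * (Z ^ j * Em) = Z ^ j * Em := by
    intro j
    rw [← mul_assoc, hEZj, mul_assoc, hEE]
  have hr1 : ∀ j : ℕ, (Z ^ j * Em) * Em = Z ^ j * Em := by
    intro j
    rw [mul_assoc, hEE]
  have htr : ∀ j : ℕ, (Z ^ j * Em).trace =
      (deg φ : OO p) * ∑ i, (c i : OO p) * zz z E i ^ j := by
    intro j
    have h1 := trace_poly R hL hφ hy f hf c hcm (P ^ j)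
    rw [map_pow] at h1
    refine h1.trans ?_
    congr 1
    refine Finset.sum_congr rfl (fun i _ => ?_)
    rw [Polynomial.eval_pow, hPeval]
  have htrE : Em.trace = (deg φ : OO p) * ∑ i, (c i : OO p) := by
    have h1 := trace_poly R hL hφ hy f hf c hcm (1 : Polynomial (OO p))
    rw [map_one, one_mul] at h1
    refine h1.trans ?_
    simp
  have hdeg : IsUnit ((deg φ : ℕ) : OO p) := isUnit_nat (not_dvd_deg hL.pH hφ)
  have hT : ∀ j l : ℕ, 1 ≤ j → 1 ≤ l → ∃ w : OO p,
      (∑ i, (c i : OO p)) * ∑ i, (c i : OO p) * zz z E i ^ (j + l) =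
        (∑ i, (c i : OO p) * zz z E i ^ j) * (∑ i, (c i : OO p) * zz z E i ^ l) +
          (p : OO p) * w := by
    intro j l _ _
    obtain ⟨w, hw⟩ := trace_formula R hL hR hn hφ hB (Z ^ j * Em) (Z ^ l * Em) (hl1 j) (hr1 j)
      (fun t ht => hTZ t ht j) (hl1 l) (hr1 l) (fun t ht => hTZ t ht l)
    have h1 : Z ^ j * Em * (Z ^ l * Em) = Z ^ (j + l) * Em := by
      rw [mul_assoc, hl1, ← mul_assoc, ← pow_add]
    rw [h1, htr, htr, htr] at hw
    have hw' : (deg φ : OO p) * (∑ i, (c i : OO p)) *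
        ((deg φ : OO p) * ∑ i, (c i : OO p) * zz z E i ^ (j + l)) =
        (deg φ : OO p) * (∑ i, (c i : OO p) * zz z E i ^ j) *
          ((deg φ : OO p) * ∑ i, (c i : OO p) * zz z E i ^ l) + (p : OO p) * w := by
      rw [← htrE]; exact hw
    obtain ⟨v, hv, h2⟩ := sh_unit_cancel hdeg hw'
    refine ⟨v * v * w, ?_⟩
    rw [h2]
    congr 1
    calc v * v * ((deg φ : OO p) * (∑ i, (c i : OO p) * zz z E i ^ j) *
          ((deg φ : OO p) * ∑ i, (c i : OO p) * zz z E i ^ l))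
        = ((deg φ : OO p) * v) * ((deg φ : OO p) * v) *
          ((∑ i, (c i : OO p) * zz z E i ^ j) * (∑ i, (c i : OO p) * zz z E i ^ l)) := by ring
      _ = _ := by rw [hv]; ring
  -- the values differ by at most one
  have hdiff : ∀ i j : ZMod p, c i ≤ c j + 1 := fun i j =>
    cm_diff R hL hp2 hLoc hφ (f i).2 (f j).2 (hcm i) (hcm j)
  have haa : ∀ i : ZMod p, aa Q H (chR R) (f i).1 φ = (c i : ℂ) - (c 0 : ℂ) := by
    intro i
    rw [aa_eq, hcm, ← hf0, hcm]
  have hne : ∃ i, c i ≠ c 0 := by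
    obtain ⟨lam, hl, hl0⟩ := hB
    refine ⟨f.symm ⟨lam, hl⟩, fun h => hl0 ?_⟩
    have h1 := haa (f.symm ⟨lam, hl⟩)
    rw [Equiv.apply_symm_apply, h, sub_self] at h1
    exact h1
  obtain ⟨imin, -, himin⟩ := Finset.exists_min_image (Finset.univ : Finset (ZMod p)) c
    ⟨0, Finset.mem_univ _⟩
  have h0 : ∀ i, c i = c imin ∨ c i = c imin + 1 := by
    intro i
    have h1 := himin i (Finset.mem_univ _)
    have h2 := hdiff i imin
    omega
  have h2 : ∃ i, c i = c imin + 1 := by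
    by_contra hcon
    push Not at hcon
    obtain ⟨i, hi⟩ := hne
    have h3 := h0 i
    have h4 := h0 0
    have h5 := hcon i
    have h6 := hcon 0
    omega
  obtain ⟨ε, hε, hshape⟩ := shape_comb E c hcE (c imin) h0 ⟨imin, rfl⟩ h2
    (fun j l hj hl hjl => ps_of_trace hz E c hT j l hj hl hjl)
  have hcast : ∀ (i : ZMod p) (e : ℤ), (c i : ℤ) - c 0 = e →
      aa Q H (chR R) (f i).1 φ = (e : ℂ) := by
    intro i e he
    rw [haa, ← he]
    push_cast
    ring
  have hlam : ∀ lam ∈ IrrS Q, lam ≠ oneS Q → ∃ i : ZMod p, i ≠ 0 ∧ (f i).1 = lam := by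
    intro lam hl hl1
    refine ⟨f.symm ⟨lam, hl⟩, ?_, by rw [Equiv.apply_symm_apply]⟩
    intro h
    apply hl1
    rw [← hf0, ← h, Equiv.apply_symm_apply]
  refine ⟨(ε : ℂ), ?_, ?_⟩
  · rcases hε with h | h
    · left; rw [h]; simp
    · right; rw [h]; simp
  · rcases hshape with hA | ⟨i0, hi0, hA⟩
    · left
      intro lam hl hl1
      obtain ⟨i, hi, rfl⟩ := hlam lam hl hl1
      exact hcast i ε (hA i hi)
    · right
      refine ⟨(f i0).1, (f i0).2, ?_, ?_⟩
      · intro h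
        apply hi0
        apply f.injective
        apply Subtype.ext
        rw [h, hf0]
      · intro lam hl hl1
        obtain ⟨i, hi, rfl⟩ := hlam lam hl hl1
        have hiff : (∃ n ∈ NN (⊤ : Subgroup K) Q, cnj n φ = φ ∧ cnj n (f i0).1 = (f i).1) ↔
            ∃ u ∈ E, i = (u : ZMod p) * i0 := by
          constructor
          · rintro ⟨t, ht, h1, h3⟩
            have htN : t ∈ Subgroup.normalizer (Q : Set K) := ht.2
            obtain ⟨u, hu⟩ := exists_exp hQ hy hy1 htN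
            refine ⟨u, (hE u).mpr ⟨t, ⟨htN, h1⟩, hu⟩, ?_⟩
            have h4 := param_conj hQ hy hy1 hz f hf htN hu i0
            rw [h3] at h4
            exact f.injective (Subtype.ext h4)
          · rintro ⟨u, hu, rfl⟩
            obtain ⟨t, ht, hty⟩ := (hE u).mp hu
            exact ⟨t, ⟨Subgroup.mem_top _, hTN ht⟩, ht.2,
              param_conj hQ hy hy1 hz f hf (hTN ht) hty i0⟩
        rw [hiff]
        refine ⟨fun h => hcast i ε ((hA i hi).1 h), fun h => ?_⟩
        have h3 := hcast i 0 ((hA i hi).2 h)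
        rw [h3]; simp

end Pool.Agent.Helper42.IR
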