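import Pool.Agent.Helper42.IR.IdemPoly
import Pool.Agent.Helper42.IR.ScalarR

/-!
# IR-08 (project IR, section 3.4): splitting an idempotent

`R` an integral matrix representation, `E` an idempotent matrix which is an `OO p`-combination of
the `R g`, `w` a vector over the residue field `k` fixed by `E` and generating `k ^ n` as a
`K`-module. If some matrix `A` over `k` commuting with all `R g` is neither nilpotent nor a unit
then `E = ε + (E - ε)` with orthogonal idempotents `ε`, `E - ε` which are nonzero modulo the
maximal ideal, and `ε` is again an `OO p`-combination of the `R g`.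

Proof. Fitting: `k ^ n = S ⊕ T` with `S = range (A ^ n)`, `T = ker (A ^ n)`
(`LinearMap.isCompl_iSup_ker_pow_iInf_range_pow` or by hand), both stable under all `R g` and both
nonzero (if `T = 0`, `A` is a unit, if `S = 0`, it is nilpotent). Write `w = a + b`, `a ∈ S`,
`b ∈ T`. `a ≠ 0`: otherwise `w ∈ T`, `T` is `K`-stable, so `T = k ^ n` and `S = 0`; likewise
`b ≠ 0`. The matrix `E` (over `k`) is a combination of the `R g`, so it preserves `S` and `T` and
`E a = a`, `E b = b`. As `w` generates, `a = ∑ d_g R g w`; lift the `d_g` to `OO p` and put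
`α = E (∑ δ_g R g) E`, an `OO p`-combination of the `R g` (their span is closed under products)
with `E α = α = α E`. Over `k`: `α w = E a = a`; the projection to `S` along `T` commutes with the
`R g`, hence with `α`: `α a = α π w = π α w = π a = a` and `α b = α w - α a = 0`.
Let `f = α.charpoly`, monic, `f(α) = 0` (Cayley-Hamilton, `Matrix.aeval_self_charpoly`). Modulo the
maximal ideal `f(1) a = f(α) a = 0` and `f(0) b = 0`, so `f(1) = 0`, `f(0) = 0`. Take `h` from
`exists_idem_poly` and `ε = E h(α)` (`E` commutes with `α`): `h(α)` is idempotent since `f ∣ h²-h`,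
so `ε` is idempotent, `E ε = ε = ε E`; over `k`: `ε a = h(1) a = a ≠ 0` and
`(E - ε) b = b - h(0) b = b ≠ 0`.

(The projection `π` is obtained as a polynomial in `A`, from the factorization of its minimal
polynomial.)
-/

namespace Pool.Agent.Helper42.IR

open Pool.Agent.Helper42.INC Matrix

variable {p : ℕ} [Fact p.Prime]

/-- polynomials in `A` commute with everything commuting with `A` -/
private lemma aeval_comm {k M : Type} [CommRing k] [Ring M] [Algebra k M] {A B : M}
    (h : A * B = B * A) (q : Polynomial k) :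
    Polynomial.aeval A q * B = B * Polynomial.aeval A q := by
  have h1 : Commute A B := h
  induction q using Polynomial.induction_on with
  | C a => simp [Algebra.commutes]
  | add f g hf hg => rw [map_add, add_mul, mul_add, hf, hg]
  | monomial n a _ =>
    have h2 : (A ^ (n + 1)) * B = B * A ^ (n + 1) := (h1.pow_left (n + 1))
    simp only [map_mul, Polynomial.aeval_C, map_pow, Polynomial.aeval_X]
    rw [mul_assoc, h2, ← mul_assoc, Algebra.commutes, mul_assoc]

/-- Fitting decomposition, as an idempotent polynomial in `A` -/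
private lemma exists_proj {k : Type} [Field k] {n : ℕ} (A : Matrix (Fin n) (Fin n) k)
    (hnil : ¬ IsNilpotent A) (hunit : ¬ IsUnit A) :
    ∃ q : Polynomial k, Polynomial.aeval A q * Polynomial.aeval A q = Polynomial.aeval A q ∧
      Polynomial.aeval A q ≠ 0 ∧ Polynomial.aeval A q ≠ 1 := by
  have hm0 : minpoly k A ≠ 0 := minpoly.ne_zero (Matrix.isIntegral A)
  obtain ⟨g, hg, hndvd⟩ := Polynomial.exists_eq_pow_rootMultiplicity_mul_and_not_dvd
    (minpoly k A) hm0 0
  set r := (minpoly k A).rootMultiplicity 0 with hr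
  rw [Polynomial.C_0, sub_zero] at hg hndvd
  have hcop : IsCoprime ((Polynomial.X : Polynomial k) ^ r) g := by
    apply IsCoprime.pow_left
    exact (Polynomial.irreducible_X.coprime_iff_not_dvd).2 hndvd
  obtain ⟨u, v, huv⟩ := hcop
  have hA0 : Polynomial.aeval A (minpoly k A) = 0 := minpoly.aeval k A
  have hz : Polynomial.aeval A ((Polynomial.X : Polynomial k) ^ r) * Polynomial.aeval A g = 0 := by
    rw [← map_mul, ← hg, hA0]
  have huv' : Polynomial.aeval A (u * Polynomial.X ^ r) + Polynomial.aeval A (v * g) = 1 := by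
    rw [← map_add, huv, map_one]
  have hprod : Polynomial.aeval A (u * Polynomial.X ^ r) * Polynomial.aeval A (v * g) = 0 := by
    rw [← map_mul]
    have : u * Polynomial.X ^ r * (v * g) = u * v * (Polynomial.X ^ r * g) := by ring
    rw [this, map_mul, map_mul _ (Polynomial.X ^ r) g, hz, mul_zero]
  refine ⟨u * Polynomial.X ^ r, ?_, ?_, ?_⟩
  · have h1 : Polynomial.aeval A (v * g) = 1 - Polynomial.aeval A (u * Polynomial.X ^ r) := by
      rw [← huv']; abel
    rw [h1, mul_sub, mul_one, sub_eq_zero] at hprod
    exact hprod.symm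
  · intro h0
    -- then v g (A) = 1, so g(A) is a unit, so A ^ r = 0
    apply hnil
    rw [h0, zero_add, map_mul] at huv'
    refine ⟨r, ?_⟩
    have h2 : Polynomial.aeval A (Polynomial.X ^ r : Polynomial k) = A ^ r := by simp
    rw [← h2, ← mul_one (Polynomial.aeval A (Polynomial.X ^ r : Polynomial k)), ← huv',
      ← map_mul, ← map_mul]
    have : (Polynomial.X ^ r : Polynomial k) * (v * g) = v * (Polynomial.X ^ r * g) := by ring
    rw [this, map_mul, map_mul _ (Polynomial.X ^ r) g, hz, mul_zero]
  · intro h1
    -- then v g (A) = 0 so minpoly divides v g, so X ^ r divides 1, so r = 0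
    rw [h1] at huv'
    have h3 : Polynomial.aeval A (v * g) = 0 := by
      have := huv'
      rwa [add_eq_left] at this
    have h4 : minpoly k A ∣ v * g := minpoly.dvd k A h3
    have h5 : Polynomial.X ^ r ∣ v * g := by
      rw [hg] at h4
      exact (Dvd.intro _ rfl).trans h4
    have h6 : (Polynomial.X ^ r : Polynomial k) ∣ 1 := by
      rw [← huv]
      exact dvd_add (Dvd.intro_left _ rfl) h5
    have h7 : r = 0 := by
      by_contra hne
      have h8 : (Polynomial.X : Polynomial k) ∣ 1 := (dvd_pow_self _ hne).trans h6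
      exact Polynomial.irreducible_X.not_isUnit (isUnit_of_dvd_one h8)
    -- 0 is not a root of the minimal polynomial: A is a unit
    apply hunit
    have h9 : ¬ Polynomial.X ∣ minpoly k A := by
      rw [hg, h7, pow_zero, one_mul]
      exact hndvd
    have hc : (minpoly k A).coeff 0 ≠ 0 := by
      intro h10
      exact h9 (Polynomial.X_dvd_iff.2 h10)
    -- A * q(A) = - c
    obtain ⟨q, hq⟩ : Polynomial.X ∣ minpoly k A - Polynomial.C ((minpoly k A).coeff 0) := by
      rw [Polynomial.X_dvd_iff]; simp
    have h11 : A * Polynomial.aeval A q = - algebraMap k _ ((minpoly k A).coeff 0) := by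
      have h12 := congrArg (Polynomial.aeval A) hq
      rw [map_sub, hA0, Polynomial.aeval_C, zero_sub, map_mul, Polynomial.aeval_X] at h12
      exact h12.symm
    have h13 : A * (-((minpoly k A).coeff 0)⁻¹ • Polynomial.aeval A q) = 1 := by
      rw [Matrix.mul_smul, h11, Algebra.algebraMap_eq_smul_one, neg_smul, smul_neg, neg_neg,
        smul_smul, inv_mul_cancel₀ hc, one_smul]
    exact IsUnit.of_mul_eq_one _ h13

/-- a polynomial in a matrix applied to an eigenvector -/
private lemma aeval_mulVec {k : Type} [Field k] {n : ℕ} (A : Matrix (Fin n) (Fin n) k)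
    (x : Fin n → k) (c : k) (h : A.mulVec x = c • x) (q : Polynomial k) :
    (Polynomial.aeval A q).mulVec x = q.eval c • x := by
  have hp : ∀ m : ℕ, (A ^ m).mulVec x = c ^ m • x := by
    intro m
    induction m with
    | zero => simp
    | succ m ih =>
      rw [pow_succ, ← Matrix.mulVec_mulVec, h, Matrix.mulVec_smul, ih, smul_smul, pow_succ]
      congr 1
      ring
  induction q using Polynomial.induction_on with
  | C a =>
    rw [Polynomial.aeval_C, Polynomial.eval_C, Algebra.algebraMap_eq_smul_one, Matrix.smul_mulVec,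
      Matrix.one_mulVec]
  | add f g hf hg => rw [map_add, Matrix.add_mulVec, hf, hg, Polynomial.eval_add, add_smul]
  | monomial m a _ =>
    rw [map_mul, Polynomial.aeval_C, map_pow, Polynomial.aeval_X, ← Matrix.mulVec_mulVec, hp,
      Algebra.algebraMap_eq_smul_one, Matrix.smul_mulVec, Matrix.one_mulVec, smul_smul]
    simp

/-- reduction of a polynomial in an integral matrix -/
private lemma toK_aeval {n : ℕ} (α : Matrix (Fin n) (Fin n) (OO p)) (h : Polynomial (OO p)) :
    toK (Polynomial.aeval α h) =
      Polynomial.aeval (toK α) (h.map (IsLocalRing.residue (OO p))) := by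
  induction h using Polynomial.induction_on with
  | C a =>
    rw [Polynomial.aeval_C, Polynomial.map_C, Polynomial.aeval_C,
      Algebra.algebraMap_eq_smul_one, Algebra.algebraMap_eq_smul_one, toK_smul, toK_one]
  | add f g hf hg => rw [map_add, Polynomial.map_add, map_add, toK_add, hf, hg]
  | monomial m a _ =>
    have hp : toK (α ^ (m + 1)) = toK α ^ (m + 1) :=
      map_pow ((IsLocalRing.residue (OO p)).mapMatrix) α (m + 1)
    rw [map_mul, toK_mul, Polynomial.map_mul, map_mul, Polynomial.aeval_C, Polynomial.map_C,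
      Polynomial.aeval_C, Algebra.algebraMap_eq_smul_one, Algebra.algebraMap_eq_smul_one,
      toK_smul, toK_one, map_pow, Polynomial.aeval_X, hp, Polynomial.map_pow, Polynomial.map_X,
      map_pow, Polynomial.aeval_X]

section span

variable {K : Type} [Group K] {n : ℕ} (R : K →* Matrix (Fin n) (Fin n) (OO p))

private lemma span_mul {x y : Matrix (Fin n) (Fin n) (OO p)}
    (hx : x ∈ Submodule.span (OO p) (Set.range R)) (hy : y ∈ Submodule.span (OO p) (Set.range R)) :
    x * y ∈ Submodule.span (OO p) (Set.range R) := by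
  have h := Submodule.mul_mem_mul hx hy
  rw [Submodule.span_mul_span] at h
  refine Submodule.span_mono ?_ h
  rintro _ ⟨_, ⟨a, rfl⟩, _, ⟨b, rfl⟩, rfl⟩
  exact ⟨a * b, map_mul R a b⟩

private lemma span_one : (1 : Matrix (Fin n) (Fin n) (OO p)) ∈
    Submodule.span (OO p) (Set.range R) := Submodule.subset_span ⟨1, map_one R⟩

private lemma span_aeval {x : Matrix (Fin n) (Fin n) (OO p)}
    (hx : x ∈ Submodule.span (OO p) (Set.range R)) (h : Polynomial (OO p)) :
    Polynomial.aeval x h ∈ Submodule.span (OO p) (Set.range R) := by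
  have hp : ∀ m : ℕ, x ^ m ∈ Submodule.span (OO p) (Set.range R) := by
    intro m
    induction m with
    | zero => rw [pow_zero]; exact span_one R
    | succ m ih => rw [pow_succ]; exact span_mul R ih hx
  rw [Polynomial.aeval_eq_sum_range]
  exact Submodule.sum_mem _ (fun i _ => Submodule.smul_mem _ _ (hp i))

private lemma span_comm {x : Matrix (Fin n) (Fin n) (OO p)}
    (hx : x ∈ Submodule.span (OO p) (Set.range R)) (P : Matrix (Fin n) (Fin n) (kk p))
    (hP : ∀ g, P * toK (R g) = toK (R g) * P) : P * toK x = toK x * P := by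
  induction hx using Submodule.span_induction with
  | mem x h =>
    obtain ⟨g, rfl⟩ := h
    exact hP g
  | zero =>
    have h0 : toK (0 : Matrix (Fin n) (Fin n) (OO p)) = 0 :=
      map_zero ((IsLocalRing.residue (OO p)).mapMatrix)
    rw [h0, mul_zero, zero_mul]
  | add x y _ _ hx hy => rw [toK_add, mul_add, add_mul, hx, hy]
  | smul c x _ hx => rw [toK_smul, Matrix.mul_smul, Matrix.smul_mul, hx]

end span

theorem special_step {K : Type} [Group K] [Finite K] {n : ℕ}
    (R : K →* Matrix (Fin n) (Fin n) (OO p)) (E : Matrix (Fin n) (Fin n) (OO p))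
    (hE : E * E = E) (hEs : E ∈ Submodule.span (OO p) (Set.range R))
    (w : Fin n → kk p) (hw : (toK E).mulVec w = w)
    (hgen : Submodule.span (kk p) (Set.range fun g : K => (toK (R g)).mulVec w) = ⊤)
    (A : Matrix (Fin n) (Fin n) (kk p)) (hA : ∀ g, A * toK (R g) = toK (R g) * A)
    (hnil : ¬ IsNilpotent A) (hunit : ¬ IsUnit A) :
    ∃ ε : Matrix (Fin n) (Fin n) (OO p), ε ∈ Submodule.span (OO p) (Set.range R) ∧
      ε * ε = ε ∧ E * ε = ε ∧ ε * E = ε ∧ toK ε ≠ 0 ∧ toK (E - ε) ≠ 0 := by
  classical
  obtain ⟨q, hq1, hq2, hq3⟩ := exists_proj A hnil hunit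
  set P := Polynomial.aeval A q with hPdef
  have hPR : ∀ g, P * toK (R g) = toK (R g) * P := fun g => aeval_comm (hA g) q
  -- a matrix commuting with all `R g` and killing `w` is zero
  have hkill : ∀ B : Matrix (Fin n) (Fin n) (kk p), (∀ g, B * toK (R g) = toK (R g) * B) →
      B.mulVec w = 0 → B = 0 := by
    intro B hB hBw
    have h1 : ∀ x : Fin n → kk p, B.mulVec x = 0 := by
      intro x
      have hx : x ∈ Submodule.span (kk p) (Set.range fun g : K => (toK (R g)).mulVec w) := by
        rw [hgen]; trivial
      induction hx using Submodule.span_induction with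
      | mem x h =>
        obtain ⟨g, rfl⟩ := h
        simp only
        rw [Matrix.mulVec_mulVec, hB g, ← Matrix.mulVec_mulVec, hBw, Matrix.mulVec_zero]
      | zero => exact Matrix.mulVec_zero _
      | add x y _ _ hx hy => rw [Matrix.mulVec_add, hx, hy, add_zero]
      | smul c x _ hx => rw [Matrix.mulVec_smul, hx, smul_zero]
    ext i j
    have h2 := congrFun (h1 (Pi.single j 1)) i
    simpa using h2
  set a := P.mulVec w with ha
  set b := w - a with hb
  have ha0 : a ≠ 0 := fun h => hq2 (hkill P hPR h)
  have hb0 : b ≠ 0 := by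
    intro h
    apply hq3
    have h1 : (1 - P).mulVec w = 0 := by
      rw [Matrix.sub_mulVec, Matrix.one_mulVec]; exact h
    have h2 : 1 - P = 0 := hkill (1 - P)
      (fun g => by rw [sub_mul, mul_sub, one_mul, mul_one, hPR g]) h1
    exact (sub_eq_zero.1 h2).symm
  have hPE : P * toK E = toK E * P := span_comm R hEs P hPR
  have hEa : (toK E).mulVec a = a := by
    rw [ha, Matrix.mulVec_mulVec, ← hPE, ← Matrix.mulVec_mulVec, hw]
  have hEb : (toK E).mulVec b = b := by
    rw [hb, Matrix.mulVec_sub, hw, hEa]
  have hPa : P.mulVec a = a := by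
    rw [ha, Matrix.mulVec_mulVec, hq1]
  -- `a` as a combination
  have : Fintype K := Fintype.ofFinite K
  obtain ⟨d, hd⟩ : ∃ d : K → kk p, ∑ g, d g • (toK (R g)).mulVec w = a := by
    have h1 : a ∈ Submodule.span (kk p) (Set.range fun g : K => (toK (R g)).mulVec w) := by
      rw [hgen]; trivial
    exact (Submodule.mem_span_range_iff_exists_fun (kk p)).1 h1
  choose δ hδ using fun g => IsLocalRing.residue_surjective (R := OO p) (d g)
  set D : Matrix (Fin n) (Fin n) (OO p) := ∑ g, δ g • R g with hD
  have hDs : D ∈ Submodule.span (OO p) (Set.range R) :=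
    Submodule.sum_mem _ (fun g _ => Submodule.smul_mem _ _ (Submodule.subset_span ⟨g, rfl⟩))
  have hDw : (toK D).mulVec w = a := by
    rw [hD, toK_sum, Matrix.sum_mulVec, ← hd]
    apply Finset.sum_congr rfl
    intro g _
    rw [toK_smul, hδ, Matrix.smul_mulVec]
  set α := E * D * E with hα
  have hαs : α ∈ Submodule.span (OO p) (Set.range R) := span_mul R (span_mul R hEs hDs) hEs
  have hEα : E * α = α * E := by
    rw [hα, ← mul_assoc, ← mul_assoc, hE, mul_assoc (E * D) E E, hE]
  have hαw : (toK α).mulVec w = a := by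
    rw [hα, toK_mul, toK_mul, ← Matrix.mulVec_mulVec, hw, ← Matrix.mulVec_mulVec, hDw, hEa]
  have hPα : P * toK α = toK α * P := span_comm R hαs P hPR
  have hαa : (toK α).mulVec a = (1 : kk p) • a := by
    rw [one_smul]
    nth_rewrite 1 [ha]
    rw [Matrix.mulVec_mulVec, ← hPα, ← Matrix.mulVec_mulVec, hαw, hPa]
  have hαb : (toK α).mulVec b = (0 : kk p) • b := by
    rw [zero_smul, hb, Matrix.mulVec_sub, hαw, hαa, one_smul, sub_self]
  -- the characteristic polynomial
  set f := α.charpoly with hf
  have hfm : f.Monic := Matrix.charpoly_monic α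
  have hf0 : Polynomial.aeval α f = 0 := Matrix.aeval_self_charpoly α
  have hf0' : Polynomial.aeval (toK α) (f.map (IsLocalRing.residue (OO p))) = 0 := by
    rw [← toK_aeval, hf0]
    exact map_zero ((IsLocalRing.residue (OO p)).mapMatrix)
  have hf1 : (f.map (IsLocalRing.residue (OO p))).eval 1 = 0 := by
    have h1 := aeval_mulVec (toK α) a 1 hαa (f.map (IsLocalRing.residue (OO p)))
    rw [hf0', Matrix.zero_mulVec] at h1
    rcases smul_eq_zero.1 h1.symm with h2 | h2
    · exact h2
    · exact absurd h2 ha0
  have hf2 : (f.map (IsLocalRing.residue (OO p))).eval 0 = 0 := by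
    have h1 := aeval_mulVec (toK α) b 0 hαb (f.map (IsLocalRing.residue (OO p)))
    rw [hf0', Matrix.zero_mulVec] at h1
    rcases smul_eq_zero.1 h1.symm with h2 | h2
    · exact h2
    · exact absurd h2 hb0
  obtain ⟨h, hdvd, hh1, hh0⟩ := exists_idem_poly f hfm
  set H := Polynomial.aeval α h with hH
  have hHH : H * H = H := by
    obtain ⟨c, hc⟩ := hdvd
    have h1 : Polynomial.aeval α (h ^ 2 - h) = 0 := by
      rw [hc, map_mul, hf0, zero_mul]
    rw [map_sub, map_pow, sub_eq_zero, pow_two] at h1
    exact h1
  have hEH : H * E = E * H := aeval_comm hEα.symm h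
  have hHa : (toK H).mulVec a = a := by
    rw [hH, toK_aeval, aeval_mulVec (toK α) a 1 hαa, hh1 hf1, one_smul]
  have hHb : (toK H).mulVec b = 0 := by
    rw [hH, toK_aeval, aeval_mulVec (toK α) b 0 hαb, hh0 hf2, zero_smul]
  refine ⟨E * H, span_mul R hEs (span_aeval R hαs h), ?_, ?_, ?_, ?_, ?_⟩
  · rw [mul_assoc, ← mul_assoc H E H, hEH, mul_assoc E H H, hHH, ← mul_assoc, hE]
  · rw [← mul_assoc, hE]
  · rw [mul_assoc, hEH, ← mul_assoc, hE]
  · intro h0
    apply ha0
    have h1 : (toK (E * H)).mulVec a = a := by
      rw [toK_mul, ← Matrix.mulVec_mulVec, hHa, hEa]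
    rw [h0, Matrix.zero_mulVec] at h1
    exact h1.symm
  · intro h0
    apply hb0
    have h1 : (toK (E - E * H)).mulVec b = b := by
      rw [toK_sub, Matrix.sub_mulVec, hEb, toK_mul, ← Matrix.mulVec_mulVec, hHb,
        Matrix.mulVec_zero, sub_zero]
    rw [h0, Matrix.zero_mulVec] at h1
    exact h1.symm

end Pool.Agent.Helper42.IR
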