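import Pool.Agent.Helper42.IR.Defs

/-!
# Project IR: the top level statements (interfaces only; do not import this file in proofs)
-/

namespace Pool.Agent.Helper42.IR.Top

open Pool.Agent.Helper42.INC Pool.Agent.Helper42.IR

/-- T1 (section 1) -/
theorem kernel_clifford {G : Type} [Group G] [Finite G] {p : ℕ} [Fact p.Prime] (K N : Subgroup G)
    [K.Normal] (hKN : K ⊔ N = ⊤) {A S : Set (G → ℂ)} {F : (G → ℂ) → (G → ℂ)}
    (h : Corr p K N A S F)
    (hA : ∀ θ ∈ IrrS K, ¬ p ∣ deg θ → ¬ p ∣ (stab θ).index → θ ∈ A)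
    (hS : ∀ φ ∈ IrrS (K ⊓ N), ¬ p ∣ deg φ → ¬ p ∣ (stab φ).relIndex N → φ ∈ S)
    (s : ZMod p) (hs : s ≠ 0) : cnt p G s = cnt p N s := by
  sorry

/-- Theorem II (sections 3 to 5) -/
theorem theoremII {G : Type} [Group G] [Finite G] {p : ℕ} [Fact p.Prime] (K : Subgroup G)
    [K.Normal] (hperf : ⁅K, K⁆ = K) (hp : p ∣ Nat.card K) (hpp : ¬ p ^ 2 ∣ Nat.card K)
    (hz : ¬ p ∣ Nat.card (Subgroup.center K)) (Q : Subgroup G) (hQK : Q ≤ K)
    (hQ : Nat.card Q = p) :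
    ∃ F, GCorr p K (Subgroup.normalizer (Q : Set G)) F := by
  sorry

/-- Products (section 6): `K` is generated by a set `I` of pairwise commuting subgroups permuted
transitively by `G`; each has a correspondence in its normalizer -/
theorem products {G : Type} [Group G] [Finite G] {p : ℕ} [Fact p.Prime] (K : Subgroup G)
    [K.Normal] (I : Set (Subgroup G)) (hne : I.Nonempty) (hK : K = sSup I)
    (hI : ∀ S ∈ I, ∀ g : G, S.map (MulAut.conj g).toMonoidHom ∈ I)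
    (htr : ∀ S ∈ I, ∀ S' ∈ I, ∃ g : G, S.map (MulAut.conj g).toMonoidHom = S')
    (hcomm : ∀ S ∈ I, ∀ S' ∈ I, S ≠ S' → ⁅S, S'⁆ = ⊥)
    (hz : ¬ p ∣ Nat.card (Subgroup.center K))
    (Q : Subgroup G) (hQK : Q ≤ K) (hQ : IsPGroup p Q) (hQi : ¬ p ∣ Q.relIndex K)
    (hgood : ∀ S ∈ I, ∃ N : Subgroup (Subgroup.normalizer (S : Set G)),
      Subgroup.normalizer (((Q ⊓ S).subgroupOf (Subgroup.normalizer (S : Set G)) :
        Subgroup (Subgroup.normalizer (S : Set G))) : Set (Subgroup.normalizer (S : Set G))) ≤ N ∧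
      ¬ (S.subgroupOf (Subgroup.normalizer (S : Set G))) ≤ N ∧
      ∃ F, GCorr p (S.subgroupOf (Subgroup.normalizer (S : Set G))) N F) :
    ∃ N : Subgroup G, Subgroup.normalizer (Q : Set G) ≤ N ∧ ¬ K ≤ N ∧ ∃ F, GCorr p K N F := by
  sorry

/-- Case A (section 8) -/
theorem caseA {G : Type} [Group G] [Finite G] {p : ℕ} [Fact p.Prime] (M E : Subgroup G)
    [M.Normal] (hM : ¬ p ∣ Nat.card M) (hE : ∀ x ∈ E, x ^ p = 1) (hab : ∀ x ∈ E, ∀ y ∈ E, x * y = y * x)
    (hG : M ⊔ Subgroup.normalizer (E : Set G) = ⊤) (s : ZMod p) (hs : s ≠ 0) :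
    cnt p G s = cnt p (Subgroup.normalizer (E : Set G)) s := by
  sorry

/-- the final theorem -/
theorem final {p : ℕ} [Fact p.Prime] (G : Type) [Group G] [Finite G]
    (h : ∀ (S : Type) [Group S], IsSimpleGroup S → (¬ ∀ a b : S, a * b = b * a) → Involved S G →
      p ^ 2 ∣ Nat.card S → PGood p S) : McKayCongr p G := by
  sorry

end Pool.Agent.Helper42.IR.Top
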