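import Pool.Agent.Helper42.IR.Typ

/-! Interface of section 4 (statement only; the proof is project Helper97). -/

namespace Pool.Agent.Helper42.IR.Top

open Pool.Agent.Helper42.INC Pool.Agent.Helper42.IR

/-- Section 4: the equivariant bijection -/
theorem section4 {G : Type} [Group G] [Finite G] {p : ℕ} [Fact p.Prime] (hp2 : p ≠ 2)
    (K Q H : Subgroup G) [K.Normal] (hL : Loc p K Q H)
    (hP : ∀ K' Q' H' : Subgroup G, Loc p K' Q' H' → Pkg p K' Q' H') :
    ∃ F, Sec4 p K Q H F := by
  sorry

end Pool.Agent.Helper42.IR.Top
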