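import Pool.Agent.Helper42.IR.KeyApp
import Pool.Agent.Helper42.IR.BSepB
import Pool.Agent.Helper42.IR.Param

/-!
# IR-36 (project IR, section 3.6): traces of polynomials in `R y`, and the trace formula

* `trace_RxE`: `R x * Eph R H φ = (deg φ/|H|) ∑_h φ(h⁻¹) R(x h)` has trace
  `(deg φ/|H|) ∑_h φ(h⁻¹) χ(x h)`; and `∑_{mu ∈ IrrS Q} cm mu * mu x = (1/|H|) ∑_h χ(x h) φ(h⁻¹)` by
  `∑_mu mu(x) mu(x'⁻¹) = p δ_{x,x'}` (the `p` irreducible characters of `Q` are linear,
  `deg_irrS_Q`).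
* `trace_poly`: for `P = X ^ a`: `R y ^ a = R (y ^ a)` and `f i (y ^ a) = z ^ (i.val a)`; both sides are
  linear in `P`.
* `trace_formula`: `keyO` for `f`: `f = c E - trQ b`, `c n = |K : T| tr f`. So
  `tr (f f') = c tr f' - tr (trQ (b f')) = c tr f' - p tr (b f')` (`E f' = f'`, `trQ_mul`, `trace_trQ`), and
  `n tr (f f') = |K : T| tr f tr f' + p (..)`. For `f = f' = E`: `n tr E = |K : T| (tr E)² + p (..)`.
  `tr E = φ(1) m_φ` (`trace_Eph`) is a unit of `OO p` (`not_dvd_deg`, `ndvd_of_bl`), so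
  `n = |K : T| tr E + p (..)`. Multiply the first formula by `tr E`:
  `n tr E tr (f f') = |K : T| tr E tr f tr f' + p (..) = n tr f tr f' + p (..)`; cancel the unit `n`.
-/

namespace Pool.Agent.Helper42.IR

open Pool.Agent.Helper42.INC

variable {p : ℕ} [Fact p.Prime] {K : Type} [Group K] [Finite K] {n : ℕ}
  (R : K →* Matrix (Fin n) (Fin n) (OO p)) {Q H : Subgroup K} (hL : Loc p (⊤ : Subgroup K) Q H)
include hL

theorem trace_RxE {φ : K → ℂ} (hφ : φ ∈ IrrS H) {x : K} (hx : x ∈ Q) :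
    (((R x * Eph R H φ).trace : OO p) : ℂ) =
      (deg φ : ℂ) * ∑ᶠ mu : IrrS Q, cm Q H (chR R) mu.1 φ * mu.1 x := by
  classical
  letI : Fintype Q := Fintype.ofFinite Q
  letI : Fintype H := Fintype.ofFinite H
  letI : Fintype (Irr Q) := Fintype.ofFinite _
  have hfin : Finite (IrrS Q) := Finite.of_equiv _ (cmx_equiv Q).symm
  letI : Fintype (IrrS Q) := Fintype.ofFinite _
  have hQ := hL.cQ
  have hcyc : IsCyclic Q := isCyclic_of_prime_card hQ
  have hcommQ : ∀ a b : Q, a * b = b * a := by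
    obtain ⟨g, hg⟩ := hcyc.exists_generator
    intro a b
    obtain ⟨k, rfl⟩ := Subgroup.mem_zpowers_iff.1 (hg a)
    obtain ⟨l, rfl⟩ := Subgroup.mem_zpowers_iff.1 (hg b)
    rw [← zpow_add, ← zpow_add, add_comm]
  have hQ0 : (Nat.card Q : ℂ) ≠ 0 := by exact_mod_cast Nat.card_pos.ne'
  have hleft : (((R x * Eph R H φ).trace : OO p) : ℂ) =
      (deg φ : ℂ) * ((Nat.card H : ℂ)⁻¹ * ∑ h : H, chR R (x * (h : K)) * φ (h : K)⁻¹) := by
    rw [← trace_toC, toC_mul, toC_Eph R H hL.pH hφ, finsum_eq_sum_of_fintype, Matrix.mul_smul,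
      Matrix.trace_smul, smul_eq_mul, mul_assoc, Finset.mul_sum, Matrix.trace_sum]
    congr 2
    refine Finset.sum_congr rfl fun h _ => ?_
    rw [Matrix.mul_smul, ← toC_mul, ← map_mul, Matrix.trace_smul, trace_toC, smul_eq_mul, mul_comm]
    rfl
  rw [hleft]
  congr 1
  have hval : ∀ (l : Irr Q) (a : Q), ((cmx_equiv Q).symm l).1 (a : K) = l.1 a := by
    intro l a
    have h1 := cmx_equiv_apply Q ((cmx_equiv Q).symm l) a
    rw [Equiv.apply_symm_apply] at h1
    exact h1.symm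
  have hsum : ∀ x' : Q, ∑ mu : IrrS Q, mu.1 (x' : K)⁻¹ * mu.1 x =
      if x' = ⟨x, hx⟩ then (Nat.card Q : ℂ) else 0 := by
    intro x'
    rw [← (cmx_equiv Q).symm.sum_comp]
    have h1 : ∀ l : Irr Q, ((cmx_equiv Q).symm l).1 (x' : K)⁻¹ * ((cmx_equiv Q).symm l).1 x =
        l.1 (x'⁻¹ * ⟨x, hx⟩) := by
      intro l
      have h2 := hval l x'⁻¹
      have h3 := hval l ⟨x, hx⟩
      have h4 : ((x'⁻¹ : Q) : K) = (x' : K)⁻¹ := rfl
      rw [h4] at h2
      rw [h2, (cmx_comm_lin hcommQ l.2).2]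
      congr 1
    rw [Finset.sum_congr rfl fun l _ => h1 l, cmx_sum_irr hcommQ]
    by_cases h : x' = ⟨x, hx⟩
    · rw [if_pos h, if_pos (by rw [h, inv_mul_cancel])]
    · rw [if_neg h, if_neg (fun h5 => h (inv_mul_eq_one.1 h5))]
  rw [finsum_eq_sum_of_fintype]
  unfold cm
  simp only [finsum_eq_sum_of_fintype]
  have h6 : ∀ mu : IrrS Q, ((Nat.card Q : ℂ) * (Nat.card H : ℂ))⁻¹ *
      (∑ x' : Q, ∑ h : H, chR R ((x' : K) * (h : K)) * mu.1 (x' : K)⁻¹ * φ (h : K)⁻¹) * mu.1 x =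
      ((Nat.card Q : ℂ) * (Nat.card H : ℂ))⁻¹ *
      ∑ x' : Q, (∑ h : H, chR R ((x' : K) * (h : K)) * φ (h : K)⁻¹) *
        (mu.1 (x' : K)⁻¹ * mu.1 x) := by
    intro mu
    rw [mul_assoc, Finset.sum_mul]
    congr 1
    refine Finset.sum_congr rfl fun x' _ => ?_
    rw [Finset.sum_mul, Finset.sum_mul]
    exact Finset.sum_congr rfl fun h _ => by ring
  rw [Finset.sum_congr rfl fun mu _ => h6 mu, ← Finset.mul_sum, Finset.sum_comm]
  have h7 : ∀ x' : Q, ∑ mu : IrrS Q, (∑ h : H, chR R ((x' : K) * (h : K)) * φ (h : K)⁻¹) *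
      (mu.1 (x' : K)⁻¹ * mu.1 x) = if x' = ⟨x, hx⟩ then
        (∑ h : H, chR R (x * (h : K)) * φ (h : K)⁻¹) * (Nat.card Q : ℂ) else 0 := by
    intro x'
    rw [← Finset.mul_sum, hsum x']
    by_cases h : x' = ⟨x, hx⟩
    · rw [if_pos h, if_pos h, h]
    · rw [if_neg h, if_neg h, mul_zero]
  rw [Finset.sum_congr rfl fun x' _ => h7 x', Finset.sum_ite_eq' Finset.univ, if_pos (Finset.mem_univ _)]
  field_simp

theorem trace_poly {φ : K → ℂ} (hφ : φ ∈ IrrS H) {y : K} (hy : y ∈ Q) {z : OO p}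
    (f : ZMod p ≃ IrrS Q)
    (hf : ∀ (i : ZMod p) (a : ℕ), (f i).1 (y ^ a) = (z : ℂ) ^ (i.val * a))
    (c : ZMod p → ℕ) (hc : ∀ i, cm Q H (chR R) (f i).1 φ = c i) (P : Polynomial (OO p)) :
    (Polynomial.aeval (R y) P * Eph R H φ).trace =
      (deg φ : OO p) * ∑ i, (c i : OO p) * P.eval (z ^ i.val) := by
  classical
  have hfin : Finite (IrrS Q) := Finite.of_equiv _ (cmx_equiv Q).symm
  letI : Fintype (IrrS Q) := Fintype.ofFinite _
  induction P using Polynomial.induction_on' with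
  | add P P' h h' =>
    rw [map_add, Matrix.add_mul, Matrix.trace_add, h, h', ← mul_add, ← Finset.sum_add_distrib]
    congr 1
    refine Finset.sum_congr rfl fun i _ => ?_
    rw [Polynomial.eval_add]
    ring
  | monomial a w =>
    have h1 : Polynomial.aeval (R y) (Polynomial.monomial a w) = w • R (y ^ a) := by
      rw [Polynomial.aeval_monomial, map_pow, Algebra.smul_def]
    have h2 := trace_RxE R hL hφ (Q.pow_mem hy a)
    rw [finsum_eq_sum_of_fintype, ← f.sum_comp] at h2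
    have h3 : (R (y ^ a) * Eph R H φ).trace =
        (deg φ : OO p) * ∑ i, (c i : OO p) * (z ^ i.val) ^ a := by
      apply Subtype.coe_injective
      change (((R (y ^ a) * Eph R H φ).trace : OO p) : ℂ) = _
      rw [h2]
      push_cast
      congr 1
      refine Finset.sum_congr rfl fun i _ => ?_
      rw [hc i, hf i a, pow_mul]
    rw [h1, Matrix.smul_mul, Matrix.trace_smul, h3, smul_eq_mul, mul_left_comm, Finset.mul_sum]
    congr 1
    refine Finset.sum_congr rfl fun i _ => ?_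
    rw [Polynomial.eval_monomial]
    ring

theorem trace_formula (hR : SchurR R) (hn : ¬ p ∣ n) {φ : K → ℂ} (hφ : φ ∈ IrrS H)
    (hB : Bl Q H (chR R) φ) (f f' : Matrix (Fin n) (Fin n) (OO p))
    (h1 : Eph R H φ * f = f) (h2 : f * Eph R H φ = f)
    (h3 : ∀ t ∈ Subgroup.normalizer (Q : Set K) ⊓ stab φ, R t * f = f * R t)
    (h1' : Eph R H φ * f' = f') (h2' : f' * Eph R H φ = f')
    (h3' : ∀ t ∈ Subgroup.normalizer (Q : Set K) ⊓ stab φ, R t * f' = f' * R t) :
    ∃ w : OO p, (Eph R H φ).trace * (f * f').trace = f.trace * f'.trace + (p : OO p) * w := by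
  have hH : ¬ p ∣ Nat.card H := hL.pH
  have hQT : ∀ y ∈ Q, y ∈ Subgroup.normalizer (Q : Set K) ⊓ stab φ := by
    intro y hy
    refine ⟨Subgroup.le_normalizer hy, ?_⟩
    change cnj y φ = φ
    funext x
    rw [cnj_apply]
    by_cases hx : x ∈ H
    · congr 1
      have h4 := hL.comm y hy x hx
      rw [mul_assoc, ← h4]
      group
    · have h5 : y⁻¹ * x * y ∉ H := by
        intro h6
        have h7 := hL.comm y hy _ h6
        have h8 : x = y⁻¹ * x * y := by
          have h9 : y * (y⁻¹ * x * y) = x * y := by group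
          rw [h9] at h7
          exact mul_right_cancel h7
        rw [← h8] at h6
        exact hx h6
      rw [hφ.2 _ hx, hφ.2 _ h5]
  have hET : ∀ t ∈ Subgroup.normalizer (Q : Set K) ⊓ stab φ,
      R t * Eph R H φ = Eph R H φ * R t := by
    intro t ht
    have h4 : t ∈ Subgroup.normalizer (H : Set K) := by
      refine Loc.norm_H hL ?_ ht.1
      rw [Subgroup.mem_normalizer_iff]
      intro h
      simp
    exact Eph_comm R H hH hφ h4 (mem_stab.1 ht.2)
  have hEE := Eph_mul_self R H hH hφ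
  obtain ⟨c, b, hb1, hb2, hfb, hc⟩ := keyO R hL hR hφ f h1 h2 h3
  obtain ⟨cE, bE, hbE1, hbE2, hfbE, hcE⟩ := keyO R hL hR hφ (Eph R H φ) hEE hEE hET
  obtain ⟨m, hm⟩ := ip_nat R hφ
  have hmp := ndvd_of_bl R hL hR hn hφ hm hB
  have htr : (Eph R H φ).trace = ((deg φ : ℕ) : OO p) * (m : OO p) := by
    have h0 : (((Eph R H φ).trace : OO p) : ℂ) = ((((deg φ : ℕ) : OO p) * (m : OO p) : OO p) : ℂ) := by
      rw [trace_Eph R H hH hφ, hm]
      push_cast
      rfl
    exact Subtype.coe_injective h0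
  have hu : IsUnit (Eph R H φ).trace := by
    rw [htr]
    exact (isUnit_nat (not_dvd_deg hH hφ)).mul (isUnit_nat hmp)
  obtain ⟨t', ht'⟩ := hu.exists_right_inv
  obtain ⟨n', hn'⟩ := (isUnit_nat (p := p) hn).exists_right_inv
  set idx : OO p := ((Subgroup.normalizer (Q : Set K) ⊓ stab φ).index : OO p) with hidx
  have hX : (f * f').trace = c * f'.trace - (p : OO p) * (b * f').trace := by
    nth_rewrite 1 [hfb]
    rw [Matrix.sub_mul, Matrix.smul_mul, h1', trQ_mul R Q b f' (fun y hy => h3' y (hQT y hy)),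
      Matrix.trace_sub, Matrix.trace_smul, trace_trQ, smul_eq_mul, hL.cQ]
  have hE : (Eph R H φ).trace = cE * (Eph R H φ).trace - (p : OO p) * bE.trace := by
    nth_rewrite 1 [hfbE]
    rw [Matrix.trace_sub, Matrix.trace_smul, trace_trQ, smul_eq_mul, hL.cQ]
  set E := (Eph R H φ).trace with hEdef
  set F := f.trace with hF
  set F' := f'.trace with hF'
  set X := (f * f').trace with hXd
  set b1 := (b * f').trace with hb1d
  set b2 := bE.trace with hb2d
  refine ⟨b2 * t' * F * F' - E * b1, ?_⟩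
  have hcE' : cE = 1 + (p : OO p) * b2 * t' := by
    have h10 : cE = cE * (E * t') := by rw [ht', mul_one]
    have h11 : cE * E = E + (p : OO p) * b2 := by linear_combination -hE
    rw [h10, ← mul_assoc, h11]
    linear_combination ht'
  have hnEX : (n : OO p) * (E * X) = (n : OO p) * (cE * F * F' - (p : OO p) * E * b1) := by
    rw [hX]
    linear_combination E * F' * hc - F * F' * hcE
  have hEX : E * X = cE * F * F' - (p : OO p) * E * b1 := by
    have h12 : E * X = n' * ((n : OO p) * (E * X)) := by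
      linear_combination -(E * X) * hn'
    rw [h12, hnEX]
    linear_combination (cE * F * F' - (p : OO p) * E * b1) * hn'
  rw [hEX, hcE']
  ring

end Pool.Agent.Helper42.IR
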